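import Pool.Agent.SH.S.Deg

/-!
Block III-S, statements A: Eilenberg-Zilber, normalisation, double complex bound, Kuenneth,
homotopy invariance.
-/

namespace Pool.Agent.SHS

/-- The Alexander-Whitney map commutes with the differentials. -/
def AWC_Stmt : Prop := ∀ (M : BCM) (n : ℕ) (x : ∀ p q, M.X p q), x ∈ M.dc.Tot n →
  M.AW (n + 1) (M.dc.D x) = M.diag.delta n (M.AW n x)

/-- Eilenberg-Zilber for bicosimplicial vector spaces: the Alexander-Whitney map from the total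
complex to the complex of the diagonal is a quasi-isomorphism. -/
def EZ_Stmt : Prop := ∀ (M : BCM) (n : ℕ),
  (∀ z : M.X n n, M.diag.delta n z = 0 → ∃ x ∈ M.dc.ZT n, z - M.AW n x ∈ M.diag.cc.B n) ∧
  (∀ x ∈ M.dc.ZT n, M.AW n x ∈ M.diag.cc.B n → x ∈ M.dc.BT n)

/-- Normalisation of cosimplicial vector spaces. -/
def NORM_Stmt : Prop := ∀ (M : CM) (m : ℕ) (x : M.X (m + 1)),
  (∀ i : Fin (m + 2), M.map (cod i) (M.delta (m + 1) x) = 0) →
  ∃ v : M.X m, ∀ i : Fin (m + 1), M.map (cod i) (x + M.delta m v) = 0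

/-- Bound for the total cohomology of a double complex by the second page. -/
def TB_Stmt : Prop := ∀ (D : DC) (n : ℕ) (N : ℕ → ℕ),
  (∀ q ≤ n, SpanLE (D.Z2 (n - q) q) (D.B2h (n - q) q ⊔ D.B2v (n - q) q) (N q)) →
  SpanLE (D.ZT n) (D.BT n) (∑ q ∈ Finset.range (n + 1), N q)

/-- Graded product of index sets. -/
def prodI (I J : ℕ → Type) (n : ℕ) : Type :=
  {t : (Σ p : ℕ, I p) × (Σ q : ℕ, J q) // t.1.1 + t.2.1 = n}

/-- Cross products of two graded families of cochains. -/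
def crossB (P Q : PS) {I J : ℕ → Type} (z : ∀ n, I n → P.X n → k) (w : ∀ n, J n → Q.X n → k)
    (n : ℕ) (t : prodI I J n) : (P.smash Q).X n → k :=
  PS.cross P Q t.1.1.1 t.1.2.1 n (z _ t.1.1.2) (w _ t.1.2.2)

/-- Kuenneth for pointed simplicial sets with finite levels, in terms of cocycles. -/
def KUNP_Stmt : Prop := ∀ (P Q : PS), P.LF → Q.LF → ∀ {I J : ℕ → Type}
  (z : ∀ n, I n → P.X n → k) (w : ∀ n, J n → Q.X n → k),
  P.cm.cc.IsBasis z → Q.cm.cc.IsBasis w → (P.smash Q).cm.cc.IsBasis (crossB P Q z w)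

/-- Kuenneth for cohomology rings. -/
def KUN_Stmt : Prop := ∀ (X Y : SS), X.LF → Y.LF → ∀ {I J : Type} (di : I → ℕ) (dj : J → ℕ)
  (b : I → H X) (c : J → H Y), HB X di b → HB Y dj c →
  HB (X.prod Y) (fun p : I × J => di p.1 + dj p.2)
    (fun p => H.map (SS.fst X Y) (b p.1) * H.map (SS.snd X Y) (c p.2))

/-- Homogeneous bases exist. -/
def HBE_Stmt : Prop := ∀ X : SS, ∃ (I : Type) (di : I → ℕ) (b : I → H X), HB X di b

/-- Homotopy invariance. -/
def HTY_Stmt : Prop := ∀ (X Y : SS) (f g : SS.Hom X Y), Nonempty (SS.Homotopy f g) →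
  ∀ a : H Y, H.map f a = H.map g a

end Pool.Agent.SHS
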