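import Pool.Agent.SH.S.StmtsB

/-!
Block III-S: small tools (proved): transport of homogeneous bases, reindexing of powers,
primitive classes.
-/

namespace Pool.Agent.SHS

open Coch

theorem HB.transport {X Y : SS} (φ : SS.Hom X Y) (ψ : SS.Hom Y X)
    (h1 : ∀ a : H Y, H.map ψ (H.map φ a) = a) (h2 : ∀ a : H X, H.map φ (H.map ψ a) = a)
    {I : Type} {di : I → ℕ} {b : I → H Y} (hb : HB Y di b) :
    HB X di (fun i => H.map φ (b i)) where
  mem i := H.map_mem φ (hb.mem i)
  indep := by
    have hinj : Function.Injective (H.map φ).toLinearMap := by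
      intro a a' h
      rw [← h1 a, ← h1 a']
      exact congrArg (H.map ψ) h
    exact hb.indep.map' (H.map φ).toLinearMap (LinearMap.ker_eq_bot.mpr hinj)
  span n := by
    intro a ha
    have h3 : H.map ψ a ∈ Submodule.span k (b '' {i | di i = n}) := hb.span n (H.map_mem ψ ha)
    have h4 := Submodule.mem_map_of_mem (f := (H.map φ).toLinearMap) h3
    rw [Submodule.map_span, ← Set.image_comp] at h4
    have h5 : (H.map φ).toLinearMap (H.map ψ a) = a := h2 a
    rw [h5] at h4
    exact h4

theorem HB.iso {X Y : SS} (φ : SS.Hom X Y) (ψ : SS.Hom Y X)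
    (h1 : ∀ n x, ψ.f n (φ.f n x) = x) (h2 : ∀ n y, φ.f n (ψ.f n y) = y)
    {I : Type} {di : I → ℕ} {b : I → H Y} (hb : HB Y di b) :
    HB X di (fun i => H.map φ (b i)) := by
  apply hb.transport φ ψ
  · intro a
    rw [← H.map_comp]
    have : φ.comp ψ = SS.Hom.id Y := by
      unfold SS.Hom.comp SS.Hom.id
      congr 1
      funext n y
      exact h2 n y
    rw [this, H.map_id]
  · intro a
    rw [← H.map_comp]
    have : ψ.comp φ = SS.Hom.id X := by
      unfold SS.Hom.comp SS.Hom.id
      congr 1
      funext n x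
      exact h1 n x
    rw [this, H.map_id]

theorem SS.Hom.ext' {X Y : SS} {f g : SS.Hom X Y} (h : ∀ n x, f.f n x = g.f n x) : f = g := by
  cases f; cases g
  congr
  funext n x
  exact h n x

/-- Reindexing of powers. -/
def SS.reidx (X : SS) {n d : ℕ} (c : Fin n → Fin d) : SS.Hom (X.pow d) (X.pow n) :=
  ⟨fun _ x i => x (c i), fun _ _ => rfl⟩

theorem evB_reidx {n d : ℕ} (c : Fin n → Fin d) (p : MvPolynomial (Fin n) k) :
    H.map (BB.reidx c) (evB n p) = evB d (MvPolynomial.rename c p) := by
  have h : (H.map (BB.reidx c)).comp (evB n) = (evB d).comp (MvPolynomial.rename c) := by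
    apply MvPolynomial.algHom_ext
    intro i
    rw [AlgHom.comp_apply, AlgHom.comp_apply, MvPolynomial.rename_X]
    unfold evB
    rw [MvPolynomial.aeval_X, MvPolynomial.aeval_X, ← H.map_comp]
    rfl
  exact DFunLike.congr_fun h p

theorem evB_mem (d n : ℕ) (p : MvPolynomial (Fin d) k) (hp : p.IsHomogeneous n) :
    evB d p ∈ Hn (BB.pow d) n := by
  rw [p.as_sum, map_sum]
  apply Submodule.sum_mem
  intro e he
  have he' : e.degree = n := by
    have := hp (MvPolynomial.mem_support_iff.mp he)
    rw [Finsupp.degree_eq_weight_one]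
    exact this
  rw [MvPolynomial.monomial_eq, map_mul]
  unfold evB
  rw [MvPolynomial.aeval_C, ← Algebra.smul_def]
  apply Submodule.smul_mem
  rw [Finsupp.prod, map_prod]
  have h1 : ∀ i ∈ e.support, (MvPolynomial.aeval (R := k) fun i => H.map (BB.proj d i) uu)
      (MvPolynomial.X i ^ e i) ∈ Hn (BB.pow d) (e i * 1) := by
    intro i _
    rw [map_pow, MvPolynomial.aeval_X]
    exact Hn_pow (H.map_mem _ uu_mem) (e i)
  have h2 := Hn_prod e.support _ _ h1
  have h3 : ∑ i ∈ e.support, e i * 1 = n := by
    rw [← he', Finsupp.degree_apply]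
    exact Finset.sum_congr rfl fun i _ => mul_one _
  rw [h3] at h2
  exact h2

/-- natural additive operations preserve primitive classes -/
theorem Prim.op {V : SV} {μ : H V.toSS} (h : Prim μ) (T : NOp) : Prim (T.f V.toSS μ) := by
  unfold Prim at h ⊢
  rw [← T.nat, h, map_add, T.nat, T.nat]

theorem Prim.add {V : SV} {μ ν : H V.toSS} (h : Prim μ) (h' : Prim ν) : Prim (μ + ν) := by
  unfold Prim at h h' ⊢
  rw [map_add, map_add, map_add, h, h']
  abel

theorem Prim.sq {V : SV} {μ : H V.toSS} (h : Prim μ) : Prim (μ ^ 2) := by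
  rw [← Pop_one]
  exact h.op (Pop 1)

theorem IOP : IOP_Stmt := by
  intro n
  unfold Prim iota
  rw [H.map_cls, H.map_cls, H.map_cls, ← map_add]
  congr 1
  apply Subtype.ext
  ext m x
  show iotaC n m (x.1 + x.2) = iotaC n m x.1 + iotaC n m x.2
  unfold iotaC
  by_cases h : m = n
  · subst h
    rw [single_self, single_self, single_self]
    rfl
  · rw [single_ne h, single_ne h, single_ne h, add_zero]

theorem EMF : EMF_Stmt := by
  intro n q
  show Finite (EMsub n q)
  have h1 : Finite (Mor n q) := Finite.of_injective (fun f : Mor n q => (f : Fin (n+1) → Fin (q+1)))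
    (fun f g h => OrderHom.ext _ _ h)
  have h2 : Finite k := inferInstanceAs (Finite (ZMod 2))
  have h3 : Finite (Mor n q → k) := Pi.finite
  exact Subtype.finite

/-- The simplicial map to `EM n` given by a normalised cocycle. -/
def EMlift {X : SS} (n : ℕ) (f : X.X n → k)
    (hn' : ∀ (m : ℕ) (s : Mor n m), ¬ Function.Injective s → ∀ x : X.X m, f (X.map s x) = 0)
    (hc : X.cm.delta n f = 0) : SS.Hom X (EM n).toSS where
  f q x := ⟨fun s => f (X.map s x), fun s hs => hn' q s hs x, fun t => by
    have h := congrFun hc (X.map t x)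
    rw [CM.delta_apply, Finset.sum_apply] at h
    refine Eq.trans (Finset.sum_congr rfl ?_) h
    intro i _
    show f (X.map (t.comp (cof i)) x) = f (X.map (cof i) (X.map t x))
    rw [X.map_comp]⟩
  nat a x := by
    apply Subtype.ext
    funext s
    show f (X.map s (X.map a x)) = f (X.map (a.comp s) x)
    rw [X.map_comp]

end Pool.Agent.SHS
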