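import Pool.Agent.SH.S.StmtsA

/-!
Homotopy invariance of the cohomology ring (prism operator).
-/

namespace Pool.Agent.SHS

open Coch

namespace Hty

/-- Codegeneracy with a natural number as index. -/
def codN (i n : ℕ) : Mor (n + 1) n where
  toFun v := ⟨min (if v.1 ≤ i then v.1 else v.1 - 1) n, by omega⟩
  monotone' := by
    intro a b h
    have h' : a.1 ≤ b.1 := h
    show min (if a.1 ≤ i then a.1 else a.1 - 1) n ≤ min (if b.1 ≤ i then b.1 else b.1 - 1) n
    split_ifs <;> omega

/-- The simplex of Δ^1 with `i` vertices 0. -/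
def tN (i n : ℕ) : Mor n 1 where
  toFun v := ⟨if v.1 < i then 0 else 1, by split <;> omega⟩
  monotone' := by
    intro a b h
    have h' : a.1 ≤ b.1 := h
    show (if a.1 < i then 0 else 1) ≤ (if b.1 < i then 0 else 1)
    split_ifs <;> omega

theorem codN_val (i n : ℕ) (v : Fin (n + 2)) :
    ((codN i n) v : ℕ) = min (if v.1 ≤ i then v.1 else v.1 - 1) n := rfl

theorem tN_val (i n : ℕ) (v : Fin (n + 1)) : ((tN i n) v : ℕ) = if v.1 < i then 0 else 1 := rfl

theorem tN_zero (n : ℕ) : tN 0 n = cst 1 := by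
  apply mor_ext; intro v; rw [tN_val, if_neg (by omega)]; rfl

theorem tN_last (n : ℕ) : tN (n + 1) n = cst 0 := by
  apply mor_ext; intro v; have := v.2; rw [tN_val, if_pos (by omega)]; rfl

theorem t_cof_le {n i j : ℕ} (h : j ≤ i) :
    (tN (i + 1) (n + 1)).comp (cofN j n) = tN i n := by
  apply mor_ext; intro v
  rw [comp_val, tN_val, cofN_val, tN_val]
  split_ifs <;> omega

theorem t_cof_gt {n i j : ℕ} (h : i < j) :
    (tN (i + 1) (n + 1)).comp (cofN j n) = tN (i + 1) n := by
  apply mor_ext; intro v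
  rw [comp_val, tN_val, cofN_val, tN_val]
  split_ifs <;> omega

theorem cod_cof_self {n i : ℕ} : (codN i n).comp (cofN i n) = OrderHom.id := by
  apply mor_ext; intro v; have := v.2
  rw [comp_val, codN_val, cofN_val]
  show _ = v.1
  split_ifs <;> omega

theorem cod_cof_succ {n i : ℕ} : (codN i n).comp (cofN (i + 1) n) = OrderHom.id := by
  apply mor_ext; intro v; have := v.2
  rw [comp_val, codN_val, cofN_val]
  show _ = v.1
  split_ifs <;> omega

theorem cod_cof_le {m i j : ℕ} (h : j ≤ i) (hi : i ≤ m) :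
    (codN (i + 1) (m + 1)).comp (cofN j (m + 1)) = (cofN j m).comp (codN i m) := by
  apply mor_ext; intro v; have := v.2
  rw [comp_val, codN_val, cofN_val, comp_val, cofN_val, codN_val]
  split_ifs <;> omega

theorem cod_cof_gt {m i j : ℕ} (h : i < j) (hj : j ≤ m + 1) :
    (codN i (m + 1)).comp (cofN (j + 1) (m + 1)) = (cofN j m).comp (codN i m) := by
  apply mor_ext; intro v; have := v.2
  rw [comp_val, codN_val, cofN_val, comp_val, cofN_val, codN_val]
  split_ifs <;> omega

theorem sumlem (n : ℕ) (A B : ℕ → ℕ → k) (C : ℕ → k)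
    (h1 : ∀ i j, j ≤ i → i < n → A (i + 1) j = B i j)
    (h2 : ∀ i j, i < j → j ≤ n → A i (j + 1) = B i j)
    (h3 : ∀ i, i ≤ n → A i i = C i) (h4 : ∀ i, i ≤ n → A i (i + 1) = C (i + 1)) :
    ∑ i ∈ Finset.range (n + 1), ∑ j ∈ Finset.range (n + 2), A i j
      = C 0 + C (n + 1) + ∑ i ∈ Finset.range n, ∑ j ∈ Finset.range (n + 1), B i j := by
  have e0 : ∀ i ∈ Finset.range (n + 1), ∑ j ∈ Finset.range (n + 2), A i j
      = ∑ j ∈ Finset.range i, A i j + (C i + C (i + 1))
        + ∑ j ∈ Finset.Ico (i + 2) (n + 2), A i j := by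
    intro i hi
    rw [Finset.mem_range] at hi
    rw [← Finset.sum_range_add_sum_Ico (fun j => A i j) (show i + 2 ≤ n + 2 by omega),
      Finset.sum_range_succ, Finset.sum_range_succ, h3 i (by omega), h4 i (by omega)]
    ring
  rw [Finset.sum_congr rfl e0, Finset.sum_add_distrib, Finset.sum_add_distrib]
  have e1 : ∑ i ∈ Finset.range (n + 1), ∑ j ∈ Finset.range i, A i j
      = ∑ i ∈ Finset.range n, ∑ j ∈ Finset.range (i + 1), B i j := by
    rw [Finset.sum_range_succ']
    rw [Finset.sum_range_zero, add_zero]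
    apply Finset.sum_congr rfl
    intro i hi
    rw [Finset.mem_range] at hi
    apply Finset.sum_congr rfl
    intro j hj
    rw [Finset.mem_range] at hj
    exact h1 i j (by omega) hi
  have e2 : ∑ i ∈ Finset.range (n + 1), ∑ j ∈ Finset.Ico (i + 2) (n + 2), A i j
      = ∑ i ∈ Finset.range n, ∑ j ∈ Finset.Ico (i + 1) (n + 1), B i j := by
    rw [Finset.sum_range_succ, Finset.Ico_self, Finset.sum_empty, add_zero]
    apply Finset.sum_congr rfl
    intro i hi
    rw [Finset.mem_range] at hi
    rw [show i + 2 = (i + 1) + 1 by ring, show n + 2 = (n + 1) + 1 by ring,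
      ← Finset.sum_Ico_add' (fun j => A i j) (i + 1) (n + 1) 1]
    apply Finset.sum_congr rfl
    intro j hj
    rw [Finset.mem_Ico] at hj
    exact h2 i j (by omega) (by omega)
  have e3 : ∑ i ∈ Finset.range (n + 1), (C i + C (i + 1)) = C 0 + C (n + 1) := by
    clear e0 e1 e2 h1 h2 h3 h4
    induction n with
    | zero => simp
    | succ n ih =>
      rw [Finset.sum_range_succ, ih]
      have := k_two (C (n + 1))
      linear_combination this
  have e4 : ∑ i ∈ Finset.range n, ∑ j ∈ Finset.range (n + 1), B i j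
      = ∑ i ∈ Finset.range n, ∑ j ∈ Finset.range (i + 1), B i j
        + ∑ i ∈ Finset.range n, ∑ j ∈ Finset.Ico (i + 1) (n + 1), B i j := by
    rw [← Finset.sum_add_distrib]
    apply Finset.sum_congr rfl
    intro i hi
    rw [Finset.mem_range] at hi
    rw [Finset.sum_range_add_sum_Ico (fun j => B i j) (show i + 1 ≤ n + 1 by omega)]
  rw [e1, e2, e3, e4]
  ring

/-- The prism operator. -/
def prism {X Y : SS} {f g : SS.Hom X Y} (η : SS.Homotopy f g) (φ : Coch Y) : Coch X :=
  ⟨fun n x => ∑ i ∈ Finset.range (n + 1),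
    φ (n + 1) (η.h (n + 1) (tN (i + 1) (n + 1)) (X.map (codN i n) x))⟩

theorem prism_apply {X Y : SS} {f g : SS.Hom X Y} (η : SS.Homotopy f g) (φ : Coch Y) (n : ℕ)
    (x : X.X n) : prism η φ n x = ∑ i ∈ Finset.range (n + 1),
      φ (n + 1) (η.h (n + 1) (tN (i + 1) (n + 1)) (X.map (codN i n) x)) := rfl

theorem prism_dlt {X Y : SS} {f g : SS.Hom X Y} (η : SS.Homotopy f g) (φ : Coch Y) :
    prism η (dlt φ) = pull g φ + pull f φ + dlt (prism η φ) := by
  ext n x
  rw [prism_apply, cadd_apply, cadd_apply, pull_apply, pull_apply, ← η.zero, ← η.one]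
  simp only [dlt_succ', ← η.nat]
  let G : Mor n 1 → Mor n n → k := fun t a => φ n (η.h n t (X.map a x))
  let A : ℕ → ℕ → k := fun i j =>
    G ((tN (i + 1) (n + 1)).comp (cofN j n)) ((codN i n).comp (cofN j n))
  have eA : ∀ i j, φ n (η.h n ((tN (i + 1) (n + 1)).comp (cofN j n))
      (X.map (cofN j n) (X.map (codN i n) x))) = A i j := by
    intro i j
    show _ = φ n (η.h n _ (X.map ((codN i n).comp (cofN j n)) x))
    rw [X.map_comp]
  simp only [eA]
  have h3 : ∀ i, i ≤ n → A i i = G (tN i n) OrderHom.id := by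
    intro i _
    show G _ _ = _
    rw [t_cof_le le_rfl, cod_cof_self]
  have h4 : ∀ i, i ≤ n → A i (i + 1) = G (tN (i + 1) n) OrderHom.id := by
    intro i _
    show G _ _ = _
    rw [t_cof_gt (by omega), cod_cof_succ]
  have c0 : G (tN 0 n) OrderHom.id = φ n (η.h n (cst 1) x) := by
    show φ n (η.h n (tN 0 n) (X.map OrderHom.id x)) = _
    rw [tN_zero, X.map_id]
  have c1 : G (tN (n + 1) n) OrderHom.id = φ n (η.h n (cst 0) x) := by
    show φ n (η.h n (tN (n + 1) n) (X.map OrderHom.id x)) = _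
    rw [tN_last, X.map_id]
  cases n with
  | zero =>
    rw [sumlem 0 A (fun _ _ => 0) (fun i => G (tN i 0) OrderHom.id)
      (fun i j _ h => absurd h (by omega)) (fun i j h h' => absurd h (by omega)) h3 h4]
    rw [c0, c1, Finset.sum_range_zero]
    rfl
  | succ m =>
    rw [sumlem (m + 1) A (fun i j => G (tN (i + 1) (m + 1)) ((cofN j m).comp (codN i m)))
      (fun i => G (tN i (m + 1)) OrderHom.id) ?_ ?_ h3 h4]
    · rw [c0, c1]
      congr 1
      rw [dlt_succ', Finset.sum_comm]
      apply Finset.sum_congr rfl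
      intro j _
      rw [prism_apply]
      apply Finset.sum_congr rfl
      intro i _
      show φ (m + 1) (η.h (m + 1) _ (X.map ((cofN j m).comp (codN i m)) x)) = _
      rw [X.map_comp]
    · intro i j hj hi
      show G _ _ = G _ _
      rw [t_cof_le (by omega), cod_cof_le hj (by omega)]
    · intro i j hj hi
      show G _ _ = G _ _
      rw [t_cof_gt (by omega), cod_cof_gt hj hi]

theorem prism_zero {X Y : SS} {f g : SS.Hom X Y} (η : SS.Homotopy f g) :
    prism η (0 : Coch Y) = 0 := by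
  ext n x
  rw [prism_apply]
  exact Finset.sum_eq_zero fun i _ => rfl

end Hty

open Hty in
theorem HTY : HTY_Stmt := by
  rintro X Y f g ⟨η⟩ a
  obtain ⟨z, rfl⟩ := cls_surjective a
  rw [H.map_cls, H.map_cls, cls_eq]
  refine ⟨prism η z.1, ?_⟩
  show dlt (prism η z.1) = pull f z.1 - pull g z.1
  have h1 := prism_dlt η z.1
  rw [show dlt z.1 = 0 from z.2, prism_zero] at h1
  rw [mod_two_sub]
  apply mod_two_eq
  rw [h1]
  abel

end Pool.Agent.SHS
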