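import Pool.Agent.SH.S.StmtsA

/-!
Block III-S: normalisation of cosimplicial vector spaces.
-/

namespace Pool.Agent.SHS.Norm

/-- cofaces indexed by natural numbers -/
def cf (n i : ℕ) : Mor n (n + 1) where
  toFun x := ⟨if x.1 < i then x.1 else x.1 + 1, by split_ifs <;> omega⟩
  monotone' := by
    intro a b h
    have h' : a.1 ≤ b.1 := h
    show (if a.1 < i then a.1 else a.1 + 1) ≤ (if b.1 < i then b.1 else b.1 + 1)
    split_ifs <;> omega

/-- codegeneracies indexed by natural numbers -/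
def cd (n j : ℕ) : Mor (n + 1) n where
  toFun x := ⟨if x.1 ≤ j then min x.1 n else x.1 - 1, by split_ifs <;> omega⟩
  monotone' := by
    intro a b h
    have h' : a.1 ≤ b.1 := h
    show (if a.1 ≤ j then min a.1 n else a.1 - 1) ≤ (if b.1 ≤ j then min b.1 n else b.1 - 1)
    have := b.2
    split_ifs <;> omega

theorem mext {a b : ℕ} {f g : Mor a b} (h : ∀ x, (f x).1 = (g x).1) : f = g :=
  OrderHom.ext _ _ (funext fun x => Fin.ext (h x))

theorem cof_eq {n : ℕ} (i : Fin (n + 2)) : cof i = cf n i.1 := by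
  apply mext
  intro x
  show (i.succAbove x).1 = if x.1 < i.1 then x.1 else x.1 + 1
  rw [Fin.succAbove]
  simp only [Fin.lt_def, Fin.val_castSucc]
  split_ifs <;> rfl

theorem cod_eq {n : ℕ} (i : Fin (n + 1)) : cod i = cd n i.1 := by
  apply mext
  intro x
  show (i.predAbove x).1 = if x.1 ≤ i.1 then min x.1 n else x.1 - 1
  have hi := i.2
  rw [Fin.predAbove]
  by_cases h : i.castSucc < x
  · rw [dif_pos h]
    have h' : i.1 < x.1 := h
    rw [if_neg (by omega)]
    rfl
  · rw [dif_neg h]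
    have h' : ¬ i.1 < x.1 := h
    rw [if_pos (by omega)]
    show x.1 = _
    omega

/-- unfold compositions and compare values -/
theorem cd_cf_lt {n i j : ℕ} (h : i < j) (hj : j ≤ n + 1) :
    (cd (n + 1) j).comp (cf (n + 1) i) = (cf n i).comp (cd n (j - 1)) := by
  apply mext
  intro x
  have hx := x.2
  show (if (if x.1 < i then x.1 else x.1 + 1) ≤ j then min (if x.1 < i then x.1 else x.1 + 1) (n + 1)
      else (if x.1 < i then x.1 else x.1 + 1) - 1)
    = (if (if x.1 ≤ j - 1 then min x.1 n else x.1 - 1) < i then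
        (if x.1 ≤ j - 1 then min x.1 n else x.1 - 1)
      else (if x.1 ≤ j - 1 then min x.1 n else x.1 - 1) + 1)
  split_ifs <;> omega

theorem cd_cf_eq {n j : ℕ} (hj : j ≤ n) :
    (cd n j).comp (cf n j) = OrderHom.id := by
  apply mext
  intro x
  have hx := x.2
  show (if (if x.1 < j then x.1 else x.1 + 1) ≤ j then min (if x.1 < j then x.1 else x.1 + 1) n
      else (if x.1 < j then x.1 else x.1 + 1) - 1) = x.1
  split_ifs <;> omega

theorem cd_cf_eq' {n j : ℕ} (hj : j ≤ n) :
    (cd n j).comp (cf n (j + 1)) = OrderHom.id := by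
  apply mext
  intro x
  have hx := x.2
  show (if (if x.1 < j + 1 then x.1 else x.1 + 1) ≤ j then
      min (if x.1 < j + 1 then x.1 else x.1 + 1) n
      else (if x.1 < j + 1 then x.1 else x.1 + 1) - 1) = x.1
  split_ifs <;> omega

theorem cd_cf_gt {n i j : ℕ} (h : j < i) (hj : i ≤ n + 1) :
    (cd (n + 1) j).comp (cf (n + 1) (i + 1)) = (cf n i).comp (cd n j) := by
  apply mext
  intro x
  have hx := x.2
  show (if (if x.1 < i + 1 then x.1 else x.1 + 1) ≤ j then
      min (if x.1 < i + 1 then x.1 else x.1 + 1) (n + 1)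
      else (if x.1 < i + 1 then x.1 else x.1 + 1) - 1)
    = (if (if x.1 ≤ j then min x.1 n else x.1 - 1) < i then
        (if x.1 ≤ j then min x.1 n else x.1 - 1)
      else (if x.1 ≤ j then min x.1 n else x.1 - 1) + 1)
  split_ifs <;> omega

theorem cd_cd {n l j : ℕ} (h : l ≤ j) (hj : j ≤ n) :
    (cd n l).comp (cd (n + 1) (j + 1)) = (cd n j).comp (cd (n + 1) l) := by
  apply mext
  intro x
  have hx := x.2
  show (if (if x.1 ≤ j + 1 then min x.1 (n + 1) else x.1 - 1) ≤ l then
      min (if x.1 ≤ j + 1 then min x.1 (n + 1) else x.1 - 1) n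
      else (if x.1 ≤ j + 1 then min x.1 (n + 1) else x.1 - 1) - 1)
    = (if (if x.1 ≤ l then min x.1 (n + 1) else x.1 - 1) ≤ j then
      min (if x.1 ≤ l then min x.1 (n + 1) else x.1 - 1) n
      else (if x.1 ≤ l then min x.1 (n + 1) else x.1 - 1) - 1)
  split_ifs <;> omega

theorem delta_eq (M : CM) (n : ℕ) (x : M.X n) :
    M.delta n x = ∑ i ∈ Finset.range (n + 2), M.map (cf n i) x := by
  rw [CM.delta_apply, ← Fin.sum_univ_eq_sum_range (fun i => M.map (cf n i) x) (n + 2)]
  refine Finset.sum_congr rfl fun i _ => ?_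
  rw [cof_eq]

theorem m_lt (M : CM) {n i j : ℕ} (h : i < j) (hj : j ≤ n + 1) (x : M.X (n + 1)) :
    M.map (cd (n + 1) j) (M.map (cf (n + 1) i) x) = M.map (cf n i) (M.map (cd n (j - 1)) x) := by
  rw [← M.map_comp, cd_cf_lt h hj, M.map_comp]

theorem m_eq (M : CM) {n j : ℕ} (hj : j ≤ n) (x : M.X n) :
    M.map (cd n j) (M.map (cf n j) x) = x := by
  rw [← M.map_comp, cd_cf_eq hj, M.map_id]

theorem m_eq' (M : CM) {n j : ℕ} (hj : j ≤ n) (x : M.X n) :
    M.map (cd n j) (M.map (cf n (j + 1)) x) = x := by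
  rw [← M.map_comp, cd_cf_eq' hj, M.map_id]

theorem m_gt (M : CM) {n i j : ℕ} (h : j < i) (hj : i ≤ n + 1) (x : M.X (n + 1)) :
    M.map (cd (n + 1) j) (M.map (cf (n + 1) (i + 1)) x) = M.map (cf n i) (M.map (cd n j) x) := by
  rw [← M.map_comp, cd_cf_gt h hj, M.map_comp]

theorem m_cc (M : CM) {n l j : ℕ} (h : l ≤ j) (hj : j ≤ n) (x : M.X (n + 2)) :
    M.map (cd n l) (M.map (cd (n + 1) (j + 1)) x)
      = M.map (cd n j) (M.map (cd (n + 1) l) x) := by
  rw [← M.map_comp, cd_cd h hj, M.map_comp]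

/-- a sum over faces, where the terms with index below `l` and above `l + 1` vanish and the two
middle terms are equal -/
theorem sum_mid {A : Type*} [AddCommGroup A] [Module k A] (f : ℕ → A) (l r : ℕ)
    (h : f l = f (l + 1)) (h1 : ∀ i < l, f i = 0) :
    ∑ i ∈ Finset.range (l + 2 + r), f i = ∑ i ∈ Finset.range r, f (l + 2 + i) := by
  rw [Finset.sum_range_add, Finset.sum_range_succ, Finset.sum_range_succ,
    Finset.sum_eq_zero fun i hi => h1 i (Finset.mem_range.1 hi), zero_add, ← h, mod_two, zero_add]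

theorem key_gt (M : CM) (N l t i : ℕ) (h : l + 2 + i ≤ N + 1) (ht : l + 1 + t ≤ N)
    (x : M.X (N + 1)) (hx : M.map (cd N l) x = 0) :
    M.map (cd N l) (M.map (cf N (l + 2 + i)) (M.map (cd N (l + 1 + t)) x)) = 0 := by
  obtain ⟨n, rfl⟩ : ∃ n, N = n + 1 := ⟨N - 1, by omega⟩
  rw [show l + 2 + i = (l + 1 + i) + 1 by omega, m_gt M (by omega) (by omega),
    show l + 1 + t = (l + t) + 1 by omega, m_cc M (by omega) (by omega), hx, map_zero, map_zero]

theorem key_lt (M : CM) (N l t i : ℕ) (hi : i < l) (ht : l + t ≤ N)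
    (x : M.X (N + 1)) (hx : M.map (cd N (l - 1)) x = 0) :
    M.map (cd N l) (M.map (cf N i) (M.map (cd N (l + t)) x)) = 0 := by
  obtain ⟨n, rfl⟩ : ∃ n, N = n + 1 := ⟨N - 1, by omega⟩
  obtain ⟨l', rfl⟩ : ∃ l', l = l' + 1 := ⟨l - 1, by omega⟩
  rw [Nat.add_sub_cancel] at hx
  rw [m_lt M hi (by omega), show l' + 1 + t = (l' + t) + 1 by omega, Nat.add_sub_cancel,
    m_cc M (by omega) (by omega), hx, map_zero, map_zero]

theorem step (M : CM) (j r : ℕ) (x : M.X (j + r + 1))
    (hK : ∀ i < j, M.map (cd (j + r) i) x = 0)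
    (hd : M.map (cd (j + r + 1) j) (M.delta (j + r + 1) x) = 0) :
    ∀ i < j + 1, M.map (cd (j + r) i) (x + M.delta (j + r) (M.map (cd (j + r) j) x)) = 0 := by
  -- the sum of the high faces vanishes
  have hA : ∑ i ∈ Finset.range (r + 1), M.map (cf (j + r) (j + 1 + i))
      (M.map (cd (j + r) j) x) = 0 := by
    rw [delta_eq, map_sum] at hd
    have hlen : j + r + 1 + 2 = j + 2 + (r + 1) := by omega
    rw [hlen, sum_mid] at hd
    · rw [← hd]
      refine Finset.sum_congr rfl fun i hi => ?_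
      have hi' := Finset.mem_range.1 hi
      rw [show j + 2 + i = (j + 1 + i) + 1 by omega, m_gt M (by omega) (by omega)]
    · rw [m_eq M (by omega), m_eq' M (by omega)]
    · intro i hi
      rw [m_lt M hi (by omega), hK (j - 1) (by omega), map_zero]
  have hdel : M.delta (j + r) (M.map (cd (j + r) j) x)
      = ∑ i ∈ Finset.range (j + 1), M.map (cf (j + r) i) (M.map (cd (j + r) j) x) := by
    rw [delta_eq, show j + r + 2 = j + 1 + (r + 1) by omega, Finset.sum_range_add, hA, add_zero]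
  intro l hl
  rw [map_add, hdel, map_sum]
  rcases Nat.lt_or_ge l j with hlj | hlj
  · obtain ⟨t, ht⟩ : ∃ t, j = l + 1 + t := ⟨j - l - 1, by omega⟩
    rw [hK l hlj, zero_add, show j + 1 = l + 2 + t by omega, sum_mid]
    · refine Finset.sum_eq_zero fun i hi => ?_
      have hi' := Finset.mem_range.1 hi
      have h := key_gt M (j + r) l t i (by omega) (by omega) x (hK l hlj)
      rw [← ht] at h
      exact h
    · rw [m_eq M (by omega), m_eq' M (by omega)]
    · intro i hi
      have h := key_lt M (j + r) l (t + 1) i hi (by omega) x (hK (l - 1) (by omega))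
      rw [show l + (t + 1) = j by omega] at h
      exact h
  · have hlj' : l = j := by omega
    rw [hlj', Finset.sum_range_succ, m_eq M (by omega), Finset.sum_eq_zero, zero_add, mod_two]
    intro i hi
    have hi' := Finset.mem_range.1 hi
    exact key_lt M (j + r) j 0 i hi' (by omega) x (hK (j - 1) (by omega))

theorem all (M : CM) (m : ℕ) (x : M.X (m + 1))
    (hd : ∀ i ≤ m + 1, M.map (cd (m + 1) i) (M.delta (m + 1) x) = 0) :
    ∀ j ≤ m + 1, ∃ v : M.X m, ∀ i < j, M.map (cd m i) (x + M.delta m v) = 0 := by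
  intro j
  induction j with
  | zero =>
    intro _
    exact ⟨0, fun i hi => absurd hi (Nat.not_lt_zero i)⟩
  | succ j ih =>
    intro hj
    obtain ⟨v, hv⟩ := ih (by omega)
    obtain ⟨r, rfl⟩ : ∃ r, m = j + r := ⟨m - j, by omega⟩
    have h := step M j r (x + M.delta (j + r) v) hv (by
      rw [map_add, M.delta_delta, add_zero]
      exact hd j (by omega))
    refine ⟨v + M.map (cd (j + r) j) (x + M.delta (j + r) v), fun i hi => ?_⟩
    rw [map_add (M.delta (j + r)), ← add_assoc]
    exact h i hi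

end Pool.Agent.SHS.Norm

namespace Pool.Agent.SHS

theorem NORM : NORM_Stmt := by
  intro M m x hx
  obtain ⟨v, hv⟩ := Norm.all M m x (fun i hi => by
    have h := hx ⟨i, by omega⟩
    rw [Norm.cod_eq] at h
    exact h) (m + 1) (le_refl _)
  refine ⟨v, fun i => ?_⟩
  rw [Norm.cod_eq]
  exact hv i.1 i.2

end Pool.Agent.SHS
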