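import Pool.Agent.SH.S.Tools

namespace Pool.Agent.SHS

open Coch

namespace Pow

theorem reindex {X : SS} {I J : Type} {di : I → ℕ} {b : I → H X} (hb : HB X di b) (σ : J ≃ I) :
    HB X (fun j => di (σ j)) (fun j => b (σ j)) where
  mem j := hb.mem (σ j)
  indep := hb.indep.comp σ σ.injective
  span n := by
    refine (hb.span n).trans (Submodule.span_mono ?_)
    rintro _ ⟨i, hi, rfl⟩
    exact ⟨σ.symm i, by
      show di (σ (σ.symm i)) = n
      rw [σ.apply_symm_apply]
      exact hi, by
      show b (σ (σ.symm i)) = b i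
      rw [σ.apply_symm_apply]⟩

theorem one_ne {X : SS} (x : X.X 0) : (1 : H X) ≠ 0 := by
  intro h
  have h1 : cls (1 : Cocyc X) = 0 := by rw [map_one]; exact h
  rw [cls_eq_zero] at h1
  obtain ⟨g, hg⟩ := h1
  have h2 := congrArg (fun f : Coch X => f 0 x) hg
  change (0 : k) = (1 : Coch X) 0 x at h2
  rw [cone_apply, if_pos rfl] at h2
  exact absurd h2.symm one_ne_zero

theorem point {X : SS} (hs : ∀ n, Subsingleton (X.X n)) (hne : ∀ n, Nonempty (X.X n)) (n : ℕ)
    (a : H X) (ha : a ∈ Hn X n) : (n = 0 ∧ ∃ c : k, a = c • (1 : H X)) ∨ a = 0 := by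
  obtain ⟨f, hf, rfl⟩ := mem_Hn.mp ha
  cases n with
  | zero =>
    left
    refine ⟨rfl, ?_⟩
    obtain ⟨x⟩ := hne 0
    refine ⟨f.1 0 x, ?_⟩
    rw [← map_one (cls (X := X)), ← map_smul]
    congr 1
    apply Subtype.ext
    ext m y
    show f.1 m y = f.1 0 x * (1 : Coch X) m y
    rw [cone_apply]
    split_ifs with h
    · subst h
      rw [mul_one]
      congr 1
      exact (hs 0).elim _ _
    · rw [mul_zero]
      exact hf m h y
  | succ n =>
    right
    rw [cls_eq_zero]
    obtain ⟨x⟩ := hne (n + 1)
    obtain ⟨z⟩ := hne (n + 2)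
    have h1 : ∀ y, f.1 (n + 1) y = f.1 (n + 1) x := fun y => by rw [(hs (n + 1)).elim y x]
    have h2 : ∀ c : k, c = 0 ∨ c = 1 := by
      have : ∀ c : ZMod 2, c = 0 ∨ c = 1 := by decide
      exact this
    have h3 : ((n + 3 : ℕ) : k) * f.1 (n + 1) x = 0 := by
      have h4 : dlt f.1 (n + 2) z = 0 := by
        rw [show dlt f.1 = 0 from f.2]
        rfl
      rw [dlt_succ, Finset.sum_congr rfl (fun i _ => h1 _)] at h4
      rw [Finset.sum_const, Finset.card_univ, Fintype.card_fin, nsmul_eq_mul] at h4
      exact_mod_cast h4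
    rcases h2 (f.1 (n + 1) x) with h4 | h4
    · refine ⟨0, ?_⟩
      rw [map_zero]
      ext m y
      rw [czero_apply]
      by_cases h : m = n + 1
      · subst h
        rw [h1, h4]
      · exact (hf m h y).symm
    · refine ⟨single n (fun _ => 1), ?_⟩
      rw [h4, mul_one] at h3
      ext m y
      by_cases h : m = n + 1
      · subst h
        rw [dlt_succ, h1, h4]
        simp only [single_self]
        rw [Finset.sum_const, Finset.card_univ, Fintype.card_fin, nsmul_eq_mul, mul_one]
        have h5 : ((n + 3 : ℕ) : k) = ((n + 2 : ℕ) : k) + 1 := by push_cast; ring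
        rw [h5] at h3
        have h6 := k_two (1 : k)
        linear_combination h3 - h6
      · rw [hf m h y]
        cases m with
        | zero => exact dlt_zero _ _
        | succ m =>
          rw [dlt_succ]
          apply Finset.sum_eq_zero
          intro i _
          exact single_ne (by omega) _ _

end Pow

open Pool.Agent.SHS.Pow in
theorem POW (h : KUN_Stmt) : POW_Stmt := by
  intro X hX I di b hb d
  induction d with
  | zero =>
    have hs : ∀ n, Subsingleton ((X.pow 0).X n) := fun n => inferInstanceAs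
      (Subsingleton (Fin 0 → X.X n))
    have hne : ∀ n, Nonempty ((X.pow 0).X n) := fun n => ⟨(fun i => i.elim0 : Fin 0 → X.X n)⟩
    have hb1 : ∀ e : Fin 0 → I, (∏ i, H.map (X.proj 0 i) (b (e i))) = (1 : H (X.pow 0)) :=
      fun e => by
        rw [Finset.univ_eq_empty, Finset.prod_empty]
    have hd1 : ∀ e : Fin 0 → I, (∑ i, di (e i)) = 0 := fun e => by
      rw [Finset.univ_eq_empty, Finset.sum_empty]
    refine ⟨?_, ?_, ?_⟩
    · intro e
      rw [hb1, hd1]
      exact Hn_one
    · rw [show (fun e : Fin 0 → I => ∏ i, H.map (X.proj 0 i) (b (e i))) =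
        fun _ => (1 : H (X.pow 0)) from funext hb1]
      rw [linearIndependent_unique_iff]
      exact one_ne (hne 0).some
    · intro n a ha
      rcases point hs hne n a ha with ⟨rfl, c, rfl⟩ | rfl
      · apply Submodule.smul_mem
        apply Submodule.subset_span
        exact ⟨fun i => i.elim0, hd1 _, hb1 _⟩
      · exact Submodule.zero_mem _
  | succ d ih =>
    have hXd : (X.pow d).LF := by
      intro n
      have := hX n
      show Finite (Fin d → X.X n)
      infer_instance
    have h1 := h X (X.pow d) hX hXd di _ b _ hb ih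
    let φ : SS.Hom (X.pow (d + 1)) (X.prod (X.pow d)) :=
      ⟨fun _ x => (x 0, fun i => x i.succ), fun _ _ => rfl⟩
    let ψ : SS.Hom (X.prod (X.pow d)) (X.pow (d + 1)) :=
      ⟨fun _ y => Fin.cons y.1 y.2, fun a y => by
        funext i
        refine Fin.cases ?_ (fun j => ?_) i
        · rfl
        · rfl⟩
    have h2 := HB.iso φ ψ (fun n x => by
      funext i
      refine Fin.cases ?_ (fun j => ?_) i
      · rfl
      · rfl) (fun n y => rfl) h1
    let σ : (Fin (d + 1) → I) ≃ I × (Fin d → I) :=
      { toFun := fun e => (e 0, fun i => e i.succ)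
        invFun := fun p => Fin.cons p.1 p.2
        left_inv := fun e => by
          funext i
          refine Fin.cases ?_ (fun j => ?_) i
          · rfl
          · rfl
        right_inv := fun p => rfl }
    have h3 := reindex h2 σ
    have e1 : (fun e : Fin (d + 1) → I => ∑ i, di (e i)) = fun e =>
        di (σ e).1 + ∑ i, di ((σ e).2 i) := by
      funext e
      rw [Fin.sum_univ_succ]
      rfl
    have e2 : (fun e : Fin (d + 1) → I => ∏ i, H.map (X.proj (d + 1) i) (b (e i))) = fun e =>
        H.map φ (H.map (SS.fst X (X.pow d)) (b (σ e).1) *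
          H.map (SS.snd X (X.pow d)) (∏ i, H.map (X.proj d i) (b ((σ e).2 i)))) := by
      funext e
      rw [Fin.prod_univ_succ, map_mul, ← H.map_comp, ← H.map_comp, map_prod]
      congr 1
      refine Finset.prod_congr rfl fun i _ => ?_
      rw [← H.map_comp]
      rfl
    rw [e1, e2]
    exact h3

end Pool.Agent.SHS
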