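import Pool.Agent.SH.S.StmtsA

/-!
Block III-S: Kuenneth for cohomology rings, from the version for cochains.
-/

namespace Pool.Agent.SHS

namespace Kun

open Coch

/-- The class of a cocycle of degree `n`, as a linear map. -/
noncomputable def clsL (X : SS) (n : ℕ) : LinearMap.ker (X.cm.delta n) →ₗ[k] H X where
  toFun φ := clsN n φ.1 φ.2
  map_add' φ ψ := clsN_add φ.1 ψ.1 φ.2 ψ.2
  map_smul' c φ := clsN_smul c φ.1 φ.2

theorem clsL_eq_zero {X : SS} {n : ℕ} (φ : LinearMap.ker (X.cm.delta n)) :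
    clsL X n φ = 0 ↔ φ.1 ∈ X.cm.cc.B n := clsN_eq_zero φ.1 φ.2

section basis

variable {X : SS} {I : ℕ → Type} {z : ∀ n, I n → X.X n → k}

theorem sum_val (n : ℕ) (hz : ∀ i, X.cm.delta n (z n i) = 0) (c : I n →₀ k) :
    ((c.sum fun i a => a • (⟨z n i, hz i⟩ : LinearMap.ker (X.cm.delta n))) :
      LinearMap.ker (X.cm.delta n)).1 = c.sum fun i a => a • z n i := by
  have h := map_finsuppSum (LinearMap.ker (X.cm.delta n)).subtype c
    (fun i a => a • (⟨z n i, hz i⟩ : LinearMap.ker (X.cm.delta n)))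
  exact h

theorem sum_cls (n : ℕ) (hz : ∀ i, X.cm.delta n (z n i) = 0) (c : I n →₀ k) :
    clsL X n (c.sum fun i a => a • (⟨z n i, hz i⟩ : LinearMap.ker (X.cm.delta n))) =
      c.sum fun i a => a • clsN n (z n i) (hz i) := by
  rw [map_finsuppSum]
  refine Finsupp.sum_congr fun i _ => ?_
  rw [map_smul]
  rfl

theorem indep_of (hz : X.cm.cc.IsBasis z) (n : ℕ) :
    LinearIndependent k (fun i : I n => clsN n (z n i) (hz.cocycle n i)) := by
  rw [linearIndependent_iff]
  intro c hc
  refine hz.indep n c ?_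
  have h1 := sum_cls n (fun i => hz.cocycle n i) c
  rw [Finsupp.linearCombination_apply] at hc
  rw [hc, clsL_eq_zero, sum_val] at h1
  exact h1

theorem span_of (hz : X.cm.cc.IsBasis z) (n : ℕ) :
    Hn X n ≤ Submodule.span k (Set.range (fun i : I n => clsN n (z n i) (hz.cocycle n i))) := by
  intro a ha
  obtain ⟨φ, hφ, rfl⟩ := exists_clsN ha
  obtain ⟨c, hc⟩ := hz.span n φ hφ
  rw [Finsupp.mem_span_range_iff_exists_finsupp]
  refine ⟨c, ?_⟩
  rw [← sum_cls n (fun i => hz.cocycle n i) c]
  have h1 : clsL X n (⟨φ, hφ⟩ - c.sum fun i a => a •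
      (⟨z n i, hz.cocycle n i⟩ : LinearMap.ker (X.cm.delta n))) = 0 := by
    rw [clsL_eq_zero]
    show φ - ((c.sum fun i a => a • (⟨z n i, hz.cocycle n i⟩ :
      LinearMap.ker (X.cm.delta n))) : LinearMap.ker (X.cm.delta n)).1 ∈ _
    rw [sum_val n (fun i => hz.cocycle n i)]
    exact hc
  rw [map_sub, sub_eq_zero] at h1
  exact h1.symm

theorem basis_of (hz : ∀ n i, X.cm.delta n (z n i) = 0)
    (h1 : ∀ n, LinearIndependent k (fun i : I n => clsN n (z n i) (hz n i)))
    (h2 : ∀ n, Hn X n ≤ Submodule.span k (Set.range (fun i : I n => clsN n (z n i) (hz n i)))) :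
    X.cm.cc.IsBasis z where
  cocycle := hz
  span n w hw := by
    obtain ⟨c, hc⟩ := (Finsupp.mem_span_range_iff_exists_finsupp).1 (h2 n (clsN_mem n w hw))
    refine ⟨c, ?_⟩
    rw [← sum_cls n (hz n) c] at hc
    have h3 : clsL X n (⟨w, hw⟩ - c.sum fun i a => a •
        (⟨z n i, hz n i⟩ : LinearMap.ker (X.cm.delta n))) = 0 := by
      rw [map_sub, hc]
      exact sub_self _
    rw [clsL_eq_zero] at h3
    rw [← sum_val n (hz n) c]
    exact h3
  indep n c hc := by
    have h3 := linearIndependent_iff.1 (h1 n) c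
    refine h3 ?_
    rw [Finsupp.linearCombination_apply, ← sum_cls n (hz n) c, clsL_eq_zero, sum_val]
    exact hc

end basis

/-- Cocycles representing a homogeneous basis. -/
theorem exists_basis {X : SS} {I : Type} {di : I → ℕ} {b : I → H X} (h : HB X di b) :
    ∃ z : ∀ n, {i // di i = n} → X.X n → k, X.cm.cc.IsBasis z ∧
      ∀ n i, ∃ hz, clsN n (z n i) hz = b i.1 := by
  have h1 : ∀ n (i : {i // di i = n}), ∃ (φ : X.X n → k) (hφ : X.cm.delta n φ = 0),
      clsN n φ hφ = b i.1 := by
    intro n i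
    refine exists_clsN ?_
    have h2 := h.mem i.1
    rwa [i.2] at h2
  choose z hz hb using h1
  refine ⟨z, basis_of hz ?_ ?_, fun n i => ⟨hz n i, hb n i⟩⟩
  · intro n
    have h2 : (fun i : {i // di i = n} => clsN n (z n i) (hz n i)) = fun i => b i.1 :=
      funext fun i => hb n i
    rw [h2]
    exact h.indep.comp _ Subtype.val_injective
  · intro n
    have h2 : (fun i : {i // di i = n} => clsN n (z n i) (hz n i)) = fun i => b i.1 :=
      funext fun i => hb n i
    rw [h2]
    refine (h.span n).trans (Submodule.span_mono ?_)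
    rintro _ ⟨i, hi, rfl⟩
    exact ⟨⟨i, hi⟩, rfl⟩

/-- Degreewise independence suffices. -/
theorem indep_of_degrees {X : SS} {I : Type} {d : I → ℕ} {b : I → H X} (hm : ∀ i, b i ∈ Hn X (d i))
    (h : ∀ n, LinearIndependent k (fun i : {i // d i = n} => b i.1)) : LinearIndependent k b := by
  classical
  rw [linearIndependent_iff']
  intro s g hg i hi
  have h1 : ∑ j ∈ s.filter (fun j => d j = d i), g j • b j = 0 := by
    have h2 := congrArg (Hpr (d i)) hg
    rw [map_sum, map_zero] at h2
    rw [Finset.sum_filter]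
    refine Eq.trans ?_ h2
    refine Finset.sum_congr rfl fun j _ => ?_
    rw [map_smul]
    by_cases hj : d j = d i
    · rw [if_pos hj, Hpr_eq (by rw [← hj]; exact hm j)]
    · rw [if_neg hj, Hpr_ne hj (hm j), smul_zero]
  have h3 := linearIndependent_iff'.1 (h (d i)) (s.subtype (fun j => d j = d i))
    (fun j => g j.1) (by
      rw [Finset.sum_subtype_eq_sum_filter (s := s) (p := fun j => d j = d i)
        (f := fun j => g j • b j)]
      exact h1) ⟨i, rfl⟩ (by rw [Finset.mem_subtype]; exact hi)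
  exact h3

/-- The cross product is the product of the pull backs. -/
theorem cross_single {X Y : SS} (p q n : ℕ) (h : p + q = n) (f : X.X p → k) (g : Y.X q → k) :
    Coch.pull (SS.fst X Y) (single p f) * Coch.pull (SS.snd X Y) (single q g) =
      single n (fun x : (X.prod Y).X n => f (X.map (fr p n) x.1) * g (Y.map (bk q n) x.2)) := by
  subst h
  ext m x
  rw [cmul_apply]
  by_cases hm : m = p + q
  · subst hm
    rw [single_self, Finset.sum_eq_single (p, q)]
    · show single p f p (X.map (fr p (p + q)) x.1) * single q g q (Y.map (bk q (p + q)) x.2) = _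
      rw [single_self, single_self]
    · rintro ⟨a, c⟩ hac hne
      rw [Finset.HasAntidiagonal.mem_antidiagonal] at hac
      have ha : a ≠ p := by
        rintro rfl
        refine hne ?_
        have h1 : a + c = a + q := hac
        have h2 : c = q := by omega
        rw [h2]
      show single p f a _ * _ = 0
      rw [single_ne ha, zero_mul]
    · intro h
      exact absurd (by rw [Finset.HasAntidiagonal.mem_antidiagonal]) h
  · rw [single_ne hm]
    refine Finset.sum_eq_zero ?_
    rintro ⟨a, c⟩ hac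
    rw [Finset.HasAntidiagonal.mem_antidiagonal] at hac
    have h1 : a + c = m := hac
    by_cases ha : a = p
    · have hc : c ≠ q := by omega
      show _ * single q g c _ = 0
      rw [single_ne hc, mul_zero]
    · show single p f a _ * _ = 0
      rw [single_ne ha, zero_mul]

theorem cls_cross {X Y : SS} (p q n : ℕ) (h : p + q = n) (f : X.X p → k) (g : Y.X q → k)
    (hf : X.cm.delta p f = 0) (hg : Y.cm.delta q g = 0)
    (hfg : (X.prod Y).cm.delta n
      (fun x : (X.prod Y).X n => f (X.map (fr p n) x.1) * g (Y.map (bk q n) x.2)) = 0) :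
    clsN n (fun x : (X.prod Y).X n => f (X.map (fr p n) x.1) * g (Y.map (bk q n) x.2)) hfg =
      H.map (SS.fst X Y) (clsN p f hf) * H.map (SS.snd X Y) (clsN q g hg) := by
  unfold clsN
  rw [H.map_cls, H.map_cls, ← map_mul]
  congr 1
  apply Subtype.ext
  exact (cross_single p q n h f g).symm

end Kun

open Kun in
theorem KUN (h : KUNP_Stmt) : KUN_Stmt := by
  intro X Y hX hY I J di dj b c hb hc
  obtain ⟨z, hz, hzb⟩ := exists_basis hb
  obtain ⟨w, hw, hwc⟩ := exists_basis hc
  have h1 : (X.prod Y).cm.cc.IsBasis (crossB X.plus Y.plus z w) :=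
    h X.plus Y.plus hX hY z w hz hw
  have hcl : ∀ (n : ℕ) (t : prodI (fun n => {i // di i = n}) (fun n => {j // dj j = n}) n),
      clsN (X := X.prod Y) n (crossB X.plus Y.plus z w n t) (h1.cocycle n t) =
        H.map (SS.fst X Y) (b t.1.1.2.1) * H.map (SS.snd X Y) (c t.1.2.2.1) := by
    intro n t
    obtain ⟨h2, h3⟩ := hzb t.1.1.1 t.1.1.2
    obtain ⟨h4, h5⟩ := hwc t.1.2.1 t.1.2.2
    rw [← h3, ← h5]
    exact cls_cross _ _ n t.2 _ _ h2 h4 _
  have hmem : ∀ p : I × J, H.map (SS.fst X Y) (b p.1) * H.map (SS.snd X Y) (c p.2) ∈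
      Hn (X.prod Y) (di p.1 + dj p.2) := fun p =>
    Hn_mul (H.map_mem _ (hb.mem p.1)) (H.map_mem _ (hc.mem p.2))
  refine ⟨hmem, indep_of_degrees hmem fun n => ?_, fun n => ?_⟩
  · let e : {p : I × J // di p.1 + dj p.2 = n} →
        prodI (fun n => {i // di i = n}) (fun n => {j // dj j = n}) n :=
      fun p => ⟨(⟨di p.1.1, ⟨p.1.1, rfl⟩⟩, ⟨dj p.1.2, ⟨p.1.2, rfl⟩⟩), p.2⟩
    have he : Function.Injective e := by
      intro p q hpq
      have h2 : (e p).1.1.2.1 = (e q).1.1.2.1 := by rw [hpq]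
      have h3 : (e p).1.2.2.1 = (e q).1.2.2.1 := by rw [hpq]
      exact Subtype.ext (Prod.ext h2 h3)
    have h2 := (indep_of h1 n).comp e he
    have h3 : (fun i : {p : I × J // di p.1 + dj p.2 = n} =>
        H.map (SS.fst X Y) (b i.1.1) * H.map (SS.snd X Y) (c i.1.2)) =
        (fun t => clsN (X := X.prod Y) n (crossB X.plus Y.plus z w n t) (h1.cocycle n t)) ∘ e :=
      funext fun i => (hcl n (e i)).symm
    rw [h3]
    exact h2
  · refine (span_of h1 n).trans (Submodule.span_mono ?_)
    rintro _ ⟨t, rfl⟩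
    refine ⟨(t.1.1.2.1, t.1.2.2.1), ?_, (hcl n t).symm⟩
    show di t.1.1.2.1 + dj t.1.2.2.1 = n
    rw [t.1.1.2.2, t.1.2.2.2]
    exact t.2

end Pool.Agent.SHS
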