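import Pool.Agent.SH.S.Cup

/-!
Block III-S: further definitions: powers, the circle, constant and bar constructions,
Eilenberg-MacLane objects, homogeneous bases, the operations `P s`.
-/

namespace Pool.Agent.SHS

/-! ### Homogeneous bases -/

/-- `b` is a homogeneous basis of the cohomology of `X` (in the sense that for every `n` the
elements of degree `n` form a basis of `Hn X n`). -/
structure HB (X : SS) {I : Type} (deg : I → ℕ) (b : I → H X) : Prop where
  mem : ∀ i, b i ∈ Hn X (deg i)
  indep : LinearIndependent k b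
  span : ∀ n, Hn X n ≤ Submodule.span k (b '' {i | deg i = n})

/-- Positive degree classes which vanish in degree 0 and products of two of them: the
decomposable classes. -/
noncomputable def Hpos (X : SS) : Submodule k (H X) := ⨆ n : ℕ, Hn X (n + 1)

noncomputable def Dec (X : SS) : Submodule k (H X) :=
  Submodule.span k {c | ∃ (m n : ℕ) (a b : H X), a ∈ Hn X (m + 1) ∧ b ∈ Hn X (n + 1) ∧ c = a * b}

/-- `Z` modulo `B` is spanned by at most `N` elements. -/
def SpanLE {M : Type*} [AddCommGroup M] [Module k M] (Z B : Submodule k M) (N : ℕ) : Prop :=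
  ∃ s : Finset M, s.card ≤ N ∧ Z ≤ B ⊔ Submodule.span k (s : Set M)

/-! ### Total complexes -/

/-- Cocycles of total degree `n`. -/
def DC.ZT (D : DC) (n : ℕ) : Submodule k (∀ p q, D.X p q) where
  carrier := {x | x ∈ D.Tot n ∧ D.D x = 0}
  zero_mem' := ⟨(D.Tot n).zero_mem, by
    funext p q
    cases p <;> cases q <;> simp [DC.D]⟩
  add_mem' := by
    rintro a b ⟨ha, ha'⟩ ⟨hb, hb'⟩
    refine ⟨(D.Tot n).add_mem ha hb, ?_⟩
    have : D.D (a + b) = D.D a + D.D b := by
      funext p q
      cases p <;> cases q <;> simp [DC.D] <;> abel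
    rw [this, ha', hb', add_zero]
  smul_mem' := by
    rintro c a ⟨ha, ha'⟩
    refine ⟨(D.Tot n).smul_mem c ha, ?_⟩
    have : D.D (c • a) = c • D.D a := by
      funext p q
      cases p <;> cases q <;> simp [DC.D]
    rw [this, ha', smul_zero]

/-- Coboundaries of total degree `n`. -/
def DC.BT (D : DC) : ∀ n : ℕ, Submodule k (∀ p q, D.X p q)
  | 0 => ⊥
  | n + 1 => Submodule.span k {x | ∃ y ∈ D.Tot n, D.D y = x}

/-- Vertical cocycles at `(p,q)` whose vertical class is a horizontal cocycle. -/
def DC.Z2 (D : DC) (p : ℕ) : ∀ q : ℕ, Submodule k (D.X p q)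
  | 0 => LinearMap.ker (D.dv p 0) ⊓ LinearMap.ker (D.dh p 0)
  | q + 1 => LinearMap.ker (D.dv p (q + 1)) ⊓
      (LinearMap.range (D.dv (p + 1) q)).comap (D.dh p (q + 1))

/-- Horizontal images of vertical cocycles. -/
def DC.B2h (D : DC) : ∀ p q : ℕ, Submodule k (D.X p q)
  | 0, _ => ⊥
  | p + 1, q => (LinearMap.ker (D.dv p q)).map (D.dh p q)

/-- Vertical coboundaries. -/
def DC.B2v (D : DC) : ∀ p q : ℕ, Submodule k (D.X p q)
  | _, 0 => ⊥
  | p, q + 1 => LinearMap.range (D.dv p q)

/-! ### Powers, circle -/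

/-- The `d`-fold product. -/
abbrev SS.pow (X : SS) (d : ℕ) : SS where
  X n := Fin d → X.X n
  map a x := fun i => X.map a (x i)
  map_id x := by funext i; exact X.map_id _
  map_comp f g x := by funext i; exact X.map_comp _ _ _

def SS.proj (X : SS) (d : ℕ) (i : Fin d) : SS.Hom (X.pow d) X := ⟨fun _ x => x i, fun _ _ => rfl⟩

/-- The simplicial circle, Δ^1 / boundary. -/
abbrev S1 : SS := (PS.sphere 1).toSS

/-! ### Simplicial vector spaces -/

/-- The constant simplicial vector space. -/
abbrev SV.const (A : Type) [AddCommGroup A] [Module k A] : SV where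
  X _ := A
  map _ := LinearMap.id
  map_id _ := rfl
  map_comp _ _ _ := rfl

/-- Functions on [p] with values in `A` vanishing at 0. -/
def Nrm (p : ℕ) (A : Type*) [AddCommGroup A] [Module k A] : Submodule k (Fin (p + 1) → A) where
  carrier := {g | g 0 = 0}
  zero_mem' := rfl
  add_mem' := fun {a b} ha hb => by
    show a 0 + b 0 = 0
    rw [show a 0 = 0 from ha, show b 0 = 0 from hb, add_zero]
  smul_mem' := fun c a ha => by
    show c • a 0 = 0
    rw [show a 0 = 0 from ha, smul_zero]

/-- The horizontal operators of the bar construction: pull back and renormalise. -/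
def Nrm.map {p p' : ℕ} (a : Mor p p') (A : Type*) [AddCommGroup A] [Module k A] :
    Nrm p' A →ₗ[k] Nrm p A where
  toFun g := ⟨fun i => g.1 (a i) - g.1 (a 0), sub_self _⟩
  map_add' g h := by
    apply Subtype.ext
    funext i
    show (g.1 (a i) + h.1 (a i)) - (g.1 (a 0) + h.1 (a 0)) = (g.1 (a i) - g.1 (a 0)) + (h.1 (a i) - h.1 (a 0))
    abel
  map_smul' c g := by
    apply Subtype.ext
    funext i
    show c • g.1 (a i) - c • g.1 (a 0) = c • (g.1 (a i) - g.1 (a 0))
    rw [smul_sub]

theorem Nrm.map_apply {p p' : ℕ} (a : Mor p p') (A : Type*) [AddCommGroup A] [Module k A]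
    (g : Nrm p' A) (i : Fin (p + 1)) : (Nrm.map a A g).1 i = g.1 (a i) - g.1 (a 0) := rfl

/-- Coefficient maps. -/
def Nrm.coef (p : ℕ) {A B : Type*} [AddCommGroup A] [Module k A] [AddCommGroup B] [Module k B]
    (f : A →ₗ[k] B) : Nrm p A →ₗ[k] Nrm p B where
  toFun g := ⟨fun i => f (g.1 i), by
    show f (g.1 0) = 0
    rw [show g.1 0 = 0 from g.2, map_zero]⟩
  map_add' g h := by
    apply Subtype.ext
    funext i
    exact map_add f _ _
  map_smul' c g := by
    apply Subtype.ext
    funext i
    exact map_smul f _ _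

theorem Nrm.coef_apply (p : ℕ) {A B : Type*} [AddCommGroup A] [Module k A] [AddCommGroup B]
    [Module k B] (f : A →ₗ[k] B) (g : Nrm p A) (i : Fin (p + 1)) :
    (Nrm.coef p f g).1 i = f (g.1 i) := rfl

/-- The bar construction of a simplicial vector space (diagonal). -/
abbrev SV.bar (G : SV) : SV where
  X n := Nrm n (G.X n)
  map {m n} a := (Nrm.coef m (G.map a)).comp (Nrm.map a (G.X n))
  map_id x := by
    apply Subtype.ext
    funext i
    show G.map OrderHom.id (x.1 i - x.1 0) = x.1 i
    rw [G.map_id, show x.1 0 = 0 from x.2, sub_zero]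
  map_comp f g x := by
    apply Subtype.ext
    funext i
    show G.map (g.comp f) (x.1 (g (f i)) - x.1 (g (f 0)))
      = G.map f (G.map g (x.1 (g (f i)) - x.1 (g 0)) - G.map g (x.1 (g (f 0)) - x.1 (g 0)))
    rw [← map_sub, G.map_comp]
    congr 2
    abel

/-- For fixed `p`: the simplicial set q ↦ (normalised functions on [p] with values in G_q). -/
abbrev SV.BX (G : SV) (p : ℕ) : SS where
  X q := Nrm p (G.X q)
  map a := Nrm.coef p (G.map a)
  map_id x := by
    apply Subtype.ext
    funext i
    exact G.map_id _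
  map_comp f g x := by
    apply Subtype.ext
    funext i
    exact G.map_comp _ _ _

/-- Horizontal operators as simplicial maps. -/
def SV.BXmap (G : SV) {p p' : ℕ} (a : Mor p p') : SS.Hom (G.BX p') (G.BX p) where
  f q x := Nrm.map a (G.X q) x
  nat b x := by
    apply Subtype.ext
    funext i
    show G.map b (x.1 (a i)) - G.map b (x.1 (a 0)) = G.map b (x.1 (a i) - x.1 (a 0))
    rw [map_sub]

/-- The `j`-th bar coordinate G^p → G. -/
def SV.BXbar (G : SV) {p : ℕ} (j : Fin p) : SS.Hom (G.BX p) G.toSS where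
  f _ x := x.1 j.succ - x.1 j.castSucc
  nat b x := by
    show G.map b (x.1 j.succ) - G.map b (x.1 j.castSucc) = G.map b (x.1 j.succ - x.1 j.castSucc)
    rw [map_sub]

/-- The bicosimplicial vector space of functions on G_q^p. -/
abbrev SV.bcm (G : SV) : BCM where
  X p q := Nrm p (G.X q) → k
  map {p p' q q'} a b :=
    { toFun := fun φ x => φ (Nrm.coef p (G.map b) (Nrm.map a (G.X q') x))
      map_add' := fun _ _ => rfl
      map_smul' := fun _ _ => rfl }
  map_id {p q} φ := by
    funext x
    show φ _ = φ x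
    congr 1
    apply Subtype.ext
    funext i
    show G.map OrderHom.id (x.1 i - x.1 0) = x.1 i
    rw [G.map_id, show x.1 0 = 0 from x.2, sub_zero]
  map_comp f f' g g' φ := by
    funext x
    show φ _ = φ _
    congr 1
    apply Subtype.ext
    funext i
    show G.map (g'.comp g) (x.1 (f' (f i)) - x.1 (f' (f 0)))
      = G.map g (G.map g' (x.1 (f' (f i)) - x.1 (f' 0)) - G.map g' (x.1 (f' (f 0)) - x.1 (f' 0)))
    rw [← map_sub, G.map_comp]
    congr 2
    abel

/-- The classifying space of the field with two elements (= nerve). -/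
abbrev BB : SS := (SV.const k).bar.toSS

/-- The fundamental 1-cocycle of `BB`. -/
def uC : Coch BB := Coch.single 1 (fun g : Nrm 1 k => g.1 1)

/-- Addition and projections on V × V, zero map. -/
def SV.addHom (V : SV) : SS.Hom (V.toSS.prod V.toSS) V.toSS where
  f _ x := x.1 + x.2
  nat a x := by
    show V.map a x.1 + V.map a x.2 = V.map a (x.1 + x.2)
    rw [map_add]

/-- A class is primitive. -/
def Prim {V : SV} (μ : H V.toSS) : Prop :=
  H.map V.addHom μ = H.map (SS.fst V.toSS V.toSS) μ + H.map (SS.snd V.toSS V.toSS) μ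

/-- Normalised `n`-cocycles on Δ^q. -/
def EMsub (n q : ℕ) : Submodule k (Mor n q → k) where
  carrier := {z | (∀ s : Mor n q, ¬ Function.Injective s → z s = 0) ∧
    ∀ t : Mor (n + 1) q, ∑ i : Fin (n + 2), z (t.comp (cof i)) = 0}
  zero_mem' := ⟨fun _ _ => rfl, fun _ => by simp⟩
  add_mem' := by
    rintro a b ⟨h1, h2⟩ ⟨h3, h4⟩
    refine ⟨fun s hs => ?_, fun t => ?_⟩
    · show a s + b s = 0
      rw [h1 s hs, h3 s hs, add_zero]
    · show ∑ i : Fin (n + 2), (a (t.comp (cof i)) + b (t.comp (cof i))) = 0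
      rw [Finset.sum_add_distrib, h2 t, h4 t, add_zero]
  smul_mem' := by
    rintro c a ⟨h1, h2⟩
    refine ⟨fun s hs => ?_, fun t => ?_⟩
    · show c * a s = 0
      rw [h1 s hs, mul_zero]
    · show ∑ i : Fin (n + 2), c * a (t.comp (cof i)) = 0
      rw [← Finset.mul_sum, h2 t, mul_zero]

/-- The Eilenberg-MacLane object K(F_2,n): normalised `n`-cocycles on the simplices. -/
abbrev EM (n : ℕ) : SV where
  X q := EMsub n q
  map {m q} a :=
    { toFun := fun z => ⟨fun s => z.1 (a.comp s), by
        refine ⟨fun s hs => z.2.1 _ fun h => hs fun x y hxy => h (congrArg a hxy), fun t => ?_⟩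
        exact z.2.2 (a.comp t)⟩
      map_add' := fun _ _ => rfl
      map_smul' := fun _ _ => rfl }
  map_id z := rfl
  map_comp f g z := rfl

/-- The fundamental cocycle. -/
def iotaC (n : ℕ) : Coch (EM n).toSS :=
  Coch.single n (fun z : EMsub n n => z.1 OrderHom.id)

/-! ### Natural operations -/

/-- Natural linear endomorphisms of total cohomology. -/
structure NOp where
  f : ∀ X : SS, H X →ₗ[k] H X
  nat : ∀ {X Y : SS} (φ : SS.Hom X Y) (a : H Y), f X (H.map φ a) = H.map φ (f Y a)

/-- The operation has degree `n - m` on degree `m` classes. -/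
def NOp.Maps (T : NOp) (m n : ℕ) : Prop := ∀ X : SS, ∀ a ∈ Hn X m, T.f X a ∈ Hn X n

end Pool.Agent.SHS
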