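import Pool.Agent.SH.S.StmtsW

/-!
Block III-S, module BIN: binary digits of exponents.
-/

namespace Pool.Agent.SHS
namespace Bin

variable {G : Type}

/-- The exponents given by a finite set of digits. -/
noncomputable def eS (S : Finset (G × ℕ)) : G →₀ ℕ := ∑ p ∈ S, Finsupp.single p.1 (2 ^ p.2)

open Classical in
/-- The digits at `s`. -/
noncomputable def fib (S : Finset (G × ℕ)) (s : G) : Finset ℕ :=
  (S.filter (fun p => p.1 = s)).image Prod.snd

theorem mem_fib {S : Finset (G × ℕ)} {s : G} {r : ℕ} : r ∈ fib S s ↔ (s, r) ∈ S := by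
  classical
  unfold fib
  simp only [Finset.mem_image, Finset.mem_filter]
  constructor
  · rintro ⟨⟨a, b⟩, ⟨h1, h2⟩, h3⟩
    have h2' : a = s := h2
    have h3' : b = r := h3
    rw [← h2', ← h3']
    exact h1
  · intro h
    exact ⟨(s, r), ⟨h, rfl⟩, rfl⟩

theorem eS_apply (S : Finset (G × ℕ)) (s : G) : eS S s = ∑ r ∈ fib S s, 2 ^ r := by
  classical
  unfold eS fib
  rw [Finsupp.finsetSum_apply, Finset.sum_image, Finset.sum_filter]
  · refine Finset.sum_congr rfl fun p _ => ?_
    rw [Finsupp.single_apply]
  · intro a ha b hb h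
    have h1 := (Finset.mem_filter.mp ha).2
    have h2 := (Finset.mem_filter.mp hb).2
    exact Prod.ext (h1.trans h2.symm) h

theorem injective : Function.Injective (eS (G := G)) := by
  intro S T h
  ext ⟨s, r⟩
  rw [← mem_fib, ← mem_fib]
  have h1 : ∑ r ∈ fib S s, 2 ^ r = ∑ r ∈ fib T s, 2 ^ r := by
    rw [← eS_apply, ← eS_apply, h]
  rw [← Finset.toFinset_bitIndices_sum_two_pow (fib S s), h1,
    Finset.toFinset_bitIndices_sum_two_pow]

theorem surjective : Function.Surjective (eS (G := G)) := by
  classical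
  intro f
  refine ⟨f.support.biUnion (fun s => (Nat.bitIndices (f s)).toFinset.image (fun r => (s, r))),
    ?_⟩
  ext s
  rw [eS_apply]
  have h1 : fib (f.support.biUnion
      (fun s => (Nat.bitIndices (f s)).toFinset.image (fun r => (s, r)))) s =
      (Nat.bitIndices (f s)).toFinset := by
    ext r
    rw [mem_fib, Finset.mem_biUnion]
    constructor
    · rintro ⟨t, _, h⟩
      obtain ⟨r', h2, h3⟩ := Finset.mem_image.mp h
      have h4 : t = s := congrArg Prod.fst h3
      have h5 : r' = r := congrArg Prod.snd h3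
      rw [← h4, ← h5]
      exact h2
    · intro h
      refine ⟨s, ?_, Finset.mem_image.mpr ⟨r, h, rfl⟩⟩
      rw [Finsupp.mem_support_iff]
      intro h0
      rw [h0] at h
      simp at h
  rw [h1, Finset.sum_toFinset_bitIndices_two_pow]

theorem prod_eq (M : Type) [CommMonoid M] (g : G → M) (S : Finset (G × ℕ)) :
    ∏ p ∈ S, g p.1 ^ (2 ^ p.2) = (eS S).prod (fun s m => g s ^ m) := by
  classical
  unfold eS
  induction S using Finset.induction_on with
  | empty => rw [Finset.prod_empty, Finset.sum_empty, Finsupp.prod_zero_index]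
  | insert p S hp ih =>
    rw [Finset.prod_insert hp, Finset.sum_insert hp, ih,
      Finsupp.prod_add_index' (h := fun s m => g s ^ m) (fun _ => pow_zero _)
        (fun _ _ _ => pow_add _ _ _),
      Finsupp.prod_single_index (h := fun s m => g s ^ m) (pow_zero _)]

theorem sum_eq (w : G → ℕ) (S : Finset (G × ℕ)) :
    ∑ p ∈ S, 2 ^ p.2 * w p.1 = (eS S).sum (fun s m => m * w s) := by
  classical
  unfold eS
  induction S using Finset.induction_on with
  | empty => rw [Finset.sum_empty, Finset.sum_empty, Finsupp.sum_zero_index]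
  | insert p S hp ih =>
    rw [Finset.sum_insert hp, Finset.sum_insert hp, ih,
      Finsupp.sum_add_index' (h := fun s m => m * w s) (fun _ => zero_mul _)
        (fun _ _ _ => add_mul _ _ _),
      Finsupp.sum_single_index (h := fun s m => m * w s) (zero_mul _)]

end Bin

theorem BIN : BIN_Stmt := by
  intro G
  refine ⟨Equiv.ofBijective Bin.eS ⟨Bin.injective, Bin.surjective⟩, ?_, ?_⟩
  · intro M _ g S
    exact Bin.prod_eq M g S
  · intro w S
    exact Bin.sum_eq w S

end Pool.Agent.SHS
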