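import Pool.Agent.SH.S.SplD
import Pool.Agent.SH.S.Hty

/-!
Block III-S: the bar construction of `EM n` is homotopy equivalent to `EM (n + 1)`.
-/

namespace Pool.Agent.SHS.Spl

open Pool.Agent.SHS.Norm

/-- jump functions -/
def tz (n i : ℕ) : Mor (n + 1) 1 where
  toFun x := if x.1 ≤ i then 0 else 1
  monotone' := by
    intro a b h
    have h' : a.1 ≤ b.1 := h
    show (if a.1 ≤ i then (0 : Fin 2) else 1) ≤ (if b.1 ≤ i then 0 else 1)
    split_ifs
    · exact le_refl _
    · exact Fin.zero_le _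
    · omega
    · exact le_refl _

def ty (n j : ℕ) : Mor n 1 where
  toFun x := if x.1 < j then 0 else 1
  monotone' := by
    intro a b h
    have h' : a.1 ≤ b.1 := h
    show (if a.1 < j then (0 : Fin 2) else 1) ≤ (if b.1 < j then 0 else 1)
    split_ifs
    · exact le_refl _
    · exact Fin.zero_le _
    · omega
    · exact le_refl _

theorem tz_same (n j : ℕ) : (tz n j).comp (cf n j) = ty n j := by
  apply OrderHom.ext
  funext x
  show (if (if x.1 < j then x.1 else x.1 + 1) ≤ j then (0 : Fin 2) else 1)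
    = if x.1 < j then 0 else 1
  split_ifs <;> first | rfl | omega

theorem tz_succ (n j : ℕ) : (tz n j).comp (cf n (j + 1)) = ty n (j + 1) := by
  apply OrderHom.ext
  funext x
  show (if (if x.1 < j + 1 then x.1 else x.1 + 1) ≤ j then (0 : Fin 2) else 1)
    = if x.1 < j + 1 then 0 else 1
  split_ifs <;> first | rfl | omega

/-- A contractible simplicial vector space has no homotopy. -/
theorem ctr_ZM (V : SV) (h : ∀ n : ℕ, Mor n 1 → (V.X n →ₗ[k] V.X n))
    (nat : ∀ {m n : ℕ} (a : Mor m n) (t : Mor n 1) (x : V.X n),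
      h m (t.comp a) (V.map a x) = V.map a (h n t x))
    (h0 : ∀ (n : ℕ) (x : V.X n), h n (cst 0) x = 0)
    (h1 : ∀ (n : ℕ) (x : V.X n), h n (cst 1) x = x) {n : ℕ} {v : V.X n} (hv : v ∈ V.ZM n) :
    v ∈ V.BM n := by
  let w : V.X (n + 1) := ∑ i ∈ Finset.range (n + 1), h (n + 1) (tz n i) (V.map (cd n i) v)
  have hw : ∀ j, V.map (cf n j) w = ∑ i ∈ Finset.range (n + 1),
      h n ((tz n i).comp (cf n j)) (V.map (cf n j) (V.map (cd n i) v)) := by
    intro j
    show V.map (cf n j) (∑ i ∈ Finset.range (n + 1), _) = _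
    rw [map_sum]
    refine Finset.sum_congr rfl fun i _ => ?_
    rw [nat]
  have hlow : ∀ i j, i ≤ n → j < i → V.map (cf n j) (V.map (cd n i) v) = 0 := by
    intro i j hi hj
    obtain ⟨m, rfl⟩ : ∃ m, n = m + 1 := ⟨n - 1, by omega⟩
    obtain ⟨h2, h3⟩ := (mem_ZM V).1 hv
    rw [d_s_lt V hj (by omega)]
    rcases Nat.eq_zero_or_pos j with h4 | h4
    · rw [h4, h3, map_zero]
    · rw [h2 j h4 (by omega), map_zero]
  have hhigh : ∀ i j, i + 1 < j → j ≤ n + 1 → V.map (cf n j) (V.map (cd n i) v) = 0 := by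
    intro i j hi hj
    obtain ⟨m, rfl⟩ : ∃ m, n = m + 1 := ⟨n - 1, by omega⟩
    obtain ⟨j, rfl⟩ : ∃ j', j = j' + 1 := ⟨j - 1, by omega⟩
    obtain ⟨h2, h3⟩ := (mem_ZM V).1 hv
    rw [d_s_gt V (by omega) (by omega), h2 j (by omega) (by omega), map_zero]
  refine (mem_BM V).2 ⟨w, ?_, ?_⟩
  · intro j hj hj'
    rw [hw]
    obtain ⟨l, rfl⟩ : ∃ l, j = l + 1 := ⟨j - 1, by omega⟩
    rcases Nat.lt_or_ge l n with hl | hl
    · have h5 := sum_mid (fun i => h n ((tz n i).comp (cf n (l + 1)))
        (V.map (cf n (l + 1)) (V.map (cd n i) v))) l (n - 1 - l)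
        (by
          show h n ((tz n l).comp (cf n (l + 1))) (V.map (cf n (l + 1)) (V.map (cd n l) v))
            = h n ((tz n (l + 1)).comp (cf n (l + 1))) (V.map (cf n (l + 1)) (V.map (cd n (l + 1)) v))
          rw [tz_succ, tz_same, d_s_eq' V (by omega), d_s_eq V (by omega)])
        (by
          intro i hi
          show h n ((tz n i).comp (cf n (l + 1))) (V.map (cf n (l + 1)) (V.map (cd n i) v)) = 0
          rw [hhigh i (l + 1) (by omega) (by omega), map_zero])
      have h6 : l + 2 + (n - 1 - l) = n + 1 := by omega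
      rw [h6] at h5
      rw [h5]
      refine Finset.sum_eq_zero fun i hi => ?_
      have hi' := Finset.mem_range.1 hi
      show h n _ (V.map (cf n (l + 1)) (V.map (cd n (l + 2 + i)) v)) = 0
      rw [hlow _ _ (by omega) (by omega), map_zero]
    · have hl' : l = n := by omega
      subst hl'
      rw [Finset.sum_range_succ, Finset.sum_eq_zero, zero_add, tz_succ, d_s_eq' V (le_refl _)]
      · have e : ty l (l + 1) = cst 0 := by
          apply OrderHom.ext
          funext x
          show (if x.1 < l + 1 then (0 : Fin 2) else 1) = 0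
          rw [if_pos x.2]
        rw [e, h0]
      · intro i hi
        have hi' := Finset.mem_range.1 hi
        rw [hhigh i (l + 1) (by omega) (by omega), map_zero]
  · rw [hw, Finset.sum_range_succ', Finset.sum_eq_zero, zero_add, tz_same, d_s_eq V (Nat.zero_le _)]
    · have e : ty n 0 = cst 1 := by
        apply OrderHom.ext
        funext x
        show (if x.1 < 0 then (0 : Fin 2) else 1) = 1
        rw [if_neg (by omega)]
      rw [e, h1]
    · intro i hi
      have hi' := Finset.mem_range.1 hi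
      rw [hlow (i + 1) 0 (by omega) (by omega), map_zero]

/-! ### the free path object -/

/-- All functions on the vertices. -/
abbrev EG (G : SV) : SV where
  X n := Fin (n + 1) → G.X n
  map a :=
    { toFun := fun g i => G.map a (g (a i))
      map_add' := fun g g' => by
        funext i
        show G.map a (g (a i) + g' (a i)) = G.map a (g (a i)) + G.map a (g' (a i))
        rw [map_add]
      map_smul' := fun c g => by
        funext i
        show G.map a (c • g (a i)) = c • G.map a (g (a i))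
        rw [map_smul] }
  map_id g := by
    funext i
    exact G.map_id _
  map_comp f g x := by
    funext i
    exact G.map_comp _ _ _

def EGh (G : SV) (n : ℕ) (t : Mor n 1) : (EG G).X n →ₗ[k] (EG G).X n where
  toFun g i := if t i = 1 then g i else 0
  map_add' g g' := by
    funext i
    show (if t i = 1 then g i + g' i else 0) = (if t i = 1 then g i else 0) + (if t i = 1 then g' i else 0)
    split_ifs <;> simp
  map_smul' c g := by
    funext i
    show (if t i = 1 then c • g i else 0) = c • (if t i = 1 then g i else 0)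
    split_ifs <;> simp

theorem EG_ZM (G : SV) {n : ℕ} {v : (EG G).X n} (hv : v ∈ (EG G).ZM n) : v ∈ (EG G).BM n := by
  refine ctr_ZM (EG G) (EGh G) ?_ ?_ ?_ hv
  · intro m n a t g
    funext i
    show (if t (a i) = 1 then G.map a (g (a i)) else 0) = G.map a (if t (a i) = 1 then g (a i) else 0)
    split_ifs
    · rfl
    · rw [map_zero]
  · intro n g
    funext i
    show (if (0 : Fin 2) = 1 then g i else 0) = 0
    rw [if_neg (by decide)]
  · intro n g
    funext i
    show (if (1 : Fin 2) = 1 then g i else 0) = g i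
    rw [if_pos rfl]

/-- The projection to the bar construction. -/
def EGp (G : SV) : SV.Hom (EG G) G.bar where
  f n :=
    { toFun := fun g => ⟨fun i => g i - g 0, sub_self _⟩
      map_add' := fun g g' => by
        apply Subtype.ext
        funext i
        show (g i + g' i) - (g 0 + g' 0) = (g i - g 0) + (g' i - g' 0)
        abel
      map_smul' := fun c g => by
        apply Subtype.ext
        funext i
        show c • g i - c • g 0 = c • (g i - g 0)
        rw [smul_sub] }
  nat {m n} a g := by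
    apply Subtype.ext
    funext i
    show G.map a (g (a i)) - G.map a (g (a 0)) = G.map a ((g (a i) - g 0) - (g (a 0) - g 0))
    rw [← map_sub]
    congr 1
    abel

theorem EGp_apply (G : SV) (n : ℕ) (g : (EG G).X n) (i : Fin (n + 1)) :
    ((EGp G).f n g).1 i = g i - g 0 := rfl

/-- lifting Moore cycles of the bar construction -/
theorem bar_lift (G : SV) {m : ℕ} {v : G.bar.X (m + 1)} (hv : v ∈ G.bar.ZM (m + 1)) :
    ∃ g ∈ Spl.G (EG G) (m + 1) 0, (EGp G).f (m + 1) g = v ∧ ∃ c ∈ G.ZM m,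
      (EG G).map (cf m 0) g = (fun _ => c) := by
  let g0 : (EG G).X (m + 1) := v.1
  have e0 : (EGp G).f (m + 1) g0 = v := by
    apply Subtype.ext
    funext i
    show v.1 i - v.1 0 = v.1 i
    rw [show v.1 0 = 0 from v.2, sub_zero]
  have hvG : v ∈ Spl.G G.bar (m + 1) 0 := ZM_le G.bar (m + 1) hv
  have e1 : (EGp G).f (m + 1) (pj (EG G) (m + 1) g0) = v := by
    rw [pj_nat, e0, pj_eq G.bar hvG]
  have hg := pj_mem (EG G) (m + 1) g0
  refine ⟨pj (EG G) (m + 1) g0, hg, e1, (EG G).map (cf m 0) (pj (EG G) (m + 1) g0) 0, ?_, ?_⟩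
  · intro l a ha
    have h1 := d0_mem (EG G) hg l a ha
    have h2 := congrFun h1 0
    have h3 : (EG G).map (cf m 0) (pj (EG G) (m + 1) g0) (a 0)
        = (EG G).map (cf m 0) (pj (EG G) (m + 1) g0) 0 := by
      have h4 : (EGp G).f m ((EG G).map (cf m 0) (pj (EG G) (m + 1) g0)) = 0 := by
        rw [(EGp G).nat, e1]
        exact ((mem_ZM G.bar).1 hv).2
      have h5 := congrArg (fun z : G.bar.X m => z.1 (a 0)) h4
      exact sub_eq_zero.mp h5
    rw [← h3]
    exact h2
  · funext i
    have h4 : (EGp G).f m ((EG G).map (cf m 0) (pj (EG G) (m + 1) g0)) = 0 := by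
      rw [(EGp G).nat, e1]
      exact ((mem_ZM G.bar).1 hv).2
    have h5 := congrArg (fun z : G.bar.X m => z.1 i) h4
    exact sub_eq_zero.mp h5

theorem BM_map {V U : SV} (f : SV.Hom V U) {n : ℕ} {v : V.X n} (hv : v ∈ V.BM n) :
    f.f n v ∈ U.BM n := by
  obtain ⟨w, hw, rfl⟩ := (mem_BM V).1 hv
  exact (mem_BM U).2 ⟨f.f (n + 1) w, G_map f hw, by rw [f.nat]⟩

/-- if the constant is zero then we have a boundary -/
theorem bar_zero (G : SV) {m : ℕ} {v : G.bar.X (m + 1)} {g : (EG G).X (m + 1)}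
    (hg : g ∈ Spl.G (EG G) (m + 1) 0) (he : (EGp G).f (m + 1) g = v)
    (hc : (EG G).map (cf m 0) g = 0) : v ∈ G.bar.BM (m + 1) := by
  rw [← he]
  exact BM_map (EGp G) (EG_ZM G ((mem_ZM (EG G)).2 ⟨hg, hc⟩))

/-- every cycle of `G` comes from the bar construction -/
theorem bar_surj (G : SV) {m : ℕ} {c : G.X m} (hc : c ∈ G.ZM m) :
    ∃ g ∈ Spl.G (EG G) (m + 1) 0, (EGp G).f (m + 1) g ∈ G.bar.ZM (m + 1) ∧
      (EG G).map (cf m 0) g = (fun _ => c) := by
  have h1 : (fun _ => c : (EG G).X m) ∈ (EG G).ZM m := by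
    intro l a ha
    funext i
    exact hc l a ha
  obtain ⟨g, hg, he⟩ := (mem_BM (EG G)).1 (EG_ZM G h1)
  refine ⟨g, hg, (mem_ZM G.bar).2 ⟨G_map (EGp G) hg, ?_⟩, he⟩
  rw [← (EGp G).nat, he]
  apply Subtype.ext
  funext i
  exact sub_self c

/-! ### the map to EM (n+1) -/

section
variable (n : ℕ)

/-- The functional on the bar construction. -/
def psiL : (EM n).bar.X (n + 1) →ₗ[k] k where
  toFun g := (g.1 1).1 (cf n 0)
  map_add' _ _ := rfl
  map_smul' _ _ := rfl

theorem psiL_apply (g : (EM n).bar.X (n + 1)) : psiL n g = (g.1 1).1 (cf n 0) := rfl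

theorem psiL_NF : NF (EM n).bar (n + 1) (psiL n) := by
  intro j hj w
  rw [psiL_apply]
  show (w.1 ((cd n j) 1) - w.1 ((cd n j) 0)).1 ((cd n j).comp (cf n 0)) = 0
  rcases Nat.eq_zero_or_pos j with h | h
  · subst h
    have e : (cd n 0) 1 = (cd n 0) 0 := by
      apply Fin.ext
      show (if (1 : Fin (n + 2)).1 ≤ 0 then min (1 : Fin (n + 2)).1 n else (1 : Fin (n + 2)).1 - 1)
        = (if (0 : Fin (n + 2)).1 ≤ 0 then min (0 : Fin (n + 2)).1 n else (0 : Fin (n + 2)).1 - 1)
      simp
    rw [e, sub_self]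
    rfl
  · apply (w.1 ((cd n j) 1) - w.1 ((cd n j) 0)).2.1
    intro hi
    have h1 : ((cd n j).comp (cf n 0)) ⟨j - 1, by omega⟩ = ((cd n j).comp (cf n 0)) ⟨j, by omega⟩ := by
      apply Fin.ext
      show (if (if j - 1 < 0 then j - 1 else j - 1 + 1) ≤ j then
          min (if j - 1 < 0 then j - 1 else j - 1 + 1) n
          else (if j - 1 < 0 then j - 1 else j - 1 + 1) - 1)
        = (if (if j < 0 then j else j + 1) ≤ j then min (if j < 0 then j else j + 1) n
          else (if j < 0 then j else j + 1) - 1)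
      split_ifs <;> omega
    have h2 := congrArg Fin.val (hi h1)
    have h3 : j - 1 = j := h2
    omega

theorem psiL_coc (w : (EM n).bar.X (n + 2)) :
    ∑ i : Fin (n + 3), psiL n ((EM n).bar.map (cof i) w) = 0 := by
  have h1 : ∀ i : ℕ, i ≤ n + 2 → psiL n ((EM n).bar.map (cf (n + 1) i) w)
      = (w.1 ((cf (n + 1) i) 1)).1 ((cf (n + 1) i).comp (cf n 0))
        - (w.1 ((cf (n + 1) i) 0)).1 ((cf (n + 1) i).comp (cf n 0)) := fun i _ => rfl
  have h2 : ∑ i : Fin (n + 3), psiL n ((EM n).bar.map (cof i) w)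
      = ∑ i ∈ Finset.range (n + 3), psiL n ((EM n).bar.map (cf (n + 1) i) w) := by
    rw [← Fin.sum_univ_eq_sum_range (fun i => psiL n ((EM n).bar.map (cf (n + 1) i) w)) (n + 3)]
    refine Finset.sum_congr rfl fun i _ => ?_
    rw [cof_eq]
  have hw0 : w.1 0 = 0 := w.2
  have v1 : ∀ i : ℕ, 2 ≤ i → (cf (n + 1) i) 1 = 1 := by
    intro i hi
    apply Fin.ext
    show (if (1 : Fin (n + 2)).1 < i then (1 : Fin (n + 2)).1 else (1 : Fin (n + 2)).1 + 1) = 1
    rw [Fin.val_one, if_pos (by omega)]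
  have v0 : ∀ i : ℕ, 1 ≤ i → (cf (n + 1) i) 0 = 0 := by
    intro i hi
    apply Fin.ext
    show (if (0 : Fin (n + 2)).1 < i then (0 : Fin (n + 2)).1 else (0 : Fin (n + 2)).1 + 1) = 0
    rw [Fin.val_zero, if_pos (by omega)]
  have v2 : (cf (n + 1) 0) 1 = (cf (n + 1) 1) 1 := by
    apply Fin.ext
    show (if (1 : Fin (n + 2)).1 < 0 then (1 : Fin (n + 2)).1 else (1 : Fin (n + 2)).1 + 1)
      = (if (1 : Fin (n + 2)).1 < 1 then (1 : Fin (n + 2)).1 else (1 : Fin (n + 2)).1 + 1)
    rw [Fin.val_one, if_neg (by omega), if_neg (by omega)]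
  have v3 : (cf (n + 1) 0) 0 = 1 := by
    apply Fin.ext
    show (if (0 : Fin (n + 2)).1 < 0 then (0 : Fin (n + 2)).1 else (0 : Fin (n + 2)).1 + 1) = 1
    rw [Fin.val_zero, if_neg (by omega)]
  have e1 : (cf (n + 1) 1).comp (cf n 0) = (cf (n + 1) 0).comp (cf n 0) :=
    cf_cf (n := n) (i := 0) (j := 0) (le_refl _)
  -- cocycle condition for w.1 1 on the face cf 0
  have h3 : ∑ i ∈ Finset.range (n + 2), (w.1 1).1 ((cf (n + 1) 0).comp (cf n i)) = 0 := by
    have h4 := (w.1 1).2.2 (cf (n + 1) 0)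
    rw [← Fin.sum_univ_eq_sum_range (fun i => (w.1 1).1 ((cf (n + 1) 0).comp (cf n i))) (n + 2)]
    refine Eq.trans (Finset.sum_congr rfl fun i _ => ?_) h4
    rw [cof_eq]
  rw [Finset.sum_range_succ'] at h3
  rw [h2, Finset.sum_range_succ', Finset.sum_range_succ', h1 0 (by omega), h1 (0 + 1) (by omega)]
  have h5 : ∑ i ∈ Finset.range (n + 1), psiL n ((EM n).bar.map (cf (n + 1) (i + 1 + 1)) w)
      = ∑ i ∈ Finset.range (n + 1), (w.1 1).1 ((cf (n + 1) 0).comp (cf n (i + 1))) := by
    refine Finset.sum_congr rfl fun i hi => ?_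
    have hi' := Finset.mem_range.1 hi
    rw [h1 (i + 1 + 1) (by omega), v1 _ (by omega), v0 _ (by omega), hw0,
      cf_cf (n := n) (i := 0) (j := i + 1) (by omega)]
    show _ - (0 : k) = _
    rw [sub_zero]
  rw [h5, v0 (0 + 1) (by omega), hw0, v3, v2]
  rw [show (0 + 1) = 1 from rfl, e1]
  have h6 := eq_neg_of_add_eq_zero_left h3
  rw [h6]
  show -((w.1 1).1 ((cf (n + 1) 0).comp (cf n 0))) + ((w.1 _).1 _ - (0 : k)) + ((w.1 _).1 _ - (w.1 1).1 _) = 0
  have t1 := k_two ((w.1 ((cf (n + 1) 1) 1)).1 ((cf (n + 1) 0).comp (cf n 0)))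
  have t2 := k_two ((w.1 1).1 ((cf (n + 1) 0).comp (cf n 0)))
  linear_combination t1 - t2

/-- The map from the bar construction. -/
def psi : SV.Hom (EM n).bar (EM (n + 1)) := EMl (EM n).bar (n + 1) (psiL n) (psiL_NF n) (psiL_coc n)

theorem psi_val (v : (EM n).bar.X (n + 1)) : ((psi n).f (n + 1) v).1 OrderHom.id = psiL n v :=
  EMl_apply _ _ _ _ _ _

/-- value of psiL on a lift -/
theorem psiL_lift {g : (EG (EM n)).X (n + 1)} (hg : g ∈ Spl.G (EG (EM n)) (n + 1) 0) {c : (EM n).X n}
    (hc : (EG (EM n)).map (cf n 0) g = (fun _ => c)) :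
    psiL n ((EGp (EM n)).f (n + 1) g) = c.1 OrderHom.id := by
  rw [psiL_apply, EGp_apply]
  have h1 : g 0 ∈ Spl.G (EM n) (n + 1) 0 := by
    intro i hi hi'
    have h2 := congrFun (hg i hi hi') 0
    have e : (cf n i) 0 = 0 := by
      apply Fin.ext
      show (if (0 : Fin (n + 1)).1 < i then (0 : Fin (n + 1)).1 else (0 : Fin (n + 1)).1 + 1) = 0
      rw [Fin.val_zero, if_pos (by omega)]
    have h3 : (EM n).map (cf n i) (g ((cf n i) 0)) = 0 := h2
    rw [e] at h3
    exact h3
  have h2 : g 0 = 0 := EM_ext h1 (Submodule.zero_mem _) (fun h => absurd h (by omega))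
  rw [h2, sub_zero]
  have h3 := congrFun hc 0
  have e : (cf n 0) 0 = 1 := by
    apply Fin.ext
    show (if (0 : Fin (n + 1)).1 < 0 then (0 : Fin (n + 1)).1 else (0 : Fin (n + 1)).1 + 1)
      = (1 : Fin (n + 2)).1
    rw [Fin.val_zero, if_neg (by omega), Fin.val_one]
  have h4 : (EM n).map (cf n 0) (g ((cf n 0) 0)) = c := h3
  rw [e] at h4
  rw [← h4]
  rfl

end

/-- index types: one element in degree n + 1 -/
abbrev I1 (n : ℕ) (j : ℕ) : Type := PLift (j = n + 1)

/-- the family -/
def x1 {V : SV} {n : ℕ} (f : SV.Hom V (EM (n + 1))) (j : ℕ) (i : I1 n j) : SV.Hom V (EM j) :=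
  i.down ▸ f

theorem cd_not_inj {n j : ℕ} (hj : j ≤ n) : ¬ Function.Injective (cd n j) := by
  intro hi
  have h1 : (cd n j) ⟨j, by omega⟩ = (cd n j) ⟨j + 1, by omega⟩ := by
    apply Fin.ext
    show (if j ≤ j then min j n else j - 1) = (if j + 1 ≤ j then min (j + 1) n else j + 1 - 1)
    split_ifs <;> omega
  have h2 := congrArg Fin.val (hi h1)
  have h3 : j = j + 1 := h2
  omega

theorem coc_noninj {n q : ℕ} (z : Mor n q → k) (hz : ∀ s : Mor n q, ¬ Function.Injective s → z s = 0)
    (t : Mor (n + 1) q) (ht : ¬ Function.Injective t) :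
    ∑ i : Fin (n + 2), z (t.comp (cof i)) = 0 := by
  obtain ⟨j, hj, t', rfl⟩ := fac_cd t ht
  have h1 : ∑ i : Fin (n + 2), z ((t'.comp (cd n j)).comp (cof i))
      = ∑ i ∈ Finset.range (n + 2), z (t'.comp ((cd n j).comp (cf n i))) := by
    rw [← Fin.sum_univ_eq_sum_range (fun i => z (t'.comp ((cd n j).comp (cf n i)))) (n + 2)]
    refine Finset.sum_congr rfl fun i _ => ?_
    rw [cof_eq]
    rfl
  have h2 := sum_mid (fun i => z (t'.comp ((cd n j).comp (cf n i)))) j (n - j)
    (by
      show z (t'.comp ((cd n j).comp (cf n j))) = z (t'.comp ((cd n j).comp (cf n (j + 1))))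
      rw [cd_cf_eq hj, cd_cf_eq' hj])
    (by
      intro i hi
      obtain ⟨m, rfl⟩ : ∃ m, n = m + 1 := ⟨n - 1, by omega⟩
      show z (t'.comp ((cd (m + 1) j).comp (cf (m + 1) i))) = 0
      rw [cd_cf_lt hi (by omega)]
      apply hz
      intro hinj
      apply cd_not_inj (n := m) (j := j - 1) (by omega)
      intro a b hab
      apply hinj
      show t' ((cf m i) ((cd m (j - 1)) a)) = t' ((cf m i) ((cd m (j - 1)) b))
      rw [hab])
  have h3 : j + 2 + (n - j) = n + 2 := by omega
  rw [h3] at h2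
  rw [h1, h2]
  refine Finset.sum_eq_zero fun i hi => ?_
  have hi' := Finset.mem_range.1 hi
  obtain ⟨m, rfl⟩ : ∃ m, n = m + 1 := ⟨n - 1, by omega⟩
  show z (t'.comp ((cd (m + 1) j).comp (cf (m + 1) (j + 2 + i)))) = 0
  rw [show j + 2 + i = (j + 1 + i) + 1 by omega, cd_cf_gt (by omega) (by omega)]
  apply hz
  intro hinj
  apply cd_not_inj (n := m) (j := j) (by omega)
  intro a b hab
  apply hinj
  show t' ((cf m (j + 1 + i)) ((cd m j) a)) = t' ((cf m (j + 1 + i)) ((cd m j) b))
  rw [hab]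

/-- The fundamental simplex of `EM n`, times a scalar. -/
noncomputable def fund (n : ℕ) (b : k) : (EM n).X n := ⟨fun s => open Classical in
  if Function.Injective s then b else 0, fun s hs => by
    show (if Function.Injective s then b else 0) = 0
    rw [if_neg hs], fun t => coc_noninj _ (fun s hs => by
    show (if Function.Injective s then b else 0) = 0
    rw [if_neg hs]) t (fun hi => by
    have h1 := Fintype.card_le_of_injective t hi
    rw [Fintype.card_fin, Fintype.card_fin] at h1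
    omega)⟩

theorem fund_id (n : ℕ) (b : k) : (fund n b).1 OrderHom.id = b := by
  show (if Function.Injective (OrderHom.id : Mor n n) then b else 0) = b
  rw [if_pos]
  exact fun a b h => h

theorem fund_ZM (n : ℕ) (b : k) : fund n b ∈ (EM n).ZM n := by
  intro m a ha
  apply Subtype.ext
  funext s
  show (if Function.Injective (a.comp s) then b else 0) = 0
  rw [if_neg]
  intro hi
  apply ha
  have h1 : Function.Injective (a.comp s : Fin (n + 1) → Fin (n + 1)) := hi
  have h2 := Finite.injective_iff_surjective.1 h1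
  intro y
  obtain ⟨x, hx⟩ := h2 y
  exact ⟨s x, hx⟩

theorem psi_basis (n : ℕ) : LinBasis (EM n).bar (x1 (psi n)) where
  fin j := by
    have : Subsingleton (I1 n j) := ⟨fun a b => by cases a; cases b; rfl⟩
    exact Finite.of_subsingleton
  inj m v hv h := by
    cases m with
    | zero =>
      have h1 : v = 0 := by
        apply Subtype.ext
        funext i
        have : i = 0 := Fin.ext (by have := i.2; show i.1 = 0; omega)
        rw [this]
        exact v.2
      rw [h1]
      exact Submodule.zero_mem _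
    | succ m =>
      obtain ⟨g, hg, he, c, hc, hc'⟩ := bar_lift (EM n) hv
      apply bar_zero (EM n) hg he
      rw [hc']
      have h0 : c = 0 := by
        apply EM_ext (ZM_le _ _ hc) (Submodule.zero_mem _)
        intro hm
        subst hm
        have h1 := h ⟨rfl⟩
        have h2 : ((psi n).f (n + 1) v).1 OrderHom.id = 0 := h1
        rw [psi_val, ← he, psiL_lift n hg hc'] at h2
        exact h2
      rw [h0]
      rfl
  surj m b := by
    by_cases hm : m = n + 1
    · subst hm
      obtain ⟨g, hg, hZ, hc⟩ := bar_surj (EM n) (fund_ZM n (b ⟨rfl⟩))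
      refine ⟨_, hZ, ?_⟩
      rintro ⟨i⟩
      show ((psi n).f (n + 1) _).1 OrderHom.id = b ⟨rfl⟩
      rw [psi_val, psiL_lift n hg hc]
      exact fund_id n _
    · exact ⟨0, Submodule.zero_mem _, fun i => absurd i.down hm⟩

end Pool.Agent.SHS.Spl

namespace Pool.Agent.SHS

open Spl

def SV.LHty.toSS {V W : SV} {f g : SV.Hom V W} (h : SV.LHty f g) :
    SS.Homotopy f.toSS g.toSS where
  h n t x := h.h n t x
  nat a t x := h.nat a t x
  zero n x := h.zero n x
  one n x := h.one n x

theorem EMBAR : EMBAR_Stmt := by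
  intro n _
  have hLF : (EM n).bar.LF := by
    intro q
    have h1 : Finite ((EM n).X q) := EMF n q
    have h2 : Finite (Fin (q + 1) → (EM n).X q) := Pi.finite
    exact Subtype.finite
  obtain ⟨Γ, h1, ⟨h2⟩⟩ := SPLIT (EM n).bar hLF (x1 (psi n)) (psi_basis n)
  let E : SV.Hom (EM (n + 1)) (EMpi (I1 n)) := SV.Hom.lift
    (W := fun p : (Σ j, I1 n j) => EM p.1) fun p => x1 (SV.Hom.id (EM (n + 1))) p.1 p.2
  have hE : ∀ q (v : (EM n).bar.X q), E.f q ((psi n).f q v) = (Lam (x1 (psi n))).f q v := by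
    intro q v
    funext p
    obtain ⟨j, ⟨rfl⟩⟩ := p
    rfl
  refine ⟨(Γ.comp E).toSS, (psi n).toSS, ?_, ?_⟩
  · intro a
    rw [← H.map_comp]
    have h3 := HTY _ _ _ _ ⟨h2.toSS⟩ a
    have h4 : (Γ.comp (Lam (x1 (psi n)))).toSS = (Γ.comp E).toSS.comp (psi n).toSS := by
      apply SS.Hom.ext'
      intro q v
      show Γ.f q ((Lam (x1 (psi n))).f q v) = Γ.f q (E.f q ((psi n).f q v))
      rw [hE]
    rw [← h4, ← h3]
    exact H.map_id a
  · intro a
    rw [← H.map_comp]
    have h4 : (psi n).toSS.comp (Γ.comp E).toSS = SS.Hom.id _ := by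
      apply SS.Hom.ext'
      intro q z
      have h5 := congrFun (h1 q (E.f q z)) ⟨n + 1, ⟨rfl⟩⟩
      exact h5
    rw [h4, H.map_id]

end Pool.Agent.SHS
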