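import Pool.Agent.SH.S.StmtsW
import Pool.Agent.SH.S.Pow

/-!
Block III-S: finite products of simplicial sets with square free bases (Kuenneth).
-/

namespace Pool.Agent.SHS

open Coch

namespace Fpr

/-- change of the letters along an equivalence -/
theorem sfb_reindex {X : SS} {L L' : Type} {d : L → ℕ} {g : L → H X} (h : SFB X d g)
    (σ : L' ≃ L) : SFB X (fun l => d (σ l)) (fun l => g (σ l)) := by
  have h1 := Pow.reindex h (Equiv.finsetCongr σ)
  have e1 : (fun S : Finset L' => ∑ p ∈ S, d (σ p)) =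
      fun S => ∑ p ∈ (Equiv.finsetCongr σ) S, d p := by
    funext S
    rw [Equiv.finsetCongr_apply, Finset.sum_map]
    rfl
  have e2 : (fun S : Finset L' => ∏ p ∈ S, g (σ p)) =
      fun S => ∏ p ∈ (Equiv.finsetCongr σ) S, g p := by
    funext S
    rw [Equiv.finsetCongr_apply, Finset.prod_map]
    rfl
  show HB X (fun S : Finset L' => ∑ p ∈ S, d (σ p)) (fun S => ∏ p ∈ S, g (σ p))
  rw [e1, e2]
  exact h1

/-- change of the letters and of their names -/
theorem sfb_congr {X : SS} {L L' : Type} {d : L → ℕ} {g : L → H X} (h : SFB X d g)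
    (σ : L' ≃ L) (d' : L' → ℕ) (g' : L' → H X) (hd : ∀ l, d' l = d (σ l))
    (hg : ∀ l, g' l = g (σ l)) : SFB X d' g' := by
  have e1 : d' = fun l => d (σ l) := funext hd
  have e2 : g' = fun l => g (σ l) := funext hg
  rw [e1, e2]
  exact sfb_reindex h σ

/-- isomorphisms -/
theorem sfb_iso {X Y : SS} (φ : SS.Hom X Y) (ψ : SS.Hom Y X)
    (h1 : ∀ n x, ψ.f n (φ.f n x) = x) (h2 : ∀ n y, φ.f n (ψ.f n y) = y)
    {L : Type} {d : L → ℕ} {g : L → H Y} (h : SFB Y d g) :
    SFB X d (fun l => H.map φ (g l)) := by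
  have h3 := HB.iso φ ψ h1 h2 h
  have e2 : (fun S : Finset L => ∏ p ∈ S, H.map φ (g p)) = fun S => H.map φ (∏ p ∈ S, g p) := by
    funext S
    rw [map_prod]
  show HB X (fun S : Finset L => ∑ p ∈ S, d p) (fun S => ∏ p ∈ S, H.map φ (g p))
  rw [e2]
  exact h3

/-- products of two -/
theorem sfb_prod (hK : KUN_Stmt) {X Y : SS} (hX : X.LF) (hY : Y.LF) {L L' : Type} {d : L → ℕ}
    {d' : L' → ℕ} {g : L → H X} {g' : L' → H Y} (h : SFB X d g) (h' : SFB Y d' g') :
    SFB (X.prod Y) (Sum.elim d d')
      (Sum.elim (fun l => H.map (SS.fst X Y) (g l)) (fun l => H.map (SS.snd X Y) (g' l))) := by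
  classical
  have h1 := hK X Y hX hY _ _ _ _ h h'
  have h2 := Pow.reindex h1 (Finset.sumEquiv (α := L) (β := L')).toEquiv
  have e1 : (fun S : Finset (L ⊕ L') => ∑ p ∈ S, Sum.elim d d' p) =
      fun S => ∑ p ∈ ((Finset.sumEquiv (α := L) (β := L')).toEquiv S).1, d p +
        ∑ p ∈ ((Finset.sumEquiv (α := L) (β := L')).toEquiv S).2, d' p := by
    funext S
    conv_lhs => rw [← Finset.toLeft_disjSum_toRight (u := S)]
    rw [Finset.sum_disjSum]
    rfl
  have e2 : (fun S : Finset (L ⊕ L') => ∏ p ∈ S,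
      Sum.elim (fun l => H.map (SS.fst X Y) (g l)) (fun l => H.map (SS.snd X Y) (g' l)) p) =
      fun S => H.map (SS.fst X Y) (∏ p ∈ ((Finset.sumEquiv (α := L) (β := L')).toEquiv S).1, g p) *
        H.map (SS.snd X Y) (∏ p ∈ ((Finset.sumEquiv (α := L) (β := L')).toEquiv S).2, g' p) := by
    funext S
    conv_lhs => rw [← Finset.toLeft_disjSum_toRight (u := S)]
    rw [Finset.prod_disjSum, map_prod, map_prod]
    rfl
  show HB (X.prod Y) (fun S : Finset (L ⊕ L') => ∑ p ∈ S, Sum.elim d d' p)
    (fun S => ∏ p ∈ S,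
      Sum.elim (fun l => H.map (SS.fst X Y) (g l)) (fun l => H.map (SS.snd X Y) (g' l)) p)
  rw [e1, e2]
  exact h2

/-- the empty product -/
theorem sfb_point {X : SS} (hs : ∀ n, Subsingleton (X.X n)) (hne : ∀ n, Nonempty (X.X n))
    {L : Type} [IsEmpty L] (d : L → ℕ) (g : L → H X) : SFB X d g := by
  have hS : ∀ S : Finset L, S = ∅ := fun S => Finset.eq_empty_of_isEmpty S
  refine ⟨?_, ?_, ?_⟩
  · intro S
    rw [hS S, Finset.sum_empty, Finset.prod_empty]
    exact Hn_one
  · have e : (fun S : Finset L => ∏ p ∈ S, g p) = fun _ => (1 : H X) := by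
      funext S
      rw [hS S, Finset.prod_empty]
    rw [e, linearIndependent_unique_iff]
    exact Pow.one_ne (hne 0).some
  · intro n a ha
    rcases Pow.point hs hne n a ha with ⟨rfl, c, rfl⟩ | rfl
    · apply Submodule.smul_mem
      apply Submodule.subset_span
      exact ⟨∅, Finset.sum_empty, Finset.prod_empty⟩
    · exact Submodule.zero_mem _

end Fpr

open Pool.Agent.SHS.Fpr in
theorem FPR (hK : KUN_Stmt) : FPR_Stmt := by
  intro A hA
  refine Finite.induction_empty_option (P := fun A : Type => ∀ (W : A → SS), (∀ a, (W a).LF) →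
    ∀ (L : A → Type) (d : ∀ a, L a → ℕ) (g : ∀ a, L a → H (W a)), (∀ a, SFB (W a) (d a) (g a)) →
    SFB (SS.pi W) (fun p : (Σ a, L a) => d p.1 p.2) (fun p => H.map (SS.pr W p.1) (g p.1 p.2)))
    ?_ ?_ ?_ A
  · intro α β e ih W hW L d g h
    have h1 := ih (fun a => W (e a)) (fun a => hW _)
      (fun a => L (e a)) (fun a => d (e a)) (fun a => g (e a)) (fun a => h _)
    let φ : SS.Hom (SS.pi W) (SS.pi fun a => W (e a)) := ⟨fun _ x a => x (e a), fun _ _ => rfl⟩
    let ψ : SS.Hom (SS.pi fun a => W (e a)) (SS.pi W) :=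
      ⟨fun n => Equiv.piCongrLeft (fun b => (W b).X n) e, fun f x => by
        funext b
        obtain ⟨a, rfl⟩ := e.surjective b
        rw [Equiv.piCongrLeft_apply_apply]
        show _ = (W (e a)).map f ((Equiv.piCongrLeft (fun b => (W b).X _) e) x (e a))
        rw [Equiv.piCongrLeft_apply_apply]⟩
    have h2 := sfb_iso φ ψ (fun n x => by
      funext b
      obtain ⟨a, rfl⟩ := e.surjective b
      exact Equiv.piCongrLeft_apply_apply (fun b => (W b).X n) e _ a) (fun n y => by
      funext a
      exact Equiv.piCongrLeft_apply_apply (fun b => (W b).X n) e _ a) h1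
    let σ : (Σ b, L b) ≃ (Σ a, L (e a)) := (Equiv.sigmaCongrLeft (β := L) e).symm
    refine sfb_congr h2 σ _ _ ?_ ?_
    · intro l
      obtain ⟨l', rfl⟩ := σ.symm.surjective l
      rw [Equiv.apply_symm_apply]
      rfl
    · intro l
      obtain ⟨l', rfl⟩ := σ.symm.surjective l
      rw [Equiv.apply_symm_apply, ← H.map_comp]
      rfl
  · intro W hW L d g h
    exact sfb_point (fun n => ⟨fun x y => by funext a; exact a.elim⟩) (fun n => ⟨fun a => a.elim⟩)
      _ _
  · intro α _ ih W hW L d g h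
    have h1 := ih (fun a => W (some a)) (fun a => hW _)
      (fun a => L (some a)) (fun a => d (some a)) (fun a => g (some a)) (fun a => h _)
    have hl : (SS.pi fun a => W (some a)).LF := by
      intro n
      have := fun a => hW (some a) n
      show Finite (∀ a, (W (some a)).X n)
      exact Pi.finite
    have h2 := sfb_prod hK (hW none) hl (h none) h1
    let φ : SS.Hom (SS.pi W) ((W none).prod (SS.pi fun a => W (some a))) :=
      ⟨fun _ x => (x none, fun a => x (some a)), fun _ _ => rfl⟩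
    let ψ : SS.Hom ((W none).prod (SS.pi fun a => W (some a))) (SS.pi W) :=
      ⟨fun n y o => Option.rec y.1 y.2 o, fun f y => by
        funext o
        cases o <;> rfl⟩
    have h3 := sfb_iso φ ψ (fun n x => by
      funext o
      cases o <;> rfl) (fun n y => rfl) h2
    let σ : (Σ o, L o) ≃ L none ⊕ (Σ a, L (some a)) :=
      { toFun := fun p => match p with
          | ⟨none, l⟩ => Sum.inl l
          | ⟨some a, l⟩ => Sum.inr ⟨a, l⟩
        invFun := fun q => match q with
          | Sum.inl l => ⟨none, l⟩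
          | Sum.inr ⟨a, l⟩ => ⟨some a, l⟩
        left_inv := fun p => by
          obtain ⟨o, l⟩ := p
          cases o <;> rfl
        right_inv := fun q => by
          rcases q with l | ⟨a, l⟩ <;> rfl }
    refine sfb_congr h3 σ _ _ ?_ ?_
    · rintro ⟨o, l⟩
      cases o <;> rfl
    · rintro ⟨o, l⟩
      cases o with
      | none =>
        show _ = H.map φ (H.map (SS.fst _ _) (g none l))
        rw [← H.map_comp]
        rfl
      | some a =>
        show _ = H.map φ (H.map (SS.snd _ _) (H.map (SS.pr (fun a => W (some a)) a) (g (some a) l)))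
        rw [← H.map_comp, ← H.map_comp]
        rfl

end Pool.Agent.SHS
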