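import Pool.Agent.SH.S.StmtsW
import Pool.Agent.SH.S.Fpr

/-!
Block III-S: cohomology of locally finite products of Eilenberg-MacLane objects (GENP) and of
simplicial vector spaces with finite levels (GENV).
-/

namespace Pool.Agent.SHS

open Coch

namespace Gen

section
variable {A : Type} (W : A → SV) (r : A → ℕ)

/-- restriction to the factors with `r ≤ q` -/
def res (q : ℕ) : SS.Hom (SV.pi W).toSS (SS.pi fun a : {a // r a ≤ q} => (W a.1).toSS) :=
  ⟨fun _ x a => x a.1, fun _ _ => rfl⟩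

/-- extension by zero -/
def ext0 (q : ℕ) : SS.Hom (SS.pi fun a : {a // r a ≤ q} => (W a.1).toSS) (SV.pi W).toSS :=
  ⟨fun n y a => if h : r a ≤ q then y ⟨a, h⟩ else 0, fun {m n} f y => by
    funext a
    show (if h : r a ≤ q then (W a).map f (y ⟨a, h⟩) else 0) =
      (W a).map f (if h : r a ≤ q then y ⟨a, h⟩ else 0)
    split_ifs with h
    · rfl
    · rw [map_zero]⟩

theorem map_res_ext {q n : ℕ} (hpt : ∀ a, q < r a → ∀ x : (W a).X n, x = 0)
    (a : H (SV.pi W).toSS) (ha : a ∈ Hn (SV.pi W).toSS n) :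
    H.map (res W r q) (H.map (ext0 W r q) a) = a := by
  obtain ⟨f, hf, rfl⟩ := mem_Hn.mp ha
  rw [← H.map_comp, H.map_cls]
  congr 1
  apply Subtype.ext
  ext m x
  show f.1 m (((ext0 W r q).comp (res W r q)).f m x) = f.1 m x
  by_cases h : m = n
  · subst h
    congr 1
    funext a
    show (if h : r a ≤ q then x a else 0) = x a
    split_ifs with h
    · rfl
    · exact (hpt a (by omega) _).symm
  · rw [hf m h, hf m h]

/-- inclusion of the letters -/
def io (L : A → Type) (q : ℕ) (p : Σ a : {a // r a ≤ q}, L a.1) : Σ a, L a := ⟨p.1.1, p.2⟩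

theorem io_inj (L : A → Type) (q : ℕ) : Function.Injective (io r L q) := by
  rintro ⟨⟨a, ha⟩, l⟩ ⟨⟨b, hb⟩, l'⟩ h
  unfold io at h
  simp only [Sigma.mk.injEq] at h
  obtain ⟨h1, h2⟩ := h
  subst h1
  simp only [heq_eq_eq] at h2
  subst h2
  rfl

theorem ext0_pr (L : A → Type) (g : ∀ a, L a → H (W a).toSS) (q : ℕ)
    (p : Σ a : {a // r a ≤ q}, L a.1) :
    H.map (ext0 W r q) (H.map (SV.Hom.pr W (io r L q p).1).toSS (g (io r L q p).1 (io r L q p).2))
      = H.map (SS.pr (fun a : {a // r a ≤ q} => (W a.1).toSS) p.1) (g p.1.1 p.2) := by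
  rw [← H.map_comp]
  have h : ((SV.Hom.pr W (io r L q p).1).toSS).comp (ext0 W r q)
      = SS.pr (fun a : {a // r a ≤ q} => (W a.1).toSS) p.1 := by
    apply SS.Hom.ext'
    intro n y
    exact dif_pos p.1.2
  rw [h]
  rfl

theorem res_pr (L : A → Type) (g : ∀ a, L a → H (W a).toSS) (q : ℕ)
    (p : Σ a : {a // r a ≤ q}, L a.1) :
    H.map (res W r q) (H.map (SS.pr (fun a : {a // r a ≤ q} => (W a.1).toSS) p.1) (g p.1.1 p.2))
      = H.map (SV.Hom.pr W (io r L q p).1).toSS (g (io r L q p).1 (io r L q p).2) := by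
  rw [← H.map_comp]
  rfl

end

theorem inf (hF : FPR_Stmt) {A : Type} (W : A → SV) (r : A → ℕ) (hW : ∀ a, (W a).LF)
    (hfin : ∀ q, Finite {a // r a ≤ q}) (hpt : ∀ a n, n < r a → ∀ x : (W a).X n, x = 0)
    (L : A → Type) (d : ∀ a, L a → ℕ) (g : ∀ a, L a → H (W a).toSS)
    (h : ∀ a, SFB (W a).toSS (d a) (g a)) :
    SFB (SV.pi W).toSS (fun p : (Σ a, L a) => d p.1 p.2)
      (fun p => H.map (SV.Hom.pr W p.1).toSS (g p.1 p.2)) := by
  classical
  have hq : ∀ q, SFB (SS.pi fun a : {a // r a ≤ q} => (W a.1).toSS)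
      (fun p : (Σ a : {a // r a ≤ q}, L a.1) => d p.1.1 p.2)
      (fun p => H.map (SS.pr (fun a : {a // r a ≤ q} => (W a.1).toSS) p.1) (g p.1.1 p.2)) :=
    fun q => hF _ (hfin q) (fun a => (W a.1).toSS) (fun a => hW _) (fun a => L a.1)
      (fun a => d a.1) (fun a => g a.1) (fun a => h _)
  refine ⟨?_, ?_, ?_⟩
  · intro S
    apply Hn_prod
    intro p _
    apply H.map_mem
    have h1 := (h p.1).mem {p.2}
    rw [Finset.prod_singleton, Finset.sum_singleton] at h1
    exact h1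
  · rw [linearIndependent_iff_finset_linearIndependent]
    intro s
    let q : ℕ := s.sup (fun S => S.sup (fun p => r p.1))
    have hle : ∀ S ∈ s, ∀ p ∈ S, r p.1 ≤ q := by
      intro S hS p hp
      exact le_trans (Finset.le_sup (f := fun p : (Σ a, L a) => r p.1) hp)
        (Finset.le_sup (f := fun S : Finset (Σ a, L a) => S.sup (fun p => r p.1)) hS)
    let pull : s → Finset (Σ a : {a // r a ≤ q}, L a.1) :=
      fun S => S.1.preimage (io r L q) ((io_inj r L q).injOn)
    have hmem : ∀ (S : s) (p : Σ a, L a) (hp : r p.1 ≤ q),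
        p ∈ S.1 ↔ (⟨⟨p.1, hp⟩, p.2⟩ : Σ a : {a // r a ≤ q}, L a.1) ∈ pull S := by
      intro S p hp
      show _ ↔ _ ∈ S.1.preimage (io r L q) ((io_inj r L q).injOn)
      rw [Finset.mem_preimage]
      rfl
    have hinj : Function.Injective pull := by
      intro S S' hSS
      apply Subtype.ext
      apply Finset.ext
      intro p
      constructor
      · intro hp
        have h1 := hle S.1 S.2 p hp
        rw [hmem S' p h1, ← hSS, ← hmem S p h1]
        exact hp
      · intro hp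
        have h1 := hle S'.1 S'.2 p hp
        rw [hmem S p h1, hSS, ← hmem S' p h1]
        exact hp
    apply LinearIndependent.of_comp (H.map (ext0 W r q)).toLinearMap
    have h1 := (hq q).indep.comp pull hinj
    have e : (⇑(H.map (ext0 W r q)).toLinearMap ∘
        (fun S : Finset (Σ a, L a) => ∏ p ∈ S, H.map (SV.Hom.pr W p.1).toSS (g p.1 p.2)) ∘
          (Subtype.val : s → Finset (Σ a, L a))) =
        (fun S : Finset (Σ a : {a // r a ≤ q}, L a.1) => ∏ p ∈ S,
          H.map (SS.pr (fun a : {a // r a ≤ q} => (W a.1).toSS) p.1) (g p.1.1 p.2)) ∘ pull := by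
      funext S
      show H.map (ext0 W r q) (∏ p ∈ S.1, H.map (SV.Hom.pr W p.1).toSS (g p.1 p.2)) =
        ∏ p ∈ pull S, H.map (SS.pr (fun a : {a // r a ≤ q} => (W a.1).toSS) p.1) (g p.1.1 p.2)
      rw [map_prod]
      rw [← Finset.prod_preimage (io r L q) S.1 ((io_inj r L q).injOn)]
      · exact Finset.prod_congr rfl fun p _ => ext0_pr W r L g q p
      · intro p hp hn
        exact absurd ⟨⟨⟨p.1, hle S.1 S.2 p hp⟩, p.2⟩, rfl⟩ hn
    have e' : (⇑(H.map (ext0 W r q)).toLinearMap ∘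
        ((fun S : Finset (Σ a, L a) => ∏ p ∈ S, H.map (SV.Hom.pr W p.1).toSS (g p.1 p.2)) ∘
          (Subtype.val : s → Finset (Σ a, L a)))) =
        (fun S : Finset (Σ a : {a // r a ≤ q}, L a.1) => ∏ p ∈ S,
          H.map (SS.pr (fun a : {a // r a ≤ q} => (W a.1).toSS) p.1) (g p.1.1 p.2)) ∘ pull := e
    exact e' ▸ h1
  · intro n a ha
    have h1 := (hq n).span n (H.map_mem (ext0 W r n) ha)
    have h2 := Submodule.mem_map_of_mem (f := (H.map (res W r n)).toLinearMap) h1
    have h3 : (H.map (res W r n)).toLinearMap (H.map (ext0 W r n) a) = a :=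
      map_res_ext W r (fun b hb x => hpt b n hb x) a ha
    rw [h3, Submodule.map_span] at h2
    refine Submodule.span_mono ?_ h2
    rintro _ ⟨_, ⟨S, hS, rfl⟩, rfl⟩
    refine ⟨S.map ⟨io r L n, io_inj r L n⟩, ?_, ?_⟩
    · show ∑ p ∈ S.map ⟨io r L n, io_inj r L n⟩, d p.1 p.2 = n
      rw [Finset.sum_map]
      exact hS
    · show ∏ p ∈ S.map ⟨io r L n, io_inj r L n⟩, H.map (SV.Hom.pr W p.1).toSS (g p.1 p.2) =
        H.map (res W r n) (∏ p ∈ S,
          H.map (SS.pr (fun a : {a // r a ≤ n} => (W a.1).toSS) p.1) (g p.1.1 p.2))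
      rw [Finset.prod_map, map_prod]
      exact Finset.prod_congr rfl fun p _ => (res_pr W r L g n p).symm

end Gen

open Pool.Agent.SHS.Gen Pool.Agent.SHS.Fpr in
theorem GENP (hF : FPR_Stmt) (hSC : SC_Stmt) : GENP_Stmt := by
  intro I hI h0 μ hμ
  have hpos : ∀ p : (Σ j, I j), 1 ≤ p.1 := by
    rintro ⟨j, i⟩
    rcases Nat.eq_zero_or_pos j with h | h
    · subst h
      exact (h0.false i).elim
    · exact h
  have h1 := inf hF (fun p : (Σ j, I j) => EM p.1) (fun p => p.1) (fun p => EMF p.1)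
    (fun q => by
      have h2 : Finite (Σ j : Fin (q + 1), I j.1) := by
        have := fun j : Fin (q + 1) => hI j.1
        infer_instance
      refine Finite.of_injective
        (fun a : {a : (Σ j, I j) // a.1 ≤ q} =>
          (⟨⟨a.1.1, Nat.lt_succ_of_le a.2⟩, a.1.2⟩ : Σ j : Fin (q + 1), I j.1)) ?_
      rintro ⟨⟨j, i⟩, hj⟩ ⟨⟨j', i'⟩, hj'⟩ h
      simp only [Sigma.mk.injEq, Fin.mk.injEq] at h
      obtain ⟨h3, h4⟩ := h
      subst h3
      simp only [heq_eq_eq] at h4
      subst h4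
      rfl)
    (fun p n hn x => by
      apply Subtype.ext
      funext s
      refine x.2.1 s ?_
      intro hs
      have h3 := Fintype.card_le_of_injective s hs
      rw [Fintype.card_fin, Fintype.card_fin] at h3
      omega)
    (fun p => {J : Multiset ℕ // Multiset.card J = p.1}) (fun p J => wgt J.1)
    (fun p J => μ p.1 J.1) (fun p => hSC p.1 (hpos p) (μ p.1) (hμ p.1 (hpos p)))
  exact sfb_congr h1 (⟨fun x => ⟨⟨x.1, x.2.1⟩, x.2.2⟩, fun y => ⟨y.1.1, y.1.2, y.2⟩,
    fun _ => rfl, fun _ => rfl⟩ : (Σ j, I j × {J : Multiset ℕ // Multiset.card J = j}) ≃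
      (Σ p : (Σ j, I j), {J : Multiset ℕ // Multiset.card J = p.1})) _ _
    (fun _ => rfl) (fun _ => rfl)

theorem GENV (hP : GENP_Stmt) (hS : SPLIT_Stmt) (hH : HTY_Stmt) : GENV_Stmt := by
  intro V hV hV0 I x hx μ hμ
  have h0 : IsEmpty (I 0) := by
    constructor
    intro i
    obtain ⟨v, _, hv⟩ := hx.surj 0 (fun _ => 1)
    have h1 := hv i
    rw [hV0 v, map_zero] at h1
    exact zero_ne_one h1
  obtain ⟨Γ, hΓ, ⟨hh⟩⟩ := hS V hV x hx
  have h1 := hP I hx.fin h0 μ hμ
  have h2 := h1.transport (Lam x).toSS Γ.toSS (by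
    intro a
    rw [← H.map_comp]
    have : (Lam x).toSS.comp Γ.toSS = SS.Hom.id (EMpi I).toSS := by
      apply SS.Hom.ext'
      intro n w
      exact hΓ n w
    rw [this, H.map_id]) (by
    intro a
    rw [← H.map_comp]
    rw [← hH V.toSS V.toSS (SS.Hom.id V.toSS) (Γ.toSS.comp (Lam x).toSS)
      ⟨⟨fun n t v => hh.h n t v, fun f t v => hh.nat f t v, fun n v => hh.zero n v,
        fun n v => hh.one n v⟩⟩ a, H.map_id])
  have e : (fun S : Finset (Σ j, I j × {J : Multiset ℕ // Multiset.card J = j}) =>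
      ∏ p ∈ S, H.map (x p.1 p.2.1).toSS (μ p.1 p.2.2.1)) = fun S =>
      H.map (Lam x).toSS (∏ p ∈ S,
      H.map (SV.Hom.pr (fun p : (Σ j, I j) => EM p.1) ⟨p.1, p.2.1⟩).toSS (μ p.1 p.2.2.1)) := by
    funext S
    rw [map_prod]
    refine Finset.prod_congr rfl fun p _ => ?_
    rw [← H.map_comp]
    rfl
  rw [e]
  exact h2

end Pool.Agent.SHS
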