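import Pool.Agent.SH.S.StmtsW
import Pool.Agent.SH.S.Pow

/-!
Block III-S: the cohomology of a simplicial vector space is a polynomial algebra.
-/

namespace Pool.Agent.SHS

namespace POLYm

theorem mu_shift {n : ℕ} {μ : Multiset ℕ → H (EM n).toSS} (h : MuFam n μ) (J : Multiset ℕ)
    (hJ : Multiset.card J = n) (r : ℕ) : μ (J.map (· + r)) = μ J ^ (2 ^ r) := by
  induction r with
  | zero => simp
  | succ r ih =>
    have h1 : J.map (· + (r + 1)) = (J.map (· + r)).map (· + 1) := by
      rw [Multiset.map_map]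
      rfl
    rw [h1, h.sq _ (by rw [Multiset.card_map]; exact hJ), ih, ← pow_mul, pow_succ]

theorem card_le_wgt (J : Multiset ℕ) : Multiset.card J ≤ wgt J := by
  induction J using Multiset.induction_on with
  | empty => simp [wgt]
  | cons a J ih =>
    have h1 : wgt (a ::ₘ J) = 2 ^ a + wgt J := by simp [wgt]
    have h2 : 0 < 2 ^ a := by positivity
    rw [h1, Multiset.card_cons]
    omega

/-- Letters. -/
abbrev Let (I : ℕ → Type) : Type := Σ j, I j × {J : Multiset ℕ // Multiset.card J = j}

/-- Generators. -/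
abbrev Gen (I : ℕ → Type) : Type := Σ j, I j × {J : Multiset ℕ // Multiset.card J = j ∧ 0 ∈ J}

/-- The letter of a generator and a power of the Frobenius. -/
def kap {I : ℕ → Type} (q : Gen I × ℕ) : Let I := ⟨q.1.1, q.1.2.1, shJ (q.1.2.2, q.2)⟩

theorem kap_bij {I : ℕ → Type} (h0 : IsEmpty (I 0)) (hS : SHIFT_Stmt) :
    Function.Bijective (kap (I := I)) := by
  have hpos : ∀ j, I j → 1 ≤ j := by
    intro j i
    rcases Nat.eq_zero_or_pos j with h | h
    · subst h
      exact h0.elim i
    · exact h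
  constructor
  · rintro ⟨⟨j, i, J⟩, r⟩ ⟨⟨j', i', J'⟩, r'⟩ h
    obtain rfl : j = j' := congrArg Sigma.fst h
    have h2 : (i, shJ (J, r)) = (i', shJ (J', r')) := eq_of_heq (Sigma.mk.inj h).2
    have h3 : i = i' := congrArg Prod.fst h2
    have h4 : shJ (J, r) = shJ (J', r') := congrArg Prod.snd h2
    have h5 := (hS.1 j (hpos j i)).1 h4
    have h6 : J = J' := congrArg Prod.fst h5
    have h7 : r = r' := congrArg Prod.snd h5
    subst h3 h6 h7
    rfl
  · rintro ⟨j, i, J⟩
    obtain ⟨⟨J', r⟩, h⟩ := (hS.1 j (hpos j i)).2 J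
    refine ⟨(⟨j, i, J'⟩, r), ?_⟩
    show (⟨j, i, shJ (J', r)⟩ : Let I) = ⟨j, i, J⟩
    rw [h]

/-- A linear map which is independent on a basis is injective. -/
theorem inj_of_indep {M N ι : Type} [AddCommGroup M] [Module k M] [AddCommGroup N] [Module k N]
    (B : Module.Basis ι k M) (L : M →ₗ[k] N) (h : LinearIndependent k (fun i => L (B i))) :
    Function.Injective L := by
  have h1 : ∀ x, L x = Finsupp.linearCombination k (fun i => L (B i)) (B.repr x) := by
    intro x
    conv_lhs => rw [← B.linearCombination_repr x]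
    exact Finsupp.apply_linearCombination k L B (B.repr x)
  intro x y hxy
  rw [h1, h1] at hxy
  exact B.repr.injective (h hxy)

/-- From a homogeneous basis of monomials to a polynomial algebra. -/
theorem polyGen_of {X : SS} {σ : Type} (w : σ → ℕ) (g : σ → H X) (hpos : ∀ s, 0 < w s)
    (hfin : ∀ n, {s | w s ≤ n}.Finite)
    (hb : HB X (fun f : σ →₀ ℕ => f.sum fun s m => m * w s)
      (fun f => f.prod fun s m => g s ^ m)) : PolyGen X w g := by
  have hmon : ∀ f : σ →₀ ℕ, MvPolynomial.aeval (R := k) g (MvPolynomial.monomial f (1 : k)) =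
      f.prod fun s m => g s ^ m := by
    intro f
    rw [MvPolynomial.aeval_monomial, map_one, one_mul]
  have hwt : ∀ f : σ →₀ ℕ, Finsupp.weight w f = f.sum fun s m => m * w s := by
    intro f
    rw [Finsupp.weight_apply]
    rfl
  refine ⟨hpos, hfin, ?_, ?_⟩
  · have h1 := inj_of_indep (MvPolynomial.basisMonomials σ k)
      (MvPolynomial.aeval (R := k) g).toLinearMap (by
        have h2 : (fun f : σ →₀ ℕ => (MvPolynomial.aeval (R := k) g).toLinearMap
            (MvPolynomial.basisMonomials σ k f)) = fun f => f.prod fun s m => g s ^ m := by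
          funext f
          rw [MvPolynomial.coe_basisMonomials]
          exact hmon f
        rw [h2]
        exact hb.indep)
    exact h1
  · intro n
    apply le_antisymm
    · refine (hb.span n).trans (Submodule.span_le.2 ?_)
      rintro _ ⟨f, hf, rfl⟩
      refine ⟨MvPolynomial.monomial f (1 : k), ?_, hmon f⟩
      exact MvPolynomial.isWeightedHomogeneous_monomial w f 1 ((hwt f).trans hf)
    · rintro _ ⟨p, hp, rfl⟩
      have h1 : MvPolynomial.IsWeightedHomogeneous w p n := hp
      show MvPolynomial.aeval (R := k) g p ∈ Hn X n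
      rw [MvPolynomial.as_sum p, map_sum]
      refine Submodule.sum_mem _ fun f hf => ?_
      have h2 : Finsupp.weight w f = n := h1 (MvPolynomial.mem_support_iff.1 hf)
      have h3 : MvPolynomial.monomial f (MvPolynomial.coeff f p) =
          MvPolynomial.coeff f p • MvPolynomial.monomial f (1 : k) := by
        rw [MvPolynomial.smul_monomial, smul_eq_mul, mul_one]
      rw [h3, map_smul, hmon]
      apply Submodule.smul_mem
      rw [← h2, hwt]
      exact hb.mem f

end POLYm

open POLYm in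
theorem POLY (hG : GENV_Stmt) (hW : WF_Stmt) (hB : BIN_Stmt) (hS : SHIFT_Stmt) : POLY_Stmt := by
  intro V hV h0 I x hx μ hμ
  have hI0 : IsEmpty (I 0) := by
    refine ⟨fun i => ?_⟩
    obtain ⟨v, -, h⟩ := hx.surj 0 (fun _ => 1)
    have h1 := h i
    rw [h0 v, map_zero] at h1
    exact zero_ne_one h1
  have hpos : ∀ j, I j → 1 ≤ j := by
    intro j i
    rcases Nat.eq_zero_or_pos j with h | h
    · subst h
      exact hI0.elim i
    · exact h
  have hbij := kap_bij hI0 hS
  obtain ⟨κ, hκ⟩ : ∃ κ : Gen I × ℕ ≃ Let I, ∀ q, κ q = kap q :=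
    ⟨Equiv.ofBijective kap hbij, fun _ => rfl⟩
  obtain ⟨e, he1, he2⟩ := hB (Gen I)
  have hb := hG V hV h0 x hx μ hμ
  have hb2 := Pow.reindex hb (e.symm.trans (Equiv.finsetCongr κ))
  refine polyGen_of _ _ ?_ ?_ ?_
  · intro s
    have h1 := card_le_wgt s.2.2.1
    have h2 : 0 < Multiset.card s.2.2.1 := Multiset.card_pos_iff_exists_mem.2 ⟨0, s.2.2.2.2⟩
    omega
  · intro n
    have h1 : ∀ j, (((fun p : I j × {J : Multiset ℕ // Multiset.card J = j ∧ 0 ∈ J} =>
        (⟨j, p⟩ : Gen I)) '' (Set.univ ×ˢ {J | wgt J.1 ≤ n})).Finite) := by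
      intro j
      have := hx.fin j
      refine Set.Finite.image _ (Set.Finite.prod Set.finite_univ ?_)
      have h2 := hW j n
      refine Set.Finite.preimage (f := fun J : {J : Multiset ℕ // Multiset.card J = j ∧ 0 ∈ J} =>
        (⟨J.1, J.2.1⟩ : {J : Multiset ℕ // Multiset.card J = j})) ?_ h2
      intro a _ b _ hab
      have h3 := congrArg (fun J : {J : Multiset ℕ // Multiset.card J = j} => J.1) hab
      exact Subtype.ext h3
    refine Set.Finite.subset (Set.Finite.biUnion (Finset.range (n + 1)).finite_toSet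
      fun j _ => h1 j) ?_
    rintro ⟨j, i, J⟩ hs
    have hs' : wgt J.1 ≤ n := hs
    have h2 := card_le_wgt J.1
    rw [J.2.1] at h2
    rw [Set.mem_iUnion₂]
    refine ⟨j, ?_, (i, J), ⟨Set.mem_univ _, hs'⟩, rfl⟩
    rw [Finset.mem_coe, Finset.mem_range]
    omega
  · have hd : (fun f : Gen I →₀ ℕ => ∑ p ∈ (e.symm.trans (Equiv.finsetCongr κ)) f,
        wgt p.2.2.1) = fun f => f.sum fun s m => m * wgt s.2.2.1 := by
      funext f
      have h1 : (e.symm.trans (Equiv.finsetCongr κ)) f = (e.symm f).map κ.toEmbedding := rfl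
      rw [h1, Finset.sum_map]
      have h2 := he2 (fun s : Gen I => wgt s.2.2.1) (e.symm f)
      rw [e.apply_symm_apply] at h2
      rw [← h2]
      refine Finset.sum_congr rfl fun q _ => ?_
      rw [Equiv.coe_toEmbedding, hκ]
      exact hS.2 _ _
    have hp : (fun f : Gen I →₀ ℕ => ∏ p ∈ (e.symm.trans (Equiv.finsetCongr κ)) f,
        H.map (x p.1 p.2.1).toSS (μ p.1 p.2.2.1)) = fun f => f.prod fun s m =>
          (H.map (x s.1 s.2.1).toSS (μ s.1 s.2.2.1)) ^ m := by
      funext f
      have h1 : (e.symm.trans (Equiv.finsetCongr κ)) f = (e.symm f).map κ.toEmbedding := rfl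
      rw [h1, Finset.prod_map]
      have h2 := he1 (H V.toSS) (fun s : Gen I => H.map (x s.1 s.2.1).toSS (μ s.1 s.2.2.1))
        (e.symm f)
      rw [e.apply_symm_apply] at h2
      rw [← h2]
      refine Finset.prod_congr rfl fun q _ => ?_
      rw [Equiv.coe_toEmbedding, hκ]
      show H.map (x q.1.1 q.1.2.1).toSS (μ q.1.1 (q.1.2.2.1.map (· + q.2))) = _
      rw [mu_shift (hμ q.1.1 (hpos _ q.1.2.1)) _ q.1.2.2.2.1, map_pow]
    rw [hd, hp] at hb2
    exact hb2

end Pool.Agent.SHS
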