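import Pool.Agent.SH.S.StmtsW

/-!
# Block III-S, SHIFT: shifts of multisets of exponents
-/

set_option autoImplicit false

namespace Pool.Agent.SHS

namespace Shift

theorem mem_map_add {J : Multiset ℕ} {r x : ℕ} : x ∈ J.map (· + r) ↔ ∃ a ∈ J, a + r = x :=
  Multiset.mem_map

theorem le_of_mem {J : Multiset ℕ} {r x : ℕ} (h : x ∈ J.map (· + r)) : r ≤ x := by
  obtain ⟨a, _, rfl⟩ := mem_map_add.1 h
  exact Nat.le_add_left r a

theorem base_mem {J : Multiset ℕ} {r : ℕ} (h : 0 ∈ J) : r ∈ J.map (· + r) :=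
  mem_map_add.2 ⟨0, h, Nat.zero_add r⟩

theorem inj {j : ℕ} : Function.Injective (shJ (j := j)) := by
  rintro ⟨⟨J, hJ⟩, r⟩ ⟨⟨J', hJ'⟩, r'⟩ h
  have h1 : J.map (· + r) = J'.map (· + r') := congrArg Subtype.val h
  have hr : r = r' := by
    apply le_antisymm
    · apply le_of_mem (J := J)
      rw [h1]
      exact base_mem hJ'.2
    · apply le_of_mem (J := J')
      rw [← h1]
      exact base_mem hJ.2
  subst hr
  have hJJ : J = J' := Multiset.map_injective (add_left_injective r) h1
  subst hJJ
  rfl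

theorem surj {j : ℕ} (hj : 1 ≤ j) : Function.Surjective (shJ (j := j)) := by
  rintro ⟨K, hK⟩
  have hne : ∃ x, x ∈ K := by
    by_contra hcon
    push Not at hcon
    have : K = 0 := Multiset.eq_zero_of_forall_notMem hcon
    rw [this, Multiset.card_zero] at hK
    omega
  classical
  have hmin := Nat.find_spec hne
  have hle : ∀ x ∈ K, Nat.find hne ≤ x := fun x hx => Nat.find_min' hne hx
  generalize Nat.find hne = r at hmin hle
  refine ⟨⟨⟨K.map (· - r), ?_, ?_⟩, r⟩, ?_⟩
  · rw [Multiset.card_map]; exact hK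
  · exact Multiset.mem_map.2 ⟨r, hmin, Nat.sub_self r⟩
  · apply Subtype.ext
    show (K.map (· - r)).map (· + r) = K
    rw [Multiset.map_map]
    have : K.map ((· + r) ∘ (· - r)) = K.map id := by
      apply Multiset.map_congr rfl
      intro x hx
      exact Nat.sub_add_cancel (hle x hx)
    rw [this, Multiset.map_id]

end Shift

theorem SHIFT : SHIFT_Stmt := by
  refine ⟨fun j hj => ⟨Shift.inj, Shift.surj hj⟩, ?_⟩
  intro J r
  unfold wgt
  rw [Multiset.map_map, ← Multiset.sum_map_mul_left]
  congr 1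
  apply Multiset.map_congr rfl
  intro x _
  simp only [Function.comp, pow_add, mul_comm]

end Pool.Agent.SHS
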