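import Pool.Agent.SH.S.AllS
import Pool.Agent.SH.S.Embar
import Pool.Agent.SH.S.Gen
import Pool.Agent.SH.S.Bin
import Pool.Agent.SH.S.Shift
import Pool.Agent.SH.S.Poly

/-!
# Block III-S, statements V and W: assembly

The theorem of Serre and Cartan for all Eilenberg-MacLane objects, and the cohomology of all
simplicial vector spaces with finite levels and one vertex. No hypotheses.
-/

namespace Pool.Agent.SHS.All

theorem embar : EMBAR_Stmt := EMBAR
theorem split : SPLIT_Stmt := SPLIT
theorem lbe : LBE_Stmt := LBE
theorem lcs : LCS_Stmt := LCS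
theorem scAll : SC_Stmt := sc embar
theorem fpr : FPR_Stmt := FPR kun
theorem genp : GENP_Stmt := GENP fpr scAll
theorem genv : GENV_Stmt := GENV genp split hty
theorem poly : POLY_Stmt := POLY genv wf BIN SHIFT

end Pool.Agent.SHS.All
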