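import Pool.Agent.SH.S.StmtsD

/-!
Block III-S, statements V: simplicial vector spaces with finite levels are products of
Eilenberg-MacLane objects; their cohomology is a polynomial algebra.
-/

namespace Pool.Agent.SHS

/-- Product of simplicial vector spaces. -/
abbrev SV.pi {A : Type} (W : A → SV) : SV where
  X n := ∀ a, (W a).X n
  map f := LinearMap.pi fun a => ((W a).map f).comp (LinearMap.proj a)
  map_id x := by funext a; exact (W a).map_id _
  map_comp f g x := by funext a; exact (W a).map_comp f g _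

/-- The map to a product. -/
def SV.Hom.lift {A : Type} {V : SV} {W : A → SV} (f : ∀ a, SV.Hom V (W a)) :
    SV.Hom V (SV.pi W) where
  f n := LinearMap.pi fun a => (f a).f n
  nat a x := by funext b; exact (f b).nat a x

/-- The projections. -/
def SV.Hom.pr {A : Type} (W : A → SV) (a : A) : SV.Hom (SV.pi W) (W a) where
  f n := LinearMap.proj a
  nat _ _ := rfl

def SV.Hom.id (V : SV) : SV.Hom V V := ⟨fun _ => LinearMap.id, fun _ _ => rfl⟩

def SV.Hom.comp {V W U : SV} (g : SV.Hom W U) (f : SV.Hom V W) : SV.Hom V U :=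
  ⟨fun n => (g.f n).comp (f.f n), fun a x => by
    show g.f _ (f.f _ (V.map a x)) = U.map a (g.f _ (f.f _ x))
    rw [f.nat, g.nat]⟩

/-- Linear homotopies. -/
structure SV.LHty {V W : SV} (f g : SV.Hom V W) where
  h : ∀ n : ℕ, Mor n 1 → (V.X n →ₗ[k] W.X n)
  nat : ∀ {m n : ℕ} (a : Mor m n) (t : Mor n 1) (x : V.X n),
    h m (t.comp a) (V.map a x) = W.map a (h n t x)
  zero : ∀ (n : ℕ) (x : V.X n), h n (cst 0) x = f.f n x
  one : ∀ (n : ℕ) (x : V.X n), h n (cst 1) x = g.f n x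

/-- Moore cycles: all operators which are not surjective vanish. -/
def SV.ZM (V : SV) (n : ℕ) : Submodule k (V.X n) where
  carrier := {v | ∀ (m : ℕ) (a : Mor m n), ¬ Function.Surjective a → V.map a v = 0}
  zero_mem' := fun m a _ => map_zero _
  add_mem' := fun {v w} hv hw m a ha => by rw [map_add, hv m a ha, hw m a ha, add_zero]
  smul_mem' := fun c v hv m a ha => by rw [map_smul, hv m a ha, smul_zero]

/-- Moore boundaries. -/
def SV.BM (V : SV) (n : ℕ) : Submodule k (V.X n) where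
  carrier := {v | ∃ w : V.X (n + 1), V.map (cof 0) w = v ∧
    ∀ i : Fin (n + 1), V.map (cof i.succ) w = 0}
  zero_mem' := ⟨0, map_zero _, fun _ => map_zero _⟩
  add_mem' := by
    rintro _ _ ⟨v, rfl, hv⟩ ⟨w, rfl, hw⟩
    exact ⟨v + w, map_add _ _ _, fun i => by rw [map_add, hv i, hw i, add_zero]⟩
  smul_mem' := by
    rintro c _ ⟨v, rfl, hv⟩
    exact ⟨c • v, map_smul _ _ _, fun i => by rw [map_smul, hv i, smul_zero]⟩

/-- A family of linear simplicial maps to Eilenberg-MacLane objects inducing an isomorphism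
on homotopy groups. -/
structure LinBasis (V : SV) {I : ℕ → Type} (x : ∀ j, I j → SV.Hom V (EM j)) : Prop where
  fin : ∀ j, Finite (I j)
  inj : ∀ (n : ℕ) (v : V.X n), v ∈ V.ZM n → (∀ i, ((x n i).f n v).1 OrderHom.id = 0) →
    v ∈ V.BM n
  surj : ∀ (n : ℕ) (c : I n → k), ∃ v ∈ V.ZM n, ∀ i, ((x n i).f n v).1 OrderHom.id = c i

/-- The target of the map given by a family `x`. -/
abbrev EMpi (I : ℕ → Type) : SV := SV.pi fun p : (Σ j, I j) => EM p.1

/-- The map given by a family `x`. -/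
abbrev Lam {V : SV} {I : ℕ → Type} (x : ∀ j, I j → SV.Hom V (EM j)) : SV.Hom V (EMpi I) :=
  SV.Hom.lift fun p : (Σ j, I j) => x p.1 p.2

/-- Existence of a linear basis. -/
def LBE_Stmt : Prop := ∀ V : SV, V.LF → ∃ (I : ℕ → Type) (x : ∀ j, I j → SV.Hom V (EM j)),
  LinBasis V x

/-- Splitting: the map to the product of Eilenberg-MacLane objects is a linear homotopy
equivalence (with a strict right inverse). -/
def SPLIT_Stmt : Prop := ∀ (V : SV), V.LF → ∀ {I : ℕ → Type} (x : ∀ j, I j → SV.Hom V (EM j)),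
  LinBasis V x → ∃ Γ : SV.Hom (EMpi I) V, (∀ n w, (Lam x).f n (Γ.f n w) = w) ∧
    Nonempty (SV.LHty (SV.Hom.id V) (Γ.comp (Lam x)))

/-- The classes of linear cocycles are spanned by the classes of a linear basis. -/
def LCS_Stmt : Prop := ∀ (V : SV), V.LF → ∀ {I : ℕ → Type} (x : ∀ j, I j → SV.Hom V (EM j)),
  LinBasis V x → ∀ (j : ℕ) (l : V.X j →ₗ[k] k) (h : V.toSS.cm.delta j l = 0),
    clsN j l h ∈ Submodule.span k (Set.range fun i => H.map (x j i).toSS (iota j))

/-- Levelwise finite product of Eilenberg-MacLane objects of positive degrees: homogeneous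
basis of the cohomology (Kuenneth). -/
def GENP_Stmt : Prop := ∀ (I : ℕ → Type), (∀ j, Finite (I j)) → IsEmpty (I 0) →
  ∀ μ : ∀ n, Multiset ℕ → H (EM n).toSS, (∀ n, 1 ≤ n → MuFam n (μ n)) →
  HB (EMpi I).toSS
    (fun S : Finset (Σ j, I j × {J : Multiset ℕ // Multiset.card J = j}) =>
      ∑ p ∈ S, wgt p.2.2.1)
    (fun S => ∏ p ∈ S,
      H.map (SV.Hom.pr (fun p : (Σ j, I j) => EM p.1) ⟨p.1, p.2.1⟩).toSS (μ p.1 p.2.2.1))

/-- Cohomology of a simplicial vector space with finite levels and V_0 = 0. -/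
def GENV_Stmt : Prop := ∀ (V : SV), V.LF → (∀ v : V.X 0, v = 0) →
  ∀ {I : ℕ → Type} (x : ∀ j, I j → SV.Hom V (EM j)), LinBasis V x →
  ∀ μ : ∀ n, Multiset ℕ → H (EM n).toSS, (∀ n, 1 ≤ n → MuFam n (μ n)) →
  HB V.toSS
    (fun S : Finset (Σ j, I j × {J : Multiset ℕ // Multiset.card J = j}) =>
      ∑ p ∈ S, wgt p.2.2.1)
    (fun S => ∏ p ∈ S, H.map (x p.1 p.2.1).toSS (μ p.1 p.2.2.1))

/-- The cohomology of `X` is a polynomial algebra on homogeneous generators `g` of positive
degrees `w`. -/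
structure PolyGen (X : SS) {σ : Type} (w : σ → ℕ) (g : σ → H X) : Prop where
  pos : ∀ s, 0 < w s
  fin : ∀ n, {s | w s ≤ n}.Finite
  inj : Function.Injective (MvPolynomial.aeval (R := k) g)
  deg : ∀ n, Hn X n = (MvPolynomial.weightedHomogeneousSubmodule k w n).map
    (MvPolynomial.aeval (R := k) g).toLinearMap

/-- Polynomial form of GENV: generators mu(x, J) with J a multiset of j exponents containing 0. -/
def POLY_Stmt : Prop := ∀ (V : SV), V.LF → (∀ v : V.X 0, v = 0) →
  ∀ {I : ℕ → Type} (x : ∀ j, I j → SV.Hom V (EM j)), LinBasis V x →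
  ∀ μ : ∀ n, Multiset ℕ → H (EM n).toSS, (∀ n, 1 ≤ n → MuFam n (μ n)) →
  PolyGen V.toSS
    (fun p : (Σ j, I j × {J : Multiset ℕ // Multiset.card J = j ∧ 0 ∈ J}) => wgt p.2.2.1)
    (fun p => H.map (x p.1 p.2.1).toSS (μ p.1 p.2.2.1))

end Pool.Agent.SHS
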