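import Pool.Agent.SH.S.Classes

/-!
Block III-S: degree components of total cohomology.
-/

namespace Pool.Agent.SHS

open Coch

/-- The degree `n` component of a cochain. -/
def Coch.prn {X : SS} (n : ℕ) : Coch X →ₗ[k] Coch X where
  toFun f := ⟨fun m x => if m = n then f m x else 0⟩
  map_add' f g := by
    ext m x
    show (if m = n then f m x + g m x else 0) = (if m = n then f m x else 0) + (if m = n then g m x else 0)
    split_ifs <;> simp
  map_smul' c f := by
    ext m x
    show (if m = n then c * f m x else 0) = c * (if m = n then f m x else 0)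
    split_ifs <;> simp

theorem Coch.prn_apply {X : SS} (n : ℕ) (f : Coch X) (m : ℕ) (x : X.X m) :
    prn n f m x = if m = n then f m x else 0 := rfl

theorem Coch.prn_mem {X : SS} (n : ℕ) (f : Coch X) : prn n f ∈ CochD X n :=
  fun m h x => by rw [prn_apply, if_neg h]

theorem Coch.prn_eq {X : SS} {n : ℕ} {f : Coch X} (h : f ∈ CochD X n) : prn n f = f := by
  ext m x
  rw [prn_apply]
  split_ifs with h1
  · rfl
  · exact (h m h1 x).symm

theorem Coch.prn_ne {X : SS} {m n : ℕ} (hmn : m ≠ n) {f : Coch X} (h : f ∈ CochD X m) :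
    prn n f = 0 := by
  ext l x
  rw [prn_apply]
  split_ifs with h1
  · subst h1
    exact h l (fun h2 => hmn h2.symm) x
  · rfl

theorem Coch.dlt_prn {X : SS} (n : ℕ) (f : Coch X) : dlt (prn n f) = prn (n + 1) (dlt f) := by
  ext m x
  cases m with
  | zero => rw [dlt_zero, prn_apply, if_neg (by omega)]
  | succ m =>
    rw [dlt_succ, prn_apply, dlt_succ]
    simp only [prn_apply]
    by_cases h : m = n
    · simp [h]
    · simp [h]

theorem Coch.prn_zero_dlt {X : SS} (f : Coch X) : prn 0 (dlt f) = 0 := by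
  ext m x
  rw [prn_apply]
  split_ifs with h
  · subst h; rfl
  · rfl

theorem Coch.dlt_prn_self {X : SS} (n : ℕ) (f : Coch X) (h : dlt f = 0) : dlt (prn n f) = 0 := by
  rw [dlt_prn, h, map_zero]

/-- The projection onto degree `n` in cohomology. -/
noncomputable def Hpr {X : SS} (n : ℕ) : H X →ₗ[k] H X :=
  Submodule.liftQ ((Cobd X).restrictScalars k)
    ({ toFun := fun f => cls ⟨prn n f.1, dlt_prn_self n f.1 f.2⟩
       map_add' := fun f g => by
         rw [← map_add]; congr 1; apply Subtype.ext; exact map_add (prn n) f.1 g.1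
       map_smul' := fun c f => by
         rw [RingHom.id_apply, ← map_smul]; congr 1; apply Subtype.ext
         exact map_smul (prn n) c f.1 } : Cocyc X →ₗ[k] H X) (by
    rintro a ⟨g, hg⟩
    show cls _ = 0
    rw [cls_eq_zero]
    cases n with
    | zero =>
      refine ⟨0, ?_⟩
      show dlt 0 = prn 0 a.1
      rw [← hg, prn_zero_dlt, map_zero]
    | succ n =>
      refine ⟨prn n g, ?_⟩
      show dlt (prn n g) = prn (n + 1) a.1
      rw [← hg, dlt_prn])

theorem Hpr_cls {X : SS} (n : ℕ) (f : Cocyc X) :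
    Hpr n (cls f) = cls ⟨prn n f.1, dlt_prn_self n f.1 f.2⟩ := rfl

theorem Hpr_mem {X : SS} (n : ℕ) (a : H X) : Hpr n a ∈ Hn X n := by
  obtain ⟨f, rfl⟩ := cls_surjective a
  exact mem_Hn.mpr ⟨_, prn_mem n f.1, rfl⟩

theorem Hpr_eq {X : SS} {n : ℕ} {a : H X} (h : a ∈ Hn X n) : Hpr n a = a := by
  obtain ⟨f, hf, rfl⟩ := mem_Hn.mp h
  rw [Hpr_cls]
  congr 1
  apply Subtype.ext
  exact prn_eq hf

theorem Hpr_ne {X : SS} {m n : ℕ} (hmn : m ≠ n) {a : H X} (h : a ∈ Hn X m) : Hpr n a = 0 := by
  obtain ⟨f, hf, rfl⟩ := mem_Hn.mp h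
  rw [Hpr_cls, cls_eq_zero]
  refine ⟨0, ?_⟩
  rw [map_zero]
  exact (prn_ne hmn hf).symm

theorem Hpr_map {X Y : SS} (φ : SS.Hom X Y) (n : ℕ) (a : H Y) :
    Hpr n (H.map φ a) = H.map φ (Hpr n a) := by
  obtain ⟨f, rfl⟩ := cls_surjective a
  rfl

/-- `cls` of the cochain given by a function on `n`-simplices. -/
theorem dlt_single {X : SS} (n : ℕ) (φ : X.X n → k) :
    dlt (single n φ) = single (n + 1) (X.cm.delta n φ) := by
  ext m x
  cases m with
  | zero => rw [dlt_zero, single_ne (by omega)]
  | succ m =>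
    by_cases h : m = n
    · subst h
      rw [dlt_succ, single_self, CM.delta_apply, Finset.sum_apply]
      apply Finset.sum_congr rfl
      intro i _
      rw [single_self]
      rfl
    · rw [dlt_succ, single_ne (by omega)]
      apply Finset.sum_eq_zero
      intro i _
      exact single_ne h _ _

theorem single_add {X : SS} (n : ℕ) (φ ψ : X.X n → k) :
    (single n (φ + ψ) : Coch X) = single n φ + single n ψ := by
  ext m x
  by_cases h : m = n
  · subst h; rw [cadd_apply, single_self, single_self, single_self]; rfl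
  · rw [cadd_apply, single_ne h, single_ne h, single_ne h, add_zero]

theorem single_sub {X : SS} (n : ℕ) (φ ψ : X.X n → k) :
    (single n (φ - ψ) : Coch X) = single n φ - single n ψ := by
  ext m x
  by_cases h : m = n
  · subst h; rw [csub_apply, single_self, single_self, single_self]; rfl
  · rw [csub_apply, single_ne h, single_ne h, single_ne h, sub_zero]

theorem single_smul {X : SS} (n : ℕ) (c : k) (φ : X.X n → k) :
    (single n (c • φ) : Coch X) = c • single n φ := by
  ext m x
  by_cases h : m = n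
  · subst h; rw [csmul_apply, single_self, single_self]; rfl
  · rw [csmul_apply, single_ne h, single_ne h, mul_zero]

theorem single_zero {X : SS} (n : ℕ) : (single n (0 : X.X n → k) : Coch X) = 0 := by
  ext m x
  by_cases h : m = n
  · subst h; rw [single_self]; rfl
  · rw [single_ne h]; rfl

theorem single_inj {X : SS} {n : ℕ} {φ ψ : X.X n → k} (h : (single n φ : Coch X) = single n ψ) :
    φ = ψ := by
  funext x
  rw [← single_self n φ x, h, single_self]

/-- Classes of degree `n` from functions on `n`-simplices. -/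
noncomputable def clsN {X : SS} (n : ℕ) (φ : X.X n → k) (h : X.cm.delta n φ = 0) : H X :=
  cls ⟨single n φ, by
    show dlt (single n φ) = 0
    rw [dlt_single, h, single_zero]⟩

theorem clsN_mem {X : SS} (n : ℕ) (φ : X.X n → k) (h : X.cm.delta n φ = 0) :
    clsN n φ h ∈ Hn X n := mem_Hn.mpr ⟨_, single_mem n φ, rfl⟩

theorem exists_clsN {X : SS} {n : ℕ} {a : H X} (ha : a ∈ Hn X n) :
    ∃ (φ : X.X n → k) (h : X.cm.delta n φ = 0), clsN n φ h = a := by
  obtain ⟨f, hf, rfl⟩ := mem_Hn.mp ha
  have e : f.1 = single n (f.1 n) := eq_single hf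
  have h : X.cm.delta n (f.1 n) = 0 := by
    have h1 : dlt f.1 = 0 := f.2
    rw [e, dlt_single] at h1
    exact single_inj (h1.trans (single_zero _).symm)
  refine ⟨f.1 n, h, ?_⟩
  unfold clsN
  congr 1
  apply Subtype.ext
  exact e.symm

theorem clsN_eq_zero {X : SS} {n : ℕ} (φ : X.X n → k) (h : X.cm.delta n φ = 0) :
    clsN n φ h = 0 ↔ φ ∈ X.cm.cc.B n := by
  unfold clsN
  rw [cls_eq_zero]
  constructor
  · rintro ⟨g, hg⟩
    change dlt g = single n φ at hg
    cases n with
    | zero =>
      show φ ∈ (⊥ : Submodule k _)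
      rw [Submodule.mem_bot]
      funext x
      have := congrArg (fun f : Coch X => f 0 x) hg
      simp only [dlt_zero, single_self] at this
      exact this.symm
    | succ n =>
      show φ ∈ LinearMap.range (X.cm.delta n)
      refine ⟨g n, ?_⟩
      funext x
      have := congrArg (fun f : Coch X => f (n + 1) x) hg
      simp only [single_self] at this
      rw [← this, dlt_succ, CM.delta_apply, Finset.sum_apply]
      rfl
  · intro hB
    cases n with
    | zero =>
      have h0 : φ ∈ (⊥ : Submodule k _) := hB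
      rw [Submodule.mem_bot] at h0
      refine ⟨0, ?_⟩
      rw [map_zero]
      show 0 = single 0 φ
      rw [h0, single_zero]
    | succ n =>
      have h0 : φ ∈ LinearMap.range (X.cm.delta n) := hB
      obtain ⟨g, rfl⟩ := h0
      exact ⟨single n g, dlt_single n g⟩

theorem clsN_add {X : SS} {n : ℕ} (φ ψ : X.X n → k) (h : X.cm.delta n φ = 0)
    (h' : X.cm.delta n ψ = 0) :
    clsN n (φ + ψ) (by rw [map_add, h, h', add_zero]) = clsN n φ h + clsN n ψ h' := by
  unfold clsN
  rw [← map_add cls]
  congr 1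
  apply Subtype.ext
  exact single_add n φ ψ

theorem clsN_smul {X : SS} {n : ℕ} (c : k) (φ : X.X n → k) (h : X.cm.delta n φ = 0) :
    clsN n (c • φ) (by rw [map_smul, h, smul_zero]) = c • clsN n φ h := by
  unfold clsN
  rw [← map_smul cls]
  congr 1
  apply Subtype.ext
  exact single_smul n c φ

theorem CochD_mul {X : SS} {m n : ℕ} {f g : Coch X} (hf : f ∈ CochD X m) (hg : g ∈ CochD X n) :
    f * g ∈ CochD X (m + n) := by
  intro l hl x
  rw [cmul_apply]
  apply Finset.sum_eq_zero
  rintro ⟨p, q⟩ hpq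
  simp only [Finset.HasAntidiagonal.mem_antidiagonal] at hpq
  by_cases hp : p = m
  · have hq : q ≠ n := by omega
    simp only
    rw [hg q hq, mul_zero]
  · simp only
    rw [hf p hp, zero_mul]

theorem Hn_mul {X : SS} {m n : ℕ} {a b : H X} (ha : a ∈ Hn X m) (hb : b ∈ Hn X n) :
    a * b ∈ Hn X (m + n) := by
  obtain ⟨f, hf, rfl⟩ := mem_Hn.mp ha
  obtain ⟨g, hg, rfl⟩ := mem_Hn.mp hb
  exact mem_Hn.mpr ⟨f * g, CochD_mul hf hg, map_mul _ _ _⟩

theorem Hn_one {X : SS} : (1 : H X) ∈ Hn X 0 :=
  mem_Hn.mpr ⟨1, fun m h x => by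
    show (1 : Coch X) m x = 0
    rw [cone_apply, if_neg h], map_one _⟩

theorem Hn_pow {X : SS} {m : ℕ} {a : H X} (ha : a ∈ Hn X m) (r : ℕ) : a ^ r ∈ Hn X (r * m) := by
  induction r with
  | zero => rw [pow_zero, zero_mul]; exact Hn_one
  | succ r ih =>
    rw [pow_succ, add_mul, one_mul]
    exact Hn_mul ih ha

theorem Hn_prod {X : SS} {ι : Type*} (s : Finset ι) (a : ι → H X) (d : ι → ℕ)
    (h : ∀ i ∈ s, a i ∈ Hn X (d i)) : ∏ i ∈ s, a i ∈ Hn X (∑ i ∈ s, d i) := by
  classical
  induction s using Finset.induction_on with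
  | empty => rw [Finset.prod_empty, Finset.sum_empty]; exact Hn_one
  | insert i s hi ih =>
    rw [Finset.prod_insert hi, Finset.sum_insert hi]
    exact Hn_mul (h i (Finset.mem_insert_self i s))
      (ih fun j hj => h j (Finset.mem_insert_of_mem hj))

end Pool.Agent.SHS
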