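import Pool.Agent.SH.S.StmtsB

/-!
Block III-S: the algebraic criterion for additive operations.
-/

namespace Pool.Agent.SHS

open MvPolynomial

namespace Add

theorem deg_sum {m n : ℕ} {P : MvPolynomial (Fin (m + 1)) k} (h : P.IsHomogeneous n)
    {e : Fin (m + 1) →₀ ℕ} (he : P.coeff e ≠ 0) : ∑ i, e i = n := by
  have h1 := h he
  rw [← h1, ← Finsupp.degree_eq_sum]
  rw [Finsupp.degree_eq_weight_one]
  rfl

theorem exists_one {m n : ℕ} (hn : n < 2 * (m + 1)) {P : MvPolynomial (Fin (m + 1)) k}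
    (h : P.IsHomogeneous n) (hp : ∀ e ∈ P.support, ∀ j, ∃ l : ℕ, e j = 2 ^ l)
    {e : Fin (m + 1) →₀ ℕ} (he : P.coeff e ≠ 0) : ∃ j, e j = 1 := by
  by_contra hc
  push Not at hc
  have h2 : ∀ j, 2 ≤ e j := by
    intro j
    obtain ⟨l, hl⟩ := hp e (mem_support_iff.mpr he) j
    have h3 := hc j
    have h4 : 1 ≤ 2 ^ l := Nat.one_le_two_pow
    omega
  have h5 : ∑ _i : Fin (m + 1), 2 ≤ ∑ i, e i := Finset.sum_le_sum fun i _ => h2 i
  rw [deg_sum h he] at h5
  simp at h5
  omega

end Add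

open Add in
theorem ADD : ADD_Stmt := by
  intro m n P Q hn hP hQ sP sQ pP pQ h0
  have key : ∀ (e : Fin (m + 1) →₀ ℕ) (j : Fin (m + 1)), e j = 1 → P.coeff e = Q.coeff e := by
    intro e j hj
    set s : Equiv.Perm (Fin (m + 1)) := Equiv.swap 0 j with hs
    have h1 := coeff_rename_mapDomain s s.injective P e
    have h2 := coeff_rename_mapDomain s s.injective Q e
    rw [sP] at h1
    rw [sQ] at h2
    rw [← h1, ← h2]
    apply h0
    have h3 : s j = 0 := by rw [hs, Equiv.swap_apply_right]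
    have h4 := Finsupp.mapDomain_apply s.injective e j
    rw [h3] at h4
    rw [h4, hj]
  ext e
  by_cases hp : P.coeff e = 0
  · by_cases hq : Q.coeff e = 0
    · rw [hp, hq]
    · obtain ⟨j, hj⟩ := exists_one hn hQ pQ hq
      exact key e j hj
  · obtain ⟨j, hj⟩ := exists_one hn hP pP hp
    exact key e j hj

end Pool.Agent.SHS
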