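import Pool.Agent.SH.S.Defs

/-!
Block III-U (helper8): the algebra theorem ALG on modules over the category of additive
operations F(d,n). Definitions and statement.
-/

namespace Pool.Agent.SHS

/-- Weight of a multiset of exponents. -/
def wt (J : Multiset ℕ) : ℕ := (J.map (fun i => 2 ^ i)).sum

/-- Additive operations from degree `d` to degree `n`: functions on multisets of `d` exponents
of weight `n` (coefficients of the symmetric sums of u_1^(2^j_1) ... u_d^(2^j_d)). -/
def F (d n : ℕ) : Submodule k (Multiset ℕ → k) where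
  carrier := {θ | ∀ J, θ J ≠ 0 → Multiset.card J = d ∧ wt J = n}
  zero_mem' := fun J h => absurd rfl h
  add_mem' := fun {a b} ha hb J h => by
    by_cases h1 : a J = 0
    · by_cases h2 : b J = 0
      · exact absurd (by show a J + b J = 0; rw [h1, h2, add_zero]) h
      · exact hb J h2
    · exact ha J h1
  smul_mem' := fun c a ha J h => by
    by_cases h1 : a J = 0
    · exact absurd (by show c * a J = 0; rw [h1, mul_zero]) h
    · exact ha J h1

/-- Composition of operations, evaluated on a list of exponents: first `θ`, then `η`. -/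
def compL (η θ : Multiset ℕ → k) (l : List ℕ) : k :=
  ∑ i ∈ Fintype.piFinset (fun j : Fin l.length => Finset.range (l.get j + 1)),
    θ (Multiset.ofList (List.ofFn i)) *
      η (∑ j : Fin l.length, Multiset.replicate (2 ^ (i j)) (l.get j - i j))

/-- Composition: first `θ`, then `η`. -/
noncomputable def comp (η θ : Multiset ℕ → k) (J : Multiset ℕ) : k := compL η θ J.toList

/-- The indicator function of a multiset. -/
noncomputable def dl (J : Multiset ℕ) : Multiset ℕ → k := fun J' => open Classical in if J' = J then 1 else 0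

/-- Identity operation of degree `d`. -/
noncomputable def oneOp (d : ℕ) : Multiset ℕ → k := dl (Multiset.replicate d 0)

/-- Looping of operations. -/
def Om (θ : Multiset ℕ → k) : Multiset ℕ → k := fun J => θ (0 ::ₘ J)

/-- c_t(θ): the effect of θ on sigma_t x u^(d-t). -/
def cop (t d n : ℕ) (θ : Multiset ℕ → k) : k :=
  if d ≤ t then 0 else
    ∑ i ∈ Fintype.piFinset (fun _ : Fin (d - t) => Finset.range (n + 1)),
      θ (Multiset.replicate t 0 + Multiset.ofList (List.ofFn i))

/-- Modules over the category of additive operations. The operations are passed as functions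
with a membership proof. -/
structure AMod where
  M : ℕ → Type
  [grp : ∀ n, AddCommGroup (M n)]
  [mod : ∀ n, Module k (M n)]
  act : ∀ {d n : ℕ}, F d n →ₗ[k] M d →ₗ[k] M n
  act_one : ∀ (d : ℕ) (h : oneOp d ∈ F d d) (m : M d), act ⟨oneOp d, h⟩ m = m
  act_comp : ∀ {d n p : ℕ} (η : F n p) (θ : F d n) (h : comp η.1 θ.1 ∈ F d p) (m : M d),
    act ⟨comp η.1 θ.1, h⟩ m = act η (act θ m)

attribute [instance] AMod.grp AMod.mod

structure AMod.Hom (M N : AMod) where
  f : ∀ n : ℕ, M.M n →ₗ[k] N.M n
  act : ∀ {d n : ℕ} (θ : F d n) (m : M.M d), f n (M.act θ m) = N.act θ (f d m)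

/-- The map from the free object on a graded family. -/
noncomputable def AMod.freeMap (M : AMod) {I : ℕ → Type} (x : ∀ d, I d → M.M d) (n : ℕ) :
    (Π₀ s : Σ d, I d, F s.1 n) →ₗ[k] M.M n :=
  open Classical in
  DFinsupp.lsum ℕ (fun s : Σ d, I d => (M.act (d := s.1) (n := n)).flip (x s.1 s.2))

/-- `M` is free on the graded family `x`. -/
def AMod.IsFree (M : AMod) {I : ℕ → Type} (x : ∀ d, I d → M.M d) : Prop :=
  ∀ n, Function.Bijective (M.freeMap x n)

/-- Hom_t(M). -/
def AMod.HomT (M : AMod) (t : ℕ) : Submodule k (∀ n, M.M n →ₗ[k] k) where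
  carrier := {g | (∀ n ≤ t, g n = 0) ∧
    ∀ (d n : ℕ) (θ : F d n) (m : M.M d), g n (M.act θ m) = cop t d n θ.1 * g d m}
  zero_mem' := ⟨fun _ _ => rfl, fun _ _ _ _ => by simp⟩
  add_mem' := fun {a b} ha hb => ⟨fun n h => by
      show a n + b n = 0
      rw [ha.1 n h, hb.1 n h, add_zero], fun d n θ m => by
      show a n (M.act θ m) + b n (M.act θ m) = cop t d n θ.1 * (a d m + b d m)
      rw [ha.2, hb.2, mul_add]⟩
  smul_mem' := fun c a ha => ⟨fun n h => by
      show c • a n = 0
      rw [ha.1 n h, smul_zero], fun d n θ m => by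
      show c * a n (M.act θ m) = cop t d n θ.1 * (c * a d m)
      rw [ha.2]; ring⟩

/-- A chain complex of modules ... → C 2 → C 1 → C 0. -/
structure AComplex where
  C : ℕ → AMod
  d : ∀ s, AMod.Hom (C (s + 1)) (C s)
  dd : ∀ s n x, (d s).f n ((d (s + 1)).f n x) = 0

/-- The homology of the complex vanishes at `s` in degree `n`. -/
def AComplex.ExactAt (K : AComplex) : ∀ s n : ℕ, Prop
  | 0, n => ∀ x : (K.C 0).M n, ∃ y, (K.d 0).f n y = x
  | s + 1, n => ∀ x : (K.C (s + 1)).M n, (K.d s).f n x = 0 → ∃ y, (K.d (s + 1)).f n y = x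

/-- The complex Hom_t(C_0) → Hom_t(C_1) → ... is exact at `s`. -/
def AComplex.HomExactAt (K : AComplex) (t : ℕ) : ∀ s : ℕ, Prop
  | 0 => ∀ g ∈ (K.C 0).HomT t, (∀ n, (g n).comp ((K.d 0).f n) = 0) → g = 0
  | s + 1 => ∀ g ∈ (K.C (s + 1)).HomT t, (∀ n, (g n).comp ((K.d (s + 1)).f n) = 0) →
      ∃ h ∈ (K.C s).HomT t, ∀ n, g n = (h n).comp ((K.d s).f n)

/-- THE ALGEBRA THEOREM (helper8). -/
def ALG : Prop := ∀ (K : AComplex),
  (∀ s, ∃ (I : ℕ → Type) (x : ∀ d, I d → (K.C s).M d), (K.C s).IsFree x) →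
  (∀ s, ∃ N, ∀ n ≥ N, K.ExactAt s n) →
  ∀ t s, K.HomExactAt t s

end Pool.Agent.SHS
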