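import Pool.Agent.SH.S.StmtsA

/-!
Block III-S: the Alexander-Whitney map commutes with the differentials.
-/

namespace Pool.Agent.SHS

namespace Awc

variable (M : BCM)

theorem AW_anti (n : ℕ) (x : ∀ p q, M.X p q) : M.AW n x =
    ∑ p ∈ Finset.HasAntidiagonal.antidiagonal n, M.map (fr p.1 n) (bk p.2 n) (x p.1 p.2) := by
  rw [BCM.AW]
  exact (Finset.Nat.sum_antidiagonal_eq_sum_range_succ_mk
    (fun p : ℕ × ℕ => M.map (fr p.1 n) (bk p.2 n) (x p.1 p.2)) n).symm

/-- horizontal part of the differential -/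
def Dh (x : ∀ p q, M.X p q) : ∀ p q, M.X p q
  | 0, _ => 0
  | p + 1, q => M.dc.dh p q (x p q)

/-- vertical part of the differential -/
def Dv (x : ∀ p q, M.X p q) : ∀ p q, M.X p q
  | _, 0 => 0
  | p, q + 1 => M.dc.dv p q (x p q)

theorem D_eq (x : ∀ p q, M.X p q) : ∀ p q, M.dc.D x p q = Dh M x p q + Dv M x p q
  | 0, 0 => (add_zero (0 : M.X 0 0)).symm
  | p + 1, 0 => (add_zero (M.dc.dh p 0 (x p 0))).symm
  | 0, q + 1 => (zero_add (M.dc.dv 0 q (x 0 q))).symm
  | p + 1, q + 1 => rfl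

theorem dh_eq (p q : ℕ) (y : M.X p q) :
    M.dc.dh p q y = ∑ i ∈ Finset.range (p + 2), M.map (cofN i p) OrderHom.id y := by
  show (M.row q).delta p y = _
  rw [CM.delta_apply]
  exact sum_cof (fun a => M.map a OrderHom.id y)

theorem dv_eq (p q : ℕ) (y : M.X p q) :
    M.dc.dv p q y = ∑ i ∈ Finset.range (q + 2), M.map OrderHom.id (cofN i q) y := by
  show (M.col p).delta q y = _
  rw [CM.delta_apply]
  exact sum_cof (fun a => M.map OrderHom.id a y)

theorem diag_eq (n : ℕ) (y : M.X n n) :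
    M.diag.delta n y = ∑ i ∈ Finset.range (n + 2), M.map (cofN i n) (cofN i n) y := by
  rw [CM.delta_apply]
  exact sum_cof (fun a => M.map a a y)

theorem map_hor {p q p' q' p'' : ℕ} (f : Mor p p') (f' : Mor p' p'') (g : Mor q q') (y : M.X p q) :
    M.map f' g (M.map f OrderHom.id y) = M.map (f'.comp f) g y := by
  rw [← M.map_comp]; rfl

theorem map_ver {p q p' q' q'' : ℕ} (f : Mor p p') (g : Mor q q') (g' : Mor q' q'') (y : M.X p q) :
    M.map f g' (M.map OrderHom.id g y) = M.map f (g'.comp g) y := by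
  rw [← M.map_comp]; rfl

theorem term (p q : ℕ) (y : M.X p q) :
    M.map (fr (p + 1) (p + q + 1)) (bk q (p + q + 1)) (M.dc.dh p q y)
      + M.map (fr p (p + q + 1)) (bk (q + 1) (p + q + 1)) (M.dc.dv p q y)
    = M.diag.delta (p + q) (M.map (fr p (p + q)) (bk q (p + q)) y) := by
  rw [dh_eq, dv_eq, diag_eq, map_sum, map_sum]
  have e1 : ∀ i, M.map (fr (p + 1) (p + q + 1)) (bk q (p + q + 1))
      (M.map (cofN i p) OrderHom.id y)
      = M.map ((fr (p + 1) (p + q + 1)).comp (cofN i p)) (bk q (p + q + 1)) y :=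
    fun i => map_hor M _ _ _ y
  have e2 : ∀ j, M.map (fr p (p + q + 1)) (bk (q + 1) (p + q + 1))
      (M.map OrderHom.id (cofN j q) y)
      = M.map (fr p (p + q + 1)) ((bk (q + 1) (p + q + 1)).comp (cofN j q)) y :=
    fun j => map_ver M _ _ _ y
  have e3 : ∀ i, M.map (cofN i (p + q)) (cofN i (p + q)) (M.map (fr p (p + q)) (bk q (p + q)) y)
      = M.map ((cofN i (p + q)).comp (fr p (p + q))) ((cofN i (p + q)).comp (bk q (p + q))) y :=
    fun i => (M.map_comp _ _ _ _ y).symm
  rw [Finset.sum_congr rfl fun i _ => e1 i, Finset.sum_congr rfl fun i _ => e2 i,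
    Finset.sum_congr rfl fun i _ => e3 i]
  have hr : Finset.range (p + q + 2) = Finset.range ((p + 1) + (q + 1)) := by
    congr 1; omega
  rw [Finset.sum_range_succ (n := p + 1)]
  rw [hr, Finset.sum_range_add _ (p + 1) (q + 1)]
  rw [Finset.sum_range_succ' (n := q + 1)]
  rw [fr_cofN_last, bk_cofN_zero]
  have s1 : ∑ i ∈ Finset.range (p + 1), M.map ((cofN i (p + q)).comp (fr p (p + q)))
        ((cofN i (p + q)).comp (bk q (p + q))) y
      = ∑ i ∈ Finset.range (p + 1),
        M.map ((fr (p + 1) (p + q + 1)).comp (cofN i p)) (bk q (p + q + 1)) y := by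
    apply Finset.sum_congr rfl
    intro i hi
    rw [Finset.mem_range] at hi
    rw [cofN_fr_le (by omega), cofN_bk_le (by omega)]
  have s2 : ∑ j ∈ Finset.range (q + 1), M.map ((cofN (p + 1 + j) (p + q)).comp (fr p (p + q)))
        ((cofN (p + 1 + j) (p + q)).comp (bk q (p + q))) y
      = ∑ j ∈ Finset.range (q + 1),
        M.map (fr p (p + q + 1)) ((bk (q + 1) (p + q + 1)).comp (cofN (j + 1) q)) y := by
    apply Finset.sum_congr rfl
    intro j hj
    rw [cofN_fr_gt (by omega), cofN_bk_gt]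
  rw [s1, s2]
  have := mod_two (M.map (fr p (p + q + 1)) (bk q (p + q + 1)) y)
  generalize M.map (fr p (p + q + 1)) (bk q (p + q + 1)) y = w at this ⊢
  have h2 : ∀ a b : M.X (p + q + 1) (p + q + 1), a + w + (b + w) = a + b := by
    intro a b
    rw [add_add_add_comm, this, add_zero]
  exact h2 _ _

end Awc

open Awc in
theorem AWC : AWC_Stmt := by
  intro M n x _
  have h : M.AW (n + 1) (M.dc.D x)
      = M.AW (n + 1) (Dh M x) + M.AW (n + 1) (Dv M x) := by
    rw [AW_anti, AW_anti, AW_anti, ← Finset.sum_add_distrib]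
    apply Finset.sum_congr rfl
    rintro ⟨p, q⟩ _
    simp only
    rw [D_eq, map_add]
  rw [h, AW_anti, AW_anti, AW_anti, Finset.Nat.sum_antidiagonal_succ,
    Finset.Nat.sum_antidiagonal_succ']
  have z1 : M.map (fr 0 (n + 1)) (bk (n + 1) (n + 1)) (Dh M x 0 (n + 1)) = 0 := by
    show M.map _ _ (0 : M.X 0 (n + 1)) = 0
    exact map_zero _
  have z2 : M.map (fr (n + 1) (n + 1)) (bk 0 (n + 1)) (Dv M x (n + 1) 0) = 0 := by
    have : Dv M x (n + 1) 0 = 0 := by
      cases n <;> rfl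
    rw [this]
    exact map_zero _
  simp only
  rw [z1, z2, zero_add, zero_add, ← Finset.sum_add_distrib, map_sum]
  apply Finset.sum_congr rfl
  rintro ⟨p, q⟩ hpq
  simp only [Finset.HasAntidiagonal.mem_antidiagonal] at hpq
  subst hpq
  have e : Dv M x p (q + 1) = M.dc.dv p q (x p q) := by
    cases p <;> rfl
  simp only
  rw [e]
  exact term M p q (x p q)

end Pool.Agent.SHS
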