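import Pool.Agent.SH.S.StmtsC

/-!
Block III-S, module SHS_BARB: the upper bound for the cohomology of the bar construction.
-/

namespace Pool.Agent.SHS

namespace Barb

open Coch

theorem diag_eq (G : SV) : G.bcm.diag = G.bar.toSS.cm := rfl

theorem spanLE_inside {M : Type*} [AddCommGroup M] [Module k M] {Z B : Submodule k M} {N : ℕ}
    (h : SpanLE Z B N) : ∃ s : Finset M, s.card ≤ N ∧ (∀ x ∈ s, x ∈ Z) ∧
      Z ≤ B ⊔ Submodule.span k (s : Set M) := by
  classical
  obtain ⟨s, hs, hZ⟩ := h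
  have hle : Z.map B.mkQ ≤ Submodule.span k ((s.image B.mkQ : Finset (M ⧸ B)) : Set (M ⧸ B)) := by
    rintro _ ⟨z, hz, rfl⟩
    obtain ⟨b, hb, c, hc, rfl⟩ := Submodule.mem_sup.1 (hZ hz)
    rw [map_add, Submodule.mkQ_apply, (Submodule.Quotient.mk_eq_zero B).2 hb, zero_add,
      Finset.coe_image, ← Submodule.map_span]
    exact ⟨c, hc, rfl⟩
  have hfd : FiniteDimensional k (Submodule.span k ((s.image B.mkQ : Finset (M ⧸ B)) :
      Set (M ⧸ B))) := FiniteDimensional.span_finset k _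
  have hfd' : FiniteDimensional k (Z.map B.mkQ) := Submodule.finiteDimensional_of_le hle
  have hr : Module.finrank k (Z.map B.mkQ) ≤ N := by
    refine (Submodule.finrank_mono hle).trans ?_
    refine (finrank_span_finset_le_card (R := k) (s.image B.mkQ)).trans ?_
    exact Finset.card_image_le.trans hs
  let bs := Module.finBasis k (Z.map B.mkQ)
  have hch : ∀ i, ∃ x ∈ Z, B.mkQ x = (bs i : M ⧸ B) := fun i => (bs i).2
  choose x hx hxb using hch
  refine ⟨Finset.univ.image x, ?_, ?_, ?_⟩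
  · refine Finset.card_image_le.trans ?_
    rw [Finset.card_univ, Fintype.card_fin]
    exact hr
  · intro y hy
    obtain ⟨i, _, rfl⟩ := Finset.mem_image.1 hy
    exact hx i
  · intro z hz
    obtain ⟨c, hc⟩ : ∃ c : Fin (Module.finrank k (Z.map B.mkQ)) → k,
        ∑ i, c i • (bs i : M ⧸ B) = B.mkQ z := by
      refine ⟨fun i => bs.repr ⟨B.mkQ z, Submodule.mem_map_of_mem hz⟩ i, ?_⟩
      have h1 := bs.sum_repr ⟨B.mkQ z, Submodule.mem_map_of_mem hz⟩
      have := congrArg Subtype.val h1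
      rw [AddSubmonoidClass.coe_finsetSum] at this
      exact this
    have h3 : B.mkQ (z - ∑ i, c i • x i) = 0 := by
      rw [map_sub, map_sum, sub_eq_zero]
      refine hc.symm.trans ?_
      apply Finset.sum_congr rfl
      intro i _
      rw [map_smul, hxb]
    rw [Submodule.mkQ_apply, Submodule.Quotient.mk_eq_zero] at h3
    have h4 : z = (z - ∑ i, c i • x i) + ∑ i, c i • x i := by abel
    rw [h4]
    refine Submodule.add_mem_sup h3 ?_
    refine Submodule.sum_mem _ fun i _ => Submodule.smul_mem _ _ (Submodule.subset_span ?_)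
    rw [Finset.coe_image]
    exact ⟨i, Finset.mem_coe.2 (Finset.mem_univ i), rfl⟩

section count
variable {A : Type} (deg : A → ℕ)

theorem sum_split (f : A →₀ ℕ) : (f.sum fun a m => m * (deg a + 1)) =
    (f.sum fun a m => m * deg a) + (f.sum fun _ m => m) := by
  unfold Finsupp.sum
  rw [← Finset.sum_add_distrib]
  exact Finset.sum_congr rfl fun a _ => by ring

theorem finite_tot (hf : ∀ n, {a | deg a ≤ n}.Finite) (d : ℕ) :
    Finite {f : A →₀ ℕ // (f.sum fun a m => m * (deg a + 1)) = d} := by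
  classical
  have hb : ∀ f : {f : A →₀ ℕ // (f.sum fun a m => m * (deg a + 1)) = d}, ∀ a,
      f.1 a * (deg a + 1) ≤ d := by
    intro f a
    by_cases h : a ∈ f.1.support
    · calc f.1 a * (deg a + 1) ≤ f.1.sum fun a m => m * (deg a + 1) :=
            Finset.single_le_sum (f := fun a => f.1 a * (deg a + 1)) (fun _ _ => Nat.zero_le _) h
        _ = d := f.2
    · rw [Finsupp.notMem_support_iff.1 h, zero_mul]
      exact Nat.zero_le _
  have : Finite {a | deg a ≤ d} := hf d
  apply Finite.of_injective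
    (β := {a | deg a ≤ d} → Fin (d + 1))
    (fun f a => ⟨f.1 a.1, by
      have h1 := hb f a.1
      have h2 : f.1 a.1 ≤ f.1 a.1 * (deg a.1 + 1) := Nat.le_mul_of_pos_right _ (Nat.succ_pos _)
      omega⟩)
  intro f g hfg
  apply Subtype.ext
  ext a
  by_cases h : deg a ≤ d
  · have := congrFun hfg ⟨a, h⟩
    exact congrArg Fin.val this
  · have h1 : ∀ f : {f : A →₀ ℕ // (f.sum fun a m => m * (deg a + 1)) = d}, f.1 a = 0 := by
      intro f
      by_contra h0
      have h2 := hb f a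
      have h3 : deg a + 1 ≤ f.1 a * (deg a + 1) := Nat.le_mul_of_pos_left _ (Nat.pos_of_ne_zero h0)
      omega
    rw [h1, h1]

theorem count (hf : ∀ n, {a | deg a ≤ n}.Finite) (d : ℕ) :
    ∑ q ∈ Finset.range (d + 1), NumE2 deg (d - q) q =
      Nat.card {f : A →₀ ℕ // (f.sum fun a m => m * (deg a + 1)) = d} := by
  have := finite_tot deg hf d
  have : ∀ q : Fin (d + 1), Finite {f : A →₀ ℕ // (f.sum fun a m => m * deg a) = q.1 ∧
      (f.sum fun _ m => m) = d - q.1} := by
    intro q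
    apply Finite.of_injective
      (β := {f : A →₀ ℕ // (f.sum fun a m => m * (deg a + 1)) = d})
      (fun f => ⟨f.1, by
        rw [sum_split, f.2.1, f.2.2]
        have := q.2
        omega⟩)
    intro f g hfg
    have hfg' := congrArg Subtype.val hfg
    exact Subtype.ext hfg'
  rw [Finset.sum_range]
  unfold NumE2
  rw [← Nat.card_sigma]
  apply Nat.card_congr
  refine ⟨fun t => ⟨t.2.1, ?_⟩, fun f => ⟨⟨f.1.sum fun a m => m * deg a, ?_⟩, ⟨f.1, rfl, ?_⟩⟩,
    ?_, ?_⟩
  · rw [sum_split, t.2.2.1, t.2.2.2]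
    have := t.1.2
    omega
  · have := f.2
    rw [sum_split] at this
    omega
  · have := f.2
    rw [sum_split] at this
    show _ = d - (f.1.sum fun a m => m * deg a)
    omega
  · rintro ⟨⟨q, hq⟩, ⟨f, h1, h2⟩⟩
    dsimp only at h1
    subst h1
    rfl
  · intro f
    rfl

end count

/-- Additivity of the Alexander-Whitney map. -/
theorem AW_add (M : BCM) (n : ℕ) (x y : ∀ p q, M.X p q) :
    M.AW n (x + y) = M.AW n x + M.AW n y := by
  unfold BCM.AW
  rw [← Finset.sum_add_distrib]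
  apply Finset.sum_congr rfl
  intro p _
  rw [← map_add]
  rfl

theorem AW_smul (M : BCM) (n : ℕ) (c : k) (x : ∀ p q, M.X p q) :
    M.AW n (c • x) = c • M.AW n x := by
  unfold BCM.AW
  rw [Finset.smul_sum]
  apply Finset.sum_congr rfl
  intro p _
  rw [← map_smul]
  rfl

theorem AW_zero (M : BCM) (n : ℕ) : M.AW n 0 = 0 := by
  have := AW_smul M n 0 0
  rwa [zero_smul, zero_smul] at this

theorem AW_cocycle (h5 : AWC_Stmt) (G : SV) (d : ℕ) (x : ∀ p q, G.bcm.X p q)
    (hx : x ∈ G.bcm.dc.ZT d) : G.bar.toSS.cm.delta d (G.bcm.AW d x) = 0 := by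
  have h := h5 G.bcm d x hx.1
  rw [hx.2, AW_zero] at h
  exact h.symm

theorem AW_bd (h5 : AWC_Stmt) (G : SV) (d : ℕ) (x : ∀ p q, G.bcm.X p q)
    (hx : x ∈ G.bcm.dc.BT d) : G.bcm.AW d x ∈ G.bar.toSS.cm.cc.B d := by
  cases d with
  | zero =>
    have hx0 : x = 0 := hx
    rw [hx0, AW_zero]
    exact Submodule.zero_mem _
  | succ d =>
    have hx' : x ∈ Submodule.span k {x | ∃ y ∈ G.bcm.dc.Tot d, G.bcm.dc.D y = x} := hx
    clear hx
    induction hx' using Submodule.span_induction with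
    | mem x h =>
      obtain ⟨y, hy, rfl⟩ := h
      rw [h5 G.bcm d y hy]
      exact ⟨G.bcm.AW d y, rfl⟩
    | zero => rw [AW_zero]; exact Submodule.zero_mem _
    | add x y hx hy ihx ihy =>
      rw [AW_add]
      exact Submodule.add_mem _ ihx ihy
    | smul c x hx ih =>
      rw [AW_smul]
      exact Submodule.smul_mem _ _ ih

/-- The classes of the Alexander-Whitney images. -/
noncomputable def Phi (h5 : AWC_Stmt) (G : SV) (d : ℕ) :
    G.bcm.dc.ZT d →ₗ[k] H G.bar.toSS where
  toFun x := clsN (X := G.bar.toSS) d (G.bcm.AW d x.1) (AW_cocycle h5 G d x.1 x.2)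
  map_add' x y := by
    rw [← clsN_add]
    congr 1
    exact AW_add _ _ _ _
  map_smul' c x := by
    unfold clsN
    rw [RingHom.id_apply, ← map_smul]
    congr 1
    apply Subtype.ext
    have h := single_smul (X := G.bar.toSS) d c (G.bcm.AW d x.1)
    refine Eq.trans ?_ h
    exact congrArg (single (X := G.bar.toSS) d) (AW_smul _ _ _ _)

theorem Phi_bd (h5 : AWC_Stmt) (G : SV) (d : ℕ) (x : G.bcm.dc.ZT d)
    (hx : x.1 ∈ G.bcm.dc.BT d) : Phi h5 G d x = 0 :=
  (clsN_eq_zero (X := G.bar.toSS) (G.bcm.AW d x.1) (AW_cocycle h5 G d x.1 x.2)).2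
    (AW_bd h5 G d x.1 hx)

end Barb

open Barb Coch in
theorem BARB (h1 : EZ_Stmt) (h2 : TB_Stmt) (h3 : LINK_Stmt) (h4 : E2_Stmt) (h5 : AWC_Stmt) :
    BARB_Stmt := by
  classical
  intro G hG A deg μ hμ d
  have hsp : SpanLE (G.bcm.dc.ZT d) (G.bcm.dc.BT d)
      (∑ q ∈ Finset.range (d + 1), NumE2 deg (d - q) q) := by
    apply h2 G.bcm.dc d (fun q => NumE2 deg (d - q) q)
    intro q _
    exact h3 G (d - q) q _ (h4 G hG deg μ hμ (d - q) q)
  rw [count deg hμ.fin d] at hsp
  obtain ⟨s, hs, hsZ, hZ⟩ := spanLE_inside hsp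
  refine ⟨s.attach.image (fun x => Phi h5 G d ⟨x.1, hsZ x.1 x.2⟩), ?_, ?_⟩
  · refine Finset.card_image_le.trans ?_
    rw [Finset.card_attach]
    exact hs
  · intro a ha
    obtain ⟨φ, h, rfl⟩ := exists_clsN ha
    obtain ⟨x, hx, hB⟩ := (h1 G.bcm d).1 φ h
    have e1 : clsN d φ h = Phi h5 G d ⟨x, hx⟩ := by
      have h6 : G.bar.toSS.cm.delta d (φ - G.bcm.AW d x) = 0 := by
        rw [map_sub, AW_cocycle h5 G d x hx, sub_zero]
        exact h
      have h7 : clsN d (φ - G.bcm.AW d x) h6 = 0 := (clsN_eq_zero _ _).2 hB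
      have h8 := clsN_add (φ - G.bcm.AW d x) (G.bcm.AW d x) h6 (AW_cocycle h5 G d x hx)
      have h8 := h8.trans ((congrArg (· + clsN (X := G.bar.toSS) d (G.bcm.AW d x)
        (AW_cocycle h5 G d x hx)) h7).trans (zero_add _))
      have h9 : clsN d (φ - G.bcm.AW d x + G.bcm.AW d x) (by
          rw [map_add, h6, AW_cocycle h5 G d x hx, add_zero]) = clsN d φ h := by
        congr 1
        abel
      exact h9.symm.trans h8
    rw [e1]
    obtain ⟨b, hb, c, hc, hbc⟩ := Submodule.mem_sup.1 (hZ hx)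
    have hc' : c ∈ ((Submodule.span k ((s.attach.image
        (fun x => Phi h5 G d ⟨x.1, hsZ x.1 x.2⟩) : Finset _) : Set (H G.bar.toSS))).comap
          (Phi h5 G d)).map (G.bcm.dc.ZT d).subtype := by
      have hle : Submodule.span k (s : Set (∀ p q, G.bcm.X p q)) ≤
          ((Submodule.span k ((s.attach.image
            (fun x => Phi h5 G d ⟨x.1, hsZ x.1 x.2⟩) : Finset _) : Set (H G.bar.toSS))).comap
          (Phi h5 G d)).map (G.bcm.dc.ZT d).subtype := by
        rw [Submodule.span_le]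
        intro y hy
        refine ⟨⟨y, hsZ y hy⟩, ?_, rfl⟩
        apply Submodule.subset_span
        rw [Finset.coe_image]
        exact ⟨⟨y, hy⟩, Finset.mem_coe.2 (Finset.mem_attach _ _), rfl⟩
      exact hle hc
    obtain ⟨c', hc'', rfl⟩ := hc'
    have hbZ : b ∈ G.bcm.dc.ZT d := by
      have : b = x - c'.1 := by
        rw [← hbc]
        show b = b + c'.1 - c'.1
        abel
      rw [this]
      exact Submodule.sub_mem _ hx c'.2
    have e2 : (⟨x, hx⟩ : G.bcm.dc.ZT d) = ⟨b, hbZ⟩ + c' := Subtype.ext hbc.symm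
    rw [e2, map_add, Phi_bd h5 G d ⟨b, hbZ⟩ hb, zero_add]
    exact hc''

end Pool.Agent.SHS
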