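import Pool.Agent.SH.S.StmtsC

/-!
Block III-S: the homogeneous basis of the cohomology of `G^p` in bar coordinates.
-/

namespace Pool.Agent.SHS

namespace Bxhb

variable (G : SV) (p : ℕ)

/-- bar coordinates -/
def phi : SS.Hom (G.BX p) (G.toSS.pow p) where
  f _ x := fun j => x.1 j.succ - x.1 j.castSucc
  nat a x := by
    funext j
    show G.map a (x.1 j.succ) - G.map a (x.1 j.castSucc) = G.map a (x.1 j.succ - x.1 j.castSucc)
    rw [map_sub]

/-- cumulative sums -/
def cum {M : Type*} [AddCommGroup M] {p : ℕ} (y : Fin p → M) (i : ℕ) : M :=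
  ∑ j ∈ Finset.univ.filter (fun j : Fin p => j.1 < i), y j

theorem cum_zero {M : Type*} [AddCommGroup M] {p : ℕ} (y : Fin p → M) : cum y 0 = 0 := by
  unfold cum
  simp

theorem cum_succ {M : Type*} [AddCommGroup M] {p : ℕ} (y : Fin p → M) (j : Fin p) :
    cum y (j.1 + 1) = cum y j.1 + y j := by
  unfold cum
  have e : Finset.univ.filter (fun j' : Fin p => j'.1 < j.1 + 1)
      = insert j (Finset.univ.filter (fun j' : Fin p => j'.1 < j.1)) := by
    ext l
    simp only [Finset.mem_filter, Finset.mem_univ, true_and, Finset.mem_insert, Fin.ext_iff]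
    omega
  rw [e, Finset.sum_insert (by simp), add_comm]

/-- the inverse of the bar coordinates -/
def psi : SS.Hom (G.toSS.pow p) (G.BX p) where
  f _ y := ⟨fun i => cum y i.1, cum_zero y⟩
  nat {m n} a y := by
    apply Subtype.ext
    funext i
    show cum (fun j => G.map a (y j)) i.1 = G.map a (cum y i.1)
    unfold cum
    rw [map_sum]

theorem psi_phi (n : ℕ) (x : (G.BX p).X n) : (psi G p).f n ((phi G p).f n x) = x := by
  apply Subtype.ext
  funext i
  show cum (fun j : Fin p => x.1 j.succ - x.1 j.castSucc) i.1 = x.1 i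
  induction i using Fin.induction with
  | zero => exact (cum_zero _).trans x.2.symm
  | succ j ih =>
    have h := cum_succ (fun j : Fin p => x.1 j.succ - x.1 j.castSucc) j
    have ih' : cum (fun j : Fin p => x.1 j.succ - x.1 j.castSucc) j.1 = x.1 j.castSucc := ih
    rw [ih'] at h
    refine h.trans ?_
    abel

theorem phi_psi (n : ℕ) (y : (G.toSS.pow p).X n) : (phi G p).f n ((psi G p).f n y) = y := by
  funext j
  show cum y (j.1 + 1) - cum y j.1 = y j
  rw [cum_succ, add_sub_cancel_left]

end Bxhb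

theorem BXHB (h : POW_Stmt) : BXHB_Stmt := by
  intro G hG A deg μ hE p
  have h1 := h G.toSS hG _ _ hE.hb p
  have h2 := h1.iso (Bxhb.phi G p) (Bxhb.psi G p) (Bxhb.psi_phi G p) (Bxhb.phi_psi G p)
  have e : (fun T : Fin p → Finset A => H.map (Bxhb.phi G p)
      (∏ i, H.map (G.toSS.proj p i) (∏ a ∈ T i, μ a)))
      = fun T => ∏ j, ∏ a ∈ T j, H.map (G.BXbar j) (μ a) := by
    funext T
    rw [map_prod]
    refine Finset.prod_congr rfl fun j _ => ?_
    rw [map_prod, map_prod]
    refine Finset.prod_congr rfl fun a _ => ?_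
    rw [← H.map_comp]
    rfl
  rw [e] at h2
  exact h2

end Pool.Agent.SHS
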