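import Pool.Agent.SH.S.StmtsC

namespace Pool.Agent.SHS
namespace E2p

theorem finMor (m n : ℕ) : Finite (Mor m n) :=
  Finite.of_injective (fun f : Mor m n => (f : Fin (m + 1) → Fin (n + 1)))
    (fun f g h => OrderHom.ext _ _ h)

theorem sphere_LF (m : ℕ) : (PS.sphere m).LF := fun n => by
  have := finMor n m
  exact Subtype.finite

theorem SPH_LF (l : List ℕ) : (SPH l).LF := by
  induction l with
  | nil => intro n; exact (inferInstance : Finite Unit)
  | cons m l ih =>
    intro n
    have h1 := sphere_LF m n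
    have h2 := ih n
    exact (inferInstance : Finite ((PS.sphere m).X n × (SPH l).X n))

theorem finF {A : Type} (deg : A → ℕ) (pos : ∀ a, 1 ≤ deg a) (fin : ∀ n, {a | deg a ≤ n}.Finite)
    (q : ℕ) : Finite {f : A →₀ ℕ // (f.sum fun a m => m * deg a) = q} := by
  classical
  have key : ∀ (f : A →₀ ℕ), (f.sum fun a m => m * deg a) = q → ∀ a, f a ≠ 0 → f a * deg a ≤ q := by
    intro f hf a ha
    rw [← hf]
    exact Finset.single_le_sum (f := fun a => f a * deg a) (fun _ _ => Nat.zero_le _)
      (Finsupp.mem_support_iff.mpr ha)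
  have h1 : Finite {a // a ∈ {a | deg a ≤ q}} := (fin q).to_subtype
  let g : {f : A →₀ ℕ // (f.sum fun a m => m * deg a) = q} → ({a // a ∈ {a | deg a ≤ q}} → Fin (q + 1)) :=
    fun f a => ⟨f.1 a.1, by
      by_cases h : f.1 a.1 = 0
      · omega
      · have h2 := key f.1 f.2 a.1 h
        have h3 := pos a.1
        have : f.1 a.1 * 1 ≤ f.1 a.1 * deg a.1 := Nat.mul_le_mul_left _ h3
        omega⟩
  apply Finite.of_injective g
  intro f f' h
  apply Subtype.ext
  ext a
  by_cases ha : deg a ≤ q
  · have := congrFun h ⟨a, ha⟩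
    exact congrArg Fin.val this
  · have hz : ∀ f : {f : A →₀ ℕ // (f.sum fun a m => m * deg a) = q}, f.1 a = 0 := by
      intro f
      by_contra h0
      have h2 := key f.1 f.2 a h0
      have : 1 * deg a ≤ f.1 a * deg a := Nat.mul_le_mul_right _ (Nat.one_le_iff_ne_zero.mpr h0)
      omega
    rw [hz f, hz f']

/-- transfer of bounds along a finite direct sum decomposition -/
theorem transfer (M : CM) {ι : Type} [Fintype ι] (C : ι → CM)
    (θ : ∀ i n, (C i).X n →ₗ[k] M.X n)
    (hθ : ∀ i {m n : ℕ} (a : Mor m n) (x : (C i).X m), θ i n ((C i).map a x) = M.map a (θ i m x))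
    (hb : ∀ n, Function.Bijective (fun φ : (∀ i, (C i).X n) => ∑ i, θ i n (φ i)))
    (p : ℕ) (N : ι → ℕ) (hN : ∀ i, SpanLE ((C i).cc.Z p) ((C i).cc.B p) (N i)) :
    SpanLE (M.cc.Z p) (M.cc.B p) (∑ i, N i) := by
  classical
  choose s hs1 hs2 using hN
  have hd : ∀ i n (x : (C i).X n), θ i (n + 1) ((C i).delta n x) = M.delta n (θ i n x) := by
    intro i n x
    rw [CM.delta_apply, CM.delta_apply, map_sum]
    exact Finset.sum_congr rfl fun j _ => hθ i _ _
  refine ⟨Finset.univ.biUnion fun i => (s i).image (θ i p), ?_, ?_⟩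
  · refine le_trans Finset.card_biUnion_le (Finset.sum_le_sum fun i _ => ?_)
    exact le_trans Finset.card_image_le (hs1 i)
  · intro x hx
    have hx' : M.delta p x = 0 := hx
    obtain ⟨φ, hφ0⟩ := (hb p).2 x
    have hφ : ∑ i, θ i p (φ i) = x := hφ0
    have hz : ∀ i, (C i).delta p (φ i) = 0 := by
      have h0 : (fun i => (C i).delta p (φ i)) = (0 : ∀ i, (C i).X (p + 1)) := by
        apply (hb (p + 1)).1
        show ∑ i, θ i (p + 1) ((C i).delta p (φ i)) = ∑ i, θ i (p + 1) (0 : (C i).X (p + 1))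
        simp only [hd, map_zero]
        rw [← map_sum, hφ, hx']
        simp
      intro i
      exact congrFun h0 i
    rw [← hφ]
    apply Submodule.sum_mem
    intro i _
    have h1 : φ i ∈ (C i).cc.B p ⊔ Submodule.span k (s i : Set ((C i).X p)) := hs2 i (hz i)
    obtain ⟨u, hu, v, hv, huv⟩ := Submodule.mem_sup.mp h1
    rw [← huv, map_add]
    apply Submodule.add_mem
    · apply Submodule.mem_sup_left
      cases p with
      | zero =>
        have : u = 0 := (Submodule.mem_bot k).mp hu
        rw [this, map_zero]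
        exact Submodule.zero_mem _
      | succ p =>
        obtain ⟨w, hw⟩ := hu
        exact ⟨θ i p w, by
          show M.delta p (θ i p w) = θ i (p + 1) u
          rw [← hd]
          exact congrArg _ hw⟩
    · apply Submodule.mem_sup_right
      have h2 := Submodule.mem_map_of_mem (f := θ i p) hv
      rw [Submodule.map_span] at h2
      refine Submodule.span_mono ?_ h2
      rintro _ ⟨y, hy, rfl⟩
      rw [Finset.mem_coe, Finset.mem_biUnion]
      exact ⟨i, Finset.mem_univ i, Finset.mem_image_of_mem _ hy⟩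

end E2p

open E2p in
theorem E2 (h1 : SPHC_Stmt) (h2 : E2S_Stmt) (h3 : E2B_Stmt) : E2_Stmt := by
  classical
  intro G hG A deg μ hμ p q
  have hfin : Finite {f : A →₀ ℕ // (f.sum fun a m => m * deg a) = q} := finF deg hμ.pos hμ.fin q
  let FF : Type := {f : A →₀ ℕ // (f.sum fun a m => m * deg a) = q}
  let _ : Fintype FF := Fintype.ofFinite FF
  let l : FF → List ℕ := fun f => f.1.support.toList.map f.1
  have hfinX : ∀ (f : FF) (n : ℕ), Finite ((SPH (l f)).X n) := fun f n => SPH_LF _ n
  let _ : ∀ (f : FF) (n : ℕ), Fintype ((SPH (l f)).X n) := fun f n => Fintype.ofFinite _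
  have hmem : ∀ (n : ℕ) (f : FF) (y : (SPH (l f)).X n),
      Lf G μ f.1 f.1.support.toList y ∈ Hn (G.BX n) q := fun n f y =>
    (h3 G hG deg μ hμ n q).2.1 ⟨f, y⟩
  let θ : ∀ (f : FF) (n : ℕ), ((SPH (l f)).cm).X n →ₗ[k] (HqCM G q).X n := fun f n =>
    { toFun := fun φ => ∑ y, φ y • (⟨Lf G μ f.1 f.1.support.toList y, hmem n f y⟩ : Hn (G.BX n) q)
      map_add' := fun φ ψ => by
        rw [← Finset.sum_add_distrib]
        exact Finset.sum_congr rfl fun y _ => add_smul _ _ _
      map_smul' := fun c φ => by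
        rw [RingHom.id_apply, Finset.smul_sum]
        exact Finset.sum_congr rfl fun y _ => mul_smul _ _ _ }
  have hθ : ∀ (f : FF) {m n : ℕ} (a : Mor m n) (x : ((SPH (l f)).cm).X m),
      θ f n (((SPH (l f)).cm).map a x) = (HqCM G q).map a (θ f m x) := by
    intro f m n a φ
    apply Subtype.ext
    have e1 : ((θ f n (((SPH (l f)).cm).map a φ)) : H (G.BX n))
        = ∑ y' : (SPH (l f)).X n, (((SPH (l f)).map a y').elim 0 φ) • Lf G μ f.1 f.1.support.toList y' := by
      show ((∑ y', (((SPH (l f)).map a y').elim 0 φ) •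
        (⟨Lf G μ f.1 f.1.support.toList y', hmem n f y'⟩ : Hn (G.BX n) q) : Hn (G.BX n) q) : H (G.BX n)) = _
      rw [Submodule.coe_sum]
      rfl
    have e2 : (((HqCM G q).map a (θ f m φ)) : H (G.BX n))
        = ∑ y : (SPH (l f)).X m, φ y • H.map (G.BXmap a) (Lf G μ f.1 f.1.support.toList y) := by
      show H.map (G.BXmap a) ((∑ y, φ y •
        (⟨Lf G μ f.1 f.1.support.toList y, hmem m f y⟩ : Hn (G.BX m) q) : Hn (G.BX m) q) : H (G.BX m)) = _
      rw [Submodule.coe_sum, map_sum]
      exact Finset.sum_congr rfl fun y _ => map_smul _ _ _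
    rw [e1, e2]
    have e3 : ∀ y : (SPH (l f)).X m, H.map (G.BXmap a) (Lf G μ f.1 f.1.support.toList y)
        = ∑ y' : (SPH (l f)).X n, if (SPH (l f)).map a y' = some y then
            Lf G μ f.1 f.1.support.toList y' else 0 := by
      intro y
      rw [h2 G μ hμ.prim f.1 f.1.support.toList m n a y
        (Finset.univ.filter fun y' => (SPH (l f)).map a y' = some y)
        (fun y' => by rw [Finset.mem_filter]; exact ⟨fun h => h.2, fun h => ⟨Finset.mem_univ _, h⟩⟩)]
      rw [Finset.sum_filter]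
    simp only [e3, Finset.smul_sum]
    rw [Finset.sum_comm]
    apply Finset.sum_congr rfl
    intro y' _
    cases h : (SPH (l f)).map a y' with
    | none => simp
    | some z =>
      rw [Finset.sum_eq_single z]
      · simp
      · intro y _ hy
        rw [if_neg, smul_zero]
        intro h'
        exact hy (Option.some.inj h').symm
      · intro h'
        exact absurd (Finset.mem_univ z) h'
  have hb : ∀ n, Function.Bijective (fun φ : (∀ f : FF, ((SPH (l f)).cm).X n) => ∑ f, θ f n (φ f)) := by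
    intro n
    obtain ⟨hi, _, hs⟩ := h3 G hG deg μ hμ n q
    have hval : ∀ φ : (∀ f : FF, ((SPH (l f)).cm).X n), ((∑ f, θ f n (φ f) : Hn (G.BX n) q) : H (G.BX n))
        = ∑ t : (Σ f : FF, (SPH (l f)).X n), φ t.1 t.2 • Lf G μ t.1.1 t.1.1.support.toList t.2 := by
      intro φ
      rw [Submodule.coe_sum, Fintype.sum_sigma]
      apply Finset.sum_congr rfl
      intro f _
      show ((∑ y, φ f y • (⟨Lf G μ f.1 f.1.support.toList y, hmem n f y⟩ : Hn (G.BX n) q) : Hn (G.BX n) q) : H (G.BX n)) = _
      rw [Submodule.coe_sum]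
      rfl
    constructor
    · intro φ ψ h
      have h' := congrArg (Subtype.val) h
      change ((∑ f, θ f n (φ f) : Hn (G.BX n) q) : H (G.BX n)) = ((∑ f, θ f n (ψ f) : Hn (G.BX n) q) : H (G.BX n)) at h'
      rw [hval, hval, ← sub_eq_zero, ← Finset.sum_sub_distrib] at h'
      simp only [← sub_smul] at h'
      have h4 := Fintype.linearIndependent_iff.mp hi (fun t => φ t.1 t.2 - ψ t.1 t.2) h'
      funext f y
      exact sub_eq_zero.mp (h4 ⟨f, y⟩)
    · intro x
      have hx := hs x.2
      obtain ⟨c, hc⟩ := (Submodule.mem_span_range_iff_exists_fun k).mp hx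
      refine ⟨fun f y => c ⟨f, y⟩, ?_⟩
      apply Subtype.ext
      show ((∑ f, θ f n (fun y => c ⟨f, y⟩) : Hn (G.BX n) q) : H (G.BX n)) = x.1
      rw [hval, ← hc]
  have hT := transfer (HqCM G q) (fun f : FF => (SPH (l f)).cm) θ hθ hb p
    (fun f => if p = (l f).sum then 1 else 0) (fun f => h1 (l f) p)
  have hsum : (∑ f : FF, if p = (l f).sum then 1 else 0) = NumE2 deg p q := by
    have hl : ∀ f : FF, (l f).sum = f.1.sum fun _ m => m := by
      intro f
      show (f.1.support.toList.map f.1).sum = _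
      rw [Finsupp.sum, ← Finset.sum_map_toList]
    simp only [hl]
    rw [Finset.sum_boole, Nat.cast_id, NumE2, ← Fintype.card_subtype, ← Nat.card_eq_fintype_card]
    apply Nat.card_congr
    exact {
      toFun := fun t => ⟨t.1.1, t.1.2, t.2.symm⟩
      invFun := fun t => ⟨⟨t.1, t.2.1⟩, t.2.2.symm⟩
      left_inv := fun _ => rfl
      right_inv := fun _ => rfl }
  rw [← hsum]
  exact hT

end Pool.Agent.SHS
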