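import Pool.Agent.SH.S.StmtsC

/-!
Block III-S: the products `Lf` form a basis of H^q(G^p).
-/

set_option autoImplicit false

namespace Pool.Agent.SHS

namespace E2b

/-! ### Surjective monotone maps and their jumps -/

theorem mem_jumps {p m : ℕ} (a : Mor p m) (j : Fin p) :
    j ∈ jumps a ↔ a j.castSucc ≠ a j.succ := by
  simp [jumps]

theorem surj_zero {p m : ℕ} (a : Mor p m) (ha : Function.Surjective a) : a 0 = 0 := by
  obtain ⟨w, hw⟩ := ha 0
  have h : a 0 ≤ a w := a.monotone (Fin.zero_le w)
  rw [hw] at h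
  exact Fin.le_zero_iff.1 h

theorem surj_step {p m : ℕ} (a : Mor p m) (ha : Function.Surjective a) (j : Fin p) :
    (a j.succ : ℕ) = (a j.castSucc : ℕ) + if j ∈ jumps a then 1 else 0 := by
  have hm : a j.castSucc ≤ a j.succ := a.monotone (le_of_lt Fin.castSucc_lt_succ)
  by_cases h : j ∈ jumps a
  · rw [if_pos h]
    have h1 : a j.castSucc < a j.succ := lt_of_le_of_ne hm ((mem_jumps a j).1 h)
    have h1' : (a j.castSucc : ℕ) < a j.succ := h1
    have h2 : (a j.castSucc : ℕ) + 1 < m + 1 := by
      have := (a j.succ).2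
      omega
    obtain ⟨w, hw⟩ := ha ⟨(a j.castSucc : ℕ) + 1, h2⟩
    have h3 : j.succ ≤ w := by
      by_contra h4
      have h5 : w ≤ j.castSucc := by
        rw [not_le] at h4
        exact Fin.le_castSucc_iff.2 h4
      have h6 : a w ≤ a j.castSucc := a.monotone h5
      rw [hw] at h6
      have h7 : (a j.castSucc : ℕ) + 1 ≤ a j.castSucc := h6
      omega
    have h8 : a j.succ ≤ a w := a.monotone h3
    rw [hw] at h8
    have h9 : (a j.succ : ℕ) ≤ (a j.castSucc : ℕ) + 1 := h8
    omega
  · rw [if_neg h]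
    have : a j.castSucc = a j.succ := by
      by_contra h'
      exact h ((mem_jumps a j).2 h')
    rw [this, add_zero]

/-- the number of elements of `J` below `v` -/
def cnt {p : ℕ} (J : Finset (Fin p)) (v : ℕ) : ℕ := (J.filter (fun j => j.1 < v)).card

theorem cnt_zero {p : ℕ} (J : Finset (Fin p)) : cnt J 0 = 0 := by
  simp [cnt]

theorem cnt_succ {p : ℕ} (J : Finset (Fin p)) (j : Fin p) :
    cnt J (j.1 + 1) = cnt J j.1 + if j ∈ J then 1 else 0 := by
  rw [cnt, cnt]
  by_cases h : j ∈ J
  · rw [if_pos h]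
    have e : J.filter (fun i => i.1 < j.1 + 1) = insert j (J.filter (fun i => i.1 < j.1)) := by
      ext i
      rw [Finset.mem_filter, Finset.mem_insert, Finset.mem_filter]
      constructor
      · rintro ⟨h1, h2⟩
        by_cases h3 : i = j
        · exact Or.inl h3
        · refine Or.inr ⟨h1, ?_⟩
          have : i.1 ≠ j.1 := fun h4 => h3 (Fin.ext h4)
          omega
      · rintro (rfl | ⟨h1, h2⟩)
        · exact ⟨h, by omega⟩
        · exact ⟨h1, by omega⟩
    rw [e, Finset.card_insert_of_notMem]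
    rw [Finset.mem_filter]
    rintro ⟨-, h1⟩
    omega
  · rw [if_neg h, add_zero]
    congr 1
    ext i
    rw [Finset.mem_filter, Finset.mem_filter]
    constructor
    · rintro ⟨h1, h2⟩
      refine ⟨h1, ?_⟩
      have : i.1 ≠ j.1 := fun h4 => h (by rw [← Fin.ext h4]; exact h1)
      omega
    · rintro ⟨h1, h2⟩
      exact ⟨h1, by omega⟩

theorem cnt_top {p : ℕ} (J : Finset (Fin p)) : cnt J p = J.card := by
  rw [cnt, Finset.filter_true_of_mem]
  exact fun j _ => j.2

theorem cnt_mono {p : ℕ} (J : Finset (Fin p)) {v w : ℕ} (h : v ≤ w) : cnt J v ≤ cnt J w := by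
  apply Finset.card_le_card
  intro j hj
  rw [Finset.mem_filter] at hj ⊢
  exact ⟨hj.1, by omega⟩

theorem cnt_le {p : ℕ} (J : Finset (Fin p)) (v : ℕ) : cnt J v ≤ J.card :=
  Finset.card_le_card (Finset.filter_subset _ _)

theorem surj_eq_cnt {p m : ℕ} (a : Mor p m) (ha : Function.Surjective a) :
    ∀ v : Fin (p + 1), (a v : ℕ) = cnt (jumps a) v.1 := by
  intro v
  induction v using Fin.induction with
  | zero =>
    rw [surj_zero a ha]
    exact (cnt_zero _).symm
  | succ j ih =>
    rw [surj_step a ha, ih]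
    exact (cnt_succ _ j).symm

theorem jumps_card {p m : ℕ} (a : Mor p m) (ha : Function.Surjective a) : (jumps a).card = m := by
  have h := surj_eq_cnt a ha (Fin.last p)
  have h1 : a (Fin.last p) = Fin.last m := by
    obtain ⟨w, hw⟩ := ha (Fin.last m)
    have h2 : a w ≤ a (Fin.last p) := a.monotone (Fin.le_last w)
    rw [hw] at h2
    exact Fin.last_le_iff.1 h2
  rw [h1, Fin.val_last, Fin.val_last, cnt_top] at h
  exact h.symm

theorem jumps_inj {p m : ℕ} (a b : Mor p m) (ha : Function.Surjective a)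
    (hb : Function.Surjective b) (h : jumps a = jumps b) : a = b := by
  apply OrderHom.ext
  funext v
  apply Fin.ext
  rw [surj_eq_cnt a ha, surj_eq_cnt b hb, h]

theorem exists_surj {p : ℕ} (J : Finset (Fin p)) (m : ℕ) (hJ : J.card = m) :
    ∃ a : Mor p m, Function.Surjective a ∧ jumps a = J := by
  subst hJ
  let a : Mor p J.card :=
    { toFun := fun v => ⟨cnt J v.1, Nat.lt_succ_of_le (cnt_le J _)⟩
      monotone' := fun v w h => cnt_mono J h }
  have hv : ∀ v, (a v : ℕ) = cnt J v.1 := fun _ => rfl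
  refine ⟨a, ?_, ?_⟩
  · -- surjective: discrete intermediate value
    have key : ∀ n : ℕ, n ≤ J.card → ∃ v : ℕ, v ≤ p ∧ cnt J v = n := by
      intro n hn
      induction n with
      | zero => exact ⟨0, Nat.zero_le _, cnt_zero J⟩
      | succ n ih =>
        obtain ⟨v0, hv0, hv0'⟩ := ih (by omega)
        -- the largest v with cnt = n
        have hex : ∃ v, v ≤ p ∧ n < cnt J v := ⟨p, le_refl p, by rw [cnt_top]; omega⟩
        classical
        let w := Nat.find hex
        have hw : w ≤ p ∧ n < cnt J w := Nat.find_spec hex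
        have hw0 : w ≠ 0 := by
          intro h
          rw [h, cnt_zero] at hw
          exact absurd hw.2 (Nat.not_lt_zero _)
        obtain ⟨u, hu⟩ := Nat.exists_eq_succ_of_ne_zero hw0
        have hmin : ¬ (u ≤ p ∧ n < cnt J u) := Nat.find_min hex (by omega)
        have hu' : cnt J u ≤ n := by
          by_contra h
          exact hmin ⟨by omega, by omega⟩
        have hup : u < p := by omega
        have hs := cnt_succ J ⟨u, hup⟩
        refine ⟨w, hw.1, ?_⟩
        have h3 : cnt J w = cnt J (u + 1) := by rw [hu]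
        have h4 : cnt J (u + 1) ≤ cnt J u + 1 := by
          have h5 : cnt J (u + 1) = cnt J u + if (⟨u, hup⟩ : Fin p) ∈ J then 1 else 0 := hs
          rw [h5]
          split_ifs <;> omega
        omega
    intro n
    obtain ⟨v, hv, hv'⟩ := key n.1 (by omega)
    exact ⟨⟨v, by omega⟩, Fin.ext hv'⟩
  · ext j
    rw [mem_jumps]
    have hs := cnt_succ J j
    constructor
    · intro h
      by_contra hj
      rw [if_neg hj, add_zero] at hs
      apply h
      apply Fin.ext
      rw [hv, hv]
      exact hs.symm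
    · intro hj h
      rw [if_pos hj] at hs
      have h1 := congrArg Fin.val h
      rw [hv, hv] at h1
      have h2 : cnt J j.1 = cnt J (j.1 + 1) := h1
      omega

/-! ### The sets `T j` -/

variable {A : Type}

open scoped Classical in
/-- the letters of the list which jump at `j` -/
noncomputable def Tf (f : A → ℕ) {p : ℕ} :
    (c : List A) → (SPH (c.map f)).X p → Fin p → Finset A
  | [], _ => fun _ => ∅
  | a :: c, y =>
    let y' : (PS.sphere (f a)).X p × (SPH (c.map f)).X p := y
    fun j => (if j ∈ jumps y'.1.1 then {a} else ∅) ∪ Tf f c y'.2 j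

theorem Tf_sub (f : A → ℕ) {p : ℕ} : ∀ (c : List A) (y : (SPH (c.map f)).X p) (j : Fin p) (x : A),
    x ∈ Tf f c y j → x ∈ c := by
  classical
  intro c
  induction c with
  | nil =>
    intro y j x hx
    exact absurd hx (Finset.notMem_empty x)
  | cons a c ih =>
    intro y j x hx
    have hx' : x ∈ (if j ∈ jumps (show (PS.sphere (f a)).X p × (SPH (c.map f)).X p from y).1.1
      then ({a} : Finset A) else ∅) ∪ Tf f c
        (show (PS.sphere (f a)).X p × (SPH (c.map f)).X p from y).2 j := hx
    rw [Finset.mem_union] at hx'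
    rcases hx' with h | h
    · split_ifs at h with h1
      · rw [Finset.mem_singleton] at h
        rw [h]
        exact List.mem_cons_self
      · exact absurd h (Finset.notMem_empty x)
    · exact List.mem_cons_of_mem _ (ih _ j x h)

theorem Tf_mem_head (f : A → ℕ) {p : ℕ} (a : A) (c : List A) (hac : a ∉ c)
    (y1 : (PS.sphere (f a)).X p) (y2 : (SPH (c.map f)).X p) (j : Fin p) :
    a ∈ Tf f (a :: c) (show (SPH ((a :: c).map f)).X p from (y1, y2)) j ↔ j ∈ jumps y1.1 := by
  classical
  show a ∈ (if j ∈ jumps y1.1 then ({a} : Finset A) else ∅) ∪ Tf f c y2 j ↔ _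
  rw [Finset.mem_union]
  constructor
  · rintro (h | h)
    · split_ifs at h with h1
      · exact h1
      · exact absurd h (Finset.notMem_empty _)
    · exact absurd (Tf_sub f c y2 j a h) hac
  · intro h
    left
    rw [if_pos h]
    exact Finset.mem_singleton_self a

theorem Tf_mem_tail (f : A → ℕ) {p : ℕ} (a : A) (c : List A)
    (y1 : (PS.sphere (f a)).X p) (y2 : (SPH (c.map f)).X p) (j : Fin p) (x : A) (hx : x ≠ a) :
    x ∈ Tf f (a :: c) (show (SPH ((a :: c).map f)).X p from (y1, y2)) j ↔ x ∈ Tf f c y2 j := by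
  classical
  show x ∈ (if j ∈ jumps y1.1 then ({a} : Finset A) else ∅) ∪ Tf f c y2 j ↔ _
  rw [Finset.mem_union]
  constructor
  · rintro (h | h)
    · split_ifs at h with h1
      · exact absurd (Finset.mem_singleton.1 h) hx
      · exact absurd h (Finset.notMem_empty _)
    · exact h
  · intro h
    exact Or.inr h

theorem Tf_inj (f : A → ℕ) {p : ℕ} : ∀ (c : List A), c.Nodup → ∀ y y' : (SPH (c.map f)).X p,
    Tf f c y = Tf f c y' → y = y' := by
  intro c
  induction c with
  | nil =>
    intro _ y y' _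
    exact Subsingleton.elim (α := Unit) y y'
  | cons a c ih =>
    rintro hc ⟨y1, y2⟩ ⟨y1', y2'⟩ h
    rw [List.nodup_cons] at hc
    have h1 : jumps y1.1 = jumps y1'.1 := by
      ext j
      rw [← Tf_mem_head f a c hc.1 y1 y2 j, ← Tf_mem_head f a c hc.1 y1' y2' j]
      exact iff_of_eq (congrArg (fun T => a ∈ T j) h)
    have h2 : Tf f c y2 = Tf f c y2' := by
      funext j
      ext x
      by_cases hx : x = a
      · subst hx
        constructor
        · intro h3
          exact absurd (Tf_sub f c y2 j _ h3) hc.1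
        · intro h3
          exact absurd (Tf_sub f c y2' j _ h3) hc.1
      · rw [← Tf_mem_tail f a c y1 y2 j x hx, ← Tf_mem_tail f a c y1' y2' j x hx]
        exact iff_of_eq (congrArg (fun T => x ∈ T j) h)
    exact Prod.ext (Subtype.ext (jumps_inj _ _ y1.2 y1'.2 h1)) (ih hc.2 _ _ h2)

theorem Tf_card (f : A → ℕ) {p : ℕ} : ∀ (c : List A), c.Nodup → ∀ y : (SPH (c.map f)).X p,
    ∀ a ∈ c, (letI := Classical.decEq A; (Finset.univ.filter (fun j => a ∈ Tf f c y j)).card) = f a := by
  classical
  intro c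
  induction c with
  | nil =>
    intro _ y a ha
    exact absurd ha List.not_mem_nil
  | cons a c ih =>
    rintro hc ⟨y1, y2⟩ x hx
    rw [List.nodup_cons] at hc
    by_cases hxa : x = a
    · subst hxa
      refine Eq.trans ?_ (jumps_card y1.1 y1.2)
      congr 1
      ext j
      rw [Finset.mem_filter]
      constructor
      · rintro ⟨-, h⟩
        exact (Tf_mem_head f x c hc.1 y1 y2 j).1 h
      · intro h
        exact ⟨Finset.mem_univ _, (Tf_mem_head f x c hc.1 y1 y2 j).2 h⟩
    · have hx' : x ∈ c := by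
        rcases List.mem_cons.1 hx with h | h
        · exact absurd h hxa
        · exact h
      refine Eq.trans ?_ (ih hc.2 y2 x hx')
      congr 1
      ext j
      rw [Finset.mem_filter, Finset.mem_filter]
      constructor
      · rintro ⟨-, h⟩
        exact ⟨Finset.mem_univ _, (Tf_mem_tail f a c y1 y2 j x hxa).1 h⟩
      · rintro ⟨-, h⟩
        exact ⟨Finset.mem_univ _, (Tf_mem_tail f a c y1 y2 j x hxa).2 h⟩

theorem Tf_surj (f : A → ℕ) {p : ℕ} (T : Fin p → Finset A) :
    ∀ (c : List A), c.Nodup →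
    (∀ a ∈ c, (letI := Classical.decEq A; (Finset.univ.filter (fun j => a ∈ T j)).card) = f a) →
    ∃ y : (SPH (c.map f)).X p, ∀ j x, x ∈ Tf f c y j ↔ x ∈ T j ∧ x ∈ c := by
  classical
  intro c
  induction c with
  | nil =>
    intro _ _
    refine ⟨(), fun j x => ?_⟩
    constructor
    · intro h
      exact absurd h (Finset.notMem_empty x)
    · rintro ⟨-, h⟩
      exact absurd h List.not_mem_nil
  | cons a c ih =>
    intro hc hf
    rw [List.nodup_cons] at hc
    obtain ⟨y2, hy2⟩ := ih hc.2 (fun x hx => hf x (List.mem_cons_of_mem _ hx))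
    obtain ⟨s, hs, hs'⟩ := exists_surj (Finset.univ.filter (fun j => a ∈ T j)) (f a)
      (hf a List.mem_cons_self)
    let y1 : (PS.sphere (f a)).X p := ⟨s, hs⟩
    refine ⟨(show (SPH ((a :: c).map f)).X p from (y1, y2)), fun j x => ?_⟩
    by_cases hx : x = a
    · subst hx
      rw [Tf_mem_head f x c hc.1 y1 y2 j]
      show j ∈ jumps s ↔ _
      rw [hs', Finset.mem_filter]
      constructor
      · rintro ⟨-, h⟩
        exact ⟨h, List.mem_cons_self⟩
      · rintro ⟨h, -⟩
        exact ⟨Finset.mem_univ _, h⟩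
    · rw [Tf_mem_tail f a c y1 y2 j x hx, hy2]
      constructor
      · rintro ⟨h1, h2⟩
        exact ⟨h1, List.mem_cons_of_mem _ h2⟩
      · rintro ⟨h1, h2⟩
        rcases List.mem_cons.1 h2 with h | h
        · exact absurd h hx
        · exact ⟨h1, h⟩

/-! ### The products -/

theorem Lf_eq (G : SV) (μ : A → H G.toSS) (f : A → ℕ) {p : ℕ} : ∀ (c : List A), c.Nodup →
    ∀ y : (SPH (c.map f)).X p,
    Lf G μ f c y = ∏ j, ∏ a ∈ Tf f c y j, H.map (G.BXbar j) (μ a) := by
  classical
  intro c
  induction c with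
  | nil =>
    intro _ y
    show (1 : H (G.BX p)) = ∏ j : Fin p, ∏ a ∈ (∅ : Finset A), H.map (G.BXbar j) (μ a)
    simp
  | cons a c ih =>
    rintro hc ⟨y1, y2⟩
    rw [List.nodup_cons] at hc
    show lam G (μ a) y1.1 * Lf G μ f c y2 = ∏ j, ∏ x ∈ (if j ∈ jumps y1.1 then ({a} : Finset A)
      else ∅) ∪ Tf f c y2 j, H.map (G.BXbar j) (μ x)
    rw [ih hc.2 y2]
    have h1 : ∀ j : Fin p, ∏ x ∈ (if j ∈ jumps y1.1 then ({a} : Finset A)
        else ∅) ∪ Tf f c y2 j, H.map (G.BXbar j) (μ x)
        = (if j ∈ jumps y1.1 then H.map (G.BXbar j) (μ a) else 1) *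
          ∏ x ∈ Tf f c y2 j, H.map (G.BXbar j) (μ x) := by
      intro j
      rw [Finset.prod_union]
      · congr 1
        split_ifs <;> simp
      · rw [Finset.disjoint_left]
        intro x hx hx'
        split_ifs at hx with h
        · rw [Finset.mem_singleton] at hx
          subst hx
          exact hc.1 (Tf_sub f c y2 j _ hx')
        · exact absurd hx (Finset.notMem_empty _)
    rw [Finset.prod_congr rfl (fun j _ => h1 j), Finset.prod_mul_distrib]
    congr 1
    rw [lam, Finset.prod_ite_mem, Finset.univ_inter]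

theorem Tf_deg (f : A → ℕ) (deg : A → ℕ) {p : ℕ} (T : Fin p → Finset A) (S : Finset A)
    (h1 : ∀ j, T j ⊆ S)
    (h2 : ∀ a ∈ S, (letI := Classical.decEq A; (Finset.univ.filter (fun j => a ∈ T j)).card) = f a) :
    ∑ j, ∑ a ∈ T j, deg a = ∑ a ∈ S, f a * deg a := by
  classical
  have h3 : ∀ j, ∑ a ∈ T j, deg a = ∑ a ∈ S, if a ∈ T j then deg a else 0 := by
    intro j
    rw [← Finset.sum_filter]
    congr 1
    ext a
    rw [Finset.mem_filter]
    exact ⟨fun h => ⟨h1 j h, h⟩, fun h => h.2⟩
  rw [Finset.sum_congr rfl (fun j _ => h3 j), Finset.sum_comm]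
  refine Finset.sum_congr rfl fun a ha => ?_
  rw [← h2 a ha, ← Finset.sum_filter, Finset.sum_const, smul_eq_mul]

end E2b

open E2b

theorem E2B (h : BXHB_Stmt) : E2B_Stmt := by
  classical
  intro G hG A deg μ hE p q b
  have hB := h G hG deg μ hE p
  let Φ : (Σ f : {f : A →₀ ℕ // (f.sum fun a m => m * deg a) = q},
      (SPH (f.1.support.toList.map f.1)).X p) → (Fin p → Finset A) :=
    fun t => Tf t.1.1 t.1.1.support.toList t.2
  have hb : ∀ t, b t = ∏ j, ∏ a ∈ Φ t j, H.map (G.BXbar j) (μ a) := fun t =>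
    Lf_eq G μ t.1.1 t.1.1.support.toList (Finset.nodup_toList _) t.2
  have hcard : ∀ t a, (Finset.univ.filter (fun j => a ∈ Φ t j)).card = t.1.1 a := by
    intro t a
    by_cases ha : a ∈ t.1.1.support
    · have := Tf_card t.1.1 t.1.1.support.toList (Finset.nodup_toList _) t.2 a
        (Finset.mem_toList.2 ha)
      rw [← this]
    · rw [Finsupp.notMem_support_iff.1 ha, Finset.card_eq_zero, Finset.filter_eq_empty_iff]
      intro j _ hj
      exact ha (Finset.mem_toList.1 (Tf_sub _ _ _ _ _ hj))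
  have hdeg : ∀ t, ∑ j, ∑ a ∈ Φ t j, deg a = q := by
    intro t
    rw [Tf_deg t.1.1 deg (Φ t) t.1.1.support
      (fun j a ha => Finset.mem_toList.1 (Tf_sub _ _ _ _ _ ha)) ?_]
    · exact t.1.2
    · intro a _
      rw [← hcard t a]
  have hinj : Function.Injective Φ := by
    rintro ⟨⟨f, hf⟩, y⟩ ⟨⟨f', hf'⟩, y'⟩ hff
    have h1 : f = f' := by
      ext a
      have h2 := hcard ⟨⟨f, hf⟩, y⟩ a
      have h3 := hcard ⟨⟨f', hf'⟩, y'⟩ a
      rw [hff, h3] at h2
      exact h2.symm
    subst h1
    have h4 : y = y' := Tf_inj f f.support.toList (Finset.nodup_toList _) y y' hff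
    rw [h4]
  refine ⟨?_, ?_, ?_⟩
  · have h5 : b = (fun T : Fin p → Finset A => ∏ j, ∏ a ∈ T j, H.map (G.BXbar j) (μ a)) ∘ Φ := by
      funext t
      exact hb t
    rw [h5]
    exact hB.indep.comp Φ hinj
  · intro t
    rw [hb t]
    have h6 := hB.mem (Φ t)
    rw [hdeg t] at h6
    exact h6
  · refine (hB.span q).trans (Submodule.span_mono ?_)
    rintro _ ⟨T, hT, rfl⟩
    -- the exponents
    let f : A →₀ ℕ := Finsupp.onFinset (Finset.univ.biUnion T)
      (fun a => (Finset.univ.filter (fun j => a ∈ T j)).card) (by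
        intro a ha
        rw [Finset.card_ne_zero] at ha
        obtain ⟨j, hj⟩ := ha
        rw [Finset.mem_filter] at hj
        exact Finset.mem_biUnion.2 ⟨j, Finset.mem_univ _, hj.2⟩)
    have hf : ∀ a, f a = (Finset.univ.filter (fun j => a ∈ T j)).card := fun _ => rfl
    have hsub : ∀ j, T j ⊆ f.support := by
      intro j a ha
      rw [Finsupp.mem_support_iff, hf, Finset.card_ne_zero]
      exact ⟨j, Finset.mem_filter.2 ⟨Finset.mem_univ _, ha⟩⟩
    have hfq : (f.sum fun a m => m * deg a) = q := by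
      rw [Finsupp.sum, ← Tf_deg f deg T f.support hsub ?_]
      · exact hT
      · intro a _
        rw [hf]
    obtain ⟨y, hy⟩ := Tf_surj f T f.support.toList (Finset.nodup_toList _) (by
      intro a _
      rw [hf])
    refine ⟨⟨⟨f, hfq⟩, y⟩, ?_⟩
    rw [hb]
    have hΦ : Φ ⟨⟨f, hfq⟩, y⟩ = T := by
      funext j
      ext x
      refine (hy j x).trans ⟨fun h7 => h7.1, fun h7 => ⟨h7, Finset.mem_toList.2 (hsub j h7)⟩⟩
    rw [hΦ]

end Pool.Agent.SHS
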