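import Pool.Agent.SH.S.StmtsC

/-!
Block III-S, E2S: structure formula for several letters.
-/

namespace Pool.Agent.SHS

namespace E2s

theorem finite_SPH (l : List ℕ) (n : ℕ) : Finite ((SPH l).X n) := by
  induction l with
  | nil => exact (inferInstance : Finite Unit)
  | cons m l ih =>
    have h1 : Finite (Mor n m) := DFunLike.finite _
    have h2 : Finite {a : Mor n m // Function.Surjective a} := inferInstance
    exact (inferInstance : Finite ({a : Mor n m // Function.Surjective a} × (SPH l).X n))

theorem sphere_map_iff {m p p' : ℕ} (b : Mor p p') (x : (PS.sphere m).X p')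
    (y : (PS.sphere m).X p) : (PS.sphere m).map b x = some y ↔ x.1.comp b = y.1 := by
  by_cases h : Function.Surjective (x.1.comp b)
  · have e : (PS.sphere m).map b x = some ⟨x.1.comp b, h⟩ := dif_pos h
    rw [e, Option.some_inj]
    constructor
    · rintro rfl
      rfl
    · intro h1
      exact Subtype.ext h1
  · have e : (PS.sphere m).map b x = none := dif_neg h
    rw [e]
    constructor
    · intro h1
      exact absurd h1 (by simp)
    · intro h1
      exact absurd (h1 ▸ y.2) h

end E2s

open E2s in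
theorem E2S (h : LAM_Stmt) : E2S_Stmt := by
  classical
  intro G A μ hμ f c
  induction c with
  | nil =>
    intro p p' b y s hs
    obtain ⟨u0, hu0⟩ : ∃ u0 : (SPH (List.map f [])).X p', ∀ u, u = u0 :=
      ⟨(() : Unit), fun (_ : Unit) => rfl⟩
    have hs' : s = {u0} := by
      ext u
      rw [Finset.mem_singleton]
      constructor
      · intro _
        exact hu0 u
      · intro _
        exact (hs u).2 rfl
    rw [hs', Finset.sum_singleton]
    exact map_one _
  | cons a c ih =>
    intro p p' b y s hs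
    obtain ⟨y1, y2⟩ : (PS.sphere (f a)).X p × (SPH (c.map f)).X p := y
    have hfin1 : Finite (Mor p' (f a)) := DFunLike.finite _
    have hfin2 : Finite ((SPH (c.map f)).X p') := finite_SPH _ _
    let s1 : Finset (Mor p' (f a)) :=
      (Set.toFinite {a' : Mor p' (f a) | Function.Surjective a' ∧ a'.comp b = y1.1}).toFinset
    let s2 : Finset ((SPH (c.map f)).X p') :=
      (Set.toFinite {y' | (SPH (c.map f)).map b y' = some y2}).toFinset
    have hs1 : ∀ a', a' ∈ s1 ↔ Function.Surjective a' ∧ a'.comp b = y1.1 := fun a' =>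
      Set.Finite.mem_toFinset _
    have hs2 : ∀ y', y' ∈ s2 ↔ (SPH (c.map f)).map b y' = some y2 := fun y' =>
      Set.Finite.mem_toFinset _
    have e1 := h G (μ a) (hμ a) p p' (f a) b y1.1 y1.2 s1 hs1
    have e2 := ih p p' b y2 s2 hs2
    have e3 : H.map (G.BXmap b) (Lf G μ f (a :: c) (y1, y2)) =
        H.map (G.BXmap b) (lam G (μ a) y1.1) * H.map (G.BXmap b) (Lf G μ f c y2) :=
      map_mul _ _ _
    rw [e3, e1, e2, Finset.sum_mul_sum, ← Finset.sum_product']
    refine Finset.sum_bij' (fun t ht => (⟨t.1, ((hs1 _).1 (Finset.mem_product.1 ht).1).1⟩, t.2))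
      (fun y' _ => (y'.1.1, y'.2)) ?_ ?_ ?_ ?_ ?_
    · intro t ht
      obtain ⟨h1, h2⟩ := Finset.mem_product.1 ht
      refine (hs _).2 ?_
      show Option.map₂ Prod.mk ((PS.sphere (f a)).map b _) ((SPH (c.map f)).map b t.2) =
        some (y1, y2)
      rw [(sphere_map_iff b ⟨t.1, _⟩ y1).2 ((hs1 _).1 h1).2, (hs2 _).1 h2]
      rfl
    · intro y' hy'
      have h1 : Option.map₂ Prod.mk ((PS.sphere (f a)).map b y'.1)
        ((SPH (c.map f)).map b y'.2) = some (y1, y2) := (hs _).1 hy'
      rw [Option.map₂_eq_some_iff] at h1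
      obtain ⟨u, v, hu, hv, huv⟩ := h1
      obtain ⟨rfl, rfl⟩ := Prod.mk.inj huv
      refine Finset.mem_product.2 ⟨(hs1 _).2 ⟨y'.1.2, (sphere_map_iff b y'.1 _).1 hu⟩,
        (hs2 _).2 hv⟩
    · intro t ht
      rfl
    · intro y' hy'
      rfl
    · intro t ht
      rfl

end Pool.Agent.SHS
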