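import Pool.Agent.SH.S.Tools

/-!
Block III-S: the class `u_1 ... u_n` of `B(F_2^n)` is the restriction of the fundamental class of
the Eilenberg-MacLane object.
-/

namespace Pool.Agent.SHS

open Coch

namespace Emu

/-- The edge from `j` to `j + 1` (for `j < n`). -/
def eg (j n : ℕ) : Mor 1 n where
  toFun i := ⟨min (j + i.1) n, by omega⟩
  monotone' := by
    intro a b h
    have h' : a.1 ≤ b.1 := h
    show min (j + a.1) n ≤ min (j + b.1) n
    omega

theorem eg_val (j n : ℕ) (i : Fin 2) : ((eg j n) i : ℕ) = min (j + i.1) n := rfl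

theorem fr_one (n : ℕ) : fr 1 (n + 1) = eg 0 (n + 1) := by
  apply mor_ext
  intro i
  rw [fr_val, eg_val]
  omega

theorem bk_eg (j n : ℕ) : (bk n (n + 1)).comp (eg j n) = eg (j + 1) (n + 1) := by
  apply mor_ext
  intro i
  rw [comp_val, bk_val, eg_val, eg_val]
  omega

variable {X : SS}

theorem prod_mem {n : ℕ} (c : Fin n → Coch X) (hc : ∀ j, c j ∈ CochD X 1) :
    (List.ofFn c).prod ∈ CochD X n := by
  induction n with
  | zero =>
    rw [List.ofFn_zero, List.prod_nil]
    intro m hm x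
    exact if_neg hm
  | succ n ih =>
    rw [List.ofFn_succ, List.prod_cons]
    have h := CochD_mul (hc 0) (ih _ fun j => hc j.succ)
    intro m hm x
    exact h m (fun h' => hm (h'.trans (add_comm 1 n))) x

/-- The value of a product of cochains of degree one. -/
theorem prod_val {n : ℕ} (c : Fin n → Coch X) (hc : ∀ j, c j ∈ CochD X 1) (x : X.X n) :
    (List.ofFn c).prod n x = ∏ j : Fin n, c j 1 (X.map (eg j.1 n) x) := by
  induction n with
  | zero =>
    rw [List.ofFn_zero, List.prod_nil, Fin.prod_univ_zero]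
    rfl
  | succ n ih =>
    rw [List.ofFn_succ, List.prod_cons, cmul_apply, Finset.sum_eq_single (1, n)]
    · rw [ih _ fun j => hc j.succ, Fin.prod_univ_succ, fr_one]
      congr 1
      refine Finset.prod_congr rfl fun j _ => ?_
      rw [← X.map_comp, bk_eg]
      rfl
    · rintro ⟨p, q⟩ hp hne
      rw [Finset.HasAntidiagonal.mem_antidiagonal] at hp
      have hp1 : p ≠ 1 := by
        rintro rfl
        apply hne
        have : q = n := by
          have h' : 1 + q = n + 1 := hp
          omega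
        rw [this]
      show c 0 p _ * _ = 0
      rw [hc 0 p hp1, zero_mul]
    · intro h
      exact absurd (by rw [Finset.HasAntidiagonal.mem_antidiagonal]; exact add_comm 1 n) h

/-- A monotone map which is not injective is constant on some edge. -/
theorem exists_edge {n m : ℕ} (s : Mor n m) (hs : ¬ Function.Injective s) :
    ∃ j : Fin n, s ((eg j.1 n) 1) = s ((eg j.1 n) 0) := by
  have h1 : ∃ a b : Fin (n + 1), s a = s b ∧ a < b := by
    unfold Function.Injective at hs
    push Not at hs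
    obtain ⟨a, b, hab, hne⟩ := hs
    rcases lt_or_gt_of_ne hne with h | h
    · exact ⟨a, b, hab, h⟩
    · exact ⟨b, a, hab.symm, h⟩
  obtain ⟨a, b, hab, hlt⟩ := h1
  have hlt' : a.1 < b.1 := hlt
  have hb : b.1 < n + 1 := b.2
  refine ⟨⟨a.1, by omega⟩, ?_⟩
  have e0 : (eg a.1 n) 0 = a := by
    apply Fin.ext
    rw [eg_val]
    show min (a.1 + 0) n = a.1
    omega
  have e1 : (eg a.1 n) 1 ≤ b := by
    show ((eg a.1 n) 1).1 ≤ b.1
    rw [eg_val]
    show min (a.1 + 1) n ≤ b.1
    omega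
  have e2 : a ≤ (eg a.1 n) 1 := by
    show a.1 ≤ ((eg a.1 n) 1).1
    rw [eg_val]
    show a.1 ≤ min (a.1 + 1) n
    omega
  show s ((eg a.1 n) 1) = s ((eg a.1 n) 0)
  rw [e0]
  apply le_antisymm
  · rw [hab]
    exact s.monotone e1
  · exact s.monotone e2

/-- The cocycles `u_j`. -/
noncomputable def cc (n : ℕ) (j : Fin n) : Cocyc (BB.pow n) :=
  Cocyc.pull (BB.proj n j) ⟨uC, dlt_uC⟩

theorem cc_mem (n : ℕ) (j : Fin n) : (cc n j).1 ∈ CochD (BB.pow n) 1 := by
  intro m hm x
  show (single 1 (fun g : Nrm 1 k => g.1 1) : Coch BB) m (x j) = 0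
  exact single_ne hm _ _

theorem cc_val (n : ℕ) (j : Fin n) (m : ℕ) (a : Mor 1 m) (x : (BB.pow n).X m) :
    (cc n j).1 1 ((BB.pow n).map a x) = (x j).1 (a 1) - (x j).1 (a 0) := by
  show (single 1 (fun g : Nrm 1 k => g.1 1) : Coch BB) 1 (BB.map a (x j)) = _
  rw [single_self]
  rfl

theorem cc_const (n : ℕ) (j : Fin n) (m : ℕ) (a : Mor 1 m) (h : a 1 = a 0)
    (x : (BB.pow n).X m) : (cc n j).1 1 ((BB.pow n).map a x) = 0 := by
  rw [cc_val, h, sub_self]

/-- The product of the cocycles. -/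
noncomputable def pp (n : ℕ) : Cocyc (BB.pow n) := (List.ofFn (cc n)).prod

theorem pp_val (n : ℕ) : (pp n).1 = (List.ofFn fun j => (cc n j).1).prod := by
  unfold pp
  have h : (Cocyc (BB.pow n)).val ((List.ofFn (cc n)).prod) =
      ((List.ofFn (cc n)).map (Cocyc (BB.pow n)).val).prod := map_list_prod _ _
  rw [List.map_ofFn] at h
  exact h

theorem pp_mem (n : ℕ) : (pp n).1 ∈ CochD (BB.pow n) n := by
  rw [pp_val]
  exact prod_mem _ (cc_mem n)

theorem pp_apply (n : ℕ) (x : (BB.pow n).X n) :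
    (pp n).1 n x = ∏ j : Fin n, (cc n j).1 1 ((BB.pow n).map (eg j.1 n) x) := by
  rw [pp_val, prod_val _ (cc_mem n)]

theorem pp_norm (n m : ℕ) (s : Mor n m) (hs : ¬ Function.Injective s) (x : (BB.pow n).X m) :
    (pp n).1 n ((BB.pow n).map s x) = 0 := by
  rw [pp_apply]
  obtain ⟨j, hj⟩ := exists_edge s hs
  refine Finset.prod_eq_zero (Finset.mem_univ j) ?_
  rw [← (BB.pow n).map_comp]
  exact cc_const n j m (s.comp (eg j.1 n)) hj x

theorem pp_delta (n : ℕ) : (BB.pow n).cm.delta n ((pp n).1 n) = 0 := by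
  funext x
  rw [CM.delta_apply, Finset.sum_apply]
  have h : dlt (pp n).1 = 0 := (pp n).2
  have h2 : dlt (pp n).1 (n + 1) x = 0 := by rw [h]; rfl
  rw [dlt_succ] at h2
  exact h2

end Emu

theorem EMU : EMU_Stmt := by
  intro n
  refine ⟨EMlift n ((Emu.pp n).1 n) (Emu.pp_norm n) (Emu.pp_delta n), ?_⟩
  have h1 : evB n (∏ j, MvPolynomial.X j) = cls (Emu.pp n) := by
    unfold Emu.pp
    rw [map_prod, map_list_prod, List.map_ofFn, List.prod_ofFn]
    refine Finset.prod_congr rfl fun j _ => ?_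
    unfold evB
    rw [MvPolynomial.aeval_X]
    rfl
  rw [h1]
  unfold iota
  rw [H.map_cls]
  congr 1
  apply Subtype.ext
  ext m x
  show iotaC n m _ = (Emu.pp n).1 m x
  by_cases h : m = n
  · subst h
    unfold iotaC
    rw [single_self]
    show (Emu.pp m).1 m ((BB.pow m).map OrderHom.id x) = _
    rw [(BB.pow m).map_id]
  · unfold iotaC
    rw [single_ne h, Emu.pp_mem n m h]

end Pool.Agent.SHS
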