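import Pool.Agent.SH.S.StmtsB

/-!
Block III-S, GENA: all symmetric sums of `u_1^(2^i_1) ... u_d^(2^i_d)` can be reached from
`u_1 ... u_d` by the coefficients of the total square.
-/

set_option autoImplicit false

namespace Pool.Agent.SHS

namespace Gena

open Finset

variable {d : ℕ}

/-- The multiset of values. -/
def mu (b : Fin d → ℕ) : Multiset ℕ := Multiset.ofList (List.ofFn b)

theorem mu_eq (b : Fin d → ℕ) : mu b = (univ : Finset (Fin d)).val.map b := by
  unfold mu
  rw [Fin.univ_val_map]

theorem mem_mu {b : Fin d → ℕ} {x : ℕ} : x ∈ mu b ↔ ∃ j, b j = x := by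
  rw [mu_eq, Multiset.mem_map]
  simp

theorem card_mu (b : Fin d → ℕ) : Multiset.card (mu b) = d := by
  rw [mu_eq, Multiset.card_map]
  simp

theorem wgt_mu (b : Fin d → ℕ) : wgt (mu b) = ∑ j, 2 ^ (b j) := by
  unfold wgt
  rw [mu_eq, Multiset.map_map]
  rfl

theorem map_mu (b : Fin d → ℕ) (f : ℕ → ℕ) : (mu b).map f = mu (fun j => f (b j)) := by
  rw [mu_eq, mu_eq, Multiset.map_map]
  rfl

theorem count_mu (b : Fin d → ℕ) (x : ℕ) :
    (mu b).count x = (univ.filter (fun j => b j = x)).card := by
  rw [mu_eq, Multiset.count_map]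
  have : (univ.filter (fun j => b j = x)).card
      = Multiset.card ((univ : Finset (Fin d)).val.filter (fun j => b j = x)) := rfl
  rw [this]
  congr 1
  apply Multiset.filter_congr
  intro j _
  exact eq_comm

theorem mu_comp (b : Fin d → ℕ) (σ : Equiv.Perm (Fin d)) : mu (fun j => b (σ j)) = mu b :=
  Multiset.coe_eq_coe.mpr (σ.ofFn_comp_perm b)

theorem exists_perm {f g : Fin d → ℕ} (h : mu f = mu g) :
    ∃ σ : Equiv.Perm (Fin d), g = fun j => f (σ j) := by
  have h1 : List.Perm (List.ofFn f) (List.ofFn g) := Multiset.coe_eq_coe.mp h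
  have hf := Tuple.monotone_sort f
  have hg := Tuple.monotone_sort g
  have h2 : f ∘ Tuple.sort f = g ∘ Tuple.sort g := List.ofFn_injective <|
    (((Tuple.sort f).ofFn_comp_perm f).trans
      (h1.trans ((Tuple.sort g).ofFn_comp_perm g).symm)).eq_of_pairwise'
      hf.sortedLE_ofFn.pairwise hg.sortedLE_ofFn.pairwise
  refine ⟨(Tuple.sort g).symm.trans (Tuple.sort f), ?_⟩
  funext x
  have h3 := congrFun h2 ((Tuple.sort g).symm x)
  simp only [Function.comp_apply, Equiv.apply_symm_apply] at h3
  exact h3.symm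

/-- The exponent vector. -/
noncomputable def ex (b : Fin d → ℕ) : Fin d →₀ ℕ :=
  Finsupp.equivFunOnFinite.symm (fun j => 2 ^ (b j))

theorem ex_apply (b : Fin d → ℕ) (j : Fin d) : ex b j = 2 ^ (b j) := rfl

theorem ex_inj {b b' : Fin d → ℕ} (h : ex b = ex b') : b = b' := by
  funext j
  have h1 := DFunLike.congr_fun h j
  rw [ex_apply, ex_apply] at h1
  exact Nat.pow_right_injective le_rfl h1

/-- The monomial. -/
noncomputable def mon (b : Fin d → ℕ) : MvPolynomial (Fin d) k :=
  ∏ j, MvPolynomial.X j ^ (2 ^ (b j))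

theorem mon_eq (b : Fin d → ℕ) : mon b = MvPolynomial.monomial (ex b) 1 := by
  rw [MvPolynomial.monomial_eq, MvPolynomial.C_1, one_mul, Finsupp.prod_fintype]
  · rfl
  · intro j
    rw [pow_zero]

theorem coeff_mon (b : Fin d → ℕ) (e : Fin d →₀ ℕ) :
    (mon b).coeff e = if ex b = e then 1 else 0 := by
  rw [mon_eq, MvPolynomial.coeff_monomial]

/-- The arrangements of `J`. -/
def arr (d : ℕ) (J : Multiset ℕ) : Finset (Fin d → ℕ) :=
  (Fintype.piFinset (fun _ : Fin d => J.toFinset)).filter
      (fun i => Multiset.ofList (List.ofFn i) = J)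

theorem mem_arr {J : Multiset ℕ} {b : Fin d → ℕ} : b ∈ arr d J ↔ mu b = J := by
  unfold arr
  rw [mem_filter, Fintype.mem_piFinset]
  constructor
  · exact fun h => h.2
  · intro h
    refine ⟨fun j => ?_, h⟩
    rw [Multiset.mem_toFinset, ← h]
    exact mem_mu.mpr ⟨j, rfl⟩

theorem msym_eq (J : Multiset ℕ) : msym d J = ∑ b ∈ arr d J, mon b := rfl

theorem coeff_msym (J : Multiset ℕ) (e : Fin d →₀ ℕ) :
    (msym d J).coeff e = ∑ b ∈ arr d J, if ex b = e then (1 : k) else 0 := by
  rw [msym_eq, MvPolynomial.coeff_sum]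
  exact sum_congr rfl fun b _ => coeff_mon b e

theorem coeff_msym_ex (b : Fin d → ℕ) : (msym d (mu b)).coeff (ex b) = 1 := by
  rw [coeff_msym, sum_eq_single b]
  · rw [if_pos rfl]
  · intro b' _ hne
    rw [if_neg (fun h => hne (ex_inj h))]
  · intro h
    exact absurd (mem_arr.mpr rfl) h

theorem of_coeff_msym {J : Multiset ℕ} {e : Fin d →₀ ℕ} (h : (msym d J).coeff e ≠ 0) :
    ∃ b : Fin d → ℕ, e = ex b ∧ mu b = J := by
  rw [coeff_msym] at h
  obtain ⟨b, hb, h1⟩ := exists_ne_zero_of_sum_ne_zero h
  refine ⟨b, ?_, mem_arr.mp hb⟩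
  by_contra h2
  exact h1 (if_neg (fun h3 => h2 h3.symm))

/-! ### Symmetry -/

/-- Symmetric polynomials. -/
def Sym (P : MvPolynomial (Fin d) k) : Prop :=
  ∀ s : Equiv.Perm (Fin d), MvPolynomial.rename s P = P

theorem rename_mon (s : Equiv.Perm (Fin d)) (b : Fin d → ℕ) :
    MvPolynomial.rename s (mon b) = mon (fun j => b (s.symm j)) := by
  unfold mon
  rw [map_prod]
  refine Fintype.prod_equiv s _ _ fun j => ?_
  rw [map_pow, MvPolynomial.rename_X]
  show _ = MvPolynomial.X (s j) ^ (2 ^ (b (s.symm (s j))))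
  rw [Equiv.symm_apply_apply]

theorem sym_msym (J : Multiset ℕ) : Sym (msym d J) := by
  intro s
  rw [msym_eq, map_sum]
  refine sum_nbij' (fun b j => b (s.symm j)) (fun b j => b (s j)) ?_ ?_ ?_ ?_ ?_
  · intro b hb
    rw [mem_arr] at hb ⊢
    rw [mu_comp b s.symm, hb]
  · intro b hb
    rw [mem_arr] at hb ⊢
    rw [mu_comp b s, hb]
  · intro b _
    funext j
    exact congrArg b (s.symm_apply_apply j)
  · intro b _
    funext j
    exact congrArg b (s.apply_symm_apply j)
  · intro b _
    exact rename_mon s b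

theorem Sym.add {P Q : MvPolynomial (Fin d) k} (h : Sym P) (h' : Sym Q) : Sym (P + Q) := by
  intro s
  rw [map_add, h s, h' s]

theorem St_rename (s : Equiv.Perm (Fin d)) (p : MvPolynomial (Fin d) k) (i : ℕ) :
    (St d (MvPolynomial.rename s p)).coeff i = MvPolynomial.rename s ((St d p).coeff i) := by
  have h : (St d).comp (MvPolynomial.rename s) =
      (Polynomial.mapAlgHom (MvPolynomial.rename s : MvPolynomial (Fin d) k →ₐ[k] _)).comp
        (St d) := by
    apply MvPolynomial.algHom_ext
    intro j
    rw [AlgHom.comp_apply, AlgHom.comp_apply, MvPolynomial.rename_X]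
    unfold St
    rw [MvPolynomial.aeval_X, MvPolynomial.aeval_X]
    simp [Polynomial.coe_mapAlgHom]
  have h1 := DFunLike.congr_fun h p
  rw [AlgHom.comp_apply, AlgHom.comp_apply] at h1
  rw [h1, Polynomial.coe_mapAlgHom, Polynomial.coeff_map]
  rfl

theorem Sym.st {P : MvPolynomial (Fin d) k} (h : Sym P) (i : ℕ) : Sym ((St d P).coeff i) := by
  intro s
  rw [← St_rename, h s]

theorem coeff_sym {P : MvPolynomial (Fin d) k} (h : Sym P) (b : Fin d → ℕ)
    (s : Equiv.Perm (Fin d)) : P.coeff (ex (fun j => b (s j))) = P.coeff (ex b) := by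
  have h1 : (ex (fun j => b (s j))).mapDomain s = ex b := by
    ext x
    rw [Finsupp.mapDomain_equiv_apply, ex_apply, ex_apply, Equiv.apply_symm_apply]
  have h2 := MvPolynomial.coeff_rename_mapDomain s s.injective P (ex (fun j => b (s j)))
  rw [h s, h1] at h2
  exact h2.symm

/-- A symmetric polynomial whose monomials are good can be reached. -/
theorem reach_of_sym {n : ℕ} (good : Multiset ℕ → Prop)
    (hg : ∀ J, good J → Reach d n (msym d J)) :
    ∀ (m : ℕ) (P : MvPolynomial (Fin d) k), P.support.card ≤ m → Sym P →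
      (∀ e, P.coeff e ≠ 0 → ∃ b : Fin d → ℕ, e = ex b ∧ good (mu b)) → Reach d n P := by
  intro m
  induction m with
  | zero =>
    intro P hP _ _
    rw [Nat.le_zero, card_eq_zero, MvPolynomial.support_eq_empty] at hP
    rw [hP]
    exact Reach.zero n
  | succ m ih =>
    intro P hP hs hsupp
    by_cases h0 : P = 0
    · rw [h0]
      exact Reach.zero n
    · obtain ⟨e0, he0⟩ := MvPolynomial.ne_zero_iff.mp h0
      obtain ⟨b0, rfl, hb0⟩ := hsupp e0 he0
      have hsub : ∀ e, (P + msym d (mu b0)).coeff e ≠ 0 → P.coeff e ≠ 0 := by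
        intro e he hc
        rw [MvPolynomial.coeff_add, hc, zero_add] at he
        obtain ⟨b, rfl, hb⟩ := of_coeff_msym he
        obtain ⟨s, rfl⟩ := exists_perm hb.symm
        rw [coeff_sym hs b0 s] at hc
        exact he0 hc
      have hc0 : (P + msym d (mu b0)).coeff (ex b0) = 0 := by
        rw [MvPolynomial.coeff_add, coeff_msym_ex]
        have h1 : ∀ x : k, x ≠ 0 → x + 1 = 0 := by decide
        exact h1 _ he0
      have hcard : (P + msym d (mu b0)).support.card ≤ m := by
        have h1 : (P + msym d (mu b0)).support ⊂ P.support := by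
          rw [ssubset_iff_of_subset]
          · refine ⟨ex b0, MvPolynomial.mem_support_iff.mpr he0, ?_⟩
            rw [MvPolynomial.mem_support_iff]
            exact fun h => h hc0
          · intro e he
            rw [MvPolynomial.mem_support_iff] at he ⊢
            exact hsub e he
        have h2 := card_lt_card h1
        omega
      have h3 := ih _ hcard (hs.add (sym_msym _)) (fun e he => hsupp e (hsub e he))
      have h4 := Reach.add h3 (hg _ hb0)
      have h5 : P + msym d (mu b0) + msym d (mu b0) = P := by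
        rw [add_assoc, CharTwo.add_self_eq_zero, add_zero]
      rw [h5] at h4
      exact h4

/-! ### The coefficients of the total square -/

/-- Add one on `A`. -/
def bump (b : Fin d → ℕ) (A : Finset (Fin d)) (j : Fin d) : ℕ := if j ∈ A then b j + 1 else b j

theorem St_mon (b : Fin d → ℕ) (i : ℕ) : (St d (mon b)).coeff i =
    ∑ A ∈ univ.filter (fun A : Finset (Fin d) => ∑ j ∈ A, 2 ^ (b j) = i), mon (bump b A) := by
  have h1 : St d (mon b) = ∏ j, (Polynomial.C (MvPolynomial.X j ^ (2 ^ (b j + 1))) *
      Polynomial.X ^ (2 ^ (b j)) + Polynomial.C (MvPolynomial.X j ^ (2 ^ (b j)))) := by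
    unfold mon
    rw [map_prod]
    refine prod_congr rfl fun j _ => ?_
    unfold St
    rw [map_pow, MvPolynomial.aeval_X, add_pow_char_pow, mul_pow, ← Polynomial.C_pow,
      ← Polynomial.C_pow, ← pow_mul, ← pow_succ', add_comm, mul_comm]
  have h2 : ∀ A : Finset (Fin d), (∏ j ∈ A, (Polynomial.C (MvPolynomial.X j ^ (2 ^ (b j + 1)) :
      MvPolynomial (Fin d) k) * Polynomial.X ^ (2 ^ (b j)))) *
      ∏ j ∈ univ \ A, Polynomial.C (MvPolynomial.X j ^ (2 ^ (b j))) =
      Polynomial.monomial (∑ j ∈ A, 2 ^ (b j)) (mon (bump b A)) := by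
    intro A
    rw [prod_mul_distrib, prod_pow_eq_pow_sum, ← map_prod, ← map_prod,
      ← Polynomial.C_mul_X_pow_eq_monomial]
    have h3 : mon (bump b A) = (∏ j ∈ A, MvPolynomial.X j ^ (2 ^ (b j + 1))) *
        ∏ j ∈ univ \ A, MvPolynomial.X j ^ (2 ^ (b j)) := by
      unfold mon
      rw [← prod_sdiff (subset_univ A), mul_comm]
      congr 1
      · refine prod_congr rfl fun j hj => ?_
        rw [bump, if_pos hj]
      · refine prod_congr rfl fun j hj => ?_
        rw [bump, if_neg (mem_sdiff.mp hj).2]
    rw [h3, Polynomial.C_mul]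
    ring
  rw [h1, prod_add, Polynomial.finsetSum_coeff, sum_congr rfl (fun A _ => by rw [h2 A]),
    powerset_univ, sum_filter]
  refine sum_congr rfl fun A _ => ?_
  rw [Polynomial.coeff_monomial]

theorem coeff_Q (K : Multiset ℕ) (i : ℕ) (e : Fin d →₀ ℕ) :
    ((St d (msym d K)).coeff i).coeff e = ∑ b ∈ arr d K,
      ∑ A ∈ univ.filter (fun A : Finset (Fin d) => ∑ j ∈ A, 2 ^ (b j) = i),
        if ex (bump b A) = e then (1 : k) else 0 := by
  rw [msym_eq, map_sum, Polynomial.finsetSum_coeff, MvPolynomial.coeff_sum]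
  refine sum_congr rfl fun b _ => ?_
  rw [St_mon, MvPolynomial.coeff_sum]
  exact sum_congr rfl fun A _ => coeff_mon _ _

/-! ### The main step -/

section Step

variable {l c : ℕ}

theorem sum_ge {b : Fin d → ℕ} {A A0 : Finset (Fin d)} (hA : A0 ⊆ A) (hb : ∀ j ∈ A0, b j = l)
    (hc : A0.card = c + 1) (hs : ∑ j ∈ A, 2 ^ (b j) = 2 ^ l * (c + 1)) : A = A0 := by
  have h1 : ∑ j ∈ A0, 2 ^ (b j) = 2 ^ l * (c + 1) := by
    rw [sum_congr rfl (fun j hj => by rw [hb j hj]), sum_const, hc, smul_eq_mul, mul_comm]
  have h2 := sum_sdiff (f := fun j => 2 ^ (b j)) hA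
  have h3 : ∑ j ∈ A \ A0, 2 ^ (b j) = 0 := by omega
  rw [sum_eq_zero_iff] at h3
  refine Subset.antisymm (fun j hj => ?_) hA
  by_contra hj'
  have h4 := h3 j (mem_sdiff.mpr ⟨hj, hj'⟩)
  exact absurd h4 (pow_ne_zero _ two_ne_zero)

/-- `J` is determined by its truncation and the number of its largest elements. -/
theorem eq_of_trunc {J J' : Multiset ℕ} (hJ : ∀ x ∈ J, x ≤ l + 1) (hJ' : ∀ x ∈ J', x ≤ l + 1)
    (h1 : J.map (fun x => min l x) = J'.map (fun x => min l x))
    (h2 : J.count (l + 1) = J'.count (l + 1)) : J = J' := by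
  have key : ∀ I : Multiset ℕ, (∀ x ∈ I, x ≤ l + 1) → ∃ F : Multiset ℕ,
      I = F + Multiset.replicate (I.count (l + 1)) (l + 1) ∧
      I.map (fun x => min l x) = F + Multiset.replicate (I.count (l + 1)) l := by
    intro I hI
    refine ⟨I.filter (fun x => ¬ x = l + 1), ?_, ?_⟩
    · have h3 := Multiset.filter_add_not (fun x => x = l + 1) I
      rw [Multiset.filter_eq'] at h3
      conv_lhs => rw [← h3]
      rw [add_comm]
    · have h3 := Multiset.filter_add_not (fun x => x = l + 1) I
      rw [Multiset.filter_eq'] at h3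
      conv_lhs => rw [← h3]
      rw [Multiset.map_add, Multiset.map_replicate, add_comm]
      congr 1
      · have h4 : (I.filter (fun x => ¬ x = l + 1)).map (fun x => min l x) =
            (I.filter (fun x => ¬ x = l + 1)).map id := by
          apply Multiset.map_congr rfl
          intro x hx
          rw [Multiset.mem_filter] at hx
          have h5 := hI x hx.1
          show min l x = x
          omega
        rw [h4, Multiset.map_id]
      · rw [min_eq_left (Nat.le_succ l)]
  obtain ⟨F, e1, e2⟩ := key J hJ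
  obtain ⟨F', e1', e2'⟩ := key J' hJ'
  rw [h1, e2', h2] at e2
  have h3 : F' = F := add_right_cancel e2
  rw [e1, e1', h2, h3]

theorem main_step (J : Multiset ℕ) (hd : Multiset.card J = d) (hJ : ∀ x ∈ J, x ≤ l + 1)
    (hc : J.count (l + 1) = c + 1)
    (ih1 : ∀ K : Multiset ℕ, Multiset.card K = d → (∀ x ∈ K, x ≤ l) →
      Reach d (wgt K) (msym d K))
    (ih2 : ∀ K : Multiset ℕ, Multiset.card K = d → (∀ x ∈ K, x ≤ l + 1) →
      K.count (l + 1) ≤ c → Reach d (wgt K) (msym d K)) :
    Reach d (wgt J) (msym d J) := by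
  -- an arrangement of `J`
  obtain ⟨bJ, hbJ⟩ : ∃ bJ : Fin d → ℕ, mu bJ = J := by
    subst hd
    obtain ⟨L, rfl⟩ : ∃ L : List ℕ, J = (L : Multiset ℕ) := ⟨J.toList, J.coe_toList.symm⟩
    exact ⟨fun j => L.get (j.cast (Multiset.coe_card L)), by
      unfold mu
      congr 1
      exact List.ofFn_get L⟩
  set K : Multiset ℕ := J.map (fun x => min l x) with hK
  have hKcard : Multiset.card K = d := by rw [hK, Multiset.card_map, hd]
  have hKle : ∀ x ∈ K, x ≤ l := by
    intro x hx
    rw [hK, Multiset.mem_map] at hx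
    obtain ⟨y, -, rfl⟩ := hx
    exact min_le_left _ _
  -- arrangements of `J`
  have hA0 : ∀ b' : Fin d → ℕ, mu b' = J → (univ.filter (fun j => b' j = l + 1)).card = c + 1 := by
    intro b' hb'
    rw [← count_mu, hb', hc]
  have hle : ∀ b' : Fin d → ℕ, mu b' = J → ∀ j, b' j ≤ l + 1 := by
    intro b' hb' j
    apply hJ
    rw [← hb']
    exact mem_mu.mpr ⟨j, rfl⟩
  have hKarr : ∀ b ∈ arr d K, ∀ j, b j ≤ l := by
    intro b hb j
    apply hKle
    rw [← mem_arr.mp hb]
    exact mem_mu.mpr ⟨j, rfl⟩
  have hb0K : ∀ b' : Fin d → ℕ, mu b' = J → (fun j => min l (b' j)) ∈ arr d K := by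
    intro b' hb'
    rw [mem_arr, ← map_mu b' (fun x => min l x), hb']
  have hbump : ∀ b' : Fin d → ℕ, mu b' = J →
      bump (fun j => min l (b' j)) (univ.filter (fun j => b' j = l + 1)) = b' := by
    intro b' hb'
    funext j
    have := hle b' hb' j
    unfold bump
    by_cases hj : b' j = l + 1
    · have h1 : j ∈ univ.filter (fun j => b' j = l + 1) := by simpa using hj
      rw [if_pos h1]
      show min l (b' j) + 1 = b' j
      omega
    · have h1 : j ∉ univ.filter (fun j => b' j = l + 1) := by simpa using hj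
      rw [if_neg h1]
      show min l (b' j) = b' j
      omega
  have hsum : ∀ b' : Fin d → ℕ, mu b' = J →
      ∑ j ∈ univ.filter (fun j => b' j = l + 1), 2 ^ (min l (b' j)) = 2 ^ l * (c + 1) := by
    intro b' hb'
    rw [sum_congr rfl (g := fun _ => 2 ^ l) (fun j hj => by
      rw [(mem_filter.mp hj).2, min_eq_left (Nat.le_succ l)]), sum_const, hA0 b' hb',
      smul_eq_mul, mul_comm]
  -- weights
  have hbw : ∀ (b : Fin d → ℕ) (A : Finset (Fin d)), ∑ j, 2 ^ (bump b A j) =
      ∑ j, 2 ^ (b j) + ∑ j ∈ A, 2 ^ (b j) := by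
    intro b A
    have h1 : ∑ j ∈ A, 2 ^ (b j) = ∑ j, if j ∈ A then 2 ^ (b j) else 0 := by
      rw [sum_ite_mem, univ_inter]
    rw [h1, ← sum_add_distrib]
    refine sum_congr rfl fun j _ => ?_
    unfold bump
    by_cases hj : j ∈ A
    · rw [if_pos hj, if_pos hj, pow_succ, mul_two]
    · rw [if_neg hj, if_neg hj, add_zero]
  have hwK : wgt J = wgt K + 2 ^ l * (c + 1) := by
    rw [← mem_arr.mp (hb0K bJ hbJ), ← hbJ, wgt_mu, wgt_mu, ← hsum bJ hbJ,
      ← hbw (fun j => min l (bJ j)), hbump bJ hbJ]
  have hi : 2 ^ l * (c + 1) ≤ wgt K := by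
    rw [← mem_arr.mp (hb0K bJ hbJ), wgt_mu, ← hsum bJ hbJ]
    exact sum_le_sum_of_subset (subset_univ _)
  -- the coefficient at the arrangements of `J`
  have C1 : ∀ b' : Fin d → ℕ, mu b' = J →
      ((St d (msym d K)).coeff (2 ^ l * (c + 1))).coeff (ex b') = 1 := by
    intro b' hb'
    have huniq : ∀ b ∈ arr d K, ∀ A : Finset (Fin d), ∑ j ∈ A, 2 ^ (b j) = 2 ^ l * (c + 1) →
        bump b A = b' → A = univ.filter (fun j => b' j = l + 1) ∧ b = fun j => min l (b' j) := by
      intro b hb A hA hbA
      have hbl := hKarr b hb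
      have h1 : ∀ j, b' j = l + 1 → j ∈ A ∧ b j = l := by
        intro j hj
        have h2 := congrFun hbA j
        rw [hj] at h2
        have h3 := hbl j
        unfold bump at h2
        by_cases hjA : j ∈ A
        · rw [if_pos hjA] at h2
          exact ⟨hjA, by omega⟩
        · rw [if_neg hjA] at h2
          omega
      have h4 : A = univ.filter (fun j => b' j = l + 1) :=
        sum_ge (l := l) (c := c) (b := b) (fun j hj => (h1 j (mem_filter.mp hj).2).1)
          (fun j hj => (h1 j (mem_filter.mp hj).2).2) (hA0 b' hb') hA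
      refine ⟨h4, ?_⟩
      funext j
      by_cases hj : b' j = l + 1
      · rw [(h1 j hj).2, hj]
        omega
      · have h2 := congrFun hbA j
        unfold bump at h2
        rw [if_neg (fun h => hj (by rw [h4] at h; exact (mem_filter.mp h).2))] at h2
        have := hbl j
        rw [← h2]
        omega
    rw [coeff_Q, sum_eq_single (fun j => min l (b' j))]
    · rw [sum_eq_single (univ.filter (fun j => b' j = l + 1))]
      · rw [if_pos]
        rw [hbump b' hb']
      · intro A hA hne
        rw [if_neg]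
        intro h
        exact hne (huniq _ (hb0K b' hb') A (mem_filter.mp hA).2 (ex_inj h)).1
      · intro h
        exfalso
        apply h
        rw [mem_filter]
        exact ⟨mem_univ _, hsum b' hb'⟩
    · intro b hb hne
      refine sum_eq_zero fun A hA => ?_
      rw [if_neg]
      intro h
      exact hne (huniq b hb A (mem_filter.mp hA).2 (ex_inj h)).2
    · intro h
      exact absurd (hb0K b' hb') h
  -- the other coefficients
  have C2 : ∀ e, ((St d (msym d K)).coeff (2 ^ l * (c + 1))).coeff e ≠ 0 →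
      ∃ b' : Fin d → ℕ, e = ex b' ∧ (∀ j, b' j ≤ l + 1) ∧ wgt (mu b') = wgt J ∧
        ((mu b').count (l + 1) ≤ c ∨ mu b' = J) := by
    intro e he
    rw [coeff_Q] at he
    obtain ⟨b, hb, h1⟩ := exists_ne_zero_of_sum_ne_zero he
    obtain ⟨A, hA, h2⟩ := exists_ne_zero_of_sum_ne_zero h1
    have hA' := (mem_filter.mp hA).2
    have h3 : ex (bump b A) = e := by
      by_contra h
      exact h2 (if_neg h)
    have hbl := hKarr b hb
    have hbl' : ∀ j, bump b A j ≤ l + 1 := by
      intro j
      have := hbl j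
      unfold bump
      split_ifs <;> omega
    refine ⟨bump b A, h3.symm, hbl', ?_, ?_⟩
    · rw [wgt_mu, hbw, hA', ← wgt_mu, mem_arr.mp hb, hwK]
    · have h4 : univ.filter (fun j => bump b A j = l + 1) ⊆ A := by
        intro j hj
        have h5 := (mem_filter.mp hj).2
        by_contra hjA
        unfold bump at h5
        rw [if_neg hjA] at h5
        have := hbl j
        omega
      have h6 : ∀ j ∈ univ.filter (fun j => bump b A j = l + 1), b j = l := by
        intro j hj
        have h5 := (mem_filter.mp hj).2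
        unfold bump at h5
        rw [if_pos (h4 hj)] at h5
        omega
      have h7 : 2 ^ l * (univ.filter (fun j => bump b A j = l + 1)).card ≤ 2 ^ l * (c + 1) := by
        rw [← hA']
        calc 2 ^ l * (univ.filter (fun j => bump b A j = l + 1)).card
            = ∑ j ∈ univ.filter (fun j => bump b A j = l + 1), 2 ^ (b j) := by
              rw [sum_congr rfl (fun j hj => by rw [h6 j hj]), sum_const, smul_eq_mul, mul_comm]
          _ ≤ ∑ j ∈ A, 2 ^ (b j) := sum_le_sum_of_subset h4
      have h8 := Nat.le_of_mul_le_mul_left h7 (by positivity)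
      rw [count_mu]
      by_cases h9 : (univ.filter (fun j => bump b A j = l + 1)).card ≤ c
      · exact Or.inl h9
      · right
        have h10 : (univ.filter (fun j => bump b A j = l + 1)).card = c + 1 := by omega
        have h11 : A = univ.filter (fun j => bump b A j = l + 1) := sum_ge h4 h6 h10 hA'
        apply eq_of_trunc (l := l)
        · intro x hx
          obtain ⟨j, rfl⟩ := mem_mu.mp hx
          exact hbl' j
        · exact hJ
        · rw [map_mu]
          have h12 : (fun j => min l (bump b A j)) = b := by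
            funext j
            have := hbl j
            by_cases hj : j ∈ A
            · have h13 := hj
              rw [h11] at h13
              rw [(mem_filter.mp h13).2, h6 j h13]
              omega
            · unfold bump
              rw [if_neg hj]
              omega
          rw [h12, mem_arr.mp hb]
        · rw [count_mu, h10, hc]
  -- conclusion
  have hQ : Reach d (wgt J) ((St d (msym d K)).coeff (2 ^ l * (c + 1))) := by
    rw [hwK]
    exact Reach.step _ hi (ih1 K hKcard hKle)
  have hP : Reach d (wgt J) ((St d (msym d K)).coeff (2 ^ l * (c + 1)) + msym d J) := by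
    refine reach_of_sym (fun J' => Multiset.card J' = d ∧ (∀ x ∈ J', x ≤ l + 1) ∧
      wgt J' = wgt J ∧ J'.count (l + 1) ≤ c) ?_ _ _ le_rfl (((sym_msym K).st _).add (sym_msym J)) ?_
    · rintro J' ⟨h1, h2, h3, h4⟩
      rw [← h3]
      exact ih2 J' h1 h2 h4
    · intro e he
      rw [MvPolynomial.coeff_add] at he
      by_cases h0 : ((St d (msym d K)).coeff (2 ^ l * (c + 1))).coeff e = 0
      · rw [h0, zero_add] at he
        obtain ⟨b', rfl, hb'⟩ := of_coeff_msym he
        rw [C1 b' hb'] at h0
        exact absurd h0 one_ne_zero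
      · obtain ⟨b', rfl, h1, h2, h3⟩ := C2 e h0
        rcases h3 with h3 | h3
        · refine ⟨b', rfl, card_mu b', ?_, h2, h3⟩
          intro x hx
          obtain ⟨j, rfl⟩ := mem_mu.mp hx
          exact h1 j
        · exfalso
          apply he
          rw [C1 b' h3, ← h3, coeff_msym_ex]
          decide
  have h4 := Reach.add hQ hP
  rw [← add_assoc, CharTwo.add_self_eq_zero, zero_add] at h4
  exact h4

end Step

theorem main (d : ℕ) : ∀ (L : ℕ) (J : Multiset ℕ), Multiset.card J = d → (∀ x ∈ J, x ≤ L) →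
    Reach d (wgt J) (msym d J) := by
  intro L
  induction L with
  | zero =>
    intro J hd hJ
    have h1 : J = Multiset.replicate d 0 :=
      Multiset.eq_replicate.mpr ⟨hd, fun x hx => Nat.le_zero.mp (hJ x hx)⟩
    have h2 : mu (fun _ : Fin d => 0) = J := by
      rw [h1, mu_eq, Multiset.map_const']
      simp
    have h3 : wgt J = d := by
      rw [← h2, wgt_mu]
      simp
    have h4 : msym d J = ∏ j, MvPolynomial.X j := by
      rw [msym_eq]
      have h5 : arr d J = {fun _ => 0} := by
        ext b
        rw [mem_arr, mem_singleton]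
        constructor
        · intro hb
          funext j
          have : b j ∈ J := by
            rw [← hb]
            exact mem_mu.mpr ⟨j, rfl⟩
          exact Nat.le_zero.mp (hJ _ this)
        · rintro rfl
          exact h2
      rw [h5, sum_singleton]
      unfold mon
      refine prod_congr rfl fun j _ => ?_
      rw [pow_zero, pow_one]
    rw [h3, h4]
    exact Reach.base
  | succ l ih =>
    have key : ∀ (c : ℕ) (J : Multiset ℕ), Multiset.card J = d → (∀ x ∈ J, x ≤ l + 1) →
        J.count (l + 1) ≤ c → Reach d (wgt J) (msym d J) := by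
      intro c
      induction c with
      | zero =>
        intro J hd hJ hc
        refine ih J hd fun x hx => ?_
        have h1 := hJ x hx
        by_contra h2
        have h3 : x = l + 1 := by omega
        rw [h3] at hx
        have h4 := Multiset.count_pos.mpr hx
        omega
      | succ c ih2 =>
        intro J hd hJ hc
        by_cases h : J.count (l + 1) ≤ c
        · exact ih2 J hd hJ h
        · exact main_step J hd hJ (by omega) ih ih2
    intro J hd hJ
    exact key _ J hd hJ le_rfl

end Gena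

theorem GENA : GENA_Stmt := by
  intro J
  exact Gena.main (Multiset.card J) (J.sup) J rfl (fun x hx => Multiset.le_sup hx)

end Pool.Agent.SHS
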