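import Pool.Agent.SH.S.StmtsA

namespace Pool.Agent.SHS

theorem HBE : HBE_Stmt := by
  classical
  intro X
  let B : ∀ n : ℕ, Module.Basis (Module.Basis.ofVectorSpaceIndex k (Hn X n)) k (Hn X n) :=
    fun n => Module.Basis.ofVectorSpace k (Hn X n)
  refine ⟨Σ n : ℕ, Module.Basis.ofVectorSpaceIndex k (Hn X n), fun i => i.1,
    fun i => ((B i.1 i.2 : Hn X i.1) : H X), ⟨fun i => (B i.1 i.2).2, ?_, ?_⟩⟩
  · rw [linearIndependent_iff']
    rintro s g hg ⟨n, v⟩ hi
    have h1 := congrArg (Hpr n) hg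
    rw [map_sum, map_zero] at h1
    have h2 : ∑ i ∈ s.filter (fun i => i.1 = n), g i • ((B i.1 i.2 : Hn X i.1) : H X) = 0 := by
      rw [← h1, Finset.sum_filter]
      refine Finset.sum_congr rfl fun i _ => ?_
      rw [map_smul]
      split_ifs with h
      · subst h
        rw [Hpr_eq (B i.1 i.2).2]
      · rw [Hpr_ne h (B i.1 i.2).2, smul_zero]
    have hinj : Set.InjOn (fun w : Module.Basis.ofVectorSpaceIndex k (Hn X n) =>
        (⟨n, w⟩ : Σ n : ℕ, Module.Basis.ofVectorSpaceIndex k (Hn X n)))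
        ((fun w : Module.Basis.ofVectorSpaceIndex k (Hn X n) =>
        (⟨n, w⟩ : Σ n : ℕ, Module.Basis.ofVectorSpaceIndex k (Hn X n))) ⁻¹' (s : Set _)) := by
      intro a _ b _ hab
      simpa using hab
    let sn := s.preimage (fun w : Module.Basis.ofVectorSpaceIndex k (Hn X n) =>
        (⟨n, w⟩ : Σ n : ℕ, Module.Basis.ofVectorSpaceIndex k (Hn X n))) hinj
    have h3 : ∑ w ∈ sn, g ⟨n, w⟩ • (B n w) = 0 := by
      apply Subtype.ext
      rw [Submodule.coe_zero, ← h2, Submodule.coe_sum]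
      refine Finset.sum_bij (fun w _ => ⟨n, w⟩) ?_ ?_ ?_ ?_
      · intro w hw
        rw [Finset.mem_filter]
        exact ⟨Finset.mem_preimage.1 hw, rfl⟩
      · intro a _ b _ hab
        simpa using hab
      · rintro ⟨m, w⟩ hw
        rw [Finset.mem_filter] at hw
        obtain ⟨hw1, hw2⟩ := hw
        subst hw2
        exact ⟨w, Finset.mem_preimage.2 hw1, rfl⟩
      · intro w _
        rfl
    have h4 := (linearIndependent_iff'.1 (B n).linearIndependent) sn (fun w => g ⟨n, w⟩) h3 v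
      (Finset.mem_preimage.2 hi)
    exact h4
  · intro n a ha
    have h1 : (⟨a, ha⟩ : Hn X n) ∈ Submodule.span k (Set.range (B n)) := by
      rw [(B n).span_eq]
      trivial
    have h2 := Submodule.mem_map_of_mem (f := (Hn X n).subtype) h1
    rw [Submodule.map_span] at h2
    refine Submodule.span_mono ?_ h2
    rintro _ ⟨_, ⟨w, rfl⟩, rfl⟩
    exact ⟨⟨n, w⟩, rfl, rfl⟩

end Pool.Agent.SHS
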