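import Pool.Agent.SH.S.Tools

/-!
Block III-S: the square free products of the classes mu_J are independent.
-/

namespace Pool.Agent.SHS

open Coch

namespace Indep

/-- A homogeneous family is independent if its degree pieces are independent. -/
theorem li_of_deg {X : SS} {I : Type} (d : I → ℕ) (b : I → H X) (hb : ∀ i, b i ∈ Hn X (d i))
    (T : Set I) (h : ∀ D, LinearIndepOn k b {i | i ∈ T ∧ d i = D}) : LinearIndepOn k b T := by
  classical
  rw [linearIndepOn_iff']
  intro t g ht hsum i hi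
  have h1 := congrArg (Hpr (d i)) hsum
  rw [map_zero, map_sum] at h1
  have h2 : ∑ j ∈ t.filter (fun j => d j = d i), g j • b j = 0 := by
    rw [← h1, Finset.sum_filter]
    apply Finset.sum_congr rfl
    intro j _
    split_ifs with hj
    · rw [map_smul, ← hj, Hpr_eq (hb j)]
    · rw [map_smul, Hpr_ne hj (hb j), smul_zero]
  have h3 := (linearIndepOn_iff'.mp (h (d i))) (t.filter (fun j => d j = d i)) g (by
    intro j hj
    rw [Finset.coe_filter] at hj
    exact ⟨ht hj.1, hj.2⟩) h2
  exact h3 i (Finset.mem_filter.mpr ⟨hi, rfl⟩)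

/-- The index type. -/
abbrev Idx (n : ℕ) : Type := {J : Multiset ℕ // Multiset.card J = n}

variable {n : ℕ}

/-- The products. -/
noncomputable def P (μ : Multiset ℕ → H (EM n).toSS) (S : Finset (Idx n)) : H (EM n).toSS :=
  ∏ J ∈ S, μ J.1

/-- The degrees. -/
def dg (S : Finset (Idx n)) : ℕ := ∑ J ∈ S, wgt J.1

theorem P_mem {μ : Multiset ℕ → H (EM n).toSS} (hμ : MuFam n μ) (S : Finset (Idx n)) :
    P μ S ∈ Hn (EM n).toSS (dg S) :=
  Hn_prod S _ _ fun J _ => hμ.mem J.1 J.2

theorem wgt_pos (hn : 1 ≤ n) (J : Idx n) : 0 < wgt J.1 := by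
  have h : Multiset.card (J.1.map (fun i => 2 ^ i)) • 1 ≤ (J.1.map (fun i => 2 ^ i)).sum := by
    apply Multiset.card_nsmul_le_sum
    intro x hx
    obtain ⟨i, _, rfl⟩ := Multiset.mem_map.mp hx
    exact Nat.one_le_two_pow
  rw [Multiset.card_map, J.2, smul_eq_mul, mul_one] at h
  exact lt_of_lt_of_le hn h

theorem dg_pos (hn : 1 ≤ n) {S : Finset (Idx n)} (h : S.Nonempty) : 0 < dg S :=
  Finset.sum_pos (fun J _ => wgt_pos hn J) h

theorem dg_split {S T : Finset (Idx n)} [DecidableEq (Idx n)] (h : T ⊆ S) :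
    dg T + dg (S \ T) = dg S := by
  unfold dg
  rw [add_comm]
  exact Finset.sum_sdiff h

theorem one_ne {n : ℕ} : (1 : H (EM n).toSS) ≠ 0 := by
  intro h
  have h1 : cls (1 : Cocyc (EM n).toSS) = 0 := by rw [map_one]; exact h
  rw [cls_eq_zero] at h1
  obtain ⟨g, hg⟩ := h1
  have h2 := congrArg (fun f : Coch (EM n).toSS => f 0 (0 : EMsub n 0)) hg
  have h3 : (1 : Coch (EM n).toSS) 0 (0 : EMsub n 0) = 1 := by
    rw [cone_apply, if_pos rfl]
  have h4 : dlt g 0 (0 : EMsub n 0) = 0 := dlt_zero _ _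
  have h5 : dlt g 0 (0 : EMsub n 0) = (1 : Coch (EM n).toSS) 0 (0 : EMsub n 0) := h2
  rw [h3, h4] at h5
  exact zero_ne_one h5

/-- The products of a class on the first and a class on the second factor. -/
noncomputable def V (μ : Multiset ℕ → H (EM n).toSS) (A B : Finset (Idx n)) :
    H ((EM n).toSS.prod (EM n).toSS) :=
  H.map (SS.fst (EM n).toSS (EM n).toSS) (P μ A) * H.map (SS.snd (EM n).toSS (EM n).toSS) (P μ B)

open scoped Classical in
theorem add_P {μ : Multiset ℕ → H (EM n).toSS} (hμ : MuFam n μ) (S : Finset (Idx n)) :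
    H.map (EM n).addHom (P μ S) = ∑ T ∈ S.powerset, V μ T (S \ T) := by
  unfold P
  rw [map_prod]
  have h : ∀ J ∈ S, H.map (EM n).addHom (μ J.1)
      = H.map (SS.fst (EM n).toSS (EM n).toSS) (μ J.1)
        + H.map (SS.snd (EM n).toSS (EM n).toSS) (μ J.1) := fun J _ => hμ.prim J.1 J.2
  rw [Finset.prod_congr rfl h, Finset.prod_add]
  apply Finset.sum_congr rfl
  intro T _
  unfold V P
  rw [map_prod, map_prod]

/-- The defect of additivity. -/
noncomputable def Dl (n : ℕ) : H (EM n).toSS →ₗ[k] H ((EM n).toSS.prod (EM n).toSS) :=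
  (H.map (EM n).addHom).toLinearMap - (H.map (SS.fst (EM n).toSS (EM n).toSS)).toLinearMap
    - (H.map (SS.snd (EM n).toSS (EM n).toSS)).toLinearMap

open scoped Classical in
theorem Dl_P {μ : Multiset ℕ → H (EM n).toSS} (hμ : MuFam n μ) {S : Finset (Idx n)}
    (hS : S.Nonempty) :
    Dl n (P μ S) = ∑ T ∈ (S.powerset.erase S).erase ∅, V μ T (S \ T) := by
  have h1 : Dl n (P μ S) = H.map (EM n).addHom (P μ S)
      - H.map (SS.fst (EM n).toSS (EM n).toSS) (P μ S)
      - H.map (SS.snd (EM n).toSS (EM n).toSS) (P μ S) := rfl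
  have m1 : S ∈ S.powerset := Finset.mem_powerset_self S
  have m2 : ∅ ∈ S.powerset.erase S := by
    rw [Finset.mem_erase]
    exact ⟨fun h => hS.ne_empty h.symm, Finset.empty_mem_powerset S⟩
  rw [h1, add_P hμ, ← Finset.add_sum_erase _ _ m1, ← Finset.add_sum_erase _ _ m2]
  have e1 : V μ S (S \ S) = H.map (SS.fst (EM n).toSS (EM n).toSS) (P μ S) := by
    unfold V
    rw [Finset.sdiff_self]
    unfold P
    rw [Finset.prod_empty, map_one, mul_one]
  have e2 : V μ ∅ (S \ ∅) = H.map (SS.snd (EM n).toSS (EM n).toSS) (P μ S) := by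
    unfold V
    rw [Finset.sdiff_empty]
    unfold P
    rw [Finset.prod_empty, map_one, one_mul]
  rw [e1, e2]
  abel

open scoped Classical in
/-- Independence of the products. -/
theorem V_li (hX : INDX_Stmt) {μ : Multiset ℕ → H (EM n).toSS} (hμ : MuFam n μ) (D : ℕ)
    (h : LinearIndepOn k (P μ) {S | dg S < D}) :
    LinearIndepOn k (fun x : (_ : Finset (Idx n)) × Finset (Idx n) => V μ x.2 (x.1 \ x.2))
      {x | x.2 ⊆ x.1 ∧ dg x.2 < D ∧ dg (x.1 \ x.2) < D} := by
  have h1 := hX (EM n).toSS (EM n).toSS (EMF n) (EMF n)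
    (I := {S : Finset (Idx n) // dg S < D}) (J := {S : Finset (Idx n) // dg S < D})
    (fun S => dg S.1) (fun S => dg S.1) (fun S => P μ S.1) (fun S => P μ S.1)
    (fun S => P_mem hμ S.1) (fun S => P_mem hμ S.1) h h
  have h2 := h1.comp (fun x : {x : (_ : Finset (Idx n)) × Finset (Idx n) //
      x.2 ⊆ x.1 ∧ dg x.2 < D ∧ dg (x.1 \ x.2) < D} =>
    ((⟨x.1.2, x.2.2.1⟩, ⟨x.1.1 \ x.1.2, x.2.2.2⟩) :
      {S : Finset (Idx n) // dg S < D} × {S : Finset (Idx n) // dg S < D})) (by
    rintro ⟨⟨S, T⟩, hx⟩ ⟨⟨S', T'⟩, hx'⟩ he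
    have he1 : T = T' := congrArg (fun p => p.1.1) he
    have he2 : S \ T = S' \ T' := congrArg (fun p => p.2.1) he
    subst he1
    have e1 : S \ T ∪ T = S := Finset.sdiff_union_of_subset hx.1
    have e2 : S' \ T ∪ T = S' := Finset.sdiff_union_of_subset hx'.1
    have e3 : S = S' := by rw [← e1, ← e2, he2]
    subst e3
    rfl)
  exact h2

theorem single_li (h2 : MSI_Stmt) (h3 : K1_Stmt) {μ : Multiset ℕ → H (EM n).toSS}
    (hμ : MuFam n μ) : LinearIndepOn k (P μ) {S | ∃ J, S = {J}} := by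
  classical
  obtain ⟨ρ, -, hρ⟩ := hμ.res
  have a1 := (h2 n).map' (evB n).toLinearMap (LinearMap.ker_eq_bot.mpr (h3 n).1)
  have a2 : LinearIndependent k (fun S : {S : Finset (Idx n) // ∃ J, S = {J}} =>
      (H.map ρ).toLinearMap (P μ S.1)) := by
    have a3 := a1.comp (fun S : {S : Finset (Idx n) // ∃ J, S = {J}} => S.2.choose) (by
      intro S S' he
      apply Subtype.ext
      rw [S.2.choose_spec, S'.2.choose_spec]
      exact congrArg _ he)
    have a4 : (fun S : {S : Finset (Idx n) // ∃ J, S = {J}} => (H.map ρ).toLinearMap (P μ S.1))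
        = (fun S : {S : Finset (Idx n) // ∃ J, S = {J}} =>
          (evB n).toLinearMap (msym n (S.2.choose).1)) := by
      funext S
      have e1 : P μ S.1 = μ (S.2.choose).1 := by
        unfold P
        conv_lhs => rw [S.2.choose_spec]
        rw [Finset.prod_singleton]
      rw [e1]
      exact hρ _ (S.2.choose).2
    rw [a4]
    exact a3
  exact a2.of_comp (H.map ρ).toLinearMap

theorem step (h1 : INDX_Stmt) (h2 : MSI_Stmt) (h3 : K1_Stmt) (hn : 1 ≤ n)
    {μ : Multiset ℕ → H (EM n).toSS} (hμ : MuFam n μ) (D : ℕ)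
    (h : LinearIndepOn k (P μ) {S | dg S < D}) : LinearIndepOn k (P μ) {S | dg S = D} := by
  classical
  rw [linearIndepOn_iff']
  intro s c hs hsum
  rcases Nat.eq_zero_or_pos D with rfl | hD
  · intro S hS
    have he : S = ∅ := by
      by_contra hne
      have := dg_pos hn (Finset.nonempty_iff_ne_empty.mpr hne)
      have h0 : dg S = 0 := hs hS
      omega
    have hs' : ∀ T ∈ s, T ≠ S → c T • P μ T = 0 := by
      intro T hT hTS
      exfalso
      apply hTS
      rw [he]
      by_contra hne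
      have := dg_pos hn (Finset.nonempty_iff_ne_empty.mpr hne)
      have h0 : dg T = 0 := hs hT
      omega
    rw [Finset.sum_eq_single_of_mem S hS hs'] at hsum
    refine (smul_eq_zero.mp hsum).resolve_right ?_
    rw [he]
    exact one_ne
  · have hne : ∀ S ∈ s, S.Nonempty := by
      intro S hS
      rw [Finset.nonempty_iff_ne_empty]
      rintro rfl
      have h0 : dg (∅ : Finset (Idx n)) = D := hs hS
      have h1 : dg (∅ : Finset (Idx n)) = 0 := rfl
      omega
    have e1 := congrArg (Dl n) hsum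
    rw [map_zero, map_sum] at e1
    have e2 : ∑ S ∈ s, ∑ T ∈ (S.powerset.erase S).erase ∅, c S • V μ T (S \ T) = 0 := by
      rw [← e1]
      apply Finset.sum_congr rfl
      intro S hS
      rw [map_smul, Dl_P hμ (hne S hS), Finset.smul_sum]
    rw [Finset.sum_sigma'] at e2
    have e3 := (linearIndepOn_iff'.mp (V_li h1 hμ D h))
      (s.sigma fun S => (S.powerset.erase S).erase ∅) (fun x => c x.1) (by
        rintro ⟨S, T⟩ hx
        rw [Finset.mem_coe, Finset.mem_sigma] at hx
        obtain ⟨hS, hT⟩ := hx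
        simp only [Finset.mem_erase, Finset.mem_powerset] at hT
        obtain ⟨hT0, hTS, hsub⟩ := hT
        have hd : dg S = D := hs hS
        have d1 := dg_split hsub
        have d2 : 0 < dg T := dg_pos hn (Finset.nonempty_iff_ne_empty.mpr hT0)
        have d3 : 0 < dg (S \ T) := by
          apply dg_pos hn
          rw [Finset.sdiff_nonempty]
          intro h'
          exact hTS (Finset.Subset.antisymm hsub h')
        refine ⟨hsub, ?_, ?_⟩
        · show dg T < D
          omega
        · show dg (S \ T) < D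
          omega) e2
    have e4 : ∀ S ∈ s, (¬ ∃ J, S = {J}) → c S = 0 := by
      intro S hS hJ
      obtain ⟨J, hJS⟩ := hne S hS
      refine e3 ⟨S, {J}⟩ ?_
      rw [Finset.mem_sigma]
      refine ⟨hS, ?_⟩
      simp only [Finset.mem_erase, Finset.mem_powerset, Finset.singleton_subset_iff]
      exact ⟨Finset.singleton_ne_empty J, fun h' => hJ ⟨J, h'.symm⟩, hJS⟩
    have e5 : ∑ S ∈ s.filter (fun S => ∃ J, S = {J}), c S • P μ S = 0 := by
      rw [← hsum, Finset.sum_filter]
      apply Finset.sum_congr rfl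
      intro S hS
      split_ifs with hJ
      · rfl
      · rw [e4 S hS hJ, zero_smul]
    have e6 := (linearIndepOn_iff'.mp (single_li h2 h3 hμ)) _ c (by
      intro S hS
      rw [Finset.coe_filter] at hS
      exact hS.2) e5
    intro S hS
    by_cases hJ : ∃ J, S = {J}
    · exact e6 S (Finset.mem_filter.mpr ⟨hS, hJ⟩)
    · exact e4 S hS hJ

theorem all_deg (h1 : INDX_Stmt) (h2 : MSI_Stmt) (h3 : K1_Stmt) (hn : 1 ≤ n)
    {μ : Multiset ℕ → H (EM n).toSS} (hμ : MuFam n μ) (D : ℕ) :
    LinearIndepOn k (P μ) {S | dg S = D} := by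
  induction D using Nat.strong_induction_on with
  | _ D ih =>
    apply step h1 h2 h3 hn hμ D
    apply li_of_deg dg (P μ) (P_mem hμ)
    intro D'
    by_cases hD : D' < D
    · exact (ih D' hD).mono fun S hS => hS.2
    · have he : {S : Finset (Idx n) | S ∈ {S | dg S < D} ∧ dg S = D'} = ∅ := by
        rw [Set.eq_empty_iff_forall_notMem]
        rintro S ⟨hS1, hS2⟩
        have : dg S < D := hS1
        omega
      rw [he]
      exact linearIndepOn_empty k (P μ)

end Indep

open Indep in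
theorem INDEP (h1 : INDX_Stmt) (h2 : MSI_Stmt) (h3 : K1_Stmt) : INDEP_Stmt := by
  intro n μ hn hμ
  rw [← linearIndepOn_univ_iff]
  apply li_of_deg dg (P μ) (P_mem hμ)
  intro D
  exact (all_deg h1 h2 h3 hn hμ D).mono fun S hS => hS.2

end Pool.Agent.SHS
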