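import Pool.Agent.SH.S.StmtsB
import Pool.Agent.SH.S.Hbe

/-!
Block III-S: products of independent homogeneous families are independent.
-/

namespace Pool.Agent.SHS

namespace Indx

open TensorProduct

theorem key {F V W U : Type} [Field F] [AddCommGroup V] [Module F V] [AddCommGroup W] [Module F W]
    [AddCommGroup U] [Module F U] {I J I' J' : Type} (Φ : V →ₗ[F] W →ₗ[F] U) (β : I' → V)
    (γ : J' → W) (hβ : LinearIndependent F β) (hγ : LinearIndependent F γ)
    (hK : LinearIndependent F (fun p : I' × J' => Φ (β p.1) (γ p.2))) (b : I → V) (c : J → W)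
    (hb : LinearIndependent F b) (hc : LinearIndependent F c)
    (hb' : ∀ i, b i ∈ Submodule.span F (Set.range β))
    (hc' : ∀ j, c j ∈ Submodule.span F (Set.range γ)) :
    LinearIndependent F (fun p : I × J => Φ (b p.1) (c p.2)) := by
  let V' := Submodule.span F (Set.range β)
  let W' := Submodule.span F (Set.range γ)
  let Bβ : Module.Basis I' F V' := Module.Basis.span hβ
  let Bγ : Module.Basis J' F W' := Module.Basis.span hγ
  let Ψ : V' ⊗[F] W' →ₗ[F] U := TensorProduct.lift (Φ.compl₁₂ V'.subtype W'.subtype)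
  have hΨ : ∀ (v : V') (w : W'), Ψ (v ⊗ₜ w) = Φ v w := fun v w => by simp [Ψ]
  have e1 : Ψ = (Finsupp.linearCombination F (fun p : I' × J' => Φ (β p.1) (γ p.2))) ∘ₗ
      (Bβ.tensorProduct Bγ).repr.toLinearMap := by
    refine (Bβ.tensorProduct Bγ).ext fun p => ?_
    rw [Module.Basis.tensorProduct_apply, hΨ, LinearMap.comp_apply]
    have h1 : (Bβ.tensorProduct Bγ).repr.toLinearMap (Bβ p.1 ⊗ₜ[F] Bγ p.2) =
        Finsupp.single p 1 := by
      rw [← Module.Basis.tensorProduct_apply]
      exact (Bβ.tensorProduct Bγ).repr_self p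
    have h2 : ((Bβ p.1 : V') : V) = β p.1 :=
      congrArg Subtype.val (Module.Basis.span_apply hβ p.1)
    have h3 : ((Bγ p.2 : W') : W) = γ p.2 :=
      congrArg Subtype.val (Module.Basis.span_apply hγ p.2)
    rw [h1, Finsupp.linearCombination_single, one_smul, h2, h3]
  have hinj : Function.Injective Ψ := by
    have h4 : Function.Injective (Finsupp.linearCombination F
        (fun p : I' × J' => Φ (β p.1) (γ p.2))) := hK
    rw [e1, LinearMap.coe_comp]
    exact h4.comp (Bβ.tensorProduct Bγ).repr.injective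
  let b' : I → V' := fun i => ⟨b i, hb' i⟩
  let c' : J → W' := fun j => ⟨c j, hc' j⟩
  have hb1 : LinearIndependent F b' := LinearIndependent.of_comp V'.subtype hb
  have hc1 : LinearIndependent F c' := LinearIndependent.of_comp W'.subtype hc
  have h2 := (hb1.tmul_of_isDomain hc1).map' Ψ (LinearMap.ker_eq_bot.mpr hinj)
  have e2 : (Ψ ∘ fun p : I × J => b' p.1 ⊗ₜ[F] c' p.2) = fun p : I × J => Φ (b p.1) (c p.2) := by
    funext p
    exact hΨ _ _
  rw [e2] at h2
  exact h2

end Indx

theorem INDX (h1 : KUN_Stmt) : INDX_Stmt := by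
  intro X Y hX hY I J di dj b c hb hc ib ic
  obtain ⟨I', di', β, hβ⟩ := HBE X
  obtain ⟨J', dj', γ, hγ⟩ := HBE Y
  have K := (h1 X Y hX hY di' dj' β γ hβ hγ).indep
  let Φ : H X →ₗ[k] H Y →ₗ[k] H (X.prod Y) :=
    (LinearMap.mul k (H (X.prod Y))).compl₁₂ (H.map (SS.fst X Y)).toLinearMap
      (H.map (SS.snd X Y)).toLinearMap
  exact Indx.key Φ β γ hβ.indep hγ.indep K b c ib ic
    (fun i => Submodule.span_mono (Set.image_subset_range _ _) (hβ.span _ (hb i)))
    (fun j => Submodule.span_mono (Set.image_subset_range _ _) (hγ.span _ (hc j)))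

end Pool.Agent.SHS
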