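import Pool.Agent.SH.S.StmtsA

/-!
Block III-S, statements B: cohomology of B(F_2^d), the operations `Pop s` on it, additive
operations, primitive classes of Eilenberg-MacLane objects, their independence.
-/

namespace Pool.Agent.SHS

/-- Weight of a multiset of exponents. -/
def wgt (J : Multiset ℕ) : ℕ := (J.map (fun i => 2 ^ i)).sum

/-- Bases of powers. -/
def POW_Stmt : Prop := ∀ (X : SS), X.LF → ∀ {I : Type} (di : I → ℕ) (b : I → H X), HB X di b →
  ∀ d : ℕ, HB (X.pow d) (fun e : Fin d → I => ∑ i, di (e i))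
    (fun e => ∏ i, H.map (X.proj d i) (b (e i)))

/-- Cohomology of BB: powers of `uu`. -/
def K1A_Stmt : Prop := HB BB (fun m : ℕ => m) (fun m => uu ^ m)

/-- Cohomology of B(F_2^d): polynomial ring. -/
def K1_Stmt : Prop := ∀ d : ℕ, Function.Injective (evB d) ∧
  ∀ (n : ℕ) (a : H (BB.pow d)), a ∈ Hn (BB.pow d) n →
    ∃ p : MvPolynomial (Fin d) k, p.IsHomogeneous n ∧ evB d p = a

/-- evB maps homogeneous polynomials of degree n to degree n (easy direction). -/
def K1H_Stmt : Prop := ∀ (d n : ℕ) (p : MvPolynomial (Fin d) k), p.IsHomogeneous n →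
  evB d p ∈ Hn (BB.pow d) n

/-- Kuenneth for the circle. -/
def SK_Stmt : Prop := ee * ee = 0 ∧ ∀ Y : SS, Y.LF →
  (∀ (n : ℕ), ∀ a ∈ Hn (S1.prod Y) (n + 1), ∃ b ∈ Hn Y n, ∃ c ∈ Hn Y (n + 1),
    a = H.map (SS.fst S1 Y) ee * H.map (SS.snd S1 Y) b + H.map (SS.snd S1 Y) c) ∧
  (∀ (n : ℕ), ∀ b ∈ Hn Y n, ∀ c ∈ Hn Y (n + 1),
    H.map (SS.fst S1 Y) ee * H.map (SS.snd S1 Y) b + H.map (SS.snd S1 Y) c = 0 → b = 0 ∧ c = 0)

/-- Suspension formula for the operations. -/
def SUS_Stmt : Prop := ∀ (Y : SS) (s : ℕ) (b : H Y),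
  (Pop (s + 2)).f (S1.prod Y) (H.map (SS.fst S1 Y) ee * H.map (SS.snd S1 Y) b)
    = H.map (SS.fst S1 Y) ee * H.map (SS.snd S1 Y) ((Pop (s + 1)).f Y b)

/-- Degrees of the operations. -/
def POPD_Stmt : Prop := ∀ (X : SS) (s m : ℕ) (a : H X), a ∈ Hn X m →
  (∀ n, n + s = 2 * m + 1 → (Pop s).f X a ∈ Hn X n) ∧ (2 * m + 1 < s → (Pop s).f X a = 0)

/-- The total square on polynomials: X_j ↦ X_j + t X_j^2. -/
noncomputable def St (d : ℕ) : MvPolynomial (Fin d) k →ₐ[k] Polynomial (MvPolynomial (Fin d) k) :=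
  MvPolynomial.aeval (fun j => Polynomial.C (MvPolynomial.X j)
    + Polynomial.X * Polynomial.C (MvPolynomial.X j ^ 2))

/-- An algebraic criterion. -/
def ADD_Stmt : Prop := ∀ (m n : ℕ) (P Q : MvPolynomial (Fin (m + 1)) k), n < 2 * (m + 1) →
  P.IsHomogeneous n → Q.IsHomogeneous n →
  (∀ s : Equiv.Perm (Fin (m + 1)), MvPolynomial.rename s P = P) →
  (∀ s : Equiv.Perm (Fin (m + 1)), MvPolynomial.rename s Q = Q) →
  (∀ e ∈ P.support, ∀ j, ∃ l : ℕ, e j = 2 ^ l) → (∀ e ∈ Q.support, ∀ j, ∃ l : ℕ, e j = 2 ^ l) →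
  (∀ e : Fin (m + 1) →₀ ℕ, e 0 = 1 → P.coeff e = Q.coeff e) → P = Q

/-- A polynomial which is additive in the variable 0 only contains powers of 2 as exponents of
that variable. -/
def PW2_Stmt : Prop := ∀ (m : ℕ) (P : MvPolynomial (Fin (m + 1)) k),
  MvPolynomial.aeval (Fin.cons (MvPolynomial.X 0 + MvPolynomial.X 1)
      (fun j => MvPolynomial.X j.succ.succ) : Fin (m + 1) → MvPolynomial (Fin (m + 2)) k) P
    = MvPolynomial.aeval (Fin.cons (MvPolynomial.X 0)
        (fun j => MvPolynomial.X j.succ.succ) : Fin (m + 1) → MvPolynomial (Fin (m + 2)) k) P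
      + MvPolynomial.aeval (Fin.cons (MvPolynomial.X 1)
        (fun j => MvPolynomial.X j.succ.succ) : Fin (m + 1) → MvPolynomial (Fin (m + 2)) k) P →
  ∀ e ∈ P.support, ∃ l : ℕ, e 0 = 2 ^ l

/-- The operations on u_1 ... u_m. -/
def SQU_Stmt : Prop := ∀ (m i : ℕ), i ≤ m →
  (Pop (m + 1 - i)).f (BB.pow m) (evB m (∏ j, MvPolynomial.X j))
    = evB m ((St m (∏ j, MvPolynomial.X j)).coeff i)

/-- The operations on all polynomials. -/
def SQP_Stmt : Prop := ∀ (d n i : ℕ) (p : MvPolynomial (Fin d) k), p.IsHomogeneous n → i ≤ n →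
  (Pop (n + 1 - i)).f (BB.pow d) (evB d p) = evB d ((St d p).coeff i)

/-- Polynomials which can be reached from u_1 ... u_d by the operations. -/
inductive Reach (d : ℕ) : ℕ → MvPolynomial (Fin d) k → Prop
  | base : Reach d d (∏ j, MvPolynomial.X j)
  | step {n : ℕ} {p : MvPolynomial (Fin d) k} (i : ℕ) (hi : i ≤ n) (h : Reach d n p) :
      Reach d (n + i) ((St d p).coeff i)
  | add {n : ℕ} {p q : MvPolynomial (Fin d) k} (h : Reach d n p) (h' : Reach d n q) :
      Reach d n (p + q)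
  | zero (n : ℕ) : Reach d n 0

/-- Symmetric sum of u_1^(2^i_1) ... u_d^(2^i_d) over the distinct arrangements of `J`. -/
noncomputable def msym (d : ℕ) (J : Multiset ℕ) : MvPolynomial (Fin d) k :=
  ∑ i ∈ (Fintype.piFinset (fun _ : Fin d => J.toFinset)).filter
      (fun i => Multiset.ofList (List.ofFn i) = J), ∏ j, MvPolynomial.X j ^ (2 ^ (i j))

/-- All symmetric sums can be reached. -/
def GENA_Stmt : Prop := ∀ J : Multiset ℕ,
  Reach (Multiset.card J) (wgt J) (msym (Multiset.card J) J)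

/-- All symmetric sums are values of natural additive operations. -/
def OPS_Stmt : Prop := ∀ J : Multiset ℕ, ∃ T : NOp, T.Maps (Multiset.card J) (wgt J) ∧
  T.f (BB.pow (Multiset.card J)) (evB (Multiset.card J) (∏ j, MvPolynomial.X j))
    = evB (Multiset.card J) (msym (Multiset.card J) J)

/-- Symmetric sums are independent (algebra). -/
def MSI_Stmt : Prop := ∀ (n : ℕ), LinearIndependent k
  (fun J : {J : Multiset ℕ // Multiset.card J = n} => msym n J.1)

/-- Fundamental classes: primitive, and restriction to B(F_2^n). -/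
def EMU_Stmt : Prop := ∀ n : ℕ, ∃ ρ : SS.Hom (BB.pow n) (EM n).toSS,
  H.map ρ (iota n) = evB n (∏ j, MvPolynomial.X j)
def IOP_Stmt : Prop := ∀ n : ℕ, Prim (iota n)

/-- The levels of EM n are finite. -/
def EMF_Stmt : Prop := ∀ n : ℕ, (EM n).LF

/-- The family of primitive classes mu_J of `EM n`, J a multiset of n exponents. -/
structure MuFam (n : ℕ) (μ : Multiset ℕ → H (EM n).toSS) : Prop where
  mem : ∀ J, Multiset.card J = n → μ J ∈ Hn (EM n).toSS (wgt J)
  prim : ∀ J, Multiset.card J = n → Prim (μ J)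
  res : ∃ ρ : SS.Hom (BB.pow n) (EM n).toSS, H.map ρ (iota n) = evB n (∏ j, MvPolynomial.X j) ∧
    ∀ J, Multiset.card J = n → H.map ρ (μ J) = evB n (msym n J)
  sq : ∀ J, Multiset.card J = n → μ (J.map (· + 1)) = μ J ^ 2
  op : ∀ J, Multiset.card J = n → 0 ∈ J → ∃ T : NOp, T.Maps n (wgt J) ∧
    T.f (BB.pow n) (evB n (∏ j, MvPolynomial.X j)) = evB n (msym n J) ∧
    μ J = T.f (EM n).toSS (iota n)

def MU_Stmt : Prop := ∀ n : ℕ, 1 ≤ n → ∃ μ, MuFam n μ

/-- Products of independent homogeneous families are independent. -/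
def INDX_Stmt : Prop := ∀ (X Y : SS), X.LF → Y.LF → ∀ {I J : Type} (di : I → ℕ) (dj : J → ℕ)
  (b : I → H X) (c : J → H Y), (∀ i, b i ∈ Hn X (di i)) → (∀ j, c j ∈ Hn Y (dj j)) →
  LinearIndependent k b → LinearIndependent k c →
  LinearIndependent k
    (fun p : I × J => H.map (SS.fst X Y) (b p.1) * H.map (SS.snd X Y) (c p.2))

/-- The square free products of the mu_J are independent. -/
def INDEP_Stmt : Prop := ∀ (n : ℕ) (μ : Multiset ℕ → H (EM n).toSS), 1 ≤ n → MuFam n μ →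
  LinearIndependent k
    (fun S : Finset {J : Multiset ℕ // Multiset.card J = n} => ∏ J ∈ S, μ J.1)

end Pool.Agent.SHS
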