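import Mathlib
import Pool.Agent.SH.S.StmtsB
import Pool.Agent.SH.S.Tools

/-!
Block III-S: the cohomology of B(F_2^d) is a polynomial ring.
-/

namespace Pool.Agent.SHS

namespace K1

theorem BB_LF : BB.LF := by
  intro n
  show Finite (Nrm n k)
  have h2 : Finite k := inferInstanceAs (Finite (ZMod 2))
  have h3 : Finite (Fin (n + 1) → k) := Pi.finite
  exact Subtype.finite

/-- The basis elements. -/
noncomputable def bb (d : ℕ) (e : Fin d → ℕ) : H (BB.pow d) :=
  ∏ i, H.map (BB.proj d i) (uu ^ e i)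

theorem evB_prod (d : ℕ) (e : Fin d → ℕ) :
    evB d (∏ i, MvPolynomial.X i ^ e i) = bb d e := by
  rw [map_prod, bb]
  refine Finset.prod_congr rfl fun i _ => ?_
  rw [map_pow, map_pow]
  congr 1
  unfold evB
  rw [MvPolynomial.aeval_X]

theorem evB_eq (d : ℕ) (p : MvPolynomial (Fin d) k) :
    evB d p = ∑ e ∈ p.support, p.coeff e • bb d e := by
  conv_lhs => rw [p.as_sum]
  rw [map_sum]
  refine Finset.sum_congr rfl fun e _ => ?_
  rw [← evB_prod, ← map_smul]
  congr 1
  rw [MvPolynomial.monomial_eq, MvPolynomial.smul_eq_C_mul]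
  congr 1
  exact Finsupp.prod_fintype e _ (fun i => pow_zero _)

end K1

theorem K1 (h1 : K1A_Stmt) (h2 : POW_Stmt) : K1_Stmt := by
  intro d
  have hb : HB (BB.pow d) (fun e : Fin d → ℕ => ∑ i, e i) (K1.bb d) :=
    h2 BB K1.BB_LF (fun m : ℕ => m) (fun m => uu ^ m) h1 d
  constructor
  · rw [injective_iff_map_eq_zero]
    intro p hp
    have hli : LinearIndependent k (fun e : Fin d →₀ ℕ => K1.bb d e) :=
      hb.indep.comp (fun e : Fin d →₀ ℕ => (e : Fin d → ℕ)) DFunLike.coe_injective
    rw [linearIndependent_iff'] at hli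
    rw [K1.evB_eq] at hp
    have h3 := hli p.support (fun e => p.coeff e) hp
    ext e
    rw [MvPolynomial.coeff_zero]
    by_contra h4
    exact h4 (h3 e (MvPolynomial.mem_support_iff.2 h4))
  · intro n a ha
    have h3 := hb.span n ha
    have h4 : Submodule.span k (K1.bb d '' {e | ∑ i, e i = n}) ≤
        (MvPolynomial.homogeneousSubmodule (Fin d) k n).map (evB d).toLinearMap := by
      refine Submodule.span_le.2 ?_
      rintro _ ⟨e, he, rfl⟩
      refine ⟨∏ i, MvPolynomial.X i ^ e i, ?_, K1.evB_prod d e⟩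
      have h5 : (∏ i, (MvPolynomial.X i : MvPolynomial (Fin d) k) ^ e i).IsHomogeneous
          (∑ i, 1 * e i) :=
        MvPolynomial.IsHomogeneous.prod _ _ _ fun i _ =>
          (MvPolynomial.isHomogeneous_X k i).pow (e i)
      have h6 : ∑ i, 1 * e i = n := by
        simpa using he
      rw [h6] at h5
      exact h5
    obtain ⟨p, hp, hpa⟩ := h4 h3
    exact ⟨p, hp, hpa⟩

end Pool.Agent.SHS
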