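import Pool.Agent.SH.S.StmtsB

/-!
Block III-S: the cohomology of `BB`.
-/

namespace Pool.Agent.SHS

open Coch

namespace K1a

/-- The product of the differences. -/
def chi (n : ℕ) (g : Nrm n k) : k := ∏ i : Fin n, (g.1 i.succ - g.1 i.castSucc)

theorem bbmap_val {m n : ℕ} (a : Mor m n) (g : Nrm n k) (i : Fin (m + 1)) :
    (BB.map a g : Nrm m k).1 i = g.1 (a i) - g.1 (a 0) := rfl

theorem pow_mem (n : ℕ) : uC ^ n ∈ CochD BB n := by
  induction n with
  | zero =>
    intro m h x
    rw [pow_zero, cone_apply, if_neg h]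
  | succ n ih =>
    rw [pow_succ]
    exact CochD_mul ih (single_mem 1 _)

theorem pow_val (n : ℕ) (g : Nrm n k) : (uC ^ n) n g = chi n g := by
  induction n with
  | zero =>
    rw [pow_zero, cone_apply, if_pos rfl, chi]
    simp
  | succ n ih =>
    rw [pow_succ, cmul_apply, Finset.sum_eq_single (n, 1)]
    · simp only
      rw [ih, chi, chi, Fin.prod_univ_castSucc]
      congr 1
      · apply Finset.prod_congr rfl
        intro i _
        rw [bbmap_val, bbmap_val, sub_sub_sub_cancel_right]
        have e1 : (fr n (n + 1)) i.succ = i.castSucc.succ := by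
          apply Fin.ext
          rw [fr_val]
          have := i.2
          simp
        have e2 : (fr n (n + 1)) i.castSucc = i.castSucc.castSucc := by
          apply Fin.ext
          rw [fr_val]
          have := i.2
          simp
          omega
        rw [e1, e2]
      · unfold uC
        rw [single_self, bbmap_val]
        have e1 : (bk 1 (n + 1)) 1 = (Fin.last n).succ := by
          apply Fin.ext
          rw [bk_val]
          simp
        have e2 : (bk 1 (n + 1)) 0 = (Fin.last n).castSucc := by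
          apply Fin.ext
          rw [bk_val]
          simp
        rw [e1, e2]
    · rintro ⟨p, q⟩ hpq hne
      simp only [Finset.HasAntidiagonal.mem_antidiagonal] at hpq
      have hq : q ≠ 1 := by
        rintro rfl
        exact hne (by rw [show p = n by omega])
      simp only
      unfold uC
      rw [single_ne hq, mul_zero]
    · intro h
      exact absurd (by simp) h

theorem pow_eq (n : ℕ) : uC ^ n = single n (chi n) := by
  rw [eq_single (pow_mem n)]
  congr 1
  funext g
  exact pow_val n g

theorem dlt_pow (n : ℕ) : dlt (uC ^ n) = 0 :=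
  ((⟨uC, dlt_uC⟩ : Cocyc BB) ^ n).2

theorem delta_chi (n : ℕ) : BB.cm.delta n (chi n) = 0 := by
  have h := dlt_pow n
  rw [pow_eq, dlt_single] at h
  exact single_inj (h.trans (single_zero _).symm)

theorem clsN_chi (n : ℕ) : clsN n (chi n) (delta_chi n) = uu ^ n := by
  unfold clsN uu
  rw [← map_pow]
  congr 1
  apply Subtype.ext
  exact (pow_eq n).symm

/-- Degenerate simplices. -/
theorem degen {n : ℕ} (g : Nrm (n + 1) k) (i : Fin (n + 1)) (h : g.1 i.succ = g.1 i.castSucc) :
    (BB.map (cod i) (BB.map (cof i.castSucc) g) : Nrm (n + 1) k) = g := by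
  have key : ∀ j : Fin (n + 2), g.1 ((cof i.castSucc) (cod i j)) = g.1 j := by
    intro j
    show g.1 (i.castSucc.succAbove (i.predAbove j)) = g.1 j
    by_cases hj : j = i.castSucc
    · subst hj
      rw [Fin.predAbove_castSucc_self, Fin.succAbove_castSucc_self, h]
    · rw [Fin.succAbove_predAbove hj]
  apply Subtype.ext
  funext j
  have h0 : g.1 0 = 0 := g.2
  rw [bbmap_val, bbmap_val, bbmap_val, key, key, h0]
  ring

/-- The alternating simplex. -/
def alt (n : ℕ) : Nrm n k := ⟨fun i => ((i : ℕ) : k), by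
  show (((0 : Fin (n + 1)) : ℕ) : k) = 0
  simp⟩

theorem chi_alt (n : ℕ) : chi n (alt n) = 1 := by
  unfold chi
  apply Finset.prod_eq_one
  intro i _
  show (((i.succ : Fin (n + 1)) : ℕ) : k) - (((i.castSucc : Fin (n + 1)) : ℕ) : k) = 1
  simp

theorem eq_alt {n : ℕ} (g : Nrm n k) (h : ∀ i : Fin n, g.1 i.succ - g.1 i.castSucc ≠ 0) :
    g = alt n := by
  apply Subtype.ext
  funext i
  show g.1 i = ((i : ℕ) : k)
  induction i using Fin.induction with
  | zero =>
    have h0 : g.1 0 = 0 := g.2
    rw [h0]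
    simp
  | succ i ih =>
    have h1 := h i
    have h2 : ∀ x : ZMod 2, x ≠ 0 → x = 1 := by decide
    have h3 := h2 _ h1
    rw [sub_eq_iff_eq_add, ih] at h3
    rw [h3]
    simp [add_comm]

/-- Normalised cochains are multiples of `chi`. -/
theorem normalised (n : ℕ) (φ : Nrm (n + 1) k → k)
    (h : ∀ i : Fin (n + 1), BB.cm.map (cod i) φ = 0) :
    φ = φ (alt (n + 1)) • chi (n + 1) := by
  funext g
  show φ g = φ (alt (n + 1)) * chi (n + 1) g
  by_cases hg : ∀ i : Fin (n + 1), g.1 i.succ - g.1 i.castSucc ≠ 0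
  · rw [eq_alt g hg, chi_alt, mul_one]
  · push Not at hg
    obtain ⟨i, hi⟩ := hg
    have h1 : chi (n + 1) g = 0 := Finset.prod_eq_zero (Finset.mem_univ i) hi
    have h2 := degen g i (sub_eq_zero.mp hi)
    have h3 := congrFun (h i) (BB.map (cof i.castSucc) g)
    change φ (BB.map (cod i) (BB.map (cof i.castSucc) g)) = 0 at h3
    rw [h2] at h3
    rw [h1, h3, mul_zero]

theorem chi_normalised (n : ℕ) (i : Fin (n + 1)) : BB.cm.map (cod i) (chi (n + 1)) = 0 := by
  funext y
  show chi (n + 1) (BB.map (cod i) y) = 0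
  apply Finset.prod_eq_zero (Finset.mem_univ i)
  rw [bbmap_val, bbmap_val, sub_sub_sub_cancel_right]
  have e1 : (cod i) i.succ = i := Fin.predAbove_succ_self i
  have e2 : (cod i) i.castSucc = i := Fin.predAbove_castSucc_self i
  rw [e1, e2, sub_self]

theorem nrm_zero (g g' : Nrm 0 k) : g = g' := by
  apply Subtype.ext
  funext i
  have hi : i = 0 := by
    apply Fin.ext
    have := i.2
    show i.1 = 0
    omega
  rw [hi, show g.1 0 = 0 from g.2, show g'.1 0 = 0 from g'.2]

theorem chi_notB (hN : NORM_Stmt) (n : ℕ) : chi n ∉ BB.cm.cc.B n := by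
  intro hB
  cases n with
  | zero =>
    have h0 : chi 0 ∈ (⊥ : Submodule k (BB.cm.X 0)) := hB
    rw [Submodule.mem_bot] at h0
    have h1 := congrFun h0 (alt 0)
    rw [chi_alt] at h1
    exact one_ne_zero h1
  | succ n =>
    have h0 : chi (n + 1) ∈ LinearMap.range (BB.cm.delta n) := hB
    obtain ⟨v, hv⟩ := h0
    cases n with
    | zero =>
      have h1 := congrFun hv (alt 1)
      rw [chi_alt, CM.delta_apply, Finset.sum_apply, Fin.sum_univ_two] at h1
      change v (BB.map (cof 0) (alt 1)) + v (BB.map (cof 1) (alt 1)) = 1 at h1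
      rw [nrm_zero (BB.map (cof 0) (alt 1)) (BB.map (cof 1) (alt 1)), k_two] at h1
      exact zero_ne_one h1
    | succ n =>
      obtain ⟨w, hw⟩ := hN BB.cm n v (fun i => by
        rw [hv]
        exact chi_normalised (n + 1) i)
      have h1 := normalised n _ hw
      have h2 := congrArg (BB.cm.delta (n + 1)) h1
      rw [map_add, BB.cm.delta_delta, add_zero, hv, map_smul, delta_chi, smul_zero] at h2
      have h3 := congrFun h2 (alt (n + 2))
      rw [chi_alt] at h3
      exact one_ne_zero h3

theorem uu_pow_ne (hN : NORM_Stmt) (n : ℕ) : uu ^ n ≠ 0 := by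
  intro h
  rw [← clsN_chi, clsN_eq_zero] at h
  exact chi_notB hN n h

theorem uu_pow_mem (n : ℕ) : uu ^ n ∈ Hn BB n := by
  have := Hn_pow uu_mem n
  rwa [mul_one] at this

theorem span_uu (hN : NORM_Stmt) (n : ℕ) (a : H BB) (ha : a ∈ Hn BB n) :
    ∃ c : k, a = c • uu ^ n := by
  obtain ⟨φ, hφ, rfl⟩ := exists_clsN ha
  cases n with
  | zero =>
    refine ⟨φ (alt 0), ?_⟩
    have h1 : φ = φ (alt 0) • chi 0 := by
      funext g
      show φ g = φ (alt 0) * chi 0 g
      rw [nrm_zero g (alt 0), chi_alt, mul_one]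
    rw [← clsN_chi, ← clsN_smul]
    congr 1
  | succ n =>
    obtain ⟨v, hv⟩ := hN BB.cm n φ (fun i => by rw [hφ, map_zero])
    have h1 := normalised n _ hv
    have hδ : BB.cm.delta (n + 1) (BB.cm.delta n v) = 0 := BB.cm.delta_delta n v
    have hz : clsN (n + 1) (BB.cm.delta n v) hδ = 0 := by
      rw [clsN_eq_zero]
      exact ⟨v, rfl⟩
    refine ⟨(φ + BB.cm.delta n v) (alt (n + 1)), ?_⟩
    rw [← clsN_chi, ← clsN_smul]
    have h2 := clsN_add φ (BB.cm.delta n v) hφ hδ
    have h3 := h2.trans ((congrArg (fun t => clsN (n + 1) φ hφ + t) hz).trans (add_zero _))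
    refine h3.symm.trans ?_
    congr 1

end K1a

open K1a in
theorem K1A (h : NORM_Stmt) : K1A_Stmt := by
  refine ⟨uu_pow_mem, ?_, ?_⟩
  · rw [linearIndependent_iff']
    intro s c hc i hi
    have h1 := congrArg (Hpr i) hc
    rw [map_zero, map_sum, Finset.sum_eq_single i] at h1
    · rw [map_smul, Hpr_eq (uu_pow_mem i)] at h1
      exact (smul_eq_zero.mp h1).resolve_right (uu_pow_ne h i)
    · intro j _ hji
      rw [map_smul, Hpr_ne hji (uu_pow_mem j), smul_zero]
    · intro hi'
      exact absurd hi hi'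
  · intro n a ha
    obtain ⟨c, rfl⟩ := span_uu h n a ha
    apply Submodule.smul_mem
    apply Submodule.subset_span
    exact ⟨n, rfl, rfl⟩

end Pool.Agent.SHS
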