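import Pool.Agent.SH.S.StmtsA

/-!
Block III-S: Kuenneth for pointed simplicial sets with finite levels.
-/

namespace Pool.Agent.SHS

namespace Kunp

/-! ### Linear algebra -/

section lin

variable {F V V' : Type*} [Field F] [AddCommGroup V] [Module F V] [AddCommGroup V'] [Module F V']

theorem gen_inv (T : V →ₗ[F] V') : ∃ g : V' →ₗ[F] V, ∀ v, T (g (T v)) = T v := by
  obtain ⟨s, hs⟩ := LinearMap.exists_rightInverse_of_surjective T.rangeRestrict
    (LinearMap.range_rangeRestrict _)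
  obtain ⟨g, hg⟩ := LinearMap.exists_extend s
  refine ⟨g, fun v => ?_⟩
  have h1 : g (T v) = s ⟨T v, ⟨v, rfl⟩⟩ := LinearMap.congr_fun hg ⟨T v, ⟨v, rfl⟩⟩
  rw [h1]
  exact congrArg Subtype.val (LinearMap.congr_fun hs ⟨T v, ⟨v, rfl⟩⟩)

theorem split (B : Submodule F V) {I : Type*} (z : I → V)
    (hi : ∀ c : I →₀ F, Finsupp.linearCombination F z c ∈ B → c = 0) :
    ∃ (β : V →ₗ[F] V) (pr : V →ₗ[F] (I →₀ F)), (∀ x, β x ∈ B) ∧
      ∀ b ∈ B, ∀ c, β (b + Finsupp.linearCombination F z c) = b ∧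
        pr (b + Finsupp.linearCombination F z c) = c := by
  have hinj : LinearMap.ker (B.subtype.coprod (Finsupp.linearCombination F z)) = ⊥ := by
    rw [LinearMap.ker_eq_bot']
    rintro ⟨b, c⟩ h
    rw [LinearMap.coprod_apply] at h
    have hc : c = 0 := by
      apply hi c
      have h3 : Finsupp.linearCombination F z c = -(B.subtype b) :=
        eq_neg_of_add_eq_zero_right h
      rw [h3]
      exact neg_mem b.2
    subst hc
    rw [map_zero, add_zero] at h
    have h4 : b = 0 := Subtype.ext h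
    rw [h4]
    rfl
  obtain ⟨Ψ, hΨ⟩ := LinearMap.exists_leftInverse_of_injective _ hinj
  refine ⟨B.subtype.comp ((LinearMap.fst F _ _).comp Ψ), (LinearMap.snd F _ _).comp Ψ,
    fun x => (Ψ x).1.2, fun b hb c => ?_⟩
  have h5 : Ψ (b + Finsupp.linearCombination F z c) = (⟨b, hb⟩, c) :=
    LinearMap.congr_fun hΨ (⟨b, hb⟩, c)
  constructor
  · show ((Ψ (b + Finsupp.linearCombination F z c)).1 : V) = b
    rw [h5]
  · show (Ψ (b + Finsupp.linearCombination F z c)).2 = c
    rw [h5]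

end lin

/-! ### Contraction of a complex onto its cohomology -/

/-- Contraction onto the cohomology. -/
structure Contr (C : CC) {I : ℕ → Type} (z : ∀ n, I n → C.X n) where
  pr : ∀ n, C.X n →ₗ[k] (I n →₀ k)
  h : ∀ n, C.X (n + 1) →ₗ[k] C.X n
  pr_d : ∀ n f, pr (n + 1) (C.d n f) = 0
  pr_z : ∀ n i, pr n (z n i) = Finsupp.single i 1
  zero : ∀ f : C.X 0, f = Finsupp.linearCombination k (z 0) (pr 0 f) + h 0 (C.d 0 f)
  succ : ∀ n (f : C.X (n + 1)), f = Finsupp.linearCombination k (z (n + 1)) (pr (n + 1) f) +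
    (C.d n (h n f) + h (n + 1) (C.d (n + 1) f))

theorem exists_contr (C : CC) {I : ℕ → Type} (z : ∀ n, I n → C.X n) (hz : C.IsBasis z) :
    Nonempty (Contr C z) := by
  have hi : ∀ n (c : I n →₀ k), Finsupp.linearCombination k (z n) c ∈ C.B n → c = 0 := by
    intro n c hc
    rw [Finsupp.linearCombination_apply] at hc
    exact hz.indep n c hc
  choose β pr hβ hΨ using fun n => split (C.B n) (z n) (hi n)
  choose g hg using fun n => gen_inv (C.d n)
  have hΨ1 : ∀ n (f : C.X n), C.d n f = 0 →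
      f = β n f + Finsupp.linearCombination k (z n) (pr n f) := by
    intro n f hf
    obtain ⟨c, hc⟩ := hz.span n f hf
    have e : f = (f - Finsupp.linearCombination k (z n) c) +
        Finsupp.linearCombination k (z n) c := (sub_add_cancel _ _).symm
    rw [← Finsupp.linearCombination_apply] at hc
    obtain ⟨h1, h2⟩ := hΨ n _ hc c
    rw [← e] at h1 h2
    rw [h1, h2]
    exact e
  have hdB : ∀ n, ∀ b ∈ C.B n, C.d n b = 0 := by
    intro n b hb
    cases n with
    | zero =>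
      have h0 : b = 0 := hb
      rw [h0, map_zero]
    | succ n =>
      obtain ⟨g, hg⟩ : ∃ g, C.d n g = b := hb
      rw [← hg, C.dd]
  have hdz : ∀ n (c : I n →₀ k), C.d n (Finsupp.linearCombination k (z n) c) = 0 := by
    intro n c
    rw [Finsupp.linearCombination_apply, map_finsuppSum]
    simp only [map_smul, hz.cocycle, smul_zero]
    exact Finsupp.sum_fun_zero _
  obtain ⟨s, hs⟩ : ∃ s : ∀ n, C.X (n + 1) →ₗ[k] C.X n, ∀ n x, s n x =
      g n x - (β n (g n x) + Finsupp.linearCombination k (z n) (pr n (g n x))) :=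
    ⟨fun n => g n - (((β n).comp (g n)) +
      (Finsupp.linearCombination k (z n)).comp ((pr n).comp (g n))), fun n x => rfl⟩
  have hs1 : ∀ n f, C.d n (s n (C.d n f)) = C.d n f := by
    intro n f
    rw [hs, map_sub, map_add, hg, hdB _ _ (hβ _ _), hdz, add_zero, sub_zero]
  have hs2 : ∀ n x, β n (s n x) = 0 ∧ pr n (s n x) = 0 := by
    intro n x
    obtain ⟨h1, h2⟩ := hΨ n _ (hβ n (g n x)) (pr n (g n x))
    rw [hs, map_sub, map_sub, h1, h2, sub_self, sub_self]
    exact ⟨rfl, rfl⟩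
  have hdmem : ∀ n f, C.d n f ∈ C.B (n + 1) := fun n f => ⟨f, rfl⟩
  have hβd : ∀ n f, β (n + 1) (C.d n f) = C.d n f ∧ pr (n + 1) (C.d n f) = 0 := by
    intro n f
    have h1 := hΨ (n + 1) _ (hdmem n f) 0
    rw [map_zero, add_zero] at h1
    exact h1
  -- the formula
  have hf : ∀ n (f : C.X n), f = β n f + Finsupp.linearCombination k (z n) (pr n f) +
      s n (C.d n f) := by
    intro n f
    have h1 : C.d n (f - s n (C.d n f)) = 0 := by
      rw [map_sub, hs1, sub_self]
    have h2 := hΨ1 n _ h1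
    rw [map_sub, map_sub, (hs2 _ _).1, (hs2 _ _).2, sub_zero, sub_zero] at h2
    rw [← h2, sub_add_cancel]
  refine ⟨{
    pr := pr
    h := fun n => (s n).comp (β (n + 1))
    pr_d := fun n f => (hβd n f).2
    pr_z := ?_
    zero := ?_
    succ := ?_ }⟩
  · intro n i
    have h1 := (hΨ n 0 (zero_mem _) (Finsupp.single i 1)).2
    rw [Finsupp.linearCombination_single, one_smul, zero_add] at h1
    exact h1
  · intro f
    have h1 := hf 0 f
    have h2 : β 0 f = 0 := hβ 0 f
    rw [h2, zero_add] at h1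
    show f = Finsupp.linearCombination k (z 0) (pr 0 f) + s 0 (β 1 (C.d 0 f))
    rw [(hβd 0 f).1]
    exact h1
  · intro n f
    have h1 := hf (n + 1) f
    show f = Finsupp.linearCombination k (z (n + 1)) (pr (n + 1) f) +
      (C.d n (s n (β (n + 1) f)) + s (n + 1) (β (n + 2) (C.d (n + 1) f)))
    obtain ⟨f', hf'⟩ : ∃ f', C.d n f' = β (n + 1) f := hβ (n + 1) f
    rw [(hβd (n + 1) f).1, ← hf', hs1, hf']
    conv_lhs => rw [h1]
    abel

/-! ### Operators on functions of two variables -/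

section two

variable {A A' A'' B B' B'' : Type}

/-- An operator acting on the first variable. -/
def lf (T : (A → k) →ₗ[k] (A' → k)) (F : A × B → k) : A' × B → k :=
  fun x => T (fun a => F (a, x.2)) x.1

/-- An operator acting on the second variable. -/
def rt (S : (B → k) →ₗ[k] (B' → k)) (F : A × B → k) : A × B' → k :=
  fun x => S (fun b => F (x.1, b)) x.2

/-- A functional acting on the first variable. -/
def pl (T : (A → k) →ₗ[k] k) (F : A × B → k) : B → k := fun b => T (fun a => F (a, b))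

theorem lf_lf (T : (A → k) →ₗ[k] (A' → k)) (T' : (A' → k) →ₗ[k] (A'' → k)) (F : A × B → k) :
    lf T' (lf T F) = lf (T'.comp T) F := rfl

theorem rt_rt (T : (B → k) →ₗ[k] (B' → k)) (T' : (B' → k) →ₗ[k] (B'' → k)) (F : A × B → k) :
    rt T' (rt T F) = rt (T'.comp T) F := rfl

theorem lf_zero (T : (A → k) →ₗ[k] (A' → k)) : lf T (0 : A × B → k) = 0 := by
  funext x
  show T 0 x.1 = 0
  rw [map_zero]
  rfl

theorem rt_zero (T : (B → k) →ₗ[k] (B' → k)) : rt T (0 : A × B → k) = 0 := by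
  funext x
  show T 0 x.2 = 0
  rw [map_zero]
  rfl

theorem pl_zero (T : (A → k) →ₗ[k] k) : pl T (0 : A × B → k) = 0 := by
  funext x
  show T 0 = 0
  rw [map_zero]

theorem pl_lf (T : (A → k) →ₗ[k] (A' → k)) (T' : (A' → k) →ₗ[k] k) (F : A × B → k) :
    pl T' (lf T F) = pl (T'.comp T) F := rfl

variable [Finite A]

theorem pl_rt (T : (A → k) →ₗ[k] k) (S : (B → k) →ₗ[k] (B' → k)) (F : A × B → k) :
    pl T (rt S F) = S (pl T F) := by
  classical
  have := Fintype.ofFinite A
  have hT : ∀ f : A → k, T f = ∑ a, f a * T (fun j => if a = j then 1 else 0) := fun f =>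
    LinearMap.pi_apply_eq_sum_univ T f
  funext y
  show T (fun a => S (fun b => F (a, b)) y) = S (fun b => T (fun a => F (a, b))) y
  rw [hT]
  have e : (fun b => T (fun a => F (a, b))) =
      ∑ a, T (fun j => if a = j then 1 else 0) • (fun b => F (a, b)) := by
    funext b
    rw [hT, Finset.sum_apply]
    exact Finset.sum_congr rfl fun a _ => mul_comm _ _
  rw [e, map_sum, Finset.sum_apply]
  refine Finset.sum_congr rfl fun a _ => ?_
  rw [map_smul]
  exact mul_comm _ _

theorem lf_rt (T : (A → k) →ₗ[k] (A' → k)) (S : (B → k) →ₗ[k] (B' → k)) (F : A × B → k) :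
    lf T (rt S F) = rt S (lf T F) := by
  funext x
  exact congrFun (pl_rt ((LinearMap.proj x.1).comp T) S F) x.2

end two

/-! ### Tensors -/

section tensors

variable {A A' B B' : Type}

/-- The tensor product of two functions. -/
def tn (f : A → k) (g : B → k) : A × B → k := fun x => f x.1 * g x.2

theorem lf_tn (T : (A → k) →ₗ[k] (A' → k)) (f : A → k) (g : B → k) :
    lf T (tn f g) = tn (T f) g := by
  funext x
  show T (fun a => f a * g x.2) x.1 = T f x.1 * g x.2
  have e : (fun a => f a * g x.2) = g x.2 • f := by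
    funext a
    exact mul_comm _ _
  rw [e, map_smul]
  exact mul_comm _ _

theorem rt_tn (T : (B → k) →ₗ[k] (B' → k)) (f : A → k) (g : B → k) :
    rt T (tn f g) = tn f (T g) := by
  funext x
  show T (fun b => f x.1 * g b) x.2 = f x.1 * T g x.2
  have e : (fun b => f x.1 * g b) = f x.1 • g := rfl
  rw [e, map_smul]
  rfl

theorem pl_tn (T : (A → k) →ₗ[k] k) (f : A → k) (g : B → k) : pl T (tn f g) = T f • g := by
  funext x
  show T (fun a => f a * g x) = T f * g x
  have e : (fun a => f a * g x) = g x • f := by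
    funext a
    exact mul_comm _ _
  rw [e, map_smul]
  exact mul_comm _ _

theorem tn_zero_left (g : B → k) : tn (0 : A → k) g = 0 := by
  funext x
  exact zero_mul _

theorem tn_zero_right (f : A → k) : tn f (0 : B → k) = 0 := by
  funext x
  exact mul_zero _

/-- The product of the two projections. -/
theorem mem_span_tn {I J : Type} (z : I → A → k) (w : J → B → k)
    (T : (A → k) →ₗ[k] (I →₀ k)) (S : (B → k) →ₗ[k] (J →₀ k)) [Finite I] (F : A × B → k) :
    rt ((Finsupp.linearCombination k w).comp S) (lf ((Finsupp.linearCombination k z).comp T) F) ∈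
      Submodule.span k (Set.range fun t : I × J => tn (z t.1) (w t.2)) := by
  classical
  have := Fintype.ofFinite I
  have e1 : lf ((Finsupp.linearCombination k z).comp T) F =
      ∑ i, tn (z i) (fun b => T (fun a => F (a, b)) i) := by
    funext x
    show Finsupp.linearCombination k z (T (fun a => F (a, x.2))) x.1 = _
    rw [Finsupp.linearCombination_apply, Finsupp.sum_fintype _ _ (fun i => zero_smul k (z i)),
      Finset.sum_apply, Finset.sum_apply]
    refine Finset.sum_congr rfl fun i _ => ?_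
    exact mul_comm _ _
  have e2 : ∀ (f : A → k) (g : B → k), rt ((Finsupp.linearCombination k w).comp S) (tn f g) =
      tn f (Finsupp.linearCombination k w (S g)) := fun f g => rt_tn _ f g
  have e3 : rt ((Finsupp.linearCombination k w).comp S) (∑ i, tn (z i)
      (fun b => T (fun a => F (a, b)) i)) = ∑ i, rt ((Finsupp.linearCombination k w).comp S)
      (tn (z i) (fun b => T (fun a => F (a, b)) i)) := by
    funext x
    rw [Finset.sum_apply]
    show ((Finsupp.linearCombination k w).comp S)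
      (fun b => (∑ i, tn (z i) (fun b => T (fun a => F (a, b)) i)) (x.1, b)) x.2 = _
    have e4 : (fun b => (∑ i, tn (z i) (fun b => T (fun a => F (a, b)) i)) (x.1, b)) =
        ∑ i, (fun b => tn (z i) (fun b => T (fun a => F (a, b)) i) (x.1, b)) := by
      funext b
      rw [Finset.sum_apply, Finset.sum_apply]
    rw [e4, map_sum, Finset.sum_apply]
    rfl
  rw [e1, e3]
  refine Submodule.sum_mem _ fun i _ => ?_
  rw [e2, Finsupp.linearCombination_apply]
  have e5 : tn (z i) ((S (fun b => T (fun a => F (a, b)) i)).sum fun j a => a • w j) =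
      (S (fun b => T (fun a => F (a, b)) i)).sum fun j a => a • tn (z i) (w j) := by
    funext x
    show z i x.1 * ((S (fun b => T (fun a => F (a, b)) i)).sum fun j a => a • w j) x.2 = _
    rw [Finsupp.sum, Finsupp.sum, Finset.sum_apply, Finset.sum_apply, Finset.mul_sum]
    refine Finset.sum_congr rfl fun j _ => ?_
    exact mul_left_comm _ _ _
  rw [e5]
  refine Submodule.sum_mem _ fun j _ => Submodule.smul_mem _ _ (Submodule.subset_span ⟨(i, j), rfl⟩)

end tensors

/-! ### The double complex of functions on `P × Q` -/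

variable (P Q : PS)

theorem dh_eq (p q : ℕ) (F : (PS.bcm P Q).X p q) :
    (PS.bcm P Q).dc.dh p q F = lf (P.cm.delta p) F := by
  funext x
  show ((PS.bcm P Q).row q).delta p F x = P.cm.delta p (fun a => F (a, x.2)) x.1
  rw [CM.delta_apply, CM.delta_apply, Finset.sum_apply, Finset.sum_apply]
  refine Finset.sum_congr rfl fun i _ => ?_
  show (Option.map₂ Prod.mk (P.map (cof i) x.1) (Q.map OrderHom.id x.2)).elim 0 F =
    (P.map (cof i) x.1).elim 0 (fun a => F (a, x.2))
  rw [Q.map_id]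
  cases P.map (cof i) x.1 <;> rfl

theorem dv_eq (p q : ℕ) (F : (PS.bcm P Q).X p q) :
    (PS.bcm P Q).dc.dv p q F = rt (Q.cm.delta q) F := by
  funext x
  show ((PS.bcm P Q).col p).delta q F x = Q.cm.delta q (fun b => F (x.1, b)) x.2
  rw [CM.delta_apply, CM.delta_apply, Finset.sum_apply, Finset.sum_apply]
  refine Finset.sum_congr rfl fun i _ => ?_
  show (Option.map₂ Prod.mk (P.map OrderHom.id x.1) (Q.map (cof i) x.2)).elim 0 F =
    (Q.map (cof i) x.2).elim 0 (fun b => F (x.1, b))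
  rw [P.map_id]
  cases Q.map (cof i) x.2 <;> rfl

theorem diag_eq : (PS.bcm P Q).diag = (P.smash Q).cm := rfl

theorem AW_cross (p q n : ℕ) (f : P.X p → k) (g : Q.X q → k) :
    (PS.bcm P Q).map (fr p n) (bk q n) (tn f g) = PS.cross P Q p q n f g := by
  funext x
  show (Option.map₂ Prod.mk (P.map (fr p n) x.1) (Q.map (bk q n) x.2)).elim 0 (tn f g) =
    (P.map (fr p n) x.1).elim 0 f * (Q.map (bk q n) x.2).elim 0 g
  cases P.map (fr p n) x.1 with
  | none => simp
  | some a =>
    cases Q.map (bk q n) x.2 with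
    | none => simp
    | some b => rfl

/-- The tensor product as an element of the total complex. -/
def tt (p q : ℕ) (f : P.X p → k) (g : Q.X q → k) : ∀ p' q', (PS.bcm P Q).X p' q' :=
  fun p' q' => if h : p = p' ∧ q = q' then
    fun x => f (h.1 ▸ x.1) * g (h.2 ▸ x.2) else 0

theorem tt_same (p q : ℕ) (f : P.X p → k) (g : Q.X q → k) : tt P Q p q f g p q = tn f g := by
  unfold tt
  rw [dif_pos ⟨rfl, rfl⟩]
  rfl

theorem tt_ne {p q p' q' : ℕ} (f : P.X p → k) (g : Q.X q → k) (h : ¬ (p = p' ∧ q = q')) :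
    tt P Q p q f g p' q' = 0 := by
  unfold tt
  rw [dif_neg h]

theorem tt_tot {p q n : ℕ} (h : p + q = n) (f : P.X p → k) (g : Q.X q → k) :
    tt P Q p q f g ∈ (PS.bcm P Q).dc.Tot n := by
  intro p' q' h'
  apply tt_ne
  rintro ⟨rfl, rfl⟩
  exact h' h

theorem AW_tt {p q n : ℕ} (h : p + q = n) (f : P.X p → k) (g : Q.X q → k) :
    (PS.bcm P Q).AW n (tt P Q p q f g) = PS.cross P Q p q n f g := by
  unfold BCM.AW
  rw [Finset.sum_eq_single p]
  · have key : ∀ q', q' = q → (PS.bcm P Q).map (fr p n) (bk q' n) (tt P Q p q f g p q') =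
        PS.cross P Q p q n f g := by
      rintro _ rfl
      rw [tt_same]
      exact AW_cross P Q p _ n f g
    exact key _ (by omega)
  · intro p' _ hne
    rw [tt_ne P Q f g (fun h => hne h.1.symm), map_zero]
  · intro hp
    exact absurd (Finset.mem_range.2 (by omega)) hp

theorem dh_tt {p q : ℕ} {f : P.X p → k} (g : Q.X q → k) (hf : P.cm.delta p f = 0) (p' q' : ℕ) :
    (PS.bcm P Q).dc.dh p' q' (tt P Q p q f g p' q') = 0 := by
  by_cases h : p = p' ∧ q = q'
  · obtain ⟨rfl, rfl⟩ := h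
    rw [tt_same, dh_eq, lf_tn, hf, tn_zero_left]
  · rw [tt_ne P Q f g h, map_zero]

theorem dv_tt {p q : ℕ} (f : P.X p → k) {g : Q.X q → k} (hg : Q.cm.delta q g = 0) (p' q' : ℕ) :
    (PS.bcm P Q).dc.dv p' q' (tt P Q p q f g p' q') = 0 := by
  by_cases h : p = p' ∧ q = q'
  · obtain ⟨rfl, rfl⟩ := h
    rw [tt_same, dv_eq, rt_tn, hg, tn_zero_right]
  · rw [tt_ne P Q f g h, map_zero]

/-- Vanishing of the total differential, in terms of the two differentials. -/
theorem D_eq_zero {D : DC} {F : ∀ p q, D.X p q} (h1 : ∀ p q, D.dh p q (F p q) = 0)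
    (h2 : ∀ p q, D.dv p q (F p q) = 0) : D.D F = 0 := by
  funext p q
  cases p with
  | zero =>
    cases q with
    | zero => rfl
    | succ q => exact h2 0 q
  | succ p =>
    cases q with
    | zero => exact h1 p 0
    | succ q =>
      show D.dh p (q + 1) (F p (q + 1)) + D.dv (p + 1) q (F (p + 1) q) = 0
      rw [h1, h2, add_zero]

theorem tt_ZT {p q n : ℕ} (h : p + q = n) {f : P.X p → k} {g : Q.X q → k}
    (hf : P.cm.delta p f = 0) (hg : Q.cm.delta q g = 0) :
    tt P Q p q f g ∈ (PS.bcm P Q).dc.ZT n :=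
  ⟨tt_tot P Q h f g, D_eq_zero (dh_tt P Q g hf) (dv_tt P Q f hg)⟩

/-- The Alexander-Whitney map is linear. -/
def AWl (M : BCM) (n : ℕ) : (∀ p q, M.X p q) →ₗ[k] M.X n n where
  toFun := M.AW n
  map_add' x y := by
    unfold BCM.AW
    rw [← Finset.sum_add_distrib]
    exact Finset.sum_congr rfl fun p _ => map_add _ _ _
  map_smul' c x := by
    unfold BCM.AW
    rw [RingHom.id_apply, Finset.smul_sum]
    exact Finset.sum_congr rfl fun p _ => map_smul _ _ _

theorem D_zero (D : DC) : D.D 0 = 0 :=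
  D_eq_zero (fun _ _ => map_zero _) (fun _ _ => map_zero _)

/-! ### Spanning -/

section main

variable {P Q} {I J : ℕ → Type} {z : ∀ n, I n → P.X n → k} {w : ∀ n, J n → Q.X n → k}
  (cz : Contr P.cm.cc z) (cw : Contr Q.cm.cc w)

/-- The projection onto the span of the representatives. -/
noncomputable def Pr (cz : Contr P.cm.cc z) (p : ℕ) : (P.X p → k) →ₗ[k] (P.X p → k) :=
  (Finsupp.linearCombination k (z p)).comp (cz.pr p)

theorem decA0 {B : Type} (F : P.X 0 × B → k) :
    F = lf (Pr cz 0) F + lf (cz.h 0) (lf (P.cm.delta 0) F) := by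
  funext x
  exact congrFun (cz.zero (fun a => F (a, x.2))) x.1

theorem decA1 {B : Type} (p : ℕ) (F : P.X (p + 1) × B → k) :
    F = lf (Pr cz (p + 1)) F + (lf (P.cm.delta p) (lf (cz.h p) F) +
      lf (cz.h (p + 1)) (lf (P.cm.delta (p + 1)) F)) := by
  funext x
  exact congrFun (cz.succ p (fun a => F (a, x.2))) x.1

theorem decB0 {A : Type} (F : A × Q.X 0 → k) :
    F = rt (Pr cw 0) F + rt (cw.h 0) (rt (Q.cm.delta 0) F) := by
  funext x
  exact congrFun (cw.zero (fun b => F (x.1, b))) x.2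

theorem decB1 {A : Type} (q : ℕ) (F : A × Q.X (q + 1) → k) :
    F = rt (Pr cw (q + 1)) F + (rt (Q.cm.delta q) (rt (cw.h q) F) +
      rt (cw.h (q + 1)) (rt (Q.cm.delta (q + 1)) F)) := by
  funext x
  exact congrFun (cw.succ q (fun b => F (x.1, b))) x.2

theorem stepA (hP : P.LF) {F : ∀ p q, (PS.bcm P Q).X p q} (hF : (PS.bcm P Q).dc.D F = 0) :
    F = (fun p q => lf (Pr cz p) (F p q)) +
      (PS.bcm P Q).dc.D (fun p q => lf (cz.h p) (F (p + 1) q)) := by
  have h1 : ∀ p, lf (P.cm.delta p) (F p 0) = 0 := by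
    intro p
    rw [← dh_eq]
    exact congrFun (congrFun hF (p + 1)) 0
  have h3 : ∀ p q, rt (Q.cm.delta q) (F (p + 1) q) = lf (P.cm.delta p) (F p (q + 1)) := by
    intro p q
    rw [← dh_eq, ← dv_eq]
    have h4 : (PS.bcm P Q).dc.dh p (q + 1) (F p (q + 1)) +
      (PS.bcm P Q).dc.dv (p + 1) q (F (p + 1) q) = 0 := congrFun (congrFun hF (p + 1)) (q + 1)
    exact (mod_two_eq h4).symm
  funext p q
  cases p with
  | zero =>
    have := hP 0
    have := hP 1
    have e := decA0 cz (F 0 q)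
    cases q with
    | zero =>
      rw [h1, lf_zero] at e
      exact e
    | succ q =>
      rw [← h3, lf_rt, ← dv_eq] at e
      exact e
  | succ p =>
    have := hP (p + 1)
    have := hP (p + 2)
    have e := decA1 cz p (F (p + 1) q)
    cases q with
    | zero =>
      rw [h1, lf_zero, add_zero, ← dh_eq] at e
      exact e
    | succ q =>
      rw [← h3, lf_rt, ← dv_eq, ← dh_eq] at e
      exact e

theorem stepB (hP : P.LF) {F : ∀ p q, (PS.bcm P Q).X p q}
    (h1 : ∀ p q, (PS.bcm P Q).dc.dh p q (F p q) = 0)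
    (h2 : ∀ p q, (PS.bcm P Q).dc.dv p q (F p q) = 0) :
    F = (fun p q => rt (Pr cw q) (F p q)) +
      (PS.bcm P Q).dc.D (fun p q => rt (cw.h q) (F p (q + 1))) := by
  have h3 : ∀ p q, (PS.bcm P Q).dc.dh p q (rt (cw.h q) (F p (q + 1))) = 0 := by
    intro p q
    have := hP p
    rw [dh_eq, lf_rt, ← dh_eq, h1, rt_zero]
  funext p q
  cases q with
  | zero =>
    have e := decB0 cw (F p 0)
    rw [← dv_eq, h2, rt_zero] at e
    cases p with
    | zero => exact e
    | succ p =>
      rw [← h3 p 0] at e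
      exact e
  | succ q =>
    have e := decB1 cw q (F p (q + 1))
    rw [← dv_eq, ← dv_eq, h2, rt_zero, add_zero] at e
    cases p with
    | zero => exact e
    | succ p =>
      rw [← zero_add ((PS.bcm P Q).dc.dv (p + 1) q _), ← h3 p (q + 1)] at e
      exact e

theorem d_Pr (hz : P.cm.cc.IsBasis z) (p : ℕ) (f : P.X p → k) :
    P.cm.delta p (Pr cz p f) = 0 := by
  show P.cm.cc.d p (Finsupp.linearCombination k (z p) (cz.pr p f)) = 0
  rw [Finsupp.linearCombination_apply, map_finsuppSum]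
  simp only [map_smul, hz.cocycle, smul_zero]
  exact Finsupp.sum_fun_zero _

theorem Pr_d (p : ℕ) (f : P.X p → k) : Pr cz (p + 1) (P.cm.delta p f) = 0 := by
  show Finsupp.linearCombination k (z (p + 1)) (cz.pr (p + 1) (P.cm.cc.d p f)) = 0
  rw [cz.pr_d, map_zero]

theorem lf_eq_zero {A A' B : Type} {T : (A → k) →ₗ[k] (A' → k)} {F : A × B → k}
    (h : ∀ b, T (fun a => F (a, b)) = 0) : lf T F = 0 := by
  funext x
  exact congrFun (h x.2) x.1

theorem dh_Pr (hz : P.cm.cc.IsBasis z) (p q : ℕ) (F : (PS.bcm P Q).X p q) :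
    (PS.bcm P Q).dc.dh p q (lf (Pr cz p) F) = 0 := by
  rw [dh_eq]
  exact lf_eq_zero (A := P.X p) (T := (P.cm.delta p).comp (Pr cz p)) (F := F)
    fun b => d_Pr cz hz p (fun a => F (a, b))

theorem dv_Pr (hP : P.LF) {F : ∀ p q, (PS.bcm P Q).X p q} (hF : (PS.bcm P Q).dc.D F = 0)
    (p q : ℕ) : (PS.bcm P Q).dc.dv p q (lf (Pr cz p) (F p q)) = 0 := by
  have := hP p
  rw [dv_eq, ← lf_rt, ← dv_eq]
  cases p with
  | zero =>
    have h1 : (PS.bcm P Q).dc.dv 0 q (F 0 q) = 0 := congrFun (congrFun hF 0) (q + 1)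
    rw [h1, lf_zero]
  | succ p =>
    have h4 : (PS.bcm P Q).dc.dh p (q + 1) (F p (q + 1)) +
      (PS.bcm P Q).dc.dv (p + 1) q (F (p + 1) q) = 0 := congrFun (congrFun hF (p + 1)) (q + 1)
    rw [← mod_two_eq h4, dh_eq]
    exact lf_eq_zero (A := P.X p) (T := (Pr cz (p + 1)).comp (P.cm.delta p)) (F := F p (q + 1))
      fun b => Pr_d cz p (fun a => F p (q + 1) (a, b))

/-- Every total cocycle is a sum of tensors of representatives and coboundaries. -/
theorem decomp (hP : P.LF) (hz : P.cm.cc.IsBasis z) {F : ∀ p q, (PS.bcm P Q).X p q}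
    (hF : (PS.bcm P Q).dc.D F = 0) :
    F = (fun p q => rt (Pr cw q) (lf (Pr cz p) (F p q))) +
      (PS.bcm P Q).dc.D (fun p q => rt (cw.h q) (lf (Pr cz p) (F p (q + 1)))) +
      (PS.bcm P Q).dc.D (fun p q => lf (cz.h p) (F (p + 1) q)) := by
  rw [← stepB cw hP (F := fun p q => lf (Pr cz p) (F p q)) (fun p q => dh_Pr cz hz p q (F p q))
    (fun p q => dv_Pr cz hP hF p q)]
  exact stepA cz hP hF

end main

/-- The images of total coboundaries. -/
theorem AW_D_mem (h2 : AWC_Stmt) (M : BCM) (n : ℕ) {G : ∀ p q, M.X p q}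
    (hG : ∀ p q, p + q + 1 ≠ n → G p q = 0) : M.AW n (M.dc.D G) ∈ M.diag.cc.B n := by
  cases n with
  | zero =>
    have h : G = 0 := by
      funext p q
      exact hG p q (by omega)
    rw [h, D_zero]
    exact (AWl M 0).map_zero
  | succ m =>
    rw [h2 M m G (fun p q h => hG p q (by omega))]
    exact ⟨M.AW m G, rfl⟩

theorem finite_index {C : CC} {I : ℕ → Type} {z : ∀ n, I n → C.X n} (hz : C.IsBasis z) (n : ℕ)
    [Finite (C.X n)] : Finite (I n) := by
  refine Finite.of_injective (z n) fun i j hij => ?_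
  by_contra hne
  have h1 := hz.indep n (Finsupp.single i 1 - Finsupp.single j 1) (by
    rw [← Finsupp.linearCombination_apply, map_sub, Finsupp.linearCombination_single,
      Finsupp.linearCombination_single, hij, sub_self]
    exact zero_mem _)
  have h2 := DFunLike.congr_fun h1 i
  rw [Finsupp.sub_apply, Finsupp.single_eq_same, Finsupp.single_eq_of_ne hne, sub_zero] at h2
  exact one_ne_zero h2

section final

variable {P Q} {I J : ℕ → Type} {z : ∀ n, I n → P.X n → k} {w : ∀ n, J n → Q.X n → k}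

theorem span_part (h1 : EZ_Stmt) (h2 : AWC_Stmt) (hP : P.LF)
    (hz : P.cm.cc.IsBasis z) (hw : Q.cm.cc.IsBasis w) (n : ℕ) (v : (P.smash Q).cm.X n)
    (hv : (P.smash Q).cm.delta n v = 0) :
    ∃ c : prodI I J n →₀ k, v - (c.sum fun i a => a • crossB P Q z w n i) ∈
      (P.smash Q).cm.cc.B n := by
  obtain ⟨cz⟩ := exists_contr P.cm.cc z hz
  obtain ⟨cw⟩ := exists_contr Q.cm.cc w hw
  obtain ⟨F, hF, hvF⟩ := (h1 (PS.bcm P Q) n).1 v hv
  obtain ⟨hFt, hFD⟩ := hF
  have hdec := decomp cz cw hP hz hFD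
  have hFz : ∀ p q, p + q ≠ n → F p q = 0 := hFt
  have e1 : (PS.bcm P Q).AW n F = (PS.bcm P Q).AW n
      (fun p q => rt (Pr cw q) (lf (Pr cz p) (F p q))) +
      (PS.bcm P Q).AW n ((PS.bcm P Q).dc.D
        (fun p q => rt (cw.h q) (lf (Pr cz p) (F p (q + 1))))) +
      (PS.bcm P Q).AW n ((PS.bcm P Q).dc.D (fun p q => lf (cz.h p) (F (p + 1) q))) := by
    conv_lhs => rw [hdec]
    exact (map_add (AWl (PS.bcm P Q) n) _ _).trans
      (congrArg (· + _) (map_add (AWl (PS.bcm P Q) n) _ _))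
  have hB1 : (PS.bcm P Q).AW n ((PS.bcm P Q).dc.D
      (fun p q => rt (cw.h q) (lf (Pr cz p) (F p (q + 1))))) ∈ (PS.bcm P Q).diag.cc.B n := by
    apply AW_D_mem h2
    intro p q h
    rw [hFz p (q + 1) (by omega), lf_zero, rt_zero]
  have hB2 : (PS.bcm P Q).AW n ((PS.bcm P Q).dc.D
      (fun p q => lf (cz.h p) (F (p + 1) q))) ∈ (PS.bcm P Q).diag.cc.B n := by
    apply AW_D_mem h2
    intro p q h
    rw [hFz (p + 1) q (by omega), lf_zero]
  have hspan : (PS.bcm P Q).AW n (fun p q => rt (Pr cw q) (lf (Pr cz p) (F p q))) ∈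
      Submodule.span k (Set.range (crossB P Q z w n)) := by
    unfold BCM.AW
    refine Submodule.sum_mem _ fun p hp => ?_
    have := hP p
    have : Finite (P.cm.cc.X p) := inferInstanceAs (Finite (P.X p → k))
    have := finite_index hz p
    have h5 := mem_span_tn (z p) (w (n - p)) (cz.pr p) (cw.pr (n - p)) (F p (n - p))
    have h6 := Submodule.mem_map_of_mem (f := (PS.bcm P Q).map (fr p n) (bk (n - p) n)) h5
    rw [Submodule.map_span] at h6
    refine Submodule.span_mono ?_ h6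
    rintro _ ⟨_, ⟨t, rfl⟩, rfl⟩
    refine ⟨⟨(⟨p, t.1⟩, ⟨n - p, t.2⟩), ?_⟩, ?_⟩
    · have := Finset.mem_range.1 hp
      show p + (n - p) = n
      omega
    · exact (AW_cross P Q p (n - p) n (z p t.1) (w (n - p) t.2)).symm
  obtain ⟨c, hc⟩ := Finsupp.mem_span_range_iff_exists_finsupp.1 hspan
  refine ⟨c, ?_⟩
  rw [hc]
  have e2 : v - (PS.bcm P Q).AW n (fun p q => rt (Pr cw q) (lf (Pr cz p) (F p q))) =
      (v - (PS.bcm P Q).AW n F) + ((PS.bcm P Q).AW n ((PS.bcm P Q).dc.D
        (fun p q => rt (cw.h q) (lf (Pr cz p) (F p (q + 1))))) +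
      (PS.bcm P Q).AW n ((PS.bcm P Q).dc.D (fun p q => lf (cz.h p) (F (p + 1) q)))) := by
    rw [e1]
    abel
  rw [e2]
  exact add_mem hvF (add_mem hB1 hB2)

/-- The coefficient functional. -/
noncomputable def Lam (cz : Contr P.cm.cc z) (cw : Contr Q.cm.cc w) (p q : ℕ) (i : I p) (j : J q)
    (F : ∀ p q, (PS.bcm P Q).X p q) : k :=
  cw.pr q (pl ((Finsupp.lapply i).comp (cz.pr p)) (F p q)) j

theorem Lam_add (cz : Contr P.cm.cc z) (cw : Contr Q.cm.cc w) (p q : ℕ) (i : I p) (j : J q)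
    (F G : ∀ p q, (PS.bcm P Q).X p q) :
    Lam cz cw p q i j (F + G) = Lam cz cw p q i j F + Lam cz cw p q i j G := by
  have e : pl ((Finsupp.lapply i).comp (cz.pr p)) ((F + G) p q) =
      pl ((Finsupp.lapply i).comp (cz.pr p)) (F p q) +
        pl ((Finsupp.lapply i).comp (cz.pr p)) (G p q) := by
    funext b
    exact map_add ((Finsupp.lapply i).comp (cz.pr p)) (fun a => F p q (a, b))
      (fun a => G p q (a, b))
  show cw.pr q (pl ((Finsupp.lapply i).comp (cz.pr p)) ((F + G) p q)) j = _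
  rw [e, map_add]
  rfl

theorem Lam_smul (cz : Contr P.cm.cc z) (cw : Contr Q.cm.cc w) (p q : ℕ) (i : I p) (j : J q)
    (c : k) (F : ∀ p q, (PS.bcm P Q).X p q) :
    Lam cz cw p q i j (c • F) = c * Lam cz cw p q i j F := by
  have e : pl ((Finsupp.lapply i).comp (cz.pr p)) ((c • F) p q) =
      c • pl ((Finsupp.lapply i).comp (cz.pr p)) (F p q) := by
    funext b
    exact map_smul ((Finsupp.lapply i).comp (cz.pr p)) c (fun a => F p q (a, b))
  show cw.pr q (pl ((Finsupp.lapply i).comp (cz.pr p)) ((c • F) p q)) j = _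
  rw [e, map_smul]
  rfl

/-- The coefficient functional as a linear map. -/
noncomputable def LamL (cz : Contr P.cm.cc z) (cw : Contr Q.cm.cc w) (p q : ℕ) (i : I p)
    (j : J q) : (∀ p q, (PS.bcm P Q).X p q) →ₗ[k] k where
  toFun := Lam cz cw p q i j
  map_add' := Lam_add cz cw p q i j
  map_smul' := Lam_smul cz cw p q i j

theorem pl_lf_d (cz : Contr P.cm.cc z) (p : ℕ) (i : I (p + 1)) {B : Type} (F : P.X p × B → k) :
    pl ((Finsupp.lapply i).comp (cz.pr (p + 1))) (lf (P.cm.delta p) F) = 0 := by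
  funext b
  show cz.pr (p + 1) (P.cm.cc.d p (fun a => F (a, b))) i = 0
  rw [cz.pr_d]
  rfl

theorem pr_rt_d (hP : P.LF) (cz : Contr P.cm.cc z) (cw : Contr Q.cm.cc w) (p q : ℕ) (i : I p)
    (F : P.X p × Q.X q → k) :
    cw.pr (q + 1) (pl ((Finsupp.lapply i).comp (cz.pr p)) (rt (Q.cm.delta q) F)) = 0 := by
  have := hP p
  rw [pl_rt]
  exact cw.pr_d q _

theorem Lam_D (hP : P.LF) (cz : Contr P.cm.cc z) (cw : Contr Q.cm.cc w) (p q : ℕ) (i : I p)
    (j : J q) (F : ∀ p q, (PS.bcm P Q).X p q) :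
    Lam cz cw p q i j ((PS.bcm P Q).dc.D F) = 0 := by
  cases p with
  | zero =>
    cases q with
    | zero =>
      show cw.pr 0 (pl ((Finsupp.lapply i).comp (cz.pr 0)) 0) j = 0
      rw [pl_zero, map_zero]
      rfl
    | succ q =>
      show cw.pr (q + 1) (pl ((Finsupp.lapply i).comp (cz.pr 0))
        ((PS.bcm P Q).dc.dv 0 q (F 0 q))) j = 0
      rw [dv_eq, pr_rt_d hP]
      rfl
  | succ p =>
    cases q with
    | zero =>
      show cw.pr 0 (pl ((Finsupp.lapply i).comp (cz.pr (p + 1)))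
        ((PS.bcm P Q).dc.dh p 0 (F p 0))) j = 0
      rw [dh_eq, pl_lf_d, map_zero]
      rfl
    | succ q =>
      have e : pl ((Finsupp.lapply i).comp (cz.pr (p + 1)))
          ((PS.bcm P Q).dc.dh p (q + 1) (F p (q + 1)) +
            (PS.bcm P Q).dc.dv (p + 1) q (F (p + 1) q)) =
          pl ((Finsupp.lapply i).comp (cz.pr (p + 1)))
            ((PS.bcm P Q).dc.dh p (q + 1) (F p (q + 1))) +
          pl ((Finsupp.lapply i).comp (cz.pr (p + 1)))
            ((PS.bcm P Q).dc.dv (p + 1) q (F (p + 1) q)) := by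
        funext b
        exact map_add ((Finsupp.lapply i).comp (cz.pr (p + 1)))
          (fun a => (PS.bcm P Q).dc.dh p (q + 1) (F p (q + 1)) (a, b))
          (fun a => (PS.bcm P Q).dc.dv (p + 1) q (F (p + 1) q) (a, b))
      show cw.pr (q + 1) (pl ((Finsupp.lapply i).comp (cz.pr (p + 1)))
        ((PS.bcm P Q).dc.dh p (q + 1) (F p (q + 1)) +
          (PS.bcm P Q).dc.dv (p + 1) q (F (p + 1) q))) j = 0
      rw [e, map_add, dh_eq, dv_eq, pl_lf_d, map_zero, zero_add, pr_rt_d hP]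
      rfl

theorem Lam_tt (cz : Contr P.cm.cc z) (cw : Contr Q.cm.cc w) (s t : (Σ p : ℕ, I p) × (Σ q : ℕ, J q))
    [Decidable (t = s)] :
    Lam cz cw s.1.1 s.2.1 s.1.2 s.2.2 (tt P Q t.1.1 t.2.1 (z _ t.1.2) (w _ t.2.2)) =
      if t = s then 1 else 0 := by
  classical
  obtain ⟨⟨p, i⟩, ⟨q, j⟩⟩ := s
  obtain ⟨⟨p', i'⟩, ⟨q', j'⟩⟩ := t
  show cw.pr q (pl ((Finsupp.lapply i).comp (cz.pr p)) (tt P Q p' q' (z p' i') (w q' j') p q)) j = _
  by_cases h : p' = p ∧ q' = q
  · obtain ⟨rfl, rfl⟩ := h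
    rw [tt_same, pl_tn, map_smul, cw.pr_z]
    show cz.pr p' (z p' i') i • (Finsupp.single j' (1 : k)) j = _
    rw [cz.pr_z]
    by_cases hi : i' = i
    · subst hi
      by_cases hj : j' = j
      · subst hj
        rw [Finsupp.single_eq_same, Finsupp.single_eq_same, if_pos rfl]
        exact mul_one _
      · rw [if_neg (fun h => hj (by simpa using h)), Finsupp.single_apply, Finsupp.single_apply,
          if_neg hj]
        exact mul_zero _
    · rw [if_neg (fun h => hi (by
        have := congrArg Prod.fst h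
        simpa using this)), Finsupp.single_apply, if_neg hi]
      exact zero_mul _
  · rw [tt_ne P Q _ _ h, pl_zero, map_zero, if_neg]
    · rfl
    · intro h'
      apply h
      have h1 := congrArg (fun x => x.1.1) h'
      have h2 := congrArg (fun x => x.2.1) h'
      exact ⟨h1, h2⟩

theorem indep_part (h1 : EZ_Stmt) (hP : P.LF)
    (hz : P.cm.cc.IsBasis z) (hw : Q.cm.cc.IsBasis w) (n : ℕ) (c : prodI I J n →₀ k)
    (hc : (c.sum fun i a => a • crossB P Q z w n i) ∈ (P.smash Q).cm.cc.B n) : c = 0 := by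
  classical
  obtain ⟨cz⟩ := exists_contr P.cm.cc z hz
  obtain ⟨cw⟩ := exists_contr Q.cm.cc w hw
  have e1 : (c.sum fun i a => a • crossB P Q z w n i) = (PS.bcm P Q).AW n
      (c.sum fun t a => a • tt P Q t.1.1.1 t.1.2.1 (z _ t.1.1.2) (w _ t.1.2.2)) := by
    have e2 := map_finsuppSum (AWl (PS.bcm P Q) n) c
      (fun t a => a • tt P Q t.1.1.1 t.1.2.1 (z _ t.1.1.2) (w _ t.1.2.2))
    refine Eq.trans ?_ e2.symm
    refine Finsupp.sum_congr fun t _ => ?_
    rw [map_smul]
    congr 1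
    exact (AW_tt P Q t.2 (z _ t.1.1.2) (w _ t.1.2.2)).symm
  rw [e1] at hc
  have hZ : (c.sum fun t a => a • tt P Q t.1.1.1 t.1.2.1 (z _ t.1.1.2) (w _ t.1.2.2)) ∈
      (PS.bcm P Q).dc.ZT n := by
    refine Submodule.sum_mem _ fun t _ => Submodule.smul_mem _ _ ?_
    exact tt_ZT P Q t.2 (hz.cocycle _ _) (hw.cocycle _ _)
  have hB := (h1 (PS.bcm P Q) n).2 _ hZ hc
  ext s
  have hle : (PS.bcm P Q).dc.BT n ≤
      LinearMap.ker (LamL cz cw s.1.1.1 s.1.2.1 s.1.1.2 s.1.2.2) := by
    cases n with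
    | zero => exact bot_le
    | succ m =>
      refine Submodule.span_le.2 ?_
      rintro _ ⟨y, _, rfl⟩
      exact Lam_D hP cz cw _ _ _ _ y
  have h3 := LinearMap.mem_ker.1 (hle hB)
  rw [map_finsuppSum] at h3
  rw [Finsupp.sum_eq_single s] at h3
  · rw [map_smul] at h3
    have h4 : LamL cz cw s.1.1.1 s.1.2.1 s.1.1.2 s.1.2.2
        (tt P Q s.1.1.1 s.1.2.1 (z _ s.1.1.2) (w _ s.1.2.2)) = 1 := by
      refine (Lam_tt cz cw s.1 s.1).trans (if_pos rfl)
    rw [h4] at h3
    exact (mul_one _).symm.trans h3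
  · intro t _ hts
    rw [map_smul]
    have h4 : LamL cz cw s.1.1.1 s.1.2.1 s.1.1.2 s.1.2.2
        (tt P Q t.1.1.1 t.1.2.1 (z _ t.1.1.2) (w _ t.1.2.2)) = 0 := by
      refine (Lam_tt cz cw s.1 t.1).trans (if_neg fun h => hts (Subtype.ext h))
    rw [h4, smul_zero]
  · intro _
    rw [zero_smul, map_zero]

theorem cocycle_part (h2 : AWC_Stmt) (hz : P.cm.cc.IsBasis z) (hw : Q.cm.cc.IsBasis w) (n : ℕ)
    (t : prodI I J n) : (P.smash Q).cm.delta n (crossB P Q z w n t) = 0 := by
  have h3 := h2 (PS.bcm P Q) n _ (tt_tot P Q t.2 (z _ t.1.1.2) (w _ t.1.2.2))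
  rw [AW_tt P Q t.2, (tt_ZT P Q t.2 (hz.cocycle _ _) (hw.cocycle _ _)).2] at h3
  refine Eq.trans h3.symm ?_
  exact (AWl (PS.bcm P Q) (n + 1)).map_zero

end final

end Kunp

theorem KUNP (h1 : EZ_Stmt) (h2 : AWC_Stmt) : KUNP_Stmt := by
  intro P Q hP _ I J z w hz hw
  exact {
    cocycle := Kunp.cocycle_part h2 hz hw
    span := Kunp.span_part h1 h2 hP hz hw
    indep := Kunp.indep_part h1 hP hz hw }

end Pool.Agent.SHS
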