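import Pool.Agent.SH.S.StmtsC

/-!
Block III-S: the structure formula for one letter (LAM).
-/

namespace Pool.Agent.SHS

namespace Lam

open Finset

/-! ### Counting functions of finite sets of bars -/

/-- The number of elements of `J` before the vertex `v`. -/
def cnt {p : ℕ} (J : Finset (Fin p)) (v : Fin (p + 1)) : ℕ :=
  (J.filter (fun l => l.castSucc < v)).card

theorem cnt_mono {p : ℕ} (J : Finset (Fin p)) : Monotone (cnt J) := by
  intro v w h
  apply card_le_card
  intro l hl
  rw [mem_filter] at hl ⊢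
  exact ⟨hl.1, hl.2.trans_le h⟩

theorem cnt_zero {p : ℕ} (J : Finset (Fin p)) : cnt J 0 = 0 := by
  unfold cnt
  rw [card_eq_zero, filter_eq_empty_iff]
  intro l _
  exact not_lt.mpr (Fin.zero_le _)

theorem cnt_last {p : ℕ} (J : Finset (Fin p)) : cnt J (Fin.last p) = J.card := by
  unfold cnt
  rw [filter_true_of_mem]
  intro l _
  exact Fin.castSucc_lt_last l

theorem cnt_succ {p : ℕ} (J : Finset (Fin p)) (l : Fin p) :
    cnt J l.succ = cnt J l.castSucc + if l ∈ J then 1 else 0 := by
  unfold cnt
  have h1 : J.filter (fun x => x.castSucc < l.succ) =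
      J.filter (fun x => x.castSucc < l.castSucc) ∪ J.filter (fun x => x = l) := by
    ext x
    simp only [mem_filter, mem_union, Fin.castSucc_lt_succ_iff, Fin.castSucc_lt_castSucc_iff]
    constructor
    · rintro ⟨h1, h2⟩
      rcases h2.lt_or_eq with h3 | h3
      · exact Or.inl ⟨h1, h3⟩
      · exact Or.inr ⟨h1, h3⟩
    · rintro (⟨h1, h2⟩ | ⟨h1, h2⟩)
      · exact ⟨h1, h2.le⟩
      · exact ⟨h1, h2.le⟩
  rw [h1, card_union_of_disjoint]
  · congr 1
    by_cases h : l ∈ J
    · rw [if_pos h, filter_eq' J l, if_pos h, card_singleton]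
    · rw [if_neg h, filter_eq' J l, if_neg h, card_empty]
  · rw [disjoint_left]
    intro x hx hx'
    rw [mem_filter] at hx hx'
    rw [hx'.2] at hx
    exact lt_irrefl _ hx.2

theorem mem_jumps {p m : ℕ} {a : Mor p m} {l : Fin p} :
    l ∈ jumps a ↔ a l.castSucc ≠ a l.succ := by
  unfold jumps
  rw [mem_filter]
  exact ⟨fun h => h.2, fun h => ⟨mem_univ _, h⟩⟩

theorem surj_zero {p m : ℕ} {a : Mor p m} (ha : Function.Surjective a) : a 0 = 0 := by
  obtain ⟨v, hv⟩ := ha 0
  have h := a.monotone (Fin.zero_le v)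
  rw [hv] at h
  exact le_antisymm h (Fin.zero_le _)

theorem surj_last {p m : ℕ} {a : Mor p m} (ha : Function.Surjective a) :
    a (Fin.last p) = Fin.last m := by
  obtain ⟨v, hv⟩ := ha (Fin.last m)
  have h := a.monotone (Fin.le_last v)
  rw [hv] at h
  exact le_antisymm (Fin.le_last _) h

/-- A surjective monotone map counts its jumps. -/
theorem val_eq_cnt {p m : ℕ} {a : Mor p m} (ha : Function.Surjective a) (v : Fin (p + 1)) :
    (a v : ℕ) = cnt (jumps a) v := by
  induction v using Fin.induction with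
  | zero => rw [surj_zero ha, cnt_zero]; rfl
  | succ l ih =>
    rw [cnt_succ, ← ih]
    have hmono : a l.castSucc ≤ a l.succ := a.monotone (Fin.castSucc_lt_succ).le
    have hmono' : (a l.castSucc : ℕ) ≤ a l.succ := hmono
    by_cases h : l ∈ jumps a
    · rw [if_pos h]
      have hne : (a l.castSucc : ℕ) ≠ a l.succ := fun e => mem_jumps.mp h (Fin.ext e)
      by_contra hcon
      have hlt : (a l.castSucc : ℕ) + 1 < a l.succ := by omega
      obtain ⟨v, hv⟩ := ha ⟨(a l.castSucc : ℕ) + 1, by
        have := (a l.succ).isLt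
        omega⟩
      have hv' : (a v : ℕ) = (a l.castSucc : ℕ) + 1 := by rw [hv]
      rcases le_or_gt v l.castSucc with h1 | h1
      · have h2 : (a v : ℕ) ≤ a l.castSucc := a.monotone h1
        omega
      · have h2 : (a l.succ : ℕ) ≤ a v := a.monotone (Fin.castSucc_lt_iff_succ_le.mp h1)
        omega
    · rw [if_neg h]
      have : a l.castSucc = a l.succ := by
        by_contra hcon
        exact h (mem_jumps.mpr hcon)
      rw [this, add_zero]

theorem card_jumps {p m : ℕ} {a : Mor p m} (ha : Function.Surjective a) : (jumps a).card = m := by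
  rw [← cnt_last, ← val_eq_cnt ha, surj_last ha]
  rfl

/-- The map with given jumps. -/
def toM {p : ℕ} (m : ℕ) (J : Finset (Fin p)) : Mor p m where
  toFun v := ⟨min (cnt J v) m, by omega⟩
  monotone' := by
    intro v w h
    have h1 := cnt_mono J h
    show min (cnt J v) m ≤ min (cnt J w) m
    omega

theorem toM_val {p m : ℕ} {J : Finset (Fin p)} (hJ : J.card = m) (v : Fin (p + 1)) :
    (toM m J v : ℕ) = cnt J v := by
  show min (cnt J v) m = cnt J v
  have h1 := cnt_mono J (Fin.le_last v)
  rw [cnt_last, hJ] at h1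
  omega

theorem exists_cnt {p : ℕ} (J : Finset (Fin p)) (v : Fin (p + 1)) :
    ∀ y ≤ cnt J v, ∃ w, cnt J w = y := by
  induction v using Fin.induction with
  | zero =>
    intro y hy
    rw [cnt_zero] at hy
    exact ⟨0, by rw [cnt_zero]; omega⟩
  | succ l ih =>
    intro y hy
    by_cases h : y ≤ cnt J l.castSucc
    · exact ih y h
    · refine ⟨l.succ, ?_⟩
      rw [cnt_succ] at hy ⊢
      split_ifs at hy ⊢ <;> omega

theorem toM_surj {p m : ℕ} {J : Finset (Fin p)} (hJ : J.card = m) :
    Function.Surjective (toM m J) := by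
  intro y
  obtain ⟨w, hw⟩ := exists_cnt J (Fin.last p) y.1 (by
    rw [cnt_last, hJ]
    exact Nat.lt_succ_iff.mp y.isLt)
  refine ⟨w, Fin.ext ?_⟩
  rw [toM_val hJ, hw]

theorem jumps_toM {p m : ℕ} {J : Finset (Fin p)} (hJ : J.card = m) : jumps (toM m J) = J := by
  ext l
  rw [mem_jumps]
  have h1 : toM m J l.castSucc ≠ toM m J l.succ ↔ cnt J l.castSucc ≠ cnt J l.succ := by
    rw [not_iff_not, Fin.ext_iff, toM_val hJ, toM_val hJ]
  rw [h1, cnt_succ]
  by_cases h : l ∈ J
  · rw [if_pos h]
    exact ⟨fun _ => h, fun _ => by omega⟩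
  · rw [if_neg h]
    exact ⟨fun h' => absurd rfl h', fun h' => absurd h' h⟩

theorem toM_jumps {p m : ℕ} {a : Mor p m} (ha : Function.Surjective a) : toM m (jumps a) = a := by
  apply mor_ext
  intro v
  rw [toM_val (card_jumps ha), val_eq_cnt ha]

/-! ### Blocks -/

/-- The bars of [p'] between the images of the end points of the bar `j`. -/
def block {p p' : ℕ} (b : Mor p p') (j : Fin p) : Finset (Fin p') :=
  univ.filter (fun l => b j.castSucc ≤ l.castSucc ∧ l.castSucc < b j.succ)

theorem mem_block {p p' : ℕ} {b : Mor p p'} {j : Fin p} {l : Fin p'} :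
    l ∈ block b j ↔ b j.castSucc ≤ l.castSucc ∧ l.castSucc < b j.succ := by
  unfold block
  rw [mem_filter]
  exact ⟨fun h => h.2, fun h => ⟨mem_univ _, h⟩⟩

theorem block_lt {p p' : ℕ} {b : Mor p p'} {j : Fin p} {l : Fin p'} (h : l ∈ block b j)
    (i : Fin (p + 1)) : l.castSucc < b i ↔ j.castSucc < i := by
  rw [mem_block] at h
  constructor
  · intro h1
    by_contra hcon
    rw [not_lt] at hcon
    exact absurd (h1.trans_le ((b.monotone hcon).trans h.1)) (lt_irrefl _)
  · intro h1
    exact h.2.trans_le (b.monotone (Fin.castSucc_lt_iff_succ_le.mp h1))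

theorem block_disj {p p' : ℕ} {b : Mor p p'} {j j' : Fin p} {l : Fin p'} (h : l ∈ block b j)
    (h' : l ∈ block b j') : j = j' := by
  rcases lt_trichotomy j j' with h1 | h1 | h1
  · have := (block_lt h j'.castSucc).mpr (Fin.castSucc_lt_castSucc_iff.mpr h1)
    exact absurd this (not_lt.mpr (mem_block.mp h').1)
  · exact h1
  · have := (block_lt h' j.castSucc).mpr (Fin.castSucc_lt_castSucc_iff.mpr h1)
    exact absurd this (not_lt.mpr (mem_block.mp h).1)

/-! ### Primitive classes -/

theorem prim_add {X : SS} {G : SV} {μ : H G.toSS} (hμ : Prim μ) (g h : SS.Hom X G.toSS) :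
    H.map (G.addHom.comp (SS.Hom.pair g h)) μ = H.map g μ + H.map h μ := by
  rw [H.map_comp, show H.map G.addHom μ = _ from hμ, map_add, ← H.map_comp, ← H.map_comp]
  rfl

/-- The difference of two vertices. -/
def dif (G : SV) {p : ℕ} (u v : Fin (p + 1)) : SS.Hom (G.BX p) G.toSS where
  f _ x := x.1 v - x.1 u
  nat b x := by
    show G.map b (x.1 v) - G.map b (x.1 u) = G.map b (x.1 v - x.1 u)
    rw [map_sub]

theorem map_dif_self {G : SV} {μ : H G.toSS} (hμ : Prim μ) {p : ℕ} (u : Fin (p + 1)) :
    H.map (dif G u u) μ = 0 := by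
  have h1 := prim_add hμ (dif G u u) (dif G u u)
  have h2 : G.addHom.comp (SS.Hom.pair (dif G u u) (dif G u u)) = dif G u u := by
    apply SS.Hom.ext'
    intro n x
    show (x.1 u - x.1 u) + (x.1 u - x.1 u) = x.1 u - x.1 u
    rw [sub_self, add_zero]
  rw [h2] at h1
  have h3 : H.map (dif G u u) μ + 0 = H.map (dif G u u) μ + H.map (dif G u u) μ := by
    rw [add_zero]; exact h1
  exact (add_left_cancel h3).symm

theorem map_dif_succ {G : SV} {μ : H G.toSS} (hμ : Prim μ) {p : ℕ} (u : Fin (p + 1)) (l : Fin p) :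
    H.map (dif G u l.succ) μ = H.map (dif G u l.castSucc) μ + H.map (G.BXbar l) μ := by
  rw [← prim_add hμ]
  congr 2
  apply SS.Hom.ext'
  intro n x
  show x.1 l.succ - x.1 u = (x.1 l.castSucc - x.1 u) + (x.1 l.succ - x.1 l.castSucc)
  abel

theorem map_dif {G : SV} {μ : H G.toSS} (hμ : Prim μ) {p : ℕ} (u v : Fin (p + 1)) :
    u ≤ v → H.map (dif G u v) μ =
      ∑ l ∈ univ.filter (fun l : Fin p => u ≤ l.castSucc ∧ l.castSucc < v),
        H.map (G.BXbar l) μ := by
  induction v using Fin.induction with
  | zero =>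
    intro h
    have hu : u = 0 := le_antisymm h (Fin.zero_le _)
    rw [hu, map_dif_self hμ, filter_false_of_mem, sum_empty]
    rintro l _ ⟨_, h2⟩
    exact absurd h2 (not_lt.mpr (Fin.zero_le _))
  | succ w ih =>
    intro h
    rcases h.lt_or_eq with h1 | h1
    · have h2 : u ≤ w.castSucc := Fin.le_castSucc_iff.mpr h1
      rw [map_dif_succ hμ, ih h2]
      have h3 : univ.filter (fun l : Fin p => u ≤ l.castSucc ∧ l.castSucc < w.succ) =
          insert w (univ.filter (fun l : Fin p => u ≤ l.castSucc ∧ l.castSucc < w.castSucc)) := by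
        ext l
        simp only [mem_filter, mem_univ, true_and, mem_insert, Fin.castSucc_lt_succ_iff,
          Fin.castSucc_lt_castSucc_iff]
        constructor
        · rintro ⟨h3, h4⟩
          rcases h4.lt_or_eq with h5 | h5
          · exact Or.inr ⟨h3, h5⟩
          · exact Or.inl h5
        · rintro (h3 | ⟨h3, h4⟩)
          · rw [h3]
            exact ⟨h2, le_rfl⟩
          · exact ⟨h3, h4.le⟩
      rw [h3, sum_insert, add_comm]
      intro h4
      rw [mem_filter] at h4
      exact lt_irrefl _ h4.2.2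
    · rw [← h1, map_dif_self hμ, filter_false_of_mem, sum_empty]
      rintro l _ ⟨h2, h3⟩
      exact absurd (h2.trans_lt h3) (lt_irrefl _)

theorem map_bar {G : SV} {μ : H G.toSS} (hμ : Prim μ) {p p' : ℕ} (b : Mor p p') (j : Fin p) :
    H.map (G.BXmap b) (H.map (G.BXbar j) μ) = ∑ l ∈ block b j, H.map (G.BXbar l) μ := by
  rw [← H.map_comp]
  have h1 : (G.BXbar j).comp (G.BXmap b) = dif G (b j.castSucc) (b j.succ) := by
    apply SS.Hom.ext'
    intro n x
    show (x.1 (b j.succ) - x.1 (b 0)) - (x.1 (b j.castSucc) - x.1 (b 0)) =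
      x.1 (b j.succ) - x.1 (b j.castSucc)
    abel
  rw [h1]
  exact map_dif hμ _ _ (b.monotone (Fin.castSucc_lt_succ).le)

end Lam

open Lam Finset in
/-- **LAM.** -/
theorem LAM : LAM_Stmt := by
  classical
  intro G μ hμ p p' m b a ha s hs
  have hJ := card_jumps ha
  -- expansion
  have h1 : H.map (G.BXmap b) (lam G μ a) =
      ∑ c ∈ Fintype.piFinset (fun j : {j // j ∈ jumps a} => block b j.1),
        ∏ j : {j // j ∈ jumps a}, H.map (G.BXbar (c j)) μ := by
    unfold lam
    rw [map_prod, ← prod_coe_sort]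
    rw [prod_congr rfl fun j _ => map_bar hμ b j.1]
    exact prod_univ_sum _ _
  -- choice functions are injective
  have hinj : ∀ c ∈ Fintype.piFinset (fun j : {j // j ∈ jumps a} => block b j.1),
      Function.Injective c := by
    intro c hc j j' h
    rw [Fintype.mem_piFinset] at hc
    have h2 := hc j'
    rw [← h] at h2
    exact Subtype.ext (block_disj (hc j) h2)
  have hcard : ∀ c ∈ Fintype.piFinset (fun j : {j // j ∈ jumps a} => block b j.1),
      (univ.image c).card = m := by
    intro c hc
    rw [card_image_of_injective _ (hinj c hc), card_univ, Fintype.card_coe, hJ]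
  rw [h1]
  refine sum_bij (fun c _ => toM m (univ.image c)) ?_ ?_ ?_ ?_
  · intro c hc
    rw [hs]
    refine ⟨toM_surj (hcard c hc), ?_⟩
    apply mor_ext
    intro i
    have hc' := Fintype.mem_piFinset.mp hc
    show (toM m (univ.image c) (b i) : ℕ) = a i
    rw [toM_val (hcard c hc), val_eq_cnt ha]
    unfold cnt
    have h2 : (univ.image c).filter (fun l => l.castSucc < b i) =
        (univ.filter (fun j : {j // j ∈ jumps a} => j.1.castSucc < i)).image c := by
      ext l
      simp only [mem_filter, mem_image, mem_univ, true_and]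
      constructor
      · rintro ⟨⟨j, rfl⟩, h3⟩
        exact ⟨j, (block_lt (hc' j) i).mp h3, rfl⟩
      · rintro ⟨j, h3, rfl⟩
        exact ⟨⟨j, rfl⟩, (block_lt (hc' j) i).mpr h3⟩
    have h3 : (jumps a).filter (fun l => l.castSucc < i) =
        (univ.filter (fun j : {j // j ∈ jumps a} => j.1.castSucc < i)).image Subtype.val := by
      ext l
      simp only [mem_filter, mem_image, mem_univ, true_and]
      constructor
      · rintro ⟨h3, h4⟩
        exact ⟨⟨l, h3⟩, h4, rfl⟩
      · rintro ⟨j, h3, rfl⟩
        exact ⟨j.2, h3⟩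
    rw [h2, h3, card_image_of_injective _ (hinj c hc),
      card_image_of_injective _ Subtype.val_injective]
  · intro c hc c' hc' h
    have h2 : univ.image c = univ.image c' := by
      have := congrArg jumps h
      rwa [jumps_toM (hcard c hc), jumps_toM (hcard c' hc')] at this
    funext j
    have h3 : c j ∈ univ.image c' := by
      rw [← h2]
      exact mem_image_of_mem _ (mem_univ j)
    obtain ⟨j', _, hj'⟩ := mem_image.mp h3
    have h4 := Fintype.mem_piFinset.mp hc' j'
    rw [hj'] at h4
    have h5 : j = j' := Subtype.ext (block_disj (Fintype.mem_piFinset.mp hc j) h4)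
    rw [h5, ← h5]
    rw [← hj', ← h5]
  · intro a' ha'
    obtain ⟨hs1, hs2⟩ := (hs a').mp ha'
    have h2 : ∀ j : {j // j ∈ jumps a}, ∃ l, l ∈ block b j.1 ∧ l ∈ jumps a' := by
      intro j
      by_contra hcon
      push Not at hcon
      have hval : ∀ i, a i = a' (b i) := fun i => by rw [← hs2]; rfl
      apply mem_jumps.mp j.2
      rw [hval, hval]
      apply Fin.ext
      rw [val_eq_cnt hs1, val_eq_cnt hs1]
      unfold cnt
      congr 1
      apply filter_congr
      intro l hl
      constructor
      · intro h3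
        exact h3.trans_le (b.monotone (Fin.castSucc_lt_succ).le)
      · intro h3
        by_contra h4
        exact hcon l (mem_block.mpr ⟨not_lt.mp h4, h3⟩) hl
    choose c hc hc' using h2
    have hcm : c ∈ Fintype.piFinset (fun j : {j // j ∈ jumps a} => block b j.1) :=
      Fintype.mem_piFinset.mpr hc
    refine ⟨c, hcm, ?_⟩
    have h3 : univ.image c = jumps a' := by
      apply eq_of_subset_of_card_le
      · intro l hl
        obtain ⟨j, _, rfl⟩ := mem_image.mp hl
        exact hc' j
      · rw [hcard c hcm, card_jumps hs1]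
    rw [h3]
    exact toM_jumps hs1
  · intro c hc
    unfold lam
    rw [jumps_toM (hcard c hc), prod_image (fun x _ y _ h => hinj c hc h)]

end Pool.Agent.SHS
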