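import Pool.Agent.SH.S.StmtsC

/-!
Block III-S: link between the double complex of functions on G_q^p and the
cosimplicial vector space p ↦ H^q(G^p).
-/

namespace Pool.Agent.SHS
namespace Link

/-- Classes of vertical cocycles, as a linear map. -/
noncomputable def clsL (X : SS) (q : ℕ) : X.cm.cc.Z q →ₗ[k] Hn X q where
  toFun f := ⟨clsN q f.1 f.2, clsN_mem q f.1 f.2⟩
  map_add' f g := Subtype.ext (clsN_add f.1 g.1 f.2 g.2)
  map_smul' c f := Subtype.ext (clsN_smul c f.1 f.2)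

theorem clsL_val (X : SS) (q : ℕ) (f : X.cm.cc.Z q) : (clsL X q f).1 = clsN q f.1 f.2 := rfl

theorem clsL_surj (X : SS) (q : ℕ) : Function.Surjective (clsL X q) := by
  rintro ⟨a, ha⟩
  obtain ⟨φ, h, e⟩ := exists_clsN ha
  exact ⟨⟨φ, h⟩, Subtype.ext e⟩

theorem clsL_zero (X : SS) (q : ℕ) (f : X.cm.cc.Z q) : clsL X q f = 0 ↔ f.1 ∈ X.cm.cc.B q := by
  rw [← clsN_eq_zero f.1 f.2]
  exact ⟨fun h => congrArg Subtype.val h, fun h => Subtype.ext h⟩

/-- Pull back of cocycles of degree `q`. -/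
def pullZ {X Y : SS} (θ : SS.Hom X Y) (q : ℕ) (f : Y.cm.cc.Z q) : X.cm.cc.Z q :=
  ⟨fun x => f.1 (θ.f q x), by
    show X.cm.delta q (fun x => f.1 (θ.f q x)) = 0
    have h : Y.cm.delta q f.1 = 0 := f.2
    rw [CM.delta_apply] at h ⊢
    funext x
    have h1 := congrFun h (θ.f (q + 1) x)
    rw [Finset.sum_apply] at h1 ⊢
    refine Eq.trans ?_ h1
    apply Finset.sum_congr rfl
    intro i _
    show f.1 (θ.f q (X.map (cof i) x)) = f.1 (Y.map (cof i) (θ.f (q + 1) x))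
    rw [θ.nat]⟩

theorem map_clsL {X Y : SS} (θ : SS.Hom X Y) (q : ℕ) (f : Y.cm.cc.Z q) :
    H.map θ (clsL Y q f).1 = (clsL X q (pullZ θ q f)).1 := by
  rw [clsL_val, clsL_val]
  unfold clsN
  rw [H.map_cls]
  congr 1
  apply Subtype.ext
  show Coch.pull θ (Coch.single q f.1) = Coch.single q (fun x => f.1 (θ.f q x))
  ext m x
  rw [Coch.pull_apply]
  by_cases h : m = q
  · subst h
    rw [Coch.single_self, Coch.single_self]
  · rw [Coch.single_ne h, Coch.single_ne h]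

theorem nrm_id (G : SV) (p q : ℕ) (x : Nrm p (G.X q)) :
    Nrm.map (OrderHom.id : Mor p p) (G.X q) x = x := by
  apply Subtype.ext
  funext i
  show x.1 i - x.1 0 = x.1 i
  rw [show x.1 0 = 0 from x.2, sub_zero]

/-- The vertical differential is the differential of the cochains of `G.BX p`. -/
theorem col_delta (G : SV) (p q : ℕ) (φ : Nrm p (G.X q) → k) :
    (G.bcm.col p).delta q φ = (G.BX p).cm.delta q φ := by
  rw [CM.delta_apply, CM.delta_apply]
  apply Finset.sum_congr rfl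
  intro i _
  funext x
  show φ (Nrm.coef p (G.map (cof i)) (Nrm.map OrderHom.id (G.X (q + 1)) x))
    = φ (Nrm.coef p (G.map (cof i)) x)
  rw [nrm_id]

/-- The horizontal differential in terms of the operators of `G.BX`. -/
theorem row_delta (G : SV) (p q : ℕ) (φ : Nrm p (G.X q) → k) :
    (G.bcm.row q).delta p φ
      = ∑ i : Fin (p + 2), fun x => φ ((G.BXmap (cof i)).f q x) := by
  rw [CM.delta_apply]
  apply Finset.sum_congr rfl
  intro i _
  funext x
  show φ (Nrm.coef p (G.map OrderHom.id) (Nrm.map (cof i) (G.X q) x))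
    = φ (Nrm.map (cof i) (G.X q) x)
  congr 1
  apply Subtype.ext
  funext j
  show G.map OrderHom.id _ = _
  rw [G.map_id]

/-- The horizontal differential on vertical cocycles. -/
def hz (G : SV) (p q : ℕ) (f : (G.BX p).cm.cc.Z q) : (G.BX (p + 1)).cm.cc.Z q :=
  ∑ i : Fin (p + 2), pullZ (G.BXmap (cof i)) q f

theorem hz_val (G : SV) (p q : ℕ) (f : (G.BX p).cm.cc.Z q) :
    (hz G p q f).1 = (G.bcm.row q).delta p f.1 := by
  rw [row_delta]
  unfold hz
  rw [Submodule.coe_sum]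
  rfl

theorem delta_clsL (G : SV) (p q : ℕ) (f : (G.BX p).cm.cc.Z q) :
    (HqCM G q).delta p (clsL (G.BX p) q f) = clsL (G.BX (p + 1)) q (hz G p q f) := by
  rw [CM.delta_apply]
  unfold hz
  rw [map_sum]
  apply Finset.sum_congr rfl
  intro i _
  apply Subtype.ext
  exact map_clsL (G.BXmap (cof i)) q f

theorem mem_Z2 (G : SV) (p q : ℕ) (φ : G.bcm.dc.X p q) (h : φ ∈ G.bcm.dc.Z2 p q) :
    ∃ h' : φ ∈ (G.BX p).cm.cc.Z q,
      (hz G p q ⟨φ, h'⟩).1 ∈ (G.BX (p + 1)).cm.cc.B q := by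
  cases q with
  | zero =>
    obtain ⟨h1, h2⟩ := h
    have h1' : (G.bcm.col p).delta 0 φ = 0 := h1
    have h2' : (G.bcm.row 0).delta p φ = 0 := h2
    rw [col_delta] at h1'
    refine ⟨h1', ?_⟩
    rw [hz_val, h2']
    exact Submodule.zero_mem _
  | succ q =>
    obtain ⟨h1, h2⟩ := h
    have h1' : (G.bcm.col p).delta (q + 1) φ = 0 := h1
    obtain ⟨w, h2'⟩ := h2
    have h2'' : (G.bcm.col (p + 1)).delta q w = (G.bcm.row (q + 1)).delta p φ := h2'
    rw [col_delta] at h1'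
    refine ⟨h1', ?_⟩
    rw [hz_val, ← h2'', col_delta]
    exact ⟨w, rfl⟩

theorem mem_B2v (G : SV) (p q : ℕ) (φ : G.bcm.dc.X p q) (h : φ ∈ (G.BX p).cm.cc.B q) :
    φ ∈ G.bcm.dc.B2v p q := by
  cases q with
  | zero => exact h
  | succ q =>
    obtain ⟨w, hw⟩ := h
    refine ⟨w, ?_⟩
    show (G.bcm.col p).delta q w = φ
    rw [col_delta]
    exact hw

theorem lift_B (G : SV) (p q : ℕ) (b : Hn (G.BX p) q) (h : b ∈ (HqCM G q).cc.B p) :
    ∃ f : (G.BX p).cm.cc.Z q, clsL (G.BX p) q f = b ∧ f.1 ∈ G.bcm.dc.B2h p q := by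
  cases p with
  | zero =>
    refine ⟨0, ?_, ?_⟩
    · rw [map_zero]
      exact ((Submodule.mem_bot k).mp h).symm
    · exact Submodule.zero_mem _
  | succ p =>
    obtain ⟨w, hw⟩ := h
    obtain ⟨g, rfl⟩ := clsL_surj (G.BX p) q w
    refine ⟨hz G p q g, ?_, ?_⟩
    · rw [← delta_clsL]
      exact hw
    · rw [hz_val]
      refine ⟨g.1, ?_, rfl⟩
      show (G.bcm.col p).delta q g.1 = 0
      rw [col_delta]
      exact g.2

end Link

open Link in
theorem LINK : LINK_Stmt := by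
  classical
  intro G p q N hs
  obtain ⟨s, hs1, hs2⟩ := hs
  choose r hr using clsL_surj (G.BX p) q
  refine ⟨s.image (fun t => (r t).1), le_trans Finset.card_image_le hs1, ?_⟩
  intro φ hφ
  obtain ⟨h1, h2⟩ := mem_Z2 G p q φ hφ
  have h3 : clsL (G.BX p) q ⟨φ, h1⟩ ∈ (HqCM G q).cc.Z p := by
    show (HqCM G q).delta p (clsL (G.BX p) q ⟨φ, h1⟩) = 0
    rw [delta_clsL, clsL_zero]
    exact h2
  obtain ⟨b, hb, c, hc, hbc⟩ := Submodule.mem_sup.mp (hs2 h3)
  obtain ⟨f, hf1, hf2⟩ := lift_B G p q b hb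
  have h4 : ∃ g ∈ Submodule.span k (r '' (s : Set (Hn (G.BX p) q))), clsL (G.BX p) q g = c := by
    have h5 : Submodule.span k (s : Set (Hn (G.BX p) q))
        = (Submodule.span k (r '' (s : Set (Hn (G.BX p) q)))).map (clsL (G.BX p) q) := by
      rw [Submodule.map_span]
      congr 1
      ext t
      constructor
      · intro ht
        exact ⟨r t, ⟨t, ht, rfl⟩, hr t⟩
      · rintro ⟨_, ⟨t', ht', rfl⟩, rfl⟩
        rw [hr]
        exact ht'
    have hc' : c ∈ (Submodule.span k (r '' (s : Set (Hn (G.BX p) q)))).map (clsL (G.BX p) q) := by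
      rw [← h5]; exact hc
    obtain ⟨g, hg, hgc⟩ := hc'
    exact ⟨g, hg, hgc⟩
  obtain ⟨g, hg, hgc⟩ := h4
  have h6 : clsL (G.BX p) q (⟨φ, h1⟩ - f - g) = 0 := by
    rw [map_sub, map_sub, hf1, hgc, ← hbc]
    abel
  rw [clsL_zero] at h6
  have h7 : φ - f.1 - g.1 ∈ G.bcm.dc.B2v p q := mem_B2v G p q _ h6
  have h8 : φ = f.1 + (φ - f.1 - g.1) + g.1 := by abel
  rw [h8]
  apply Submodule.add_mem
  · apply Submodule.mem_sup_left
    apply Submodule.add_mem
    · exact Submodule.mem_sup_left hf2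
    · exact Submodule.mem_sup_right h7
  · apply Submodule.mem_sup_right
    have h9 := Submodule.mem_map_of_mem (f := ((G.BX p).cm.cc.Z q).subtype) hg
    rw [Submodule.map_span] at h9
    refine Submodule.span_mono ?_ h9
    rintro _ ⟨_, ⟨t, ht, rfl⟩, rfl⟩
    rw [Finset.mem_coe]
    exact Finset.mem_image_of_mem (fun t => (r t).1) ht

end Pool.Agent.SHS
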