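import Pool.Agent.SH.S.StmtsB

/-! # MP_2d0b73_an, block III-S: the symmetric sums are linearly independent -/

set_option autoImplicit false

namespace Pool.Agent.SHS

open Finset

namespace Msi

/-- exponent vector -/
noncomputable def ev {n : ℕ} (i : Fin n → ℕ) : Fin n →₀ ℕ :=
  Finsupp.equivFunOnFinite.symm (fun j => 2 ^ (i j))

theorem ev_inj {n : ℕ} {i i' : Fin n → ℕ} (h : ev i = ev i') : i = i' := by
  funext j
  have h1 := DFunLike.congr_fun h j
  have h2 : 2 ^ (i j) = 2 ^ (i' j) := h1
  exact Nat.pow_right_injective (le_refl 2) h2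

theorem prod_eq {n : ℕ} (i : Fin n → ℕ) :
    (∏ j, (MvPolynomial.X j : MvPolynomial (Fin n) k) ^ (2 ^ (i j))) =
      MvPolynomial.monomial (ev i) 1 := by
  rw [MvPolynomial.monomial_eq]
  simp only [MvPolynomial.C_1, one_mul]
  rw [Finsupp.prod_fintype _ _ (fun j => pow_zero _)]
  rfl

theorem coeff_msym {n : ℕ} (i : Fin n → ℕ) (J : Multiset ℕ) :
    MvPolynomial.coeff (ev i) (msym n J) =
      if Multiset.ofList (List.ofFn i) = J then 1 else 0 := by
  classical
  unfold msym
  rw [MvPolynomial.coeff_sum]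
  have h1 : ∀ i' : Fin n → ℕ, MvPolynomial.coeff (ev i)
      (∏ j, (MvPolynomial.X j : MvPolynomial (Fin n) k) ^ (2 ^ (i' j))) =
      if i' = i then 1 else 0 := by
    intro i'
    rw [prod_eq, MvPolynomial.coeff_monomial]
    by_cases h : i' = i
    · rw [if_pos h, if_pos (by rw [h])]
    · rw [if_neg h, if_neg (fun h' => h (ev_inj h'))]
  rw [Finset.sum_congr rfl fun i' _ => h1 i', Finset.sum_ite_eq']
  by_cases h : Multiset.ofList (List.ofFn i) = J
  · rw [if_pos h, if_pos]
    rw [Finset.mem_filter]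
    refine ⟨?_, h⟩
    rw [Fintype.mem_piFinset]
    intro j
    rw [Multiset.mem_toFinset, ← h, Multiset.mem_coe, List.mem_ofFn]
    exact ⟨j, rfl⟩
  · rw [if_neg h, if_neg]
    rw [Finset.mem_filter]
    exact fun h' => h h'.2

theorem exists_enum {n : ℕ} (J : Multiset ℕ) (hJ : Multiset.card J = n) :
    ∃ i : Fin n → ℕ, Multiset.ofList (List.ofFn i) = J := by
  subst hJ
  have h : J.toList.length = Multiset.card J := Multiset.length_toList J
  refine ⟨fun j => J.toList.get (Fin.cast h.symm j), ?_⟩
  have h2 : List.ofFn (fun j => J.toList.get (Fin.cast h.symm j)) = J.toList := by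
    apply List.ext_get
    · rw [List.length_ofFn, h]
    · intro m h3 h4
      simp
  rw [h2]
  exact Multiset.coe_toList J

end Msi

open Msi in
/-- Symmetric sums are independent. -/
theorem MSI : MSI_Stmt := by
  classical
  intro n
  rw [linearIndependent_iff']
  intro s g hg J hJ
  obtain ⟨i, hi⟩ := exists_enum J.1 J.2
  have h1 := congrArg (MvPolynomial.coeff (ev i)) hg
  rw [MvPolynomial.coeff_sum, MvPolynomial.coeff_zero] at h1
  have h2 : ∀ J' ∈ s, MvPolynomial.coeff (ev i) (g J' • msym n J'.1) =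
      if J' = J then g J' else 0 := by
    intro J' _
    rw [MvPolynomial.coeff_smul, coeff_msym, hi]
    by_cases h : J' = J
    · rw [if_pos h, if_pos (by rw [h]), smul_eq_mul, mul_one]
    · rw [if_neg h, if_neg (fun h' => h (Subtype.ext h'.symm)), smul_zero]
  rw [Finset.sum_congr rfl h2, Finset.sum_ite_eq', if_pos hJ] at h1
  exact h1

end Pool.Agent.SHS
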