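import Pool.Agent.SH.S.Tools

/-!
Block III-S: the family of primitive classes `mu_J` of the Eilenberg-MacLane objects.

For a multiset `J` of exponents containing 0 the class is the value of the operation which maps the
product of the `u_i` to the symmetric sum of `J`, at the fundamental class; in general it is an
iterated square of such a class.
-/

set_option autoImplicit false

namespace Pool.Agent.SHS.Mu

/-! ### The minimal exponent -/

/-- The minimal element of a multiset of natural numbers. -/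
noncomputable def mn (J : Multiset ℕ) : ℕ := sInf {x | x ∈ J}

theorem mn_mem {J : Multiset ℕ} (h : J ≠ 0) : mn J ∈ J := by
  obtain ⟨x, hx⟩ := Multiset.exists_mem_of_ne_zero h
  exact Nat.sInf_mem (s := {x | x ∈ J}) ⟨x, hx⟩

theorem mn_le {J : Multiset ℕ} {x : ℕ} (h : x ∈ J) : mn J ≤ x :=
  Nat.sInf_le (s := {x | x ∈ J}) h

theorem mn_zero {J : Multiset ℕ} (h : 0 ∈ J) : mn J = 0 := Nat.le_zero.1 (mn_le h)

theorem mn_succ {J : Multiset ℕ} (h : J ≠ 0) : mn (J.map (· + 1)) = mn J + 1 := by
  apply le_antisymm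
  · exact mn_le (Multiset.mem_map_of_mem _ (mn_mem h))
  · have h1 : J.map (· + 1) ≠ 0 := by
      intro h2
      exact h (Multiset.map_eq_zero.1 h2)
    obtain ⟨x, hx, hx'⟩ := Multiset.mem_map.1 (mn_mem h1)
    rw [← hx']
    exact Nat.succ_le_succ (mn_le hx)

/-- The multiset with the minimal exponent subtracted. -/
noncomputable def low (J : Multiset ℕ) : Multiset ℕ := J.map (· - mn J)

theorem low_succ {J : Multiset ℕ} (h : J ≠ 0) : low (J.map (· + 1)) = low J := by
  unfold low
  rw [mn_succ h, Multiset.map_map]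
  apply Multiset.map_congr rfl
  intro x _
  show x + 1 - (mn J + 1) = x - mn J
  omega

theorem zero_mem_low {J : Multiset ℕ} (h : J ≠ 0) : 0 ∈ low J :=
  Multiset.mem_map.2 ⟨mn J, mn_mem h, Nat.sub_self _⟩

theorem low_eq {J : Multiset ℕ} (h : 0 ∈ J) : low J = J := by
  unfold low
  rw [mn_zero h]
  simp

theorem low_add (J : Multiset ℕ) : (low J).map (· + mn J) = J := by
  unfold low
  rw [Multiset.map_map]
  have : J.map ((· + mn J) ∘ (· - mn J)) = J.map id := by
    apply Multiset.map_congr rfl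
    intro x hx
    exact Nat.sub_add_cancel (mn_le hx)
  rw [this, Multiset.map_id]

theorem card_low (J : Multiset ℕ) : Multiset.card (low J) = Multiset.card J :=
  Multiset.card_map _ _

theorem wgt_add (J : Multiset ℕ) (m : ℕ) : wgt (J.map (· + m)) = 2 ^ m * wgt J := by
  unfold wgt
  rw [Multiset.map_map, ← Multiset.sum_map_mul_left]
  congr 1
  apply Multiset.map_congr rfl
  intro x _
  show 2 ^ (x + m) = 2 ^ m * 2 ^ x
  rw [pow_add, mul_comm]

/-! ### Squares of symmetric sums -/

theorem msym_succ (d : ℕ) (J : Multiset ℕ) : msym d (J.map (· + 1)) = (msym d J) ^ 2 := by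
  unfold msym
  rw [CharTwo.sum_sq]
  refine Finset.sum_nbij' (fun i j => i j - 1) (fun i j => i j + 1) ?_ ?_ ?_ ?_ ?_
  · intro i hi
    rw [Finset.mem_filter, Fintype.mem_piFinset] at hi ⊢
    obtain ⟨h1, h2⟩ := hi
    have h3 : ∀ j, ∃ x ∈ J, x + 1 = i j := fun j =>
      Multiset.mem_map.1 (Multiset.mem_toFinset.1 (h1 j))
    refine ⟨fun j => ?_, ?_⟩
    · obtain ⟨x, hx, hx'⟩ := h3 j
      rw [← hx', Nat.add_sub_cancel]
      exact Multiset.mem_toFinset.2 hx
    · apply Multiset.map_injective (f := fun x : ℕ => x + 1) (add_left_injective 1)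
      rw [← h2, Multiset.map_coe, List.map_ofFn]
      congr 2
      funext j
      obtain ⟨x, hx, hx'⟩ := h3 j
      show i j - 1 + 1 = i j
      omega
  · intro i hi
    rw [Finset.mem_filter, Fintype.mem_piFinset] at hi ⊢
    obtain ⟨h1, h2⟩ := hi
    refine ⟨fun j => ?_, ?_⟩
    · exact Multiset.mem_toFinset.2 (Multiset.mem_map_of_mem _ (Multiset.mem_toFinset.1 (h1 j)))
    · rw [← h2, Multiset.map_coe, List.map_ofFn]
      rfl
  · intro i hi
    rw [Finset.mem_filter, Fintype.mem_piFinset] at hi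
    funext j
    obtain ⟨x, hx, hx'⟩ := Multiset.mem_map.1 (Multiset.mem_toFinset.1 (hi.1 j))
    show i j - 1 + 1 = i j
    omega
  · intro i _
    funext j
    exact Nat.add_sub_cancel (i j) 1
  · intro i hi
    rw [Finset.mem_filter, Fintype.mem_piFinset] at hi
    rw [← Finset.prod_pow]
    apply Finset.prod_congr rfl
    intro j _
    obtain ⟨x, hx, hx'⟩ := Multiset.mem_map.1 (Multiset.mem_toFinset.1 (hi.1 j))
    rw [← pow_mul, ← pow_succ]
    congr 2
    show i j = i j - 1 + 1
    omega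

theorem msym_add (d : ℕ) (J : Multiset ℕ) (m : ℕ) :
    msym d (J.map (· + m)) = (msym d J) ^ (2 ^ m) := by
  induction m with
  | zero => simp
  | succ m ih =>
    have h1 : J.map (· + (m + 1)) = (J.map (· + m)).map (· + 1) := by
      rw [Multiset.map_map]
      rfl
    rw [h1, msym_succ, ih, ← pow_mul, pow_succ]

/-! ### The family -/

theorem ops (h1 : OPS_Stmt) (n : ℕ) (J : Multiset ℕ) : ∃ T : NOp, Multiset.card J = n →
    T.Maps n (wgt J) ∧
      T.f (BB.pow n) (evB n (∏ j, MvPolynomial.X j)) = evB n (msym n J) := by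
  by_cases h : Multiset.card J = n
  · subst h
    obtain ⟨T, hT⟩ := h1 J
    exact ⟨T, fun _ => hT⟩
  · exact ⟨NOp.id, fun h' => absurd h' h⟩

theorem prim_pow {V : SV} {μ : H V.toSS} (h : Prim μ) (m : ℕ) : Prim (μ ^ (2 ^ m)) := by
  induction m with
  | zero => rw [pow_zero, pow_one]; exact h
  | succ m ih =>
    rw [pow_succ, pow_mul]
    exact ih.sq

end Pool.Agent.SHS.Mu

namespace Pool.Agent.SHS

open Mu in
/-- **The family of the classes `mu_J`.** -/
theorem MU (h1 : OPS_Stmt) (h2 : EMU_Stmt) : MU_Stmt := by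
  intro n hn
  choose T hT using ops h1 n
  have hne : ∀ J : Multiset ℕ, Multiset.card J = n → J ≠ 0 := by
    intro J hJ h0
    rw [h0, Multiset.card_zero] at hJ
    omega
  refine ⟨fun J => ((T (low J)).f (EM n).toSS (iota n)) ^ (2 ^ mn J), ?_, ?_, ?_, ?_, ?_⟩
  · intro J hJ
    have h3 := (hT (low J) (by rw [card_low, hJ])).1 _ _ (iota_mem n)
    have h4 := Hn_pow h3 (2 ^ mn J)
    rw [← wgt_add, low_add] at h4
    exact h4
  · intro J _
    exact prim_pow ((IOP n).op _) _
  · obtain ⟨ρ, hρ⟩ := h2 n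
    refine ⟨ρ, hρ, fun J hJ => ?_⟩
    have h3 := (hT (low J) (by rw [card_low, hJ])).2
    show H.map ρ (((T (low J)).f (EM n).toSS (iota n)) ^ (2 ^ mn J)) = evB n (msym n J)
    rw [map_pow, ← (T (low J)).nat, hρ, h3, ← map_pow, ← msym_add, low_add]
  · intro J hJ
    show ((T (low (J.map (· + 1)))).f (EM n).toSS (iota n)) ^ (2 ^ mn (J.map (· + 1))) =
      (((T (low J)).f (EM n).toSS (iota n)) ^ (2 ^ mn J)) ^ 2
    rw [low_succ (hne J hJ), mn_succ (hne J hJ), ← pow_mul, pow_succ]
  · intro J hJ h0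
    refine ⟨T J, (hT J hJ).1, (hT J hJ).2, ?_⟩
    show ((T (low J)).f (EM n).toSS (iota n)) ^ (2 ^ mn J) = (T J).f (EM n).toSS (iota n)
    rw [low_eq h0, mn_zero h0, pow_zero, pow_one]

end Pool.Agent.SHS
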