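import Pool.Agent.SH.S.StmtsB
import Pool.Agent.SH.S.Tools

/-!
Block III-S: all symmetric sums are values of natural additive operations.
-/

namespace Pool.Agent.SHS

namespace Ops

open MvPolynomial

variable {d : ℕ}

/-- The coefficient of `t ^ i` is homogeneous of degree `n + i`. -/
def Q (n : ℕ) (f : Polynomial (MvPolynomial (Fin d) k)) : Prop :=
  ∀ i, (f.coeff i).IsHomogeneous (n + i)

theorem Q.mul {n m : ℕ} {f g : Polynomial (MvPolynomial (Fin d) k)} (hf : Q n f) (hg : Q m g) :
    Q (n + m) (f * g) := by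
  intro i
  rw [Polynomial.coeff_mul]
  apply IsHomogeneous.sum
  intro x hx
  have h1 := (hf x.1).mul (hg x.2)
  have h2 : n + x.1 + (m + x.2) = n + m + i := by
    have h3 := Finset.HasAntidiagonal.mem_antidiagonal.1 hx
    omega
  rwa [h2] at h1

theorem Q.one : Q 0 (1 : Polynomial (MvPolynomial (Fin d) k)) := by
  intro i
  rw [Polynomial.coeff_one]
  split_ifs with h
  · subst h
    exact isHomogeneous_one _ _
  · exact isHomogeneous_zero _ _ _

theorem Q.C (c : k) : Q 0 (Polynomial.C (MvPolynomial.C c : MvPolynomial (Fin d) k)) := by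
  intro i
  rw [Polynomial.coeff_C]
  split_ifs with h
  · subst h
    exact isHomogeneous_C _ _
  · exact isHomogeneous_zero _ _ _

theorem Q.pow {n : ℕ} {f : Polynomial (MvPolynomial (Fin d) k)} (hf : Q n f) (m : ℕ) :
    Q (m * n) (f ^ m) := by
  induction m with
  | zero =>
    rw [pow_zero, zero_mul]
    exact Q.one
  | succ m ih =>
    rw [pow_succ, add_mul, one_mul]
    exact ih.mul hf

theorem Q.prod {ι : Type} (s : Finset ι) (n : ι → ℕ)
    (f : ι → Polynomial (MvPolynomial (Fin d) k)) (hf : ∀ i ∈ s, Q (n i) (f i)) :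
    Q (∑ i ∈ s, n i) (∏ i ∈ s, f i) := by
  classical
  induction s using Finset.induction_on with
  | empty =>
    rw [Finset.sum_empty, Finset.prod_empty]
    exact Q.one
  | insert a s ha ih =>
    rw [Finset.sum_insert ha, Finset.prod_insert ha]
    exact (hf a (Finset.mem_insert_self _ _)).mul
      (ih fun i hi => hf i (Finset.mem_insert_of_mem hi))

theorem Q.sum {ι : Type} (s : Finset ι) (n : ℕ)
    (f : ι → Polynomial (MvPolynomial (Fin d) k)) (hf : ∀ i ∈ s, Q n (f i)) :
    Q n (∑ i ∈ s, f i) := by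
  intro i
  rw [Polynomial.finsetSum_coeff]
  exact IsHomogeneous.sum _ _ _ fun j hj => hf j hj i

theorem Q.X (j : Fin d) : Q 1 (Polynomial.C (MvPolynomial.X j : MvPolynomial (Fin d) k)
    + Polynomial.X * Polynomial.C (MvPolynomial.X j ^ 2)) := by
  intro i
  rw [Polynomial.coeff_add, Polynomial.coeff_C, mul_comm, Polynomial.coeff_C_mul_X]
  by_cases h0 : i = 0
  · subst h0
    rw [if_pos rfl, if_neg zero_ne_one, add_zero]
    exact isHomogeneous_X _ _
  · rw [if_neg h0, zero_add]
    split_ifs with h1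
    · subst h1
      exact (isHomogeneous_X k j).pow 2
    · exact isHomogeneous_zero _ _ _

theorem St_hom {n : ℕ} {p : MvPolynomial (Fin d) k} (hp : p.IsHomogeneous n) : Q n (St d p) := by
  rw [p.as_sum, map_sum]
  apply Q.sum
  intro e he
  have he' : e.degree = n := by
    have := hp (MvPolynomial.mem_support_iff.mp he)
    rw [Finsupp.degree_eq_weight_one]
    exact this
  rw [MvPolynomial.monomial_eq, map_mul]
  have h1 : Q 0 (St d (MvPolynomial.C (p.coeff e))) := by
    unfold St
    rw [MvPolynomial.aeval_C]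
    exact Q.C _
  have h2 : Q (∑ i ∈ e.support, e i * 1) (St d (e.prod fun n e => MvPolynomial.X n ^ e)) := by
    rw [Finsupp.prod, map_prod]
    apply Q.prod
    intro i _
    rw [map_pow]
    unfold St
    rw [MvPolynomial.aeval_X]
    exact (Q.X i).pow _
  have h3 : ∑ i ∈ e.support, e i * 1 = n := by
    rw [← he', Finsupp.degree_apply]
    exact Finset.sum_congr rfl fun i _ => mul_one _
  rw [h3] at h2
  have h4 := h1.mul h2
  rwa [zero_add] at h4

theorem reach (h1 : SQP_Stmt) (h3 : POPD_Stmt) {n : ℕ} {p : MvPolynomial (Fin d) k}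
    (h : Reach d n p) : p.IsHomogeneous n ∧ ∃ T : NOp, T.Maps d n ∧
      T.f (BB.pow d) (evB d (∏ j, MvPolynomial.X j)) = evB d p := by
  induction h with
  | base =>
    refine ⟨?_, NOp.id, fun X a ha => ha, rfl⟩
    have h4 := IsHomogeneous.prod (R := k) Finset.univ (fun j : Fin d => MvPolynomial.X j)
      (fun _ => 1) (fun j _ => isHomogeneous_X _ _)
    simpa using h4
  | @step n p i hi _ ih =>
    obtain ⟨hp, T, hT, hTv⟩ := ih
    refine ⟨St_hom hp i, NOp.comp (Pop (n + 1 - i)) T, ?_, ?_⟩
    · intro X a ha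
      exact (h3 X (n + 1 - i) n (T.f X a) (hT X a ha)).1 (n + i) (by omega)
    · show (Pop (n + 1 - i)).f (BB.pow d) (T.f (BB.pow d) _) = _
      rw [hTv]
      exact h1 d n i p hp hi
  | @add n p q _ _ ihp ihq =>
    obtain ⟨hp, T, hT, hTv⟩ := ihp
    obtain ⟨hq, T', hT', hTv'⟩ := ihq
    refine ⟨hp.add hq, NOp.add T T', fun X a ha => ?_, ?_⟩
    · exact Submodule.add_mem _ (hT X a ha) (hT' X a ha)
    · show T.f (BB.pow d) _ + T'.f (BB.pow d) _ = _
      rw [hTv, hTv', map_add]
  | zero n =>
    refine ⟨isHomogeneous_zero _ _ _, NOp.zero, fun X a _ => Submodule.zero_mem _, ?_⟩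
    rw [map_zero]
    rfl

end Ops

/-- All symmetric sums are values of natural additive operations. -/
theorem OPS (h1 : SQP_Stmt) (h2 : GENA_Stmt) (h3 : POPD_Stmt) : OPS_Stmt := by
  intro J
  exact (Ops.reach h1 h3 (h2 J)).2

end Pool.Agent.SHS
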