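import Pool.Agent.SH.S.Tools

namespace Pool.Agent.SHS

open Coch

namespace Popd

theorem E_len {V : Type*} (m : ℕ) (L : List V) (Φ : List V → List V → k)
    (h : ∀ a b, a.length + b.length = L.length + m → Φ a b = 0) : E m L Φ = 0 := by
  induction L generalizing m Φ with
  | nil =>
    cases m with
    | zero => exact h [] [] rfl
    | succ m => rfl
  | cons v L ih =>
    cases m with
    | zero =>
      simp only [E]
      refine ih 0 _ fun a b hab => h _ _ ?_
      simp only [List.length_cons]
      omega
    | succ m =>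
      simp only [E]
      rw [ih (m + 1) _ fun a b hab => h _ _ (by simp only [List.length_cons]; omega),
        ih m _ fun a b hab => h _ _ (by simp only [List.length_cons]; omega), add_zero]

theorem evl_len {X : SS} {m n : ℕ} {f : Coch X} (hf : f ∈ CochD X m) (x : X.X n)
    (a : List (Fin (n + 1))) (ha : a.length ≠ m + 1) : evl f x a = 0 := by
  by_cases h : ∃ (p : ℕ) (u : Mor p n), a = List.ofFn u
  · obtain ⟨p, u, rfl⟩ := h
    rw [evl_ofFn]
    rw [List.length_ofFn] at ha
    exact hf p (fun hp => ha (by rw [hp])) _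
  · unfold evl
    rw [dif_neg h]

theorem cupS_deg {X : SS} {m n s : ℕ} {f : Coch X} (hf : f ∈ CochD X m)
    (h : n + 1 + s ≠ 2 * (m + 1)) (x : X.X n) : cupS s f f n x = 0 := by
  rw [cupS_apply]
  apply E_len
  intro a b hab
  rw [List.length_finRange] at hab
  by_cases ha : a.length = m + 1
  · have hb : b.length ≠ m + 1 := by omega
    rw [evl_len hf x b hb, mul_zero]
  · rw [evl_len hf x a ha, zero_mul]

end Popd

open Pool.Agent.SHS.Popd in
theorem POPD : POPD_Stmt := by
  intro X s m a ha
  obtain ⟨f, hf, rfl⟩ := mem_Hn.mp ha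
  constructor
  · intro n hn
    rw [Pop_cls]
    refine mem_Hn.mpr ⟨_, ?_, rfl⟩
    intro n' hn' x
    exact cupS_deg hf (by omega) x
  · intro hs
    rw [Pop_cls, cls_eq_zero]
    refine ⟨0, ?_⟩
    rw [map_zero]
    ext n x
    rw [czero_apply]
    exact (cupS_deg hf (by omega) x).symm

end Pool.Agent.SHS
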