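import Pool.Agent.SH.S.Tools

namespace Pool.Agent.SHS

namespace Pw2

open Polynomial in
theorem choose_odd (l q : ℕ) : ((2 ^ l * q).choose (2 ^ l) : ZMod 2) = (q : ZMod 2) := by
  have h1 : ((1 + X : (ZMod 2)[X]) ^ (2 ^ l * q)).coeff (2 ^ l)
      = ((2 ^ l * q).choose (2 ^ l) : ZMod 2) := by
    rw [add_comm, Polynomial.coeff_X_add_one_pow]
  have h2 : (1 + X : (ZMod 2)[X]) ^ (2 ^ l * q) = Polynomial.expand (ZMod 2) (2 ^ l) ((1 + X) ^ q) := by
    rw [map_pow, map_add, map_one, Polynomial.expand_X, pow_mul]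
    congr 1
    have := add_pow_char_pow (R := (ZMod 2)[X]) (p := 2) (n := l) 1 X
    rw [this, one_pow]
  rw [← h1, h2]
  have h3 := Polynomial.coeff_expand_mul (R := ZMod 2) (p := 2 ^ l) (by positivity)
    ((1 + X : (ZMod 2)[X]) ^ q) 1
  rw [one_mul] at h3
  rw [h3, add_comm, Polynomial.coeff_X_add_one_pow, Nat.choose_one_right]

theorem pow_two_of_choose (n : ℕ) (hn : 1 ≤ n)
    (h : ∀ i j, 1 ≤ i → 1 ≤ j → i + j = n → (n.choose i : ZMod 2) = 0) : ∃ l : ℕ, n = 2 ^ l := by
  obtain ⟨l, q, hq, rfl⟩ := Nat.exists_eq_two_pow_mul_odd (n := n) (by omega)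
  refine ⟨l, ?_⟩
  by_contra hne
  have hq1 : 1 < q := by
    obtain ⟨r, rfl⟩ := hq
    rcases Nat.eq_zero_or_pos r with h0 | h0
    · subst h0
      simp at hne
    · omega
  have h1 := h (2 ^ l) (2 ^ l * (q - 1)) Nat.one_le_two_pow
    (Nat.mul_pos (by positivity) (by omega)) (by
      obtain ⟨r, rfl⟩ := Nat.exists_eq_add_of_lt hq1
      have : 1 + r + 1 - 1 = 1 + r := by omega
      rw [this]
      ring)
  rw [choose_odd] at h1
  rw [ZMod.natCast_eq_zero_iff_even] at h1
  exact (Nat.not_even_iff_odd.2 hq) h1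

open Polynomial in
theorem comp_eq (m : ℕ) (P : MvPolynomial (Fin (m + 1)) k)
    (t : Polynomial (Polynomial (MvPolynomial (Fin m) k))) :
    MvPolynomial.aeval (Fin.cons t (fun j => C (C (MvPolynomial.X j))) :
        Fin (m + 1) → Polynomial (Polynomial (MvPolynomial (Fin m) k))) P
      = (((MvPolynomial.finSuccEquiv k m P).map
          (C : MvPolynomial (Fin m) k →+* Polynomial (MvPolynomial (Fin m) k))).comp t) := by
  induction P using MvPolynomial.induction_on with
  | C a =>
    rw [MvPolynomial.aeval_C]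
    rw [show MvPolynomial.finSuccEquiv k m (MvPolynomial.C a) =
      algebraMap k (Polynomial (MvPolynomial (Fin m) k)) a from
        (MvPolynomial.finSuccEquiv k m).commutes a]
    rw [IsScalarTower.algebraMap_apply k (MvPolynomial (Fin m) k)
      (Polynomial (MvPolynomial (Fin m) k))]
    rw [← Polynomial.C_eq_algebraMap, Polynomial.map_C, Polynomial.C_comp]
    rfl
  | add p q hp hq =>
    rw [map_add, map_add, Polynomial.map_add, Polynomial.add_comp, hp, hq]
  | mul_X p i hp =>
    rw [map_mul, map_mul, Polynomial.map_mul, Polynomial.mul_comp, hp, MvPolynomial.aeval_X]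
    congr 1
    refine Fin.cases ?_ (fun j => ?_) i
    · rw [MvPolynomial.finSuccEquiv_X_zero, Polynomial.map_X, Polynomial.X_comp, Fin.cons_zero]
    · rw [MvPolynomial.finSuccEquiv_X_succ, Polynomial.map_C, Polynomial.C_comp, Fin.cons_succ]

open Polynomial in
theorem hasse (R : Type) [CommRing R] (p : Polynomial R) (i : ℕ) (hi : 1 ≤ i)
    (h : (p.map (C : R →+* Polynomial R)).comp (X + C X) =
      (p.map (C : R →+* Polynomial R)).comp X + (p.map (C : R →+* Polynomial R)).comp (C X)) :
    hasseDeriv i p = C (p.coeff i) := by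
  have h1 := congrArg (fun f => f.coeff i) h
  simp only [Polynomial.comp_X, Polynomial.comp_C, Polynomial.coeff_add, Polynomial.coeff_map] at h1
  rw [Polynomial.coeff_C_of_ne_zero (by omega), add_zero] at h1
  rw [← h1, ← Polynomial.taylor_apply, Polynomial.taylor_coeff]
  have h2 : hasseDeriv i (p.map (C : R →+* Polynomial R)) = (hasseDeriv i p).map C := by
    ext n : 1
    simp [Polynomial.hasseDeriv_coeff]
  rw [h2, Polynomial.eval_map, Polynomial.eval₂_C_X]

end Pw2

open Pool.Agent.SHS.Pw2 Polynomial in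
theorem PW2 : PW2_Stmt := by
  intro m P hP e he
  set R := MvPolynomial (Fin m) k with hR
  let φ : MvPolynomial (Fin (m + 2)) k →ₐ[k] Polynomial (Polynomial R) :=
    MvPolynomial.aeval (Fin.cons X (Fin.cons (C X) (fun j => C (C (MvPolynomial.X j)))))
  have hφ0 : φ (MvPolynomial.X 0) = X := by
    show MvPolynomial.aeval _ _ = _
    rw [MvPolynomial.aeval_X, Fin.cons_zero]
  have hφ1 : φ (MvPolynomial.X 1) = C X := by
    show MvPolynomial.aeval _ _ = _
    rw [MvPolynomial.aeval_X, show (1 : Fin (m + 2)) = Fin.succ 0 from rfl, Fin.cons_succ,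
      Fin.cons_zero]
  have hφ2 : ∀ j : Fin m, φ (MvPolynomial.X j.succ.succ) = C (C (MvPolynomial.X j)) := by
    intro j
    show MvPolynomial.aeval _ _ = _
    rw [MvPolynomial.aeval_X, Fin.cons_succ, Fin.cons_succ]
  have key : ∀ t : MvPolynomial (Fin (m + 2)) k,
      φ (MvPolynomial.aeval (Fin.cons t (fun j => MvPolynomial.X j.succ.succ) :
        Fin (m + 1) → MvPolynomial (Fin (m + 2)) k) P) =
      (((MvPolynomial.finSuccEquiv k m P).map (C : R →+* Polynomial R)).comp (φ t)) := by
    intro t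
    rw [← comp_eq, ← AlgHom.comp_apply]
    congr 1
    apply MvPolynomial.algHom_ext
    intro i
    rw [AlgHom.comp_apply, MvPolynomial.aeval_X, MvPolynomial.aeval_X]
    refine Fin.cases ?_ (fun j => ?_) i
    · rw [Fin.cons_zero, Fin.cons_zero]
    · rw [Fin.cons_succ, Fin.cons_succ, hφ2]
  have h1 := congrArg φ hP
  rw [map_add, key, key, key, map_add, hφ0, hφ1] at h1
  set p := MvPolynomial.finSuccEquiv k m P with hp
  have hc : p.coeff (e 0) ≠ 0 := by
    intro h0
    rw [MvPolynomial.mem_support_iff] at he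
    apply he
    have := MvPolynomial.finSuccEquiv_coeff_coeff (e.tail) P (e 0)
    rw [Finsupp.cons_tail] at this
    rw [← this, ← hp, h0, MvPolynomial.coeff_zero]
  have h2 : ∀ i j, 1 ≤ i → 1 ≤ j → i + j = e 0 → ((e 0).choose i : ZMod 2) = 0 := by
    intro i j hi hj hij
    have h3 := hasse R p i hi h1
    have h4 := congrArg (fun f => f.coeff j) h3
    simp only [Polynomial.hasseDeriv_coeff] at h4
    rw [Polynomial.coeff_C_of_ne_zero (by omega), show j + i = e 0 by omega] at h4
    have h5 : (((e 0).choose i : ZMod 2)) • p.coeff (e 0) = 0 := by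
      rw [← h4, Algebra.smul_def, map_natCast]
    rcases smul_eq_zero.1 h5 with h6 | h6
    · exact h6
    · exact absurd h6 hc
  have h0 : 1 ≤ e 0 := by
    by_contra hlt
    have he0 : e 0 = 0 := by omega
    rw [he0] at hc
    have h7 := congrArg (fun f => f.coeff 0) h1
    have h8 := congrArg (fun f => f.coeff 0) h7
    apply hc
    have e1 : (((p.map (C : R →+* Polynomial R)).comp (X + C X)).coeff 0).coeff 0 = p.coeff 0 := by
      rw [← Polynomial.taylor_apply, Polynomial.taylor_coeff_zero, Polynomial.eval_map,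
        Polynomial.eval₂_C_X]
    have e2 : (((p.map (C : R →+* Polynomial R)).comp X).coeff 0).coeff 0 = p.coeff 0 := by
      rw [Polynomial.comp_X, Polynomial.coeff_map, Polynomial.coeff_C_zero]
    have e3 : (((p.map (C : R →+* Polynomial R)).comp (C X)).coeff 0).coeff 0 = p.coeff 0 := by
      rw [Polynomial.comp_C, Polynomial.coeff_C_zero, Polynomial.eval_map, Polynomial.eval₂_C_X]
    simp only [Polynomial.coeff_add] at h8
    rw [e1, e2, e3] at h8
    exact left_eq_add.1 h8
  exact pow_two_of_choose _ h0 h2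

end Pool.Agent.SHS
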