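import Pool.Agent.SH.S.StmtsD

/-!
Block III-S, module SC1: the theorem of Serre and Cartan for `EM 1`.
-/

set_option autoImplicit false

namespace Pool.Agent.SHS

open Coch

namespace Sc1

/-- The edge from `a` to `b`. -/
def edg {q : ℕ} (a b : Fin (q + 1)) (h : a ≤ b) : Mor 1 q where
  toFun j := if j = 0 then a else b
  monotone' := by
    intro i j hij
    show (if i = 0 then a else b) ≤ (if j = 0 then a else b)
    by_cases hi : i = 0
    · rw [if_pos hi]
      split_ifs
      · exact le_rfl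
      · exact h
    · have hj : j ≠ 0 := by
        intro hj
        rw [hj] at hij
        exact hi (le_antisymm hij (Fin.zero_le _))
      rw [if_neg hi, if_neg hj]

/-- The triangle `a, b, c`. -/
def tri {q : ℕ} (a b c : Fin (q + 1)) (h : a ≤ b) (h' : b ≤ c) : Mor 2 q where
  toFun j := if j = 0 then a else if j = 1 then b else c
  monotone' := by
    intro i j hij
    show (if i = 0 then a else if i = 1 then b else c) ≤ (if j = 0 then a else if j = 1 then b else c)
    by_cases hi : i = 0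
    · rw [if_pos hi]
      split_ifs
      · exact le_rfl
      · exact h
      · exact h.trans h'
    · have hi0 : 0 < i.1 := Nat.pos_of_ne_zero fun h0 => hi (Fin.ext h0)
      have hij' : i.1 ≤ j.1 := hij
      have hj : j ≠ 0 := by
        intro hj
        rw [hj] at hij'
        have : (0 : Fin (2 + 1)).1 = 0 := rfl
        omega
      rw [if_neg hi, if_neg hj]
      by_cases hi1 : i = 1
      · rw [if_pos hi1]
        split_ifs
        · exact le_rfl
        · exact h'
      · have hj1 : j ≠ 1 := by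
          intro hj1
          have h1 : i.1 ≠ 1 := fun h0 => hi1 (Fin.ext h0)
          rw [hj1] at hij'
          have : (1 : Fin (2 + 1)).1 = 1 := rfl
          omega
        rw [if_neg hi1, if_neg hj1]

theorem edg_zero {q : ℕ} {a b : Fin (q + 1)} (h : a ≤ b) : edg a b h 0 = a := rfl
theorem edg_one {q : ℕ} {a b : Fin (q + 1)} (h : a ≤ b) : edg a b h 1 = b := rfl

theorem mor1_ext {q : ℕ} {s t : Mor 1 q} (h0 : s 0 = t 0) (h1 : s 1 = t 1) : s = t := by
  apply OrderHom.ext
  funext j
  have hj : j = 0 ∨ j = 1 := by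
    revert j
    decide
  rcases hj with rfl | rfl
  · exact h0
  · exact h1

theorem edg_eta {q : ℕ} (s : Mor 1 q) (h : s 0 ≤ s 1) : s = edg (s 0) (s 1) h := mor1_ext rfl rfl

theorem edg_not_inj {q : ℕ} {a : Fin (q + 1)} (h : a ≤ a) : ¬ Function.Injective (edg a a h) := by
  intro hi
  have h1 : (0 : Fin 2) = 1 := hi (show edg a a h 0 = edg a a h 1 from rfl)
  exact absurd h1 (by decide)

theorem cocyc {q : ℕ} (z : EMsub 1 q) (a b c : Fin (q + 1)) (h : a ≤ b) (h' : b ≤ c) :
    z.1 (edg b c h') + z.1 (edg a c (h.trans h')) + z.1 (edg a b h) = 0 := by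
  have h1 := z.2.2 (tri a b c h h')
  have h2 : ∑ i : Fin 3, z.1 ((tri a b c h h').comp (cof i)) = 0 := h1
  rw [Fin.sum_univ_three] at h2
  have e0 : (tri a b c h h').comp (cof 0) = edg b c h' := mor1_ext rfl rfl
  have e1 : (tri a b c h h').comp (cof 1) = edg a c (h.trans h') := mor1_ext rfl rfl
  have e2 : (tri a b c h h').comp (cof 2) = edg a b h := mor1_ext rfl rfl
  rw [e0, e1, e2] at h2
  exact h2

theorem edg_val {q : ℕ} (z : EMsub 1 q) (a b : Fin (q + 1)) (h : a ≤ b) :
    z.1 (edg a b h) = z.1 (edg 0 b (Fin.zero_le _)) - z.1 (edg 0 a (Fin.zero_le _)) := by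
  have h1 := cocyc z 0 a b (Fin.zero_le _) h
  have h2 := k_two (z.1 (edg 0 b (Fin.zero_le _)))
  linear_combination h1 - h2

/-- `EM 1 → BB`. -/
def phi : SS.Hom (EM 1).toSS BB where
  f q z := ⟨fun i => z.1 (edg 0 i (Fin.zero_le i)), z.2.1 _ (edg_not_inj _)⟩
  nat {m n} a z := by
    apply Subtype.ext
    funext i
    show z.1 (a.comp (edg 0 i (Fin.zero_le i)))
      = z.1 (edg 0 (a i) (Fin.zero_le _)) - z.1 (edg 0 (a 0) (Fin.zero_le _))
    have e : a.comp (edg 0 i (Fin.zero_le i)) = edg (a 0) (a i) (a.monotone (Fin.zero_le i)) :=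
      mor1_ext rfl rfl
    rw [e]
    exact edg_val z (a 0) (a i) _

theorem psi_mem {q : ℕ} (g : Nrm q k) : (fun s : Mor 1 q => g.1 (s 1) - g.1 (s 0)) ∈ EMsub 1 q := by
  refine ⟨fun s hs => ?_, fun t => ?_⟩
  · have h : s 0 = s 1 := by
      by_contra hne
      apply hs
      intro x y hxy
      have hj : ∀ j : Fin 2, j = 0 ∨ j = 1 := by decide
      rcases hj x with rfl | rfl
      · rcases hj y with rfl | rfl
        · rfl
        · exact absurd hxy hne
      · rcases hj y with rfl | rfl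
        · exact absurd hxy.symm hne
        · rfl
    show g.1 (s 1) - g.1 (s 0) = 0
    rw [h, sub_self]
  · show ∑ i : Fin 3, (g.1 (t (cof i 1)) - g.1 (t (cof i 0))) = 0
    rw [Fin.sum_univ_three]
    have e1 : (cof (0 : Fin 3) : Mor 1 2) 1 = 2 := rfl
    have e2 : (cof (0 : Fin 3) : Mor 1 2) 0 = 1 := rfl
    have e3 : (cof (1 : Fin 3) : Mor 1 2) 1 = 2 := rfl
    have e4 : (cof (1 : Fin 3) : Mor 1 2) 0 = 0 := rfl
    have e5 : (cof (2 : Fin 3) : Mor 1 2) 1 = 1 := rfl
    have e6 : (cof (2 : Fin 3) : Mor 1 2) 0 = 0 := rfl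
    rw [e1, e2, e3, e4, e5, e6]
    have t1 := k_two (g.1 (t 2))
    have t2 := k_two (g.1 (t 0))
    linear_combination t1 - t2

/-- `BB → EM 1`. -/
def psi : SS.Hom BB (EM 1).toSS where
  f q g := ⟨fun s : Mor 1 q => g.1 (s 1) - g.1 (s 0), psi_mem g⟩
  nat {m n} a g := by
    apply Subtype.ext
    funext s
    show (g.1 (a (s 1)) - g.1 (a 0)) - (g.1 (a (s 0)) - g.1 (a 0)) = g.1 (a (s 1)) - g.1 (a (s 0))
    abel

theorem psi_phi (n : ℕ) (x : (EM 1).toSS.X n) : psi.f n (phi.f n x) = x := by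
  apply Subtype.ext
  funext s
  show x.1 (edg 0 (s 1) (Fin.zero_le _)) - x.1 (edg 0 (s 0) (Fin.zero_le _)) = x.1 s
  have h : s 0 ≤ s 1 := s.monotone (Fin.zero_le _)
  rw [← edg_val x (s 0) (s 1) h, ← edg_eta s h]

theorem phi_psi (n : ℕ) (y : BB.X n) : phi.f n (psi.f n y) = y := by
  apply Subtype.ext
  funext i
  show y.1 i - y.1 0 = y.1 i
  rw [show y.1 0 = 0 from y.2, sub_zero]

theorem HB_reindex {X : SS} {I J : Type} {di : I → ℕ} {b : I → H X} (hb : HB X di b) (e : J ≃ I) :
    HB X (fun j => di (e j)) (fun j => b (e j)) where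
  mem j := hb.mem (e j)
  indep := hb.indep.comp e e.injective
  span n := by
    refine (hb.span n).trans (Submodule.span_mono ?_)
    rintro _ ⟨i, hi, rfl⟩
    refine ⟨e.symm i, ?_, ?_⟩
    · show di (e (e.symm i)) = n
      rw [e.apply_symm_apply]
      exact hi
    · show b (e (e.symm i)) = b i
      rw [e.apply_symm_apply]

theorem wgt_singleton (i : ℕ) : wgt {i} = 2 ^ i := by
  unfold wgt
  rw [Multiset.map_singleton, Multiset.sum_singleton]

/-- Multisets with one element. -/
noncomputable def sgl : ℕ ≃ {J : Multiset ℕ // Multiset.card J = 1} :=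
  Equiv.ofBijective (fun i => ⟨{i}, Multiset.card_singleton i⟩) (by
    constructor
    · intro i j h
      exact Multiset.singleton_inj.mp (congrArg Subtype.val h)
    · rintro ⟨J, hJ⟩
      obtain ⟨a, ha⟩ := Multiset.card_eq_one.mp hJ
      exact ⟨a, Subtype.ext ha.symm⟩)

theorem msym_one (i : ℕ) : msym 1 {i} = MvPolynomial.X 0 ^ (2 ^ i) := by
  unfold msym
  have h : (Fintype.piFinset (fun _ : Fin 1 => ({i} : Multiset ℕ).toFinset)).filter
      (fun f => Multiset.ofList (List.ofFn f) = {i}) = {fun _ => i} := by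
    ext f
    rw [Finset.mem_filter, Fintype.mem_piFinset, Finset.mem_singleton]
    constructor
    · rintro ⟨h1, _⟩
      funext j
      have h2 := h1 j
      rw [Multiset.toFinset_singleton, Finset.mem_singleton] at h2
      exact h2
    · rintro rfl
      refine ⟨fun j => ?_, ?_⟩
      · rw [Multiset.toFinset_singleton, Finset.mem_singleton]
      · rfl
  rw [h, Finset.sum_singleton, Fin.prod_univ_one]

end Sc1

open Sc1 in
theorem SC1 (h1 : K1A_Stmt) (h2 : K1_Stmt) : SC1_Stmt := by
  intro μ hμ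
  have hb := HB.iso phi psi psi_phi phi_psi h1
  have hμ1 : ∀ i : ℕ, μ {i} = H.map phi (uu ^ (2 ^ i)) := by
    intro i
    have h3 : μ {i} ∈ Hn (EM 1).toSS (2 ^ i) := by
      rw [← wgt_singleton]
      exact hμ.mem _ (Multiset.card_singleton i)
    have h4 := hb.span (2 ^ i) h3
    have h5 : (fun m : ℕ => H.map phi (uu ^ m)) '' {m : ℕ | m = 2 ^ i}
        = {H.map phi (uu ^ (2 ^ i))} := by
      rw [Set.ofPred_eq_eq_singleton, Set.image_singleton]
    rw [h5, Submodule.mem_span_singleton] at h4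
    obtain ⟨c, hc⟩ := h4
    have hc01 : ∀ c : ZMod 2, c = 0 ∨ c = 1 := by decide
    rcases hc01 c with h0 | h0
    · exfalso
      rw [h0, zero_smul] at hc
      obtain ⟨ρ, _, hρ⟩ := hμ.res
      have h6 := hρ {i} (Multiset.card_singleton i)
      rw [← hc, map_zero, msym_one] at h6
      have h7 : evB 1 (MvPolynomial.X 0 ^ (2 ^ i)) = evB 1 0 := by rw [map_zero]; exact h6.symm
      have h8 := (h2 1).1 h7
      exact pow_ne_zero _ (MvPolynomial.X_ne_zero (R := k) (0 : Fin 1)) h8
    · rw [h0, one_smul] at hc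
      exact hc.symm
  have key := HB_reindex hb ((Equiv.finsetCongr sgl.symm).trans Finset.equivBitIndices.symm)
  have hdeg : ∀ S : Finset {J : Multiset ℕ // Multiset.card J = 1},
      ((Equiv.finsetCongr sgl.symm).trans Finset.equivBitIndices.symm) S = ∑ J ∈ S, wgt J.1 := by
    intro S
    show ∑ i ∈ S.map sgl.symm.toEmbedding, 2 ^ i = ∑ J ∈ S, wgt J.1
    rw [Finset.sum_map]
    refine Finset.sum_congr rfl fun J _ => ?_
    obtain ⟨i, rfl⟩ := sgl.surjective J
    show 2 ^ (sgl.symm (sgl i)) = wgt {i}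
    rw [sgl.symm_apply_apply, wgt_singleton]
  have hprod : ∀ S : Finset {J : Multiset ℕ // Multiset.card J = 1},
      H.map phi (uu ^ (∑ J ∈ S, wgt J.1)) = ∏ J ∈ S, μ J.1 := by
    intro S
    rw [← Finset.prod_pow_eq_pow_sum, map_prod]
    refine Finset.prod_congr rfl fun J _ => ?_
    obtain ⟨i, rfl⟩ := sgl.surjective J
    show H.map phi (uu ^ wgt {i}) = μ {i}
    rw [hμ1, wgt_singleton]
  simp only [hdeg, hprod] at key
  exact key

end Pool.Agent.SHS
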