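import Pool.Agent.SH.S.StmtsC

/-!
Block III-S, statements D: Serre-Cartan theorem for Eilenberg-MacLane objects (assembly).
-/

namespace Pool.Agent.SHS

/-- Homotopy equivalence (on cohomology) between EM (n+1) and the bar construction of EM n. -/
def EMBAR_Stmt : Prop := ∀ n : ℕ, 1 ≤ n → ∃ (φ : SS.Hom (EM (n + 1)).toSS (EM n).bar.toSS)
  (ψ : SS.Hom (EM n).bar.toSS (EM (n + 1)).toSS),
  (∀ a : H (EM n).bar.toSS, H.map ψ (H.map φ a) = a) ∧
  (∀ a : H (EM (n + 1)).toSS, H.map φ (H.map ψ a) = a)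

/-- The square free products of the mu_J form a homogeneous basis (Serre, Cartan). -/
def SCn (n : ℕ) : Prop := ∀ μ : Multiset ℕ → H (EM n).toSS, MuFam n μ →
  HB (EM n).toSS
    (fun S : Finset {J : Multiset ℕ // Multiset.card J = n} => ∑ J ∈ S, wgt J.1)
    (fun S => ∏ J ∈ S, μ J.1)

/-- The case n = 1. -/
def SC1_Stmt : Prop := SCn 1

/-- Finiteness. -/
def WF_Stmt : Prop := ∀ n d : ℕ, {J : {J : Multiset ℕ // Multiset.card J = n} | wgt J.1 ≤ d}.Finite

/-- The two sets of monomials have the same number of elements. -/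
def CNT_Stmt : Prop := ∀ n d : ℕ,
  Nat.card {f : {J : Multiset ℕ // Multiset.card J = n} →₀ ℕ //
      (f.sum fun J m => m * (wgt J.1 + 1)) = d}
    = Nat.card {S : Finset {J : Multiset ℕ // Multiset.card J = n + 1} // ∑ J ∈ S, wgt J.1 = d}

/-- The theorem of Serre and Cartan. -/
def SC_Stmt : Prop := ∀ n : ℕ, 1 ≤ n → SCn n

end Pool.Agent.SHS
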