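import Mathlib
import Pool.Agent.SH.S.StmtsD

/-!
Block III-S: the theorem of Serre and Cartan for Eilenberg-MacLane objects (induction).
-/

namespace Pool.Agent.SHS

namespace Sca

theorem card_le_wgt (J : Multiset ℕ) : Multiset.card J ≤ wgt J := by
  induction J using Multiset.induction_on with
  | empty => simp [wgt]
  | cons a J ih =>
    have h1 : wgt (a ::ₘ J) = 2 ^ a + wgt J := by
      simp [wgt]
    have h2 : 1 ≤ 2 ^ a := Nat.one_le_two_pow
    rw [h1, Multiset.card_cons]
    omega

/-- A linearly independent family of `N` elements inside a subspace which is spanned by `N`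
elements spans it. -/
theorem span_of_card {M : Type*} [AddCommGroup M] [Module k M] {I : Type*} [Finite I]
    (b : I → M) (hb : LinearIndependent k b) (V : Submodule k M) (hV : ∀ i, b i ∈ V)
    (s : Finset M) (hs : s.card ≤ Nat.card I) (hs' : V ≤ Submodule.span k (s : Set M)) :
    V ≤ Submodule.span k (Set.range b) := by
  have : Fintype I := Fintype.ofFinite I
  have h1 : Submodule.span k (Set.range b) ≤ Submodule.span k (s : Set M) := by
    refine Submodule.span_le.2 ?_
    rintro _ ⟨i, rfl⟩
    exact hs' (hV i)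
  have h2 : Module.finrank k (Submodule.span k (Set.range b)) = Fintype.card I :=
    finrank_span_eq_card hb
  have h3 : Module.finrank k (Submodule.span k (s : Set M)) ≤ s.card :=
    finrank_span_finset_le_card s
  have : FiniteDimensional k (Submodule.span k (s : Set M)) :=
    FiniteDimensional.span_finset k s
  have h4 : Submodule.span k (Set.range b) = Submodule.span k (s : Set M) := by
    refine Submodule.eq_of_le_of_finrank_le h1 ?_
    rw [h2, ← Nat.card_eq_fintype_card]
    exact h3.trans hs
  rw [h4]
  exact hs'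

theorem finite_deg (h2 : WF_Stmt) (n d : ℕ) :
    Finite {S : Finset {J : Multiset ℕ // Multiset.card J = n} // ∑ J ∈ S, wgt J.1 = d} := by
  classical
  have h3 : ∀ S : Finset {J : Multiset ℕ // Multiset.card J = n}, ∑ J ∈ S, wgt J.1 = d →
      S ∈ (h2 n d).toFinset.powerset := by
    intro S hS
    rw [Finset.mem_powerset]
    intro J hJ
    rw [Set.Finite.mem_toFinset]
    show wgt J.1 ≤ d
    rw [← hS]
    exact Finset.single_le_sum (f := fun J : {J : Multiset ℕ // Multiset.card J = n} => wgt J.1)
      (fun _ _ => Nat.zero_le _) hJ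
  exact Finite.of_injective
    (fun S : {S : Finset {J : Multiset ℕ // Multiset.card J = n} // ∑ J ∈ S, wgt J.1 = d} =>
      (⟨S.1, h3 S.1 S.2⟩ : (h2 n d).toFinset.powerset))
    (fun S T hST => Subtype.ext (congrArg (fun t => t.1) hST))

end Sca

theorem SCA (h1 : SC1_Stmt) (h2 : WF_Stmt) (h3 : CNT_Stmt) (h4 : EMBAR_Stmt) (h5 : BARB_Stmt)
    (h6 : INDEP_Stmt) (h7 : MU_Stmt) : SC_Stmt := by
  classical
  intro n hn
  induction n, hn using Nat.le_induction with
  | base => exact h1
  | succ n hn ih =>
    intro μ' hμ'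
    obtain ⟨μ, hμ⟩ := h7 n hn
    have hE : ExtFam (EM n) (fun J : {J : Multiset ℕ // Multiset.card J = n} => wgt J.1)
        (fun J => μ J.1) :=
      { pos := fun J => by
          have := Sca.card_le_wgt J.1
          rw [J.2] at this
          exact hn.trans this
        fin := h2 n
        mem := fun J => hμ.mem J.1 J.2
        prim := fun J => hμ.prim J.1 J.2
        hb := ih μ hμ }
    have hmem : ∀ S : Finset {J : Multiset ℕ // Multiset.card J = n + 1},
        ∏ J ∈ S, μ' J.1 ∈ Hn (EM (n + 1)).toSS (∑ J ∈ S, wgt J.1) :=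
      fun S => Hn_prod S _ _ fun J _ => hμ'.mem J.1 J.2
    have hind := h6 (n + 1) μ' (Nat.le_add_left 1 n) hμ'
    refine ⟨hmem, hind, fun d => ?_⟩
    obtain ⟨s, hs, hs'⟩ := h5 (EM n) (EMF n) _ _ hE d
    obtain ⟨φ, ψ, hφ, hψ⟩ := h4 n hn
    have hfin := Sca.finite_deg h2 (n + 1) d
    have hle : Hn (EM (n + 1)).toSS d ≤
        Submodule.span k ((s.image (H.map φ) : Finset (H (EM (n + 1)).toSS)) : Set _) := by
      intro a ha
      have e1 : H.map ψ a ∈ Submodule.span k (s : Set (H (EM n).bar.toSS)) :=
        hs' (H.map_mem ψ ha)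
      have e2 := Submodule.mem_map_of_mem (f := (H.map φ).toLinearMap) e1
      rw [Submodule.map_span] at e2
      have e3 : (H.map φ).toLinearMap (H.map ψ a) = a := hψ a
      rw [e3] at e2
      rw [Finset.coe_image]
      exact e2
    have hspan := Sca.span_of_card
      (fun S : {S : Finset {J : Multiset ℕ // Multiset.card J = n + 1} //
        ∑ J ∈ S, wgt J.1 = d} => ∏ J ∈ S.1, μ' J.1)
      (hind.comp _ Subtype.val_injective) (Hn (EM (n + 1)).toSS d)
      (fun S => by
        have e4 := hmem S.1
        rw [S.2] at e4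
        exact e4) (s.image (H.map φ))
      (by
        rw [← h3 n d]
        exact (Finset.card_image_le).trans hs) hle
    refine hspan.trans (Submodule.span_mono ?_)
    rintro _ ⟨S, rfl⟩
    exact ⟨S.1, S.2, rfl⟩

end Pool.Agent.SHS
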