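import Pool.Agent.SH.S.Tools

/-!
Block III-S: the cohomology of the circle and the Kuenneth formula for S1 × Y (SK).
-/

namespace Pool.Agent.SHS

open Coch

namespace Sk

theorem fin2 (i : Fin 2) : i = 0 ∨ i = 1 := by
  have : ∀ i : Fin 2, i = 0 ∨ i = 1 := by decide
  exact this i

instance sub0 : Subsingleton (S1.X 0) := by
  constructor
  have h : ∀ x : S1.X 0, x = none := by
    intro x
    cases x with
    | none => rfl
    | some a =>
      exfalso
      obtain ⟨i, hi⟩ := a.2 0
      obtain ⟨j, hj⟩ := a.2 1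
      have hij : i = j := Subsingleton.elim (α := Fin 1) i j
      rw [hij, hj] at hi
      exact absurd hi (by decide)
  intro x y
  rw [h x, h y]

/-- The fundamental simplex of the circle. -/
def x1 : S1.X 1 := some ⟨OrderHom.id, fun y => ⟨y, rfl⟩⟩

theorem X1_cases (x : S1.X 1) : x = none ∨ x = x1 := by
  cases x with
  | none => exact Or.inl rfl
  | some a =>
    right
    unfold x1
    congr 1
    apply Subtype.ext
    apply mor_ext
    intro i
    obtain ⟨u, hu⟩ := a.2 0
    obtain ⟨v, hv⟩ := a.2 1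
    have h0 : a.1 0 = 0 := by
      have h1 : a.1 0 ≤ a.1 u := a.1.monotone (Fin.zero_le _)
      rw [hu] at h1
      exact le_antisymm h1 (Fin.zero_le _)
    have h1 : a.1 1 = 1 := by
      rcases fin2 v with h | h
      · rw [h, h0] at hv
        exact absurd hv (by decide)
      · rw [h] at hv
        exact hv
    rcases fin2 i with h | h
    · rw [h]
      show ((a.1 0 : Fin 2) : ℕ) = 0
      rw [h0]
      rfl
    · rw [h]
      show ((a.1 1 : Fin 2) : ℕ) = 1
      rw [h1]
      rfl

theorem S1_LF : S1.LF := by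
  intro n
  have h1 : Finite (Mor n 1) := Finite.of_injective (fun f : Mor n 1 => (f : Fin (n+1) → Fin (1+1)))
    (fun f g h => OrderHom.ext _ _ h)
  show Finite (Option {a : Mor n 1 // Function.Surjective a})
  infer_instance

theorem one_ne : (1 : H S1) ≠ 0 := by
  intro h
  rw [← map_one cls, cls_eq_zero] at h
  obtain ⟨g, hg⟩ := h
  have h2 := congrArg (fun f : Coch S1 => f 0 none) hg
  simp only [dlt_zero] at h2
  exact absurd h2.symm (by
    show (1 : Coch S1) 0 none ≠ 0
    rw [cone_apply, if_pos rfl]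
    exact one_ne_zero)

/-- The cocycle representing `ee`. -/
noncomputable def eC : Coch S1 := pull s1 uC

theorem eC_x1 : eC 1 x1 = 1 := by
  show uC 1 (s1.f 1 x1) = 1
  unfold uC
  rw [single_self]
  rfl

theorem eC_none : eC 1 none = 0 := by
  show uC 1 (s1.f 1 none) = 0
  unfold uC
  rw [single_self]
  rfl

theorem ee_ne : ee ≠ 0 := by
  intro h
  unfold ee uu at h
  rw [H.map_cls, cls_eq_zero] at h
  obtain ⟨g, hg⟩ := h
  have h2 := congrArg (fun f : Coch S1 => f 1 x1) hg
  have h3 : dlt g 1 x1 = 1 := h2.trans eC_x1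
  rw [dlt_succ, Fin.sum_univ_two, Subsingleton.elim (S1.map (cof 0) x1) (S1.map (cof 1) x1),
    k_two] at h3
  exact absurd h3.symm one_ne_zero

theorem ee_eq (h : S1.cm.delta 1 (eC 1) = 0) : ee = clsN 1 (eC 1) h := by
  unfold ee uu clsN
  rw [H.map_cls]
  congr 1
  apply Subtype.ext
  show eC = single 1 (eC 1)
  apply eq_single
  intro m hm x
  show uC m (s1.f m x) = 0
  exact single_ne hm _ _

theorem eC_cocycle : S1.cm.delta 1 (eC 1) = 0 := by
  have h : dlt eC = 0 := by
    unfold eC
    rw [dlt_pull, dlt_uC, map_zero]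
  funext x
  have h2 := congrArg (fun f : Coch S1 => f 2 x) h
  have h3 : dlt eC 2 x = 0 := h2
  rw [dlt_succ] at h3
  rw [CM.delta_apply, Finset.sum_apply]
  exact h3

theorem deg0 {a : H S1} (ha : a ∈ Hn S1 0) : ∃ c : k, a = c • (1 : H S1) := by
  obtain ⟨φ, h, rfl⟩ := exists_clsN ha
  refine ⟨φ none, ?_⟩
  rw [← map_one cls, ← map_smul cls]
  unfold clsN
  congr 1
  apply Subtype.ext
  show single 0 φ = φ none • (1 : Coch S1)
  ext m x
  rw [csmul_apply, cone_apply]
  by_cases hm : m = 0
  · subst hm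
    rw [single_self, if_pos rfl, mul_one, Subsingleton.elim x none]
  · rw [single_ne hm, if_neg hm, mul_zero]

theorem deg1 {a : H S1} (ha : a ∈ Hn S1 1) : ∃ c : k, a = c • ee := by
  obtain ⟨φ, h, rfl⟩ := exists_clsN ha
  refine ⟨φ x1, ?_⟩
  rw [ee_eq eC_cocycle, ← clsN_smul]
  have h0 : φ none = 0 := by
    have h1 := congrFun h (none : S1.X 2)
    rw [CM.delta_apply, Finset.sum_apply, Fin.sum_univ_three] at h1
    have h2 : φ none + φ none + φ none = 0 := h1
    rw [k_two, zero_add] at h2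
    exact h2
  have h1 : φ = φ x1 • eC 1 := by
    funext x
    show φ x = φ x1 * eC 1 x
    rcases X1_cases x with hx | hx
    · rw [hx, h0, eC_none, mul_zero]
    · rw [hx, eC_x1, mul_one]
  unfold clsN
  congr 1
  apply Subtype.ext
  show single 1 φ = single 1 (φ x1 • eC 1)
  rw [← h1]

/-- A monotone map to `Fin 2` from a set with at least three elements takes two consecutive
equal values. -/
theorem consec {m : ℕ} (a : Mor (m + 2) 1) : ∃ i : Fin (m + 2), a i.castSucc = a i.succ := by
  by_contra hne'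
  have hne : ∀ i : Fin (m + 2), a i.castSucc ≠ a i.succ := fun i h => hne' ⟨i, h⟩
  have h0 : a 0 ≠ a 1 := hne 0
  have h1 : a 1 ≠ a 2 := hne 1
  have l0 : a 0 ≤ a 1 := a.monotone (Fin.zero_le _)
  have l1 : a 1 ≤ a 2 := a.monotone (by
    rw [Fin.le_def]
    show 1 % (m + 2 + 1) ≤ 2 % (m + 2 + 1)
    rw [Nat.mod_eq_of_lt (by omega), Nat.mod_eq_of_lt (by omega)]
    norm_num)
  rcases fin2 (a 0) with h2 | h2 <;> rcases fin2 (a 1) with h3 | h3 <;>
    rcases fin2 (a 2) with h4 | h4 <;> rw [h2, h3] at h0 l0 <;> rw [h3, h4] at h1 l1 <;>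
    first | exact h0 rfl | exact h1 rfl | exact absurd l0 (by decide) | exact absurd l1 (by decide)

theorem degen {m : ℕ} (x : S1.X (m + 2)) : ∃ (i : Fin (m + 2)) (y : S1.X (m + 1)),
    S1.map (cod i) y = x := by
  cases x with
  | none => exact ⟨0, none, rfl⟩
  | some a =>
    obtain ⟨i, hi⟩ := consec a.1
    have h1 : (a.1.comp (cof i.castSucc)).comp (cod i) = a.1 := by
      apply OrderHom.ext
      funext j
      show a.1 ((i.castSucc).succAbove (i.predAbove j)) = a.1 j
      by_cases h : j = i.castSucc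
      · rw [h, Fin.predAbove_castSucc_self, Fin.succAbove_castSucc_self]
        exact hi.symm
      · rw [Fin.succAbove_predAbove h]
    have hs : Function.Surjective (a.1.comp (cof i.castSucc)) := by
      intro y
      obtain ⟨j, hj⟩ := a.2 y
      refine ⟨cod i j, ?_⟩
      have := congrArg (fun f : Mor (m + 2) 1 => f j) h1
      exact (this.trans hj)
    refine ⟨i, some ⟨a.1.comp (cof i.castSucc), hs⟩, ?_⟩
    have h2 : Function.Surjective ((a.1.comp (cof i.castSucc)).comp (cod i)) := by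
      rw [h1]
      exact a.2
    show (PS.sphere 1).map (cod i) ⟨a.1.comp (cof i.castSucc), hs⟩ = some a
    have e : (PS.sphere 1).map (cod i) ⟨a.1.comp (cof i.castSucc), hs⟩ =
      some ⟨(a.1.comp (cof i.castSucc)).comp (cod i), h2⟩ := dif_pos h2
    rw [e]
    congr 1
    apply Subtype.ext
    exact h1

theorem deg2 (hN : NORM_Stmt) {m : ℕ} {a : H S1} (ha : a ∈ Hn S1 (m + 2)) : a = 0 := by
  obtain ⟨φ, h, rfl⟩ := exists_clsN ha
  rw [clsN_eq_zero]
  obtain ⟨v, hv⟩ := hN S1.cm (m + 1) φ (fun i => by rw [h, map_zero])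
  have h0 : φ + S1.cm.delta (m + 1) v = 0 := by
    funext x
    obtain ⟨i, y, rfl⟩ := degen x
    exact congrFun (hv i) y
  show φ ∈ LinearMap.range (S1.cm.delta (m + 1))
  exact ⟨v, (mod_two_eq h0).symm⟩

/-- Degrees of the basis of the cohomology of the circle. -/
def dS (t : Bool) : ℕ := if t then 1 else 0

/-- The basis of the cohomology of the circle. -/
noncomputable def bS (t : Bool) : H S1 := if t then ee else 1

theorem ee_mem : ee ∈ Hn S1 1 := H.map_mem s1 uu_mem

theorem HBS (hN : NORM_Stmt) : HB S1 dS bS where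
  mem t := by
    cases t with
    | false => exact Hn_one
    | true => exact ee_mem
  indep := by
    rw [Fintype.linearIndependent_iff]
    intro g hg
    rw [Fintype.sum_bool] at hg
    have h1 : g true • ee + g false • (1 : H S1) = 0 := hg
    have h2 := congrArg (Hpr 0) h1
    have h3 := congrArg (Hpr 1) h1
    rw [map_add, map_smul, map_smul, map_zero, Hpr_ne (by decide) ee_mem, Hpr_eq Hn_one,
      smul_zero, zero_add] at h2
    rw [map_add, map_smul, map_smul, map_zero, Hpr_eq ee_mem, Hpr_ne (by decide) Hn_one,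
      smul_zero, add_zero] at h3
    intro t
    cases t with
    | false => exact (smul_eq_zero.1 h2).resolve_right one_ne
    | true => exact (smul_eq_zero.1 h3).resolve_right ee_ne
  span n := by
    intro a ha
    match n, ha with
    | 0, ha =>
      obtain ⟨c, rfl⟩ := deg0 ha
      exact Submodule.smul_mem _ _ (Submodule.subset_span ⟨false, rfl, rfl⟩)
    | 1, ha =>
      obtain ⟨c, rfl⟩ := deg1 ha
      exact Submodule.smul_mem _ _ (Submodule.subset_span ⟨true, rfl, rfl⟩)
    | m + 2, ha =>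
      rw [deg2 hN ha]
      exact Submodule.zero_mem _

/-- First linear map. -/
noncomputable def L1 (Y : SS) : H Y →ₗ[k] H (S1.prod Y) :=
  (LinearMap.mulLeft k (H.map (SS.fst S1 Y) ee)).comp (H.map (SS.snd S1 Y)).toLinearMap

/-- Second linear map. -/
noncomputable def L2 (Y : SS) : H Y →ₗ[k] H (S1.prod Y) := (H.map (SS.snd S1 Y)).toLinearMap

theorem L1_apply (Y : SS) (b : H Y) :
    L1 Y b = H.map (SS.fst S1 Y) ee * H.map (SS.snd S1 Y) b := rfl

theorem L2_apply (Y : SS) (b : H Y) : L2 Y b = H.map (SS.snd S1 Y) b := rfl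

theorem fam_true (Y : SS) (c : H Y) :
    H.map (SS.fst S1 Y) (bS true) * H.map (SS.snd S1 Y) c = L1 Y c := rfl

theorem fam_false (Y : SS) (c : H Y) :
    H.map (SS.fst S1 Y) (bS false) * H.map (SS.snd S1 Y) c = L2 Y c := by
  show H.map (SS.fst S1 Y) 1 * H.map (SS.snd S1 Y) c = L2 Y c
  rw [map_one, one_mul, L2_apply]

theorem part1 (Y : SS) {I : Type} (di : I → ℕ) (c : I → H Y) (hc : HB Y di c)
    (hp : HB (S1.prod Y) (fun p : Bool × I => dS p.1 + di p.2)
      (fun p => H.map (SS.fst S1 Y) (bS p.1) * H.map (SS.snd S1 Y) (c p.2))) (n : ℕ)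
    (a : H (S1.prod Y)) (ha : a ∈ Hn (S1.prod Y) (n + 1)) :
    ∃ b ∈ Hn Y n, ∃ c ∈ Hn Y (n + 1), a = L1 Y b + L2 Y c := by
  have h1 : Hn (S1.prod Y) (n + 1) ≤ (Hn Y n).map (L1 Y) ⊔ (Hn Y (n + 1)).map (L2 Y) := by
    refine (hp.span (n + 1)).trans (Submodule.span_le.2 ?_)
    rintro _ ⟨⟨t, i⟩, ht, rfl⟩
    have ht' : dS t + di i = n + 1 := ht
    cases t with
    | true =>
      have h2 : di i = n := by
        have : dS true = 1 := rfl
        omega
      show H.map (SS.fst S1 Y) (bS true) * H.map (SS.snd S1 Y) (c i) ∈ _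
      rw [fam_true]
      refine Submodule.mem_sup_left ⟨c i, ?_, rfl⟩
      rw [← h2]
      exact hc.mem i
    | false =>
      have h2 : di i = n + 1 := by
        have : dS false = 0 := rfl
        omega
      show H.map (SS.fst S1 Y) (bS false) * H.map (SS.snd S1 Y) (c i) ∈ _
      rw [fam_false]
      refine Submodule.mem_sup_right ⟨c i, ?_, rfl⟩
      rw [← h2]
      exact hc.mem i
  obtain ⟨_, ⟨b, hb, rfl⟩, _, ⟨c, hc, rfl⟩, h2⟩ := Submodule.mem_sup.1 (h1 ha)
  exact ⟨b, hb, c, hc, h2.symm⟩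

theorem part2 (Y : SS) {I : Type} (di : I → ℕ) (c : I → H Y) (hc : HB Y di c)
    (hp : HB (S1.prod Y) (fun p : Bool × I => dS p.1 + di p.2)
      (fun p => H.map (SS.fst S1 Y) (bS p.1) * H.map (SS.snd S1 Y) (c p.2))) (m n : ℕ)
    (x y : H Y) (hx : x ∈ Hn Y m) (hy : y ∈ Hn Y n) (h0 : L1 Y x + L2 Y y = 0) :
    x = 0 ∧ y = 0 := by
  have hr : ∀ n, Hn Y n ≤ Submodule.span k (Set.range c) := fun n =>
    (hc.span n).trans (Submodule.span_mono (Set.image_subset_range _ _))
  obtain ⟨β, rfl⟩ := (Finsupp.mem_span_range_iff_exists_finsupp).1 (hr m hx)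
  obtain ⟨γ, rfl⟩ := (Finsupp.mem_span_range_iff_exists_finsupp).1 (hr n hy)
  have hi := hp.indep
  rw [linearIndependent_iff] at hi
  have ht : Function.Injective (fun i : I => ((true, i) : Bool × I)) := fun i j h => by
    simpa using h
  have hf : Function.Injective (fun i : I => ((false, i) : Bool × I)) := fun i j h => by
    simpa using h
  have h1 := hi (β.mapDomain (fun i => (true, i)) + γ.mapDomain (fun i => (false, i))) (by
    rw [map_add, Finsupp.linearCombination_mapDomain, Finsupp.linearCombination_mapDomain]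
    have e1 : (fun p : Bool × I => H.map (SS.fst S1 Y) (bS p.1) * H.map (SS.snd S1 Y) (c p.2)) ∘
        (fun i => (true, i)) = fun i => L1 Y (c i) := by
      funext i
      exact fam_true Y (c i)
    have e2 : (fun p : Bool × I => H.map (SS.fst S1 Y) (bS p.1) * H.map (SS.snd S1 Y) (c p.2)) ∘
        (fun i => (false, i)) = fun i => L2 Y (c i) := by
      funext i
      exact fam_false Y (c i)
    rw [e1, e2]
    rw [← h0]
    simp only [Finsupp.linearCombination_apply, Finsupp.sum, map_sum, map_smul])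
  have h2 : β = 0 := by
    ext i
    have h3 := DFunLike.congr_fun h1 (true, i)
    rw [Finsupp.add_apply, Finsupp.mapDomain_apply ht, Finsupp.mapDomain_of_notMem_range] at h3
    · simpa using h3
    · rintro ⟨j, hj⟩
      simp at hj
  have h4 : γ = 0 := by
    ext i
    have h3 := DFunLike.congr_fun h1 (false, i)
    rw [Finsupp.add_apply, Finsupp.mapDomain_apply hf, Finsupp.mapDomain_of_notMem_range] at h3
    · simpa using h3
    · rintro ⟨j, hj⟩
      simp at hj
  rw [h2, h4]
  exact ⟨Finsupp.sum_zero_index, Finsupp.sum_zero_index⟩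

end Sk

theorem SK (h : NORM_Stmt) (hk : KUN_Stmt) (hb : HBE_Stmt) : SK_Stmt := by
  refine ⟨?_, ?_⟩
  · have h2 : ee * ee ∈ Hn S1 (1 + 1) := Hn_mul Sk.ee_mem Sk.ee_mem
    exact Sk.deg2 h (m := 0) h2
  · intro Y hY
    obtain ⟨I, di, c, hc⟩ := hb Y
    have hp := hk S1 Y Sk.S1_LF hY Sk.dS di Sk.bS c (Sk.HBS h) hc
    refine ⟨fun n a ha => Sk.part1 Y di c hc hp n a ha, fun n b hb c' hc' h0 => ?_⟩
    exact Sk.part2 Y di c hc hp n (n + 1) b c' hb hc' h0

end Pool.Agent.SHS
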