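import Pool.Agent.SH.S.StmtsC

/-!
Block III-S, module SPHC: the cohomology of smash products of spheres.
-/

namespace Pool.Agent.SHS
namespace Sphc

theorem finMor (m n : ℕ) : Finite (Mor m n) :=
  Finite.of_injective (fun f : Mor m n => (f : Fin (m + 1) → Fin (n + 1)))
    (fun _ _ h => OrderHom.ext _ _ h)

theorem sphere_LF (m : ℕ) : (PS.sphere m).LF := fun n => by
  have := finMor n m
  exact Subtype.finite

theorem SPH_LF (l : List ℕ) : (SPH l).LF := by
  induction l with
  | nil => intro n; exact (inferInstance : Finite Unit)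
  | cons m l ih =>
    intro n
    have h1 := sphere_LF m n
    have h2 := ih n
    exact (inferInstance : Finite ((PS.sphere m).X n × (SPH l).X n))

/-- A map which takes two consecutive values equal factors through a codegeneracy. -/
theorem factor {n m : ℕ} (y : Mor (n + 1) m) (i : Fin (n + 1)) (h : y i.castSucc = y i.succ) :
    (y.comp (cof i.castSucc)).comp (cod i) = y := by
  apply OrderHom.ext
  funext j
  show y (i.castSucc.succAbove (i.predAbove j)) = y j
  by_cases hj : j = i.castSucc
  · subst hj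
    rw [Fin.predAbove_castSucc_self, Fin.succAbove_castSucc_self, h]
  · rw [Fin.succAbove_predAbove hj]

theorem exists_rep {n m : ℕ} (y : Mor (n + 1) m) (h : m < n + 1) :
    ∃ i : Fin (n + 1), y i.castSucc = y i.succ := by
  by_contra hno
  push Not at hno
  have hmono : StrictMono y := Fin.strictMono_iff_lt_succ.mpr
    (fun i => lt_of_le_of_ne (y.monotone (Fin.castSucc_lt_succ).le) (hno i))
  have h1 := Fintype.card_le_of_injective y hmono.injective
  rw [Fintype.card_fin, Fintype.card_fin] at h1
  omega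

theorem le_of_surj {n m : ℕ} (y : Mor n m) (h : Function.Surjective y) : m ≤ n := by
  have h1 := Fintype.card_le_of_surjective y h
  rw [Fintype.card_fin, Fintype.card_fin] at h1
  omega

theorem inj_of_surj {m : ℕ} (y : Mor m m) (h : Function.Surjective y) : Function.Injective y :=
  Finite.injective_iff_surjective.mpr h

theorem sphere_unique {m : ℕ} (x y : (PS.sphere m).X m) : x = y := by
  obtain ⟨a, ha⟩ := x
  obtain ⟨b, hb⟩ := y
  apply Subtype.ext
  apply OrderHom.ext
  apply ((a.monotone.strictMono_of_injective (inj_of_surj a ha)).range_inj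
    (b.monotone.strictMono_of_injective (inj_of_surj b hb))).mp
  rw [ha.range_eq, hb.range_eq]

/-- The two surjective faces of a surjection [m+1] → [m]. -/
theorem surj_face {m : ℕ} (s : Mor (m + 1) m) (hs : Function.Surjective s) (j : Fin (m + 1))
    (hj : s j.castSucc = s j.succ) (i : Fin (m + 2)) :
    Function.Surjective (s.comp (cof i)) ↔ i = j.castSucc ∨ i = j.succ := by
  have hne : j.castSucc ≠ j.succ := (Fin.castSucc_lt_succ).ne
  constructor
  · intro h
    by_contra hno
    push Not at hno
    obtain ⟨x, hx⟩ := Fin.exists_succAbove_eq (Ne.symm hno.1)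
    obtain ⟨y, hy⟩ := Fin.exists_succAbove_eq (Ne.symm hno.2)
    have h1 : (s.comp (cof i)) x = (s.comp (cof i)) y := by
      show s (i.succAbove x) = s (i.succAbove y)
      rw [hx, hy, hj]
    have h2 := inj_of_surj _ h h1
    apply hne
    rw [← hx, ← hy, h2]
  · rintro h v
    have key : ∃ x, x ≠ i ∧ s x = v := by
      obtain ⟨x, hx⟩ := hs v
      by_cases hxi : x = i
      · rcases h with h | h
        · exact ⟨j.succ, by rw [h]; exact hne.symm, by rw [← hj, ← h, ← hxi, hx]⟩
        · exact ⟨j.castSucc, by rw [h]; exact hne, by rw [hj, ← h, ← hxi, hx]⟩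
      · exact ⟨x, hxi, hx⟩
    obtain ⟨x, hxi, hx⟩ := key
    obtain ⟨y, hy⟩ := Fin.exists_succAbove_eq hxi
    refine ⟨y, ?_⟩
    show s (i.succAbove y) = v
    rw [hy, hx]

theorem map_one (m n p : ℕ) (a : Mor n p) (s : (PS.sphere m).X p) :
    (((PS.sphere m).map a s).elim 0 (fun _ => (1 : k)) : k) =
      open Classical in if Function.Surjective (s.1.comp a) then 1 else 0 := by
  classical
  by_cases h : Function.Surjective (s.1.comp a)
  · rw [if_pos h]
    show (dite _ _ _ : Option _).elim 0 (fun _ => (1 : k)) = 1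
    rw [dif_pos h]
    rfl
  · rw [if_neg h]
    show (dite _ _ _ : Option _).elim 0 (fun _ => (1 : k)) = 0
    rw [dif_neg h]
    rfl

theorem sphere_cocycle (m : ℕ) :
    (PS.sphere m).cm.delta m (fun _ => (1 : k)) = 0 := by
  classical
  funext s
  rw [CM.delta_apply, Finset.sum_apply]
  show ∑ i : Fin (m + 2), ((PS.sphere m).map (cof i) s).elim 0 (fun _ => (1 : k)) = 0
  obtain ⟨j, hj⟩ := exists_rep s.1 (Nat.lt_succ_self m)
  have hne : j.castSucc ≠ j.succ := (Fin.castSucc_lt_succ).ne
  have h1 : ∀ i : Fin (m + 2), (((PS.sphere m).map (cof i) s).elim 0 (fun _ => (1 : k)) : k) =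
      (if i = j.castSucc then 1 else 0) + (if i = j.succ then 1 else 0) := by
    intro i
    rw [map_one]
    have h2 := surj_face s.1 s.2 j hj i
    by_cases ha : i = j.castSucc
    · rw [if_pos (h2.mpr (Or.inl ha)), if_pos ha, if_neg (by rw [ha]; exact hne), add_zero]
    · by_cases hb : i = j.succ
      · rw [if_pos (h2.mpr (Or.inr hb)), if_neg ha, if_pos hb, zero_add]
      · rw [if_neg (fun h => (h2.mp h).elim ha hb), if_neg ha, if_neg hb, add_zero]
  rw [Finset.sum_congr rfl (fun i _ => h1 i), Finset.sum_add_distrib, Finset.sum_ite_eq',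
    Finset.sum_ite_eq', if_pos (Finset.mem_univ _), if_pos (Finset.mem_univ _)]
  exact k_two 1

/-- Above the dimension every cocycle is a coboundary. -/
theorem sphere_high (h2 : NORM_Stmt) (m n : ℕ) (hn : m < n + 1) (w : (PS.sphere m).X (n + 1) → k)
    (hw : (PS.sphere m).cm.delta (n + 1) w = 0) : w ∈ (PS.sphere m).cm.cc.B (n + 1) := by
  obtain ⟨v, hv⟩ := h2 (PS.sphere m).cm n w (fun i => by rw [hw, map_zero])
  refine ⟨v, ?_⟩
  symm
  apply mod_two_eq
  funext y
  obtain ⟨i, hi⟩ := exists_rep y.1 hn
  have hf := factor y.1 i hi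
  have hs : Function.Surjective (y.1.comp (cof i.castSucc)) := by
    intro t
    obtain ⟨x, hx⟩ := y.2 t
    refine ⟨cod i x, ?_⟩
    have h3 := congrArg (fun f : Mor (n + 1) m => f x) hf
    exact h3.trans hx
  have h4 := congrFun (hv i) ⟨y.1.comp (cof i.castSucc), hs⟩
  have h5 : (PS.sphere m).map (cod i) ⟨y.1.comp (cof i.castSucc), hs⟩ = some y := by
    have h6 : Function.Surjective ((y.1.comp (cof i.castSucc)).comp (cod i)) := by
      rw [hf]
      exact y.2
    show (dite _ _ _ : Option _) = some y
    rw [dif_pos h6]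
    exact congrArg some (Subtype.ext hf)
  change ((PS.sphere m).map (cod i) ⟨y.1.comp (cof i.castSucc), hs⟩).elim 0
    (w + (PS.sphere m).cm.delta n v) = 0 at h4
  rw [h5] at h4
  exact h4

theorem sphere_basis (h2 : NORM_Stmt) (m : ℕ) : (PS.sphere m).cm.cc.IsBasis
    (I := fun n => {_u : Unit // n = m}) (fun _ _ _ => (1 : k)) where
  cocycle n i := by
    obtain ⟨_, rfl⟩ := i
    exact sphere_cocycle n
  span n w hw := by
    rcases lt_trichotomy n m with h | h | h
    · refine ⟨0, ?_⟩
      have h3 : w = 0 := by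
        funext y
        exact absurd (le_of_surj y.1 y.2) (not_le.mpr h)
      rw [h3, Finsupp.sum_zero_index, sub_zero]
      exact Submodule.zero_mem _
    · subst h
      have id_surj : Function.Surjective (OrderHom.id : Mor n n) := fun x => ⟨x, rfl⟩
      refine ⟨Finsupp.single ⟨(), rfl⟩ (w ⟨OrderHom.id, id_surj⟩), ?_⟩
      rw [Finsupp.sum_single_index (by exact zero_smul _ _)]
      have h3 : w - (w ⟨OrderHom.id, id_surj⟩) • (fun _ => (1 : k)) = 0 := by
        funext y
        show w y - w ⟨OrderHom.id, id_surj⟩ * 1 = 0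
        rw [sphere_unique y ⟨OrderHom.id, id_surj⟩, mul_one, sub_self]
      exact h3 ▸ Submodule.zero_mem _
    · refine ⟨0, ?_⟩
      obtain ⟨n, rfl⟩ : ∃ n', n = n' + 1 := ⟨n - 1, by omega⟩
      rw [Finsupp.sum_zero_index, sub_zero]
      exact sphere_high h2 m n h w hw
  indep n c hc := by
    by_cases h : n = m
    · subst h
      have id_surj : Function.Surjective (OrderHom.id : Mor n n) := fun x => ⟨x, rfl⟩
      have hcs : c = Finsupp.single ⟨(), rfl⟩ (c ⟨(), rfl⟩) := by
        ext i
        have : i = ⟨(), rfl⟩ := Subtype.ext rfl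
        rw [this, Finsupp.single_eq_same]
      rw [hcs, Finsupp.sum_single_index (by exact zero_smul _ _)] at hc
      have h3 : (c ⟨(), rfl⟩) • (fun _ : (PS.sphere n).X n => (1 : k)) = 0 := by
        cases n with
        | zero => exact (Submodule.mem_bot _).mp hc
        | succ n =>
          obtain ⟨v, hv⟩ := hc
          have h4 : v = 0 := by
            funext y
            exact absurd (le_of_surj y.1 y.2) (by omega)
          rw [h4, map_zero] at hv
          exact hv.symm
      have h5 := congrFun h3 ⟨OrderHom.id, id_surj⟩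
      have h6 : c ⟨(), rfl⟩ = 0 := by
        have : c ⟨(), rfl⟩ * 1 = 0 := h5
        rwa [mul_one] at this
      rw [hcs, h6, Finsupp.single_zero]
    · ext i
      exact absurd i.2 h

theorem unit_delta (n : ℕ) (w : PS.unit.X n → k) :
    PS.unit.cm.delta n w = fun _ => ((n + 2 : ℕ) : k) * w () := by
  funext y
  rw [CM.delta_apply, Finset.sum_apply]
  show ∑ _i : Fin (n + 2), w () = _
  rw [Finset.sum_const, Finset.card_univ, Fintype.card_fin, nsmul_eq_mul]

theorem unit_basis : PS.unit.cm.cc.IsBasis
    (I := fun n => {_u : Unit // n = 0}) (fun _ _ _ => (1 : k)) where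
  cocycle n i := by
    obtain ⟨_, rfl⟩ := i
    show PS.unit.cm.delta 0 (fun _ => (1 : k)) = 0
    rw [unit_delta]
    funext y
    show ((0 + 2 : ℕ) : k) * 1 = 0
    decide
  span n w hw := by
    change PS.unit.cm.delta n w = 0 at hw
    rw [unit_delta] at hw
    rcases Nat.even_or_odd' n with ⟨r, h | h⟩
    · cases r with
      | zero =>
        subst h
        refine ⟨Finsupp.single ⟨(), rfl⟩ (w ()), ?_⟩
        rw [Finsupp.sum_single_index (by exact zero_smul _ _)]
        have h3 : w - (w ()) • (fun _ => (1 : k)) = 0 := by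
          funext y
          show w y - w () * 1 = 0
          rw [mul_one, sub_self]
        exact h3 ▸ Submodule.zero_mem _
      | succ r =>
        refine ⟨0, ?_⟩
        rw [Finsupp.sum_zero_index, sub_zero]
        have hn : n = (2 * r + 1) + 1 := by omega
        subst hn
        refine ⟨fun _ => w (), ?_⟩
        show PS.unit.cm.delta (2 * r + 1) _ = w
        rw [unit_delta]
        funext y
        show ((2 * r + 1 + 2 : ℕ) : k) * w () = w y
        have h4 : ((2 * r + 1 + 2 : ℕ) : k) = 1 := by
          have h5 : 2 * r + 1 + 2 = 2 * (r + 1) + 1 := by ring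
          rw [h5]
          push_cast
          have : (2 : k) = 0 := by decide
          rw [this]
          ring
        rw [h4, one_mul]
    · refine ⟨0, ?_⟩
      have h3 := congrFun hw ()
      have h4 : ((n + 2 : ℕ) : k) = 1 := by
        have h5 : n + 2 = 2 * (r + 1) + 1 := by omega
        rw [h5]
        push_cast
        have : (2 : k) = 0 := by decide
        rw [this]
        ring
      have h6 : w = 0 := by
        funext y
        have h7 : ((n + 2 : ℕ) : k) * w () = 0 := h3
        rw [h4, one_mul] at h7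
        exact h7
      rw [h6, Finsupp.sum_zero_index, sub_zero]
      exact Submodule.zero_mem _
  indep n c hc := by
    by_cases h : n = 0
    · subst h
      have hcs : c = Finsupp.single ⟨(), rfl⟩ (c ⟨(), rfl⟩) := by
        ext i
        have : i = ⟨(), rfl⟩ := Subtype.ext rfl
        rw [this, Finsupp.single_eq_same]
      rw [hcs, Finsupp.sum_single_index (by exact zero_smul _ _)] at hc
      have h3 : (c ⟨(), rfl⟩) • (fun _ : PS.unit.X 0 => (1 : k)) = 0 := (Submodule.mem_bot _).mp hc
      have h5 := congrFun h3 ()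
      have h6 : c ⟨(), rfl⟩ = 0 := by
        have : c ⟨(), rfl⟩ * 1 = 0 := h5
        rwa [mul_one] at this
      rw [hcs, h6, Finsupp.single_zero]
    · ext i
      exact absurd i.2 h

theorem basis_list (h1 : KUNP_Stmt) (h2 : NORM_Stmt) (l : List ℕ) :
    ∃ (I : ℕ → Type) (z : ∀ n, I n → (SPH l).X n → k), (SPH l).cm.cc.IsBasis z ∧
      (∀ n, I n → n = l.sum) ∧ ∀ n (i j : I n), i = j := by
  induction l with
  | nil =>
    exact ⟨fun n => {_u : Unit // n = 0}, fun _ _ _ => 1, unit_basis, fun n i => i.2,
      fun n i j => Subtype.ext rfl⟩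
  | cons m l ih =>
    obtain ⟨J, w, hw, hJ1, hJ2⟩ := ih
    refine ⟨prodI (fun n => {_u : Unit // n = m}) J,
      crossB (PS.sphere m) (SPH l) (fun _ _ _ => (1 : k)) w,
      h1 (PS.sphere m) (SPH l) (sphere_LF m) (SPH_LF l) _ w (sphere_basis h2 m) hw, ?_, ?_⟩
    · rintro n ⟨⟨⟨p, i⟩, ⟨q, j⟩⟩, h⟩
      have h3 : p = m := i.2
      have h4 : q = l.sum := hJ1 q j
      have h5 : p + q = n := h
      rw [List.sum_cons, ← h3, ← h4, h5]
    · rintro n ⟨⟨⟨p, i⟩, ⟨q, j⟩⟩, h⟩ ⟨⟨⟨p', i'⟩, ⟨q', j'⟩⟩, h'⟩
      have h3 : p = p' := i.2.trans i'.2.symm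
      have h4 : q = q' := (hJ1 q j).trans (hJ1 q' j').symm
      subst h3 h4
      apply Subtype.ext
      have h5 : i = i' := Subtype.ext rfl
      have h6 : j = j' := hJ2 q j j'
      rw [h5, h6]

theorem span_le {C : CC} {I : ℕ → Type} {z : ∀ n, I n → C.X n} (h : C.IsBasis z) (n : ℕ)
    (s : Finset (C.X n)) (hs : ∀ i, z n i ∈ s) :
    C.Z n ≤ C.B n ⊔ Submodule.span k (s : Set (C.X n)) := by
  intro w hw
  obtain ⟨c, hc⟩ := h.span n w hw
  have h1 : (c.sum fun i a => a • z n i) ∈ Submodule.span k (s : Set (C.X n)) := by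
    apply Submodule.sum_mem
    intro i _
    exact Submodule.smul_mem _ _ (Submodule.subset_span (hs i))
  have h2 : w = (w - (c.sum fun i a => a • z n i)) + (c.sum fun i a => a • z n i) := by abel
  rw [h2]
  exact Submodule.add_mem_sup hc h1

end Sphc

theorem SPHC (h1 : KUNP_Stmt) (h2 : NORM_Stmt) : SPHC_Stmt := by
  classical
  intro l p
  obtain ⟨I, z, hz, hI1, hI2⟩ := Sphc.basis_list h1 h2 l
  by_cases hne : Nonempty (I p)
  · obtain ⟨i⟩ := hne
    refine ⟨{z p i}, ?_, Sphc.span_le hz p _ fun j => ?_⟩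
    · rw [Finset.card_singleton, if_pos (hI1 p i)]
    · rw [hI2 p j i]
      exact Finset.mem_singleton_self _
  · refine ⟨∅, ?_, Sphc.span_le hz p _ fun j => absurd ⟨j⟩ hne⟩
    rw [Finset.card_empty]
    exact Nat.zero_le _

end Pool.Agent.SHS
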