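import Pool.Agent.SH.S.StmtsB
import Pool.Agent.SH.S.Tools

/-!
# SQU: the operations on the product of the generators of B(F_2^m)
-/

namespace Pool.Agent.SHS

namespace Squ

open Coch

/-! ### The coefficients of the total square of the product of the variables -/

section Poly

variable {m : ℕ}

/-- The exponents. -/
noncomputable def eA (A : Finset (Fin m)) : Fin m →₀ ℕ :=
  Finsupp.equivFunOnFinite.symm (fun j => if j ∈ A then 2 else 1)

theorem eA_apply (A : Finset (Fin m)) (j : Fin m) : eA A j = if j ∈ A then 2 else 1 := rfl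

theorem monomial_eA (A : Finset (Fin m)) :
    (MvPolynomial.monomial (eA A) (1 : k)) =
      ∏ j, (MvPolynomial.X j : MvPolynomial (Fin m) k) ^ (if j ∈ A then 2 else 1) := by
  rw [MvPolynomial.monomial_eq, MvPolynomial.C_1, one_mul, Finsupp.prod_fintype]
  · rfl
  · intro i
    exact pow_zero _

theorem prod_eA (A : Finset (Fin m)) :
    (∏ j ∈ A, (MvPolynomial.X j : MvPolynomial (Fin m) k) ^ 2) * ∏ j ∈ Finset.univ \ A,
      (MvPolynomial.X j : MvPolynomial (Fin m) k) = MvPolynomial.monomial (eA A) (1 : k) := by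
  rw [monomial_eA, ← Finset.prod_sdiff (Finset.subset_univ A), mul_comm]
  congr 1
  · refine Finset.prod_congr rfl fun j hj => ?_
    rw [if_neg (Finset.mem_sdiff.mp hj).2, pow_one]
  · refine Finset.prod_congr rfl fun j hj => ?_
    rw [if_pos hj]

theorem St_prod : St m (∏ j, MvPolynomial.X j) =
    ∑ A : Finset (Fin m), Polynomial.monomial A.card (MvPolynomial.monomial (eA A) (1 : k)) := by
  rw [map_prod]
  have h1 : ∀ j : Fin m, St m (MvPolynomial.X j) = Polynomial.X *
      Polynomial.C (MvPolynomial.X j ^ 2) + Polynomial.C (MvPolynomial.X j) := by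
    intro j
    rw [St, MvPolynomial.aeval_X, add_comm]
  rw [Finset.prod_congr rfl fun j _ => h1 j, Finset.prod_add, Finset.powerset_univ]
  refine Finset.sum_congr rfl fun A _ => ?_
  rw [Finset.prod_mul_distrib, Finset.prod_const, ← map_prod Polynomial.C,
    ← map_prod Polynomial.C, mul_assoc, ← map_mul Polynomial.C, prod_eA,
    ← Polynomial.C_mul_X_pow_eq_monomial, mul_comm]

theorem coeff_St (i : ℕ) : (St m (∏ j, MvPolynomial.X j)).coeff i =
    ∑ A ∈ Finset.univ.filter (fun A : Finset (Fin m) => A.card = i),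
      MvPolynomial.monomial (eA A) (1 : k) := by
  rw [St_prod, Polynomial.finsetSum_coeff, Finset.sum_filter]
  refine Finset.sum_congr rfl fun A _ => ?_
  rw [Polynomial.coeff_monomial]

theorem degree_eA (A : Finset (Fin m)) : (eA A).degree = m + A.card := by
  rw [Finsupp.degree_eq_sum]
  simp only [eA_apply]
  have h1 : ∀ j : Fin m, (if j ∈ A then 2 else 1) = 1 + if j ∈ A then 1 else 0 := by
    intro j
    split_ifs <;> rfl
  rw [Finset.sum_congr rfl fun j _ => h1 j, Finset.sum_add_distrib]
  simp

theorem homog_St (i : ℕ) : ((St m (∏ j, MvPolynomial.X j)).coeff i).IsHomogeneous (m + i) := by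
  rw [coeff_St]
  refine MvPolynomial.IsHomogeneous.sum _ _ _ fun A hA => ?_
  have h1 : A.card = i := (Finset.mem_filter.mp hA).2
  apply MvPolynomial.isHomogeneous_monomial
  rw [degree_eA, h1]

theorem pow_St (i : ℕ) (e : Fin m →₀ ℕ) (he : e ∈ ((St m (∏ j, MvPolynomial.X j)).coeff i).support)
    (j : Fin m) : ∃ l : ℕ, e j = 2 ^ l := by
  classical
  rw [coeff_St] at he
  have h1 := MvPolynomial.support_sum he
  obtain ⟨A, -, hA⟩ := Finset.mem_biUnion.mp h1
  have h2 := MvPolynomial.support_monomial_subset hA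
  rw [Finset.mem_singleton] at h2
  rw [h2, eA_apply]
  by_cases h : j ∈ A
  · exact ⟨1, by rw [if_pos h]; rfl⟩
  · exact ⟨0, by rw [if_neg h]; rfl⟩

theorem St_rename (s : Equiv.Perm (Fin m)) (p : MvPolynomial (Fin m) k) :
    St m (MvPolynomial.rename s p) =
      Polynomial.map (MvPolynomial.rename s : MvPolynomial (Fin m) k →ₐ[k] _).toRingHom (St m p) := by
  have h : (St m).comp (MvPolynomial.rename s) =
      (Polynomial.mapAlgHom (MvPolynomial.rename s : MvPolynomial (Fin m) k →ₐ[k] _)).comp (St m) := by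
    apply MvPolynomial.algHom_ext
    intro j
    rw [AlgHom.comp_apply, AlgHom.comp_apply, MvPolynomial.rename_X, St, MvPolynomial.aeval_X,
      MvPolynomial.aeval_X]
    simp
  exact DFunLike.congr_fun h p

theorem rename_prod (s : Equiv.Perm (Fin m)) :
    MvPolynomial.rename s (∏ j, (MvPolynomial.X j : MvPolynomial (Fin m) k)) =
      ∏ j, MvPolynomial.X j := by
  rw [map_prod]
  simp only [MvPolynomial.rename_X]
  exact Equiv.prod_comp s (fun j => (MvPolynomial.X j : MvPolynomial (Fin m) k))

theorem symm_St (i : ℕ) (s : Equiv.Perm (Fin m)) :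
    MvPolynomial.rename s ((St m (∏ j, MvPolynomial.X j)).coeff i) =
      (St m (∏ j, MvPolynomial.X j)).coeff i := by
  have h := St_rename s (∏ j, (MvPolynomial.X j : MvPolynomial (Fin m) k))
  rw [rename_prod] at h
  conv_rhs => rw [h]
  rw [Polynomial.coeff_map]
  rfl

theorem homog_prod : (∏ j, (MvPolynomial.X j : MvPolynomial (Fin m) k)).IsHomogeneous m := by
  have h := MvPolynomial.IsHomogeneous.prod (Finset.univ : Finset (Fin m))
    (fun j => (MvPolynomial.X j : MvPolynomial (Fin m) k)) (fun _ => 1)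
    (fun j _ => MvPolynomial.isHomogeneous_X k j)
  simpa using h

theorem coeff_St_top : (St m (∏ j, MvPolynomial.X j)).coeff m =
    (∏ j, (MvPolynomial.X j : MvPolynomial (Fin m) k)) ^ 2 := by
  rw [coeff_St]
  have h1 : Finset.univ.filter (fun A : Finset (Fin m) => A.card = m) = {Finset.univ} := by
    ext A
    rw [Finset.mem_filter, Finset.mem_singleton]
    constructor
    · rintro ⟨-, h⟩
      apply Finset.eq_univ_of_card
      rw [h, Fintype.card_fin]
    · rintro rfl
      exact ⟨Finset.mem_univ _, by rw [Finset.card_univ, Fintype.card_fin]⟩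
  rw [h1, Finset.sum_singleton, monomial_eA, ← Finset.prod_pow]
  refine Finset.prod_congr rfl fun j _ => ?_
  rw [if_pos (Finset.mem_univ j)]

/-- The recursion for the total square. -/
theorem St_succ : St (m + 1) (∏ j, MvPolynomial.X j) =
    (Polynomial.C (MvPolynomial.X 0) + Polynomial.X * Polynomial.C (MvPolynomial.X 0 ^ 2)) *
      Polynomial.map (MvPolynomial.rename Fin.succ :
        MvPolynomial (Fin m) k →ₐ[k] MvPolynomial (Fin (m + 1)) k).toRingHom
        (St m (∏ j, MvPolynomial.X j)) := by
  rw [Fin.prod_univ_succ, map_mul, map_prod, map_prod, Polynomial.map_prod]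
  congr 1
  · rw [St, MvPolynomial.aeval_X]
  · refine Finset.prod_congr rfl fun j _ => ?_
    rw [St, St, MvPolynomial.aeval_X, MvPolynomial.aeval_X]
    simp

/-- The coefficient of the first power of the first variable. -/
theorem coeff_one_St (i : ℕ) :
    (MvPolynomial.finSuccEquiv k m ((St (m + 1) (∏ j, MvPolynomial.X j)).coeff i)).coeff 1 =
      (St m (∏ j, MvPolynomial.X j)).coeff i := by
  have hren : ∀ p : MvPolynomial (Fin m) k, MvPolynomial.finSuccEquiv k m
      (MvPolynomial.rename Fin.succ p) = Polynomial.C p := by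
    intro p
    have h : ((MvPolynomial.finSuccEquiv k m).toAlgHom.comp (MvPolynomial.rename Fin.succ) :
        MvPolynomial (Fin m) k →ₐ[k] Polynomial (MvPolynomial (Fin m) k)) =
        (Algebra.ofId (MvPolynomial (Fin m) k) (Polynomial (MvPolynomial (Fin m) k))).restrictScalars
          k := by
      apply MvPolynomial.algHom_ext
      intro j
      change MvPolynomial.finSuccEquiv k m (MvPolynomial.rename Fin.succ (MvPolynomial.X j)) = _
      rw [MvPolynomial.rename_X, MvPolynomial.finSuccEquiv_X_succ]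
      rfl
    exact DFunLike.congr_fun h p
  rw [St_succ, add_mul, Polynomial.coeff_add, Polynomial.coeff_C_mul, mul_assoc]
  cases i with
  | zero =>
    rw [Polynomial.coeff_X_mul_zero, add_zero, map_mul, MvPolynomial.finSuccEquiv_X_zero,
      Polynomial.coeff_map]
    change (Polynomial.X * MvPolynomial.finSuccEquiv k m (MvPolynomial.rename Fin.succ _)).coeff 1 = _
    rw [hren, Polynomial.coeff_X_mul, Polynomial.coeff_C_zero]
  | succ i =>
    rw [Polynomial.coeff_X_mul, Polynomial.coeff_C_mul, map_add, map_mul, map_mul, map_pow,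
      MvPolynomial.finSuccEquiv_X_zero, Polynomial.coeff_map, Polynomial.coeff_map]
    change (Polynomial.X * MvPolynomial.finSuccEquiv k m (MvPolynomial.rename Fin.succ _) +
      Polynomial.X ^ 2 * MvPolynomial.finSuccEquiv k m (MvPolynomial.rename Fin.succ _)).coeff 1 = _
    rw [hren, hren, Polynomial.coeff_add, Polynomial.coeff_X_mul, Polynomial.coeff_C_zero,
      pow_two, mul_assoc, Polynomial.coeff_X_mul, Polynomial.coeff_X_mul_zero, add_zero]

end Poly

/-! ### Maps between the powers of `BB` -/

theorem evB_X (d : ℕ) (j : Fin d) : evB d (MvPolynomial.X j) = H.map (BB.proj d j) uu := by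
  unfold evB
  rw [MvPolynomial.aeval_X]

theorem map_evB {X : SS} {d : ℕ} (φ : SS.Hom X (BB.pow d)) (F : MvPolynomial (Fin d) k →ₐ[k] H X)
    (h : ∀ j, H.map φ (H.map (BB.proj d j) uu) = F (MvPolynomial.X j)) (p : MvPolynomial (Fin d) k) :
    H.map φ (evB d p) = F p := by
  have h1 : (H.map φ).comp (evB d) = F := by
    apply MvPolynomial.algHom_ext
    intro j
    rw [AlgHom.comp_apply, evB_X, h]
  exact DFunLike.congr_fun h1 p

/-- The sum of the first two coordinates. -/
def alp (m : ℕ) : SS.Hom (BB.pow (m + 2)) (BB.pow (m + 1)) where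
  f _ x := Fin.cons (x 0 + x 1) (fun j => x j.succ.succ)
  nat a x := by
    funext i
    refine Fin.cases ?_ (fun j => rfl) i
    show (SV.const k).bar.map a (x 0) + (SV.const k).bar.map a (x 1) =
      (SV.const k).bar.map a (x 0 + x 1)
    rw [map_add]

theorem map_alp_zero (m : ℕ) : H.map (alp m) (H.map (BB.proj (m + 1) 0) uu) =
    H.map (BB.proj (m + 2) 0) uu + H.map (BB.proj (m + 2) 1) uu := by
  unfold uu
  rw [H.map_cls, H.map_cls, H.map_cls, H.map_cls, ← map_add]
  congr 1
  apply Subtype.ext
  ext n x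
  show uC n (x 0 + x 1) = uC n (x 0) + uC n (x 1)
  unfold uC
  by_cases h : n = 1
  · subst h
    rw [single_self, single_self, single_self]
    rfl
  · rw [single_ne h, single_ne h, single_ne h, add_zero]

theorem map_alp (m : ℕ) (p : MvPolynomial (Fin (m + 1)) k) :
    H.map (alp m) (evB (m + 1) p) = evB (m + 2) (MvPolynomial.aeval
      (Fin.cons (MvPolynomial.X 0 + MvPolynomial.X 1)
      (fun j => MvPolynomial.X j.succ.succ) : Fin (m + 1) → MvPolynomial (Fin (m + 2)) k) p) := by
  refine map_evB (alp m) ((evB (m + 2)).comp (MvPolynomial.aeval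
      (Fin.cons (MvPolynomial.X 0 + MvPolynomial.X 1)
      (fun j => MvPolynomial.X j.succ.succ) : Fin (m + 1) → MvPolynomial (Fin (m + 2)) k))) ?_ p
  intro j
  rw [AlgHom.comp_apply, MvPolynomial.aeval_X]
  refine Fin.cases ?_ (fun j => ?_) j
  · rw [map_alp_zero, Fin.cons_zero, map_add, evB_X, evB_X]
  · rw [Fin.cons_succ, evB_X, ← H.map_comp]
    rfl

theorem rename_cons (m : ℕ) (c : Fin (m + 2)) (p : MvPolynomial (Fin (m + 1)) k) :
    MvPolynomial.rename (Fin.cons c (fun j => j.succ.succ) : Fin (m + 1) → Fin (m + 2)) p =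
      MvPolynomial.aeval (Fin.cons (MvPolynomial.X c)
        (fun j => MvPolynomial.X j.succ.succ) : Fin (m + 1) → MvPolynomial (Fin (m + 2)) k) p := by
  have h : (MvPolynomial.rename (Fin.cons c (fun j => j.succ.succ) : Fin (m + 1) → Fin (m + 2)) :
      MvPolynomial (Fin (m + 1)) k →ₐ[k] _) = MvPolynomial.aeval (Fin.cons (MvPolynomial.X c)
        (fun j => MvPolynomial.X j.succ.succ) : Fin (m + 1) → MvPolynomial (Fin (m + 2)) k) := by
    apply MvPolynomial.algHom_ext
    intro j
    rw [MvPolynomial.rename_X, MvPolynomial.aeval_X]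
    refine Fin.cases ?_ (fun j => ?_) j
    · rw [Fin.cons_zero, Fin.cons_zero]
    · rw [Fin.cons_succ, Fin.cons_succ]
  exact DFunLike.congr_fun h p

/-- The circle in the first coordinate. -/
def gam (m : ℕ) : SS.Hom (S1.prod (BB.pow m)) (BB.pow (m + 1)) where
  f n x := Fin.cons (s1.f n x.1) x.2
  nat a x := by
    funext i
    refine Fin.cases ?_ (fun j => rfl) i
    exact s1.nat a x.1

theorem map_gam_zero (m : ℕ) : H.map (gam m) (H.map (BB.proj (m + 1) 0) uu) =
    H.map (SS.fst S1 (BB.pow m)) ee := by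
  unfold ee
  rw [← H.map_comp, ← H.map_comp]
  rfl

theorem map_gam_succ (m : ℕ) (j : Fin m) : H.map (gam m) (H.map (BB.proj (m + 1) j.succ) uu) =
    H.map (SS.snd S1 (BB.pow m)) (H.map (BB.proj m j) uu) := by
  rw [← H.map_comp, ← H.map_comp]
  rfl

theorem map_gam_rename (m : ℕ) (p : MvPolynomial (Fin m) k) :
    H.map (gam m) (evB (m + 1) (MvPolynomial.rename Fin.succ p)) =
      H.map (SS.snd S1 (BB.pow m)) (evB m p) := by
  have h1 : ((H.map (gam m)).comp (evB (m + 1))).comp (MvPolynomial.rename Fin.succ) =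
      (H.map (SS.snd S1 (BB.pow m))).comp (evB m) := by
    apply MvPolynomial.algHom_ext
    intro j
    rw [AlgHom.comp_apply, AlgHom.comp_apply, AlgHom.comp_apply, MvPolynomial.rename_X, evB_X,
      evB_X, map_gam_succ]
  exact DFunLike.congr_fun h1 p

theorem map_gam (h : ee * ee = 0) (m : ℕ) (p : MvPolynomial (Fin (m + 1)) k) :
    H.map (gam m) (evB (m + 1) p) =
      H.map (SS.fst S1 (BB.pow m)) ee * H.map (SS.snd S1 (BB.pow m))
        (evB m ((MvPolynomial.finSuccEquiv k m p).coeff 1)) +
      H.map (SS.snd S1 (BB.pow m)) (evB m ((MvPolynomial.finSuccEquiv k m p).coeff 0)) := by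
  obtain ⟨r, rfl⟩ := (MvPolynomial.finSuccEquiv k m).symm.surjective p
  rw [AlgEquiv.apply_symm_apply]
  induction r using Polynomial.induction_on' with
  | add p q hp hq =>
    rw [map_add, map_add, map_add, hp, hq, Polynomial.coeff_add, Polynomial.coeff_add, map_add,
      map_add, map_add, map_add]
    ring
  | monomial n a =>
    have h1 : (MvPolynomial.finSuccEquiv k m).symm (Polynomial.monomial n a) =
        MvPolynomial.rename Fin.succ a * MvPolynomial.X 0 ^ n := by
      rw [AlgEquiv.symm_apply_eq, map_mul, map_pow, MvPolynomial.finSuccEquiv_X_zero,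
        ← Polynomial.C_mul_X_pow_eq_monomial]
      congr 1
      have h2 : ((MvPolynomial.finSuccEquiv k m).toAlgHom.comp (MvPolynomial.rename Fin.succ) :
          MvPolynomial (Fin m) k →ₐ[k] Polynomial (MvPolynomial (Fin m) k)) =
          (Algebra.ofId (MvPolynomial (Fin m) k)
            (Polynomial (MvPolynomial (Fin m) k))).restrictScalars k := by
        apply MvPolynomial.algHom_ext
        intro j
        change MvPolynomial.finSuccEquiv k m (MvPolynomial.rename Fin.succ (MvPolynomial.X j)) = _
        rw [MvPolynomial.rename_X, MvPolynomial.finSuccEquiv_X_succ]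
        rfl
      exact (DFunLike.congr_fun h2 a).symm
    rw [h1, map_mul, map_mul, map_gam_rename, map_pow, map_pow, evB_X, map_gam_zero,
      Polynomial.coeff_monomial, Polynomial.coeff_monomial]
    match n with
    | 0 =>
      rw [if_pos rfl, if_neg (by decide), pow_zero, mul_one, map_zero, map_zero, mul_zero, zero_add]
    | 1 =>
      rw [if_pos rfl, if_neg (by decide), pow_one, map_zero, map_zero, add_zero, mul_comm]
    | n + 2 =>
      rw [if_neg (by omega), if_neg (by omega), map_zero, map_zero, mul_zero, add_zero, pow_add,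
        pow_two, ← map_mul, h, map_zero, mul_zero, mul_zero]

theorem LF_pow (m : ℕ) : (BB.pow m).LF := by
  intro n
  show Finite (Fin m → Nrm n k)
  have h2 : Finite k := inferInstanceAs (Finite (ZMod 2))
  have h3 : Finite (Fin (n + 1) → k) := Pi.finite
  have h4 : Finite (Nrm n k) := Subtype.finite
  exact Pi.finite

end Squ

open Squ in
/-- SQU: the operations on the product of the generators. -/
theorem SQU (h1 : K1_Stmt) (h2 : SK_Stmt) (h3 : SUS_Stmt) (h4 : POPD_Stmt) (h5 : ADD_Stmt)
    (h6 : PW2_Stmt) : SQU_Stmt := by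
  intro m
  induction m with
  | zero =>
    intro i hi
    obtain rfl : i = 0 := by omega
    rw [coeff_St_top, map_pow]
    exact Pop_one _
  | succ m ih =>
    intro i hi
    by_cases him : i = m + 1
    · subst him
      rw [coeff_St_top, map_pow, show m + 1 + 1 - (m + 1) = 1 by omega]
      exact Pop_one _
    have hi' : i ≤ m := by omega
    obtain ⟨s, hs⟩ : ∃ s, m = s + i := ⟨m - i, by omega⟩
    have hs1 : m + 1 + 1 - i = s + 2 := by omega
    have hs2 : m + 1 - i = s + 1 := by omega
    have ih' := ih i hi'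
    rw [hs2] at ih'
    rw [hs1]
    have hU : evB (m + 1) (∏ j, MvPolynomial.X j) ∈ Hn (BB.pow (m + 1)) (m + 1) :=
      evB_mem _ _ _ homog_prod
    have hmem := (h4 (BB.pow (m + 1)) (s + 2) (m + 1) _ hU).1 (m + 1 + i) (by omega)
    obtain ⟨P, hP, hPe⟩ := (h1 (m + 1)).2 _ _ hmem
    have hinj := (h1 (m + 1)).1
    -- symmetry
    have hsym : ∀ σ : Equiv.Perm (Fin (m + 1)), MvPolynomial.rename σ P = P := by
      intro σ
      apply hinj
      rw [← evB_reidx, hPe, ← (Pop (s + 2)).nat, evB_reidx, rename_prod]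
    -- additivity
    have hadd := h6 m P (by
      apply (h1 (m + 2)).1
      rw [map_add, ← map_alp, ← rename_cons, ← rename_cons, ← evB_reidx, ← evB_reidx, hPe,
        ← (Pop (s + 2)).nat, ← (Pop (s + 2)).nat, ← (Pop (s + 2)).nat, ← map_add]
      congr 1
      rw [map_alp, evB_reidx, evB_reidx, ← map_add]
      congr 1
      rw [rename_cons, rename_cons, Fin.prod_univ_succ]
      simp only [map_mul, map_prod, MvPolynomial.aeval_X, Fin.cons_zero, Fin.cons_succ]
      rw [add_mul])
    have hpow : ∀ e ∈ P.support, ∀ j, ∃ l : ℕ, e j = 2 ^ l := by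
      intro e he j
      have hinj' : Function.Injective (Equiv.swap 0 j : Equiv.Perm (Fin (m + 1))) :=
        (Equiv.swap 0 j).injective
      have h7 : e.mapDomain (Equiv.swap 0 j) ∈ P.support := by
        rw [MvPolynomial.mem_support_iff]
        have h8 := MvPolynomial.coeff_rename_mapDomain (Equiv.swap 0 j : Equiv.Perm (Fin (m + 1)))
          hinj' P e
        rw [hsym] at h8
        rw [h8]
        exact MvPolynomial.mem_support_iff.mp he
      obtain ⟨l, hl⟩ := hadd _ h7
      refine ⟨l, ?_⟩
      rw [← hl]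
      have h9 := Finsupp.mapDomain_apply hinj' e j
      rw [Equiv.swap_apply_right] at h9
      exact h9.symm
    -- the restriction to the circle
    have hee := h2.1
    have hG := map_gam hee m P
    rw [hPe, ← (Pop (s + 2)).nat, map_gam hee] at hG
    have hU0 : (MvPolynomial.finSuccEquiv k m (∏ j, MvPolynomial.X j)) =
        Polynomial.X * Polynomial.C (∏ j, MvPolynomial.X j) := by
      rw [Fin.prod_univ_succ, map_mul, map_prod, MvPolynomial.finSuccEquiv_X_zero, map_prod]
      simp only [MvPolynomial.finSuccEquiv_X_succ]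
    rw [hU0, Polynomial.coeff_X_mul, Polynomial.coeff_C_zero, Polynomial.coeff_X_mul_zero, map_zero,
      map_zero, add_zero, h3, ih'] at hG
    have hP1 : ((MvPolynomial.finSuccEquiv k m P).coeff 1).IsHomogeneous (m + i) :=
      hP.finSuccEquiv_coeff_isHomogeneous 1 (m + i) (by omega)
    have hP0 : ((MvPolynomial.finSuccEquiv k m P).coeff 0).IsHomogeneous (m + i + 1) :=
      hP.finSuccEquiv_coeff_isHomogeneous 0 (m + i + 1) (by omega)
    have hSK := (h2.2 (BB.pow m) (LF_pow m)).2 (m + i)
      (evB m ((MvPolynomial.finSuccEquiv k m P).coeff 1 - (St m (∏ j, MvPolynomial.X j)).coeff i))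
      (evB_mem _ _ _ (hP1.sub (homog_St i)))
      (evB m ((MvPolynomial.finSuccEquiv k m P).coeff 0)) (evB_mem _ _ _ hP0) (by
        rw [map_sub, map_sub, mul_sub, hG]
        ring)
    have hcoef : (MvPolynomial.finSuccEquiv k m P).coeff 1 =
        (St m (∏ j, MvPolynomial.X j)).coeff i := by
      apply (h1 m).1
      rw [← sub_eq_zero, ← map_sub]
      exact hSK.1
    -- the conclusion
    have hPQ : P = (St (m + 1) (∏ j, MvPolynomial.X j)).coeff i := by
      refine h5 m (m + 1 + i) P _ (by omega) hP (homog_St i) hsym (symm_St i) hpow (pow_St i) ?_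
      intro e he
      have h7 : (Finsupp.tail e).cons 1 = e := by
        have h8 := Finsupp.cons_tail e
        rwa [he] at h8
      rw [← h7, ← MvPolynomial.finSuccEquiv_coeff_coeff, ← MvPolynomial.finSuccEquiv_coeff_coeff,
        hcoef, coeff_one_St]
    rw [← hPe, hPQ]

end Pool.Agent.SHS
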