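import Pool.Agent.SH.S.StmtsB
import Pool.Agent.SH.S.Tools

/-!
Block III-S, module SHS_SUS: the suspension formula for the operations `Pop`.
-/

namespace Pool.Agent.SHS

namespace Sus

open Coch

/-- The interval. -/
abbrev I1 : SS := SS.simplex 1

open Classical in
/-- The value of the collapse map. -/
noncomputable def q1f (n : ℕ) (a : Mor n 1) : S1.X n :=
  if h : Function.Surjective a then some ⟨a, h⟩ else none

/-- The collapse map from the interval to the circle. -/
noncomputable def q1 : SS.Hom I1 S1 where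
  f n a := q1f n a
  nat {m n} b a := by
    show q1f m (a.comp b) = (q1f n a).bind ((PS.sphere 1).map b)
    unfold q1f
    by_cases h : Function.Surjective a
    · rw [dif_pos h]
      rfl
    · rw [dif_neg h]
      have h' : ¬ Function.Surjective (a.comp b) := by
        intro hs
        apply h
        intro y
        obtain ⟨z, hz⟩ := hs y
        exact ⟨b z, hz⟩
      rw [dif_neg h']
      rfl

/-- The collapse map times `Y`. -/
noncomputable def qq (Y : SS) : SS.Hom (I1.prod Y) (S1.prod Y) where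
  f n x := (q1.f n x.1, x.2)
  nat {m n} b x := by
    show (q1.f m (I1.map b x.1), Y.map b x.2) = (S1.map b (q1.f n x.1), Y.map b x.2)
    rw [q1.nat]

theorem mor_cases {n : ℕ} (a : Mor n 1) :
    Function.Surjective a ∨ a = cst 0 ∨ a = cst 1 := by
  have h2 : ∀ j : Fin 2, j = 0 ∨ j = 1 := by decide
  rcases h2 (a 0) with h | h
  · by_cases h' : ∃ j, a j = 1
    · left
      obtain ⟨j, hj⟩ := h'
      intro i
      rcases h2 i with hi | hi
      · exact ⟨0, by rw [hi]; exact h⟩
      · exact ⟨j, by rw [hi]; exact hj⟩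
    · right; left
      apply OrderHom.ext
      funext j
      rcases h2 (a j) with hi | hi
      · exact hi
      · exact absurd ⟨j, hi⟩ h'
  · right; right
    apply OrderHom.ext
    funext j
    rcases h2 (a j) with hi | hi
    · have h3 : a 0 ≤ a j := a.monotone (Fin.zero_le _)
      rw [h, hi] at h3
      exact absurd h3 (by decide)
    · exact hi

theorem qq_surj (Y : SS) (n : ℕ) (x : (S1.prod Y).X n) : ∃ x', (qq Y).f n x' = x := by
  rcases x with ⟨o, y⟩
  cases o with
  | none =>
    refine ⟨(cst 0, y), ?_⟩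
    show (q1f n (cst 0), y) = (none, y)
    unfold q1f
    have h : ¬ Function.Surjective (cst 0 : Mor n 1) := by
      intro hs
      obtain ⟨z, hz⟩ := hs 1
      exact absurd hz (by show ¬ ((0 : Fin 2) = 1); decide)
    rw [dif_neg h]
  | some a =>
    refine ⟨(a.1, y), ?_⟩
    show (q1f n a.1, y) = (some a, y)
    unfold q1f
    rw [dif_pos a.2]

theorem pull_inj (Y : SS) (f g : Coch (S1.prod Y)) (h : pull (qq Y) f = pull (qq Y) g) :
    f = g := by
  ext n x
  obtain ⟨x', rfl⟩ := qq_surj Y n x
  exact congrArg (fun c : Coch (I1.prod Y) => c n x') h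

/-- The tautological cochain of degree 0 of the interval. -/
def tt : Coch I1 := Coch.single 0 (fun a : Mor 0 1 => if a 0 = 0 then 0 else 1)

theorem pull_q1 : pull q1 (pull s1 uC) = dlt tt := by
  ext n a
  cases n with
  | zero =>
    rw [dlt_zero, pull_apply, pull_apply]
    exact single_ne (by omega) _ _
  | succ n =>
    rw [dlt_succ]
    by_cases h : n = 0
    · subst h
      rw [Fin.sum_univ_two]
      have e0 : tt 0 (I1.map (cof 0) a) = if a 1 = 0 then 0 else 1 := by
        unfold tt
        rw [single_self]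
        rfl
      have e1 : tt 0 (I1.map (cof 1) a) = if a 0 = 0 then 0 else 1 := by
        unfold tt
        rw [single_self]
        rfl
      rw [e0, e1, pull_apply, pull_apply]
      unfold uC
      rw [single_self]
      show (s1.f 1 (q1f 1 a)).1 1 = _
      rcases mor_cases a with hs | hs | hs
      · unfold q1f
        rw [dif_pos hs]
        show (if a 1 = 0 then (0 : k) else 1) = _
        obtain ⟨j, hj⟩ := hs 0
        have h1 : a 0 ≤ a j := a.monotone (Fin.zero_le _)
        rw [hj] at h1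
        rw [if_pos (le_antisymm h1 (Fin.zero_le _)), add_zero]
      · subst hs
        have h' : ¬ Function.Surjective (cst 0 : Mor 1 1) := by
          intro hs
          obtain ⟨z, hz⟩ := hs 1
          exact absurd hz (by show ¬ ((0 : Fin 2) = 1); decide)
        unfold q1f
        rw [dif_neg h']
        show (0 : k) = (if (0 : Fin 2) = 0 then (0 : k) else 1) + if (0 : Fin 2) = 0 then (0 : k) else 1
        decide
      · subst hs
        have h' : ¬ Function.Surjective (cst 1 : Mor 1 1) := by
          intro hs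
          obtain ⟨z, hz⟩ := hs 0
          exact absurd hz (by show ¬ ((1 : Fin 2) = 0); decide)
        unfold q1f
        rw [dif_neg h']
        show (0 : k) = (if (1 : Fin 2) = 0 then (0 : k) else 1) + if (1 : Fin 2) = 0 then (0 : k) else 1
        decide
    · rw [Finset.sum_eq_zero]
      · rw [pull_apply, pull_apply]
        exact single_ne (by omega) _ _
      · intro i _
        exact single_ne h _ _

/-- Restriction to an end. -/
def cc (Y : SS) (v : Fin 2) : SS.Hom Y (I1.prod Y) where
  f n y := (cst v, y)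
  nat b y := rfl

/-- The constant map to the interval. -/
def c1 (Y : SS) (v : Fin 2) : SS.Hom Y I1 where
  f n y := cst v
  nat b y := rfl

theorem pull_fst (Y : SS) (v : Fin 2) (f : Coch I1) :
    pull (cc Y v) (pull (SS.fst I1 Y) f) = pull (c1 Y v) f := rfl

theorem pull_snd (Y : SS) (v : Fin 2) (f : Coch Y) :
    pull (cc Y v) (pull (SS.snd I1 Y) f) = f := rfl

theorem pull_c0 (Y : SS) : pull (c1 Y 0) tt = 0 := by
  ext n y
  rw [pull_apply]
  cases n with
  | zero =>
    show tt 0 (cst 0) = 0
    unfold tt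
    rw [single_self]
    rfl
  | succ n => exact single_ne (by omega) _ _

theorem pull_c1 (Y : SS) : pull (c1 Y 1) tt = 1 := by
  ext n y
  rw [pull_apply, cone_apply]
  cases n with
  | zero =>
    show tt 0 (cst 1) = _
    unfold tt
    rw [single_self]
    rfl
  | succ n =>
    rw [if_neg (by omega)]
    exact single_ne (by omega) _ _

/-- The cochain on the cylinder. -/
noncomputable def yh {Y : SS} (y : Coch Y) : Coch (I1.prod Y) :=
  pull (SS.fst I1 Y) tt * pull (SS.snd I1 Y) y

theorem dlt_yh {Y : SS} (y : Coch Y) (hy : dlt y = 0) :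
    dlt (yh y) = pull (SS.fst I1 Y) (dlt tt) * pull (SS.snd I1 Y) y := by
  unfold yh
  rw [leibniz, dlt_pull, dlt_pull, hy, map_zero, mul_zero, add_zero]

/-- The cochain on the suspension. -/
noncomputable def zz {Y : SS} (y : Coch Y) : Coch (S1.prod Y) :=
  pull (SS.fst S1 Y) (pull s1 uC) * pull (SS.snd S1 Y) y

theorem pull_zz {Y : SS} (y : Coch Y) :
    pull (qq Y) (zz y) = pull (SS.fst I1 Y) (dlt tt) * pull (SS.snd I1 Y) y := by
  unfold zz
  rw [map_mul, ← pull_q1]
  rfl

/-- The corrected cochain. -/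
noncomputable def ww {Y : SS} (s : ℕ) (y : Coch Y) : Coch (I1.prod Y) :=
  cupS (s + 2) (yh y) (dlt (yh y)) + cupS (s + 1) (yh y) (yh y)
    + yh (cupS (s + 1) y y)

theorem dlt_ww {Y : SS} (s : ℕ) (y : Coch Y) (hy : dlt y = 0) :
    dlt (ww s y) = pull (qq Y) (cupS (s + 2) (zz y) (zz y) + zz (cupS (s + 1) y y)) := by
  have h1 : pull (qq Y) (zz y) = dlt (yh y) := by rw [pull_zz, dlt_yh y hy]
  have h2 : pull (qq Y) (zz (cupS (s + 1) y y)) = dlt (yh (cupS (s + 1) y y)) := by
    rw [pull_zz, dlt_yh _ (dlt_cupS_self (s + 1) y hy)]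
  rw [map_add, pull_cupS, h1, h2]
  unfold ww
  rw [map_add, map_add, dlt_cupS, dlt_cupS, dlt_dlt, cupS_zero_right]
  have t1 := mod_two (cupS (s + 1) (yh y) (dlt (yh y)))
  have t2 := mod_two (cupS (s + 1) (dlt (yh y)) (yh y))
  have t3 := mod_two (cupS s (yh y) (yh y))
  calc cupS (s + 1 + 1) (dlt (yh y)) (dlt (yh y)) + 0 + cupS (s + 1) (yh y) (dlt (yh y))
        + cupS (s + 1) (dlt (yh y)) (yh y)
        + (cupS (s + 1) (dlt (yh y)) (yh y) + cupS (s + 1) (yh y) (dlt (yh y))
          + cupS s (yh y) (yh y) + cupS s (yh y) (yh y)) + dlt (yh (cupS (s + 1) y y))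
      = cupS (s + 1 + 1) (dlt (yh y)) (dlt (yh y))
        + (cupS (s + 1) (yh y) (dlt (yh y)) + cupS (s + 1) (yh y) (dlt (yh y)))
        + (cupS (s + 1) (dlt (yh y)) (yh y) + cupS (s + 1) (dlt (yh y)) (yh y))
        + (cupS s (yh y) (yh y) + cupS s (yh y) (yh y)) + dlt (yh (cupS (s + 1) y y)) := by abel
    _ = cupS (s + 1 + 1) (dlt (yh y)) (dlt (yh y)) + dlt (yh (cupS (s + 1) y y)) := by
        rw [t1, t2, t3]; abel

theorem pull_yh0 {Y : SS} (y : Coch Y) : pull (cc Y 0) (yh y) = 0 := by
  unfold yh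
  rw [map_mul, pull_fst, pull_c0, zero_mul]

theorem pull_yh1 {Y : SS} (y : Coch Y) : pull (cc Y 1) (yh y) = y := by
  unfold yh
  rw [map_mul, pull_fst, pull_c1, one_mul, pull_snd]

theorem pull_ww0 {Y : SS} (s : ℕ) (y : Coch Y) : pull (cc Y 0) (ww s y) = 0 := by
  unfold ww
  rw [map_add, map_add, pull_cupS, pull_cupS, pull_yh0, pull_yh0, cupS_zero_left,
    cupS_zero_left, add_zero, add_zero]

theorem pull_ww1 {Y : SS} (s : ℕ) (y : Coch Y) (hy : dlt y = 0) :
    pull (cc Y 1) (ww s y) = 0 := by
  unfold ww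
  rw [map_add, map_add, pull_cupS, pull_cupS, pull_yh1, pull_yh1, ← dlt_pull, pull_yh1, hy,
    cupS_zero_right, zero_add, mod_two]

/-- The descended cochain. -/
noncomputable def w2 {Y : SS} (w : Coch (I1.prod Y)) : Coch (S1.prod Y) :=
  ⟨fun n x => x.1.elim 0 (fun a => w n (a.1, x.2))⟩

theorem pull_w2 {Y : SS} (w : Coch (I1.prod Y)) (h0 : pull (cc Y 0) w = 0)
    (h1 : pull (cc Y 1) w = 0) : pull (qq Y) (w2 w) = w := by
  ext n x
  rcases x with ⟨a, y⟩
  rw [pull_apply]
  show (q1f n a).elim 0 (fun a => w n (a.1, y)) = w n (a, y)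
  rcases mor_cases a with hs | hs | hs
  · unfold q1f
    rw [dif_pos hs]
    rfl
  · subst hs
    have h' : ¬ Function.Surjective (cst 0 : Mor n 1) := by
      intro hs
      obtain ⟨z, hz⟩ := hs 1
      exact absurd hz (by show ¬ ((0 : Fin 2) = 1); decide)
    unfold q1f
    rw [dif_neg h']
    exact (congrArg (fun c : Coch Y => c n y) h0).symm
  · subst hs
    have h' : ¬ Function.Surjective (cst 1 : Mor n 1) := by
      intro hs
      obtain ⟨z, hz⟩ := hs 0
      exact absurd hz (by show ¬ ((1 : Fin 2) = 0); decide)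
    unfold q1f
    rw [dif_neg h']
    exact (congrArg (fun c : Coch Y => c n y) h1).symm

theorem main {Y : SS} (s : ℕ) (y : Coch Y) (hy : dlt y = 0) :
    dlt (w2 (ww s y)) = cupS (s + 2) (zz y) (zz y) + zz (cupS (s + 1) y y) := by
  apply pull_inj
  rw [← dlt_pull, pull_w2 _ (pull_ww0 s y) (pull_ww1 s y hy), dlt_ww s y hy]

end Sus

open Sus Coch in
theorem SUS : SUS_Stmt := by
  intro Y s b
  obtain ⟨y, rfl⟩ := cls_surjective b
  unfold ee uu
  rw [Pop_cls, H.map_cls, H.map_cls, H.map_cls, H.map_cls, ← map_mul, ← map_mul, Pop_cls, cls_eq]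
  refine ⟨w2 (ww s y.1), ?_⟩
  rw [main s y.1 y.2]
  show _ = cupS (s + 2) (zz y.1) (zz y.1) - zz (cupS (s + 1) y.1 y.1)
  rw [mod_two_sub]

end Pool.Agent.SHS
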