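import Pool.Agent.SH.S.StmtsA

/-!
Block III-S: the bound for the total cohomology of a double complex.
-/

set_option autoImplicit false

namespace Pool.Agent.SHS

namespace Tb

theorem lift {M Q : Type*} [AddCommGroup M] [Module k M] [AddCommGroup Q] [Module k Q]
    (Z : Submodule k M) (f : M →ₗ[k] Q) (s : Finset Q)
    (h : Z.map f ≤ Submodule.span k (s : Set Q)) :
    ∃ t : Finset M, t.card ≤ s.card ∧ (∀ x ∈ t, x ∈ Z) ∧
      ∀ x ∈ Z, ∃ y ∈ Submodule.span k (t : Set M), f x = f y := by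
  classical
  have : FiniteDimensional k (Submodule.span k (s : Set Q)) :=
    FiniteDimensional.span_finset k s
  have : FiniteDimensional k (Z.map f) := Submodule.finiteDimensional_of_le h
  have hr : Module.finrank k (Z.map f) ≤ s.card :=
    (Submodule.finrank_mono h).trans (finrank_span_finset_le_card s)
  let b := Module.finBasis k (Z.map f)
  have hb : ∀ i, ∃ z ∈ Z, f z = (b i : Q) := fun i => (b i).2
  choose z hz hfz using hb
  refine ⟨Finset.univ.image z, ?_, ?_, ?_⟩
  · refine Finset.card_image_le.trans ?_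
    rw [Finset.card_univ, Fintype.card_fin]
    exact hr
  · intro x hx
    obtain ⟨i, _, rfl⟩ := Finset.mem_image.mp hx
    exact hz i
  · intro x hx
    have hfx : f x ∈ Z.map f := ⟨x, hx, rfl⟩
    refine ⟨∑ i, b.repr ⟨f x, hfx⟩ i • z i, Submodule.sum_mem _ fun i _ =>
      Submodule.smul_mem _ _ (Submodule.subset_span
        (Finset.mem_coe.mpr (Finset.mem_image_of_mem z (Finset.mem_univ i)))), ?_⟩
    have h2 := congrArg Subtype.val (b.sum_repr ⟨f x, hfx⟩)
    rw [map_sum]
    simp only [map_smul, hfz]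
    rw [Submodule.coe_sum] at h2
    exact h2.symm

/-- one component -/
def sg (D : DC) (p q : ℕ) (w : D.X p q) : ∀ p q, D.X p q := Pi.single p (Pi.single q w)

theorem sg_same (D : DC) (p q : ℕ) (w : D.X p q) : sg D p q w p q = w := by simp [sg]

theorem sg_ne (D : DC) {p q p' q' : ℕ} (w : D.X p q) (h : p' ≠ p ∨ q' ≠ q) :
    sg D p q w p' q' = 0 := by
  by_cases hp : p' = p
  · subst hp
    have hq : q' ≠ q := by simpa using h
    simp [sg, hq]
  · simp [sg, hp]

theorem sg_mem (D : DC) (p q : ℕ) (w : D.X p q) : sg D p q w ∈ D.Tot (p + q) := by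
  intro p' q' h
  exact sg_ne D w (by omega)

theorem dv_sg (D : DC) {p q : ℕ} (w : D.X p q) (h : D.dv p q w = 0) (p' q' : ℕ) :
    D.dv p' q' (sg D p q w p' q') = 0 := by
  by_cases hpq : p' = p ∧ q' = q
  · obtain ⟨rfl, rfl⟩ := hpq
    rw [sg_same, h]
  · rw [sg_ne D w (by omega), map_zero]

theorem D_add (D : DC) (x y : ∀ p q, D.X p q) : D.D (x + y) = D.D x + D.D y := by
  funext p q
  cases p <;> cases q <;> simp [DC.D] <;> abel

theorem DD (D : DC) (x : ∀ p q, D.X p q) : D.D (D.D x) = 0 := by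
  funext p q
  rcases p with _ | _ | p <;> rcases q with _ | _ | q <;>
    simp only [DC.D, map_add, map_zero, D.dhh, D.dvv, D.comm, zero_add, add_zero, mod_two,
      Pi.zero_apply]

theorem D_Tot (D : DC) {n : ℕ} {x : ∀ p q, D.X p q} (hx : x ∈ D.Tot n) :
    D.D x ∈ D.Tot (n + 1) := by
  intro p q h
  rcases p with _ | p <;> rcases q with _ | q <;> simp only [DC.D]
  · rw [hx 0 q (by omega), map_zero]
  · rw [hx p 0 (by omega), map_zero]
  · rw [hx p (q + 1) (by omega), hx (p + 1) q (by omega), map_zero, map_zero, add_zero]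

theorem b_h (D : DC) {n p q : ℕ} (hn : p + q = n) {u : D.X p q} (hu : u ∈ D.B2h p q) :
    ∃ b ∈ D.BT n, b ∈ D.ZT n ∧ b p q = u ∧ ∀ p' q', q < q' → b p' q' = 0 := by
  rcases p with _ | p
  · have h0 : u = 0 := hu
    exact ⟨0, Submodule.zero_mem _, Submodule.zero_mem _, h0.symm, fun _ _ _ => rfl⟩
  · obtain ⟨w, hw, rfl⟩ := hu
    have hw' : D.dv p q w = 0 := hw
    obtain rfl : n = p + q + 1 := by omega
    refine ⟨D.D (sg D p q w), Submodule.subset_span ⟨_, sg_mem D p q w, rfl⟩,
      ⟨D_Tot D (sg_mem D p q w), DD D _⟩, ?_, ?_⟩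
    · rcases q with _ | q
      · simp only [DC.D, sg_same]
      · simp only [DC.D, sg_same]
        rw [sg_ne D w (Or.inl (by omega)), map_zero, add_zero]
    · intro p' q' h
      rcases q' with _ | q'
      · omega
      · rcases p' with _ | p'
        · simp only [DC.D]
          exact dv_sg D w hw' _ _
        · simp only [DC.D]
          rw [dv_sg D w hw', sg_ne D w (Or.inr (by omega)), map_zero, add_zero]

theorem b_v (D : DC) {n p q : ℕ} (hn : p + q = n) {u : D.X p q} (hu : u ∈ D.B2v p q) :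
    ∃ b ∈ D.BT n, b ∈ D.ZT n ∧ b p q = u ∧ ∀ p' q', q < q' → b p' q' = 0 := by
  rcases q with _ | q
  · have h0 : u = 0 := hu
    exact ⟨0, Submodule.zero_mem _, Submodule.zero_mem _, h0.symm, fun _ _ _ => rfl⟩
  · obtain ⟨w, rfl⟩ := hu
    obtain rfl : n = p + q + 1 := by omega
    refine ⟨D.D (sg D p q w), Submodule.subset_span ⟨_, sg_mem D p q w, rfl⟩,
      ⟨D_Tot D (sg_mem D p q w), DD D _⟩, ?_, ?_⟩
    · rcases p with _ | p
      · simp only [DC.D, sg_same]
      · simp only [DC.D, sg_same]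
        rw [sg_ne D w (Or.inr (by omega)), map_zero, zero_add]
    · intro p' q' h
      rcases q' with _ | q'
      · omega
      · rcases p' with _ | p'
        · simp only [DC.D]
          rw [sg_ne D w (Or.inr (by omega)), map_zero]
        · simp only [DC.D]
          rw [sg_ne D w (Or.inr (by omega)), sg_ne D w (Or.inr (by omega)), map_zero, map_zero,
            add_zero]

/-- cocycles with components only in rows below `j` -/
def Zj (D : DC) (n j : ℕ) : Submodule k (∀ p q, D.X p q) where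
  carrier := {x | x ∈ D.ZT n ∧ ∀ p q, j ≤ q → x p q = 0}
  zero_mem' := ⟨Submodule.zero_mem _, fun _ _ _ => rfl⟩
  add_mem' := by
    rintro a b ⟨ha, ha'⟩ ⟨hb, hb'⟩
    refine ⟨Submodule.add_mem _ ha hb, fun p q h => ?_⟩
    show a p q + b p q = 0
    rw [ha' p q h, hb' p q h, add_zero]
  smul_mem' := by
    rintro c a ⟨ha, ha'⟩
    refine ⟨Submodule.smul_mem _ c ha, fun p q h => ?_⟩
    show c • a p q = 0
    rw [ha' p q h, smul_zero]

theorem top_Z2 (D : DC) {n j : ℕ} (hj : j ≤ n) {x : ∀ p q, D.X p q} (hx : x ∈ Zj D n (j + 1)) :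
    x (n - j) j ∈ D.Z2 (n - j) j := by
  obtain ⟨⟨hx1, hx2⟩, hx3⟩ := hx
  have h1 : D.dv (n - j) j (x (n - j) j) = 0 := by
    have h := congrFun (congrFun hx2 (n - j)) (j + 1)
    generalize n - j = p at h ⊢
    rcases p with _ | p
    · exact h
    · simp only [DC.D] at h
      rw [hx3 p (j + 1) le_rfl, map_zero, zero_add] at h
      exact h
  have h2 := congrFun (congrFun hx2 (n - j + 1)) j
  generalize n - j = p at h1 h2 ⊢
  rcases j with _ | j
  · exact ⟨h1, h2⟩
  · refine ⟨h1, x (p + 1) j, ?_⟩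
    simp only [DC.D] at h2
    exact (mod_two_eq h2).symm

theorem step (D : DC) {n j : ℕ} (hj : j ≤ n) {x : ∀ p q, D.X p q} (hx : x ∈ Zj D n (j + 1))
    (h : x (n - j) j ∈ D.B2h (n - j) j ⊔ D.B2v (n - j) j) :
    ∃ b ∈ D.BT n, x + b ∈ Zj D n j := by
  obtain ⟨u, hu, v, hv, huv⟩ := Submodule.mem_sup.mp h
  obtain ⟨b, hb, hb1, hb2, hb3⟩ := b_h D (n := n) (by omega) hu
  obtain ⟨c, hc, hc1, hc2, hc3⟩ := b_v D (n := n) (by omega) hv
  obtain ⟨hx1, hx3⟩ := hx
  have hz : x + (b + c) ∈ D.ZT n := Submodule.add_mem _ hx1 (Submodule.add_mem _ hb1 hc1)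
  refine ⟨b + c, Submodule.add_mem _ hb hc, hz, fun p q hq => ?_⟩
  by_cases hn : p + q = n
  · rcases Nat.eq_or_lt_of_le hq with rfl | hq'
    · obtain rfl : p = n - j := by omega
      show x _ _ + (b _ _ + c _ _) = 0
      rw [hb2, hc2, huv, mod_two]
    · show x p q + (b p q + c p q) = 0
      rw [hx3 p q hq', hb3 p q hq', hc3 p q hq', add_zero, add_zero]
  · exact hz.1 p q hn

theorem main (D : DC) (n : ℕ) (N : ℕ → ℕ)
    (h : ∀ q ≤ n, SpanLE (D.Z2 (n - q) q) (D.B2h (n - q) q ⊔ D.B2v (n - q) q) (N q)) (j : ℕ)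
    (hj : j ≤ n + 1) : SpanLE (Zj D n j) (D.BT n) (∑ q ∈ Finset.range j, N q) := by
  classical
  induction j with
  | zero =>
    refine ⟨∅, by simp, fun x hx => ?_⟩
    have h0 : x = 0 := by
      funext p q
      exact hx.2 p q (Nat.zero_le _)
    rw [h0]
    exact Submodule.zero_mem _
  | succ j ih =>
    obtain ⟨S, hS1, hS2⟩ := ih (by omega)
    obtain ⟨s, hs1, hs2⟩ := h j (by omega)
    set B := D.B2h (n - j) j ⊔ D.B2v (n - j) j with hB
    let f : (∀ p q, D.X p q) →ₗ[k] (D.X (n - j) j ⧸ B) :=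
      B.mkQ.comp ((LinearMap.proj j).comp (LinearMap.proj (n - j)))
    have hf : ∀ x, f x = B.mkQ (x (n - j) j) := fun _ => rfl
    have hm : (Zj D n (j + 1)).map f ≤ Submodule.span k ((s.image B.mkQ : Finset _) : Set _) := by
      rintro _ ⟨x, hx, rfl⟩
      have h1 := hs2 (top_Z2 D (by omega) hx)
      obtain ⟨u, hu, v, hv, huv⟩ := Submodule.mem_sup.mp h1
      rw [hf, ← huv, map_add]
      have h2 : B.mkQ u = 0 := by
        rw [Submodule.mkQ_apply]
        exact (Submodule.Quotient.mk_eq_zero B).mpr hu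
      rw [h2, zero_add, Finset.coe_image, Submodule.span_image]
      exact ⟨v, hv, rfl⟩
    obtain ⟨t, ht1, ht2, ht3⟩ := lift (Zj D n (j + 1)) f _ hm
    refine ⟨S ∪ t, ?_, fun x hx => ?_⟩
    · rw [Finset.sum_range_succ]
      refine (Finset.card_union_le _ _).trans (add_le_add hS1 ?_)
      exact ht1.trans (Finset.card_image_le.trans hs1)
    · obtain ⟨y, hy, hxy⟩ := ht3 x hx
      have hyZ : y ∈ Zj D n (j + 1) := (Submodule.span_le.mpr ht2) hy
      have hd : x - y ∈ Zj D n (j + 1) := Submodule.sub_mem _ hx hyZ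
      have hB' : (x - y) (n - j) j ∈ B := by
        rw [← Submodule.Quotient.mk_eq_zero B, ← Submodule.mkQ_apply, ← hf, map_sub, hxy, sub_self]
      obtain ⟨b, hb, hb2⟩ := step D (by omega) hd hB'
      have h3 := hS2 hb2
      have h4 : x = (x - y + b) - b + y := by abel
      rw [h4, Finset.coe_union, Submodule.span_union]
      refine Submodule.add_mem _ (Submodule.sub_mem _ ?_ ?_) ?_
      · exact (sup_le_sup le_rfl le_sup_left : D.BT n ⊔ Submodule.span k (S : Set _) ≤ _) h3
      · exact (le_sup_left : D.BT n ≤ _) hb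
      · exact (le_sup_of_le_right le_sup_right : Submodule.span k (t : Set _) ≤ _) hy

end Tb

/-- Bound for the total cohomology of a double complex by the second page. -/
theorem TB : TB_Stmt := by
  intro D n N h
  obtain ⟨s, hs1, hs2⟩ := Tb.main D n N h (n + 1) le_rfl
  refine ⟨s, hs1, fun x hx => hs2 ⟨hx, fun p q hq => hx.1 p q (by omega)⟩⟩

end Pool.Agent.SHS
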