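import Pool.Agent.SH.S.StmtsD

/-!
# Block III-S, WF: finiteness of the set of multisets of bounded weight
-/

namespace Pool.Agent.SHS

namespace Wf

theorem lt_wgt {J : Multiset ℕ} {i : ℕ} (hi : i ∈ J) : i < wgt J := by
  have h1 : 2 ^ i ≤ wgt J := Multiset.single_le_sum (fun _ _ => Nat.zero_le _) _
    (Multiset.mem_map_of_mem _ hi)
  exact (Nat.lt_two_pow_self).trans_le h1

theorem le_box {n d : ℕ} {J : Multiset ℕ} (hJ : Multiset.card J = n) (h : wgt J ≤ d) :
    J ≤ n • Multiset.range (d + 1) := by
  rw [Multiset.le_iff_count]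
  intro i
  by_cases hi : i ∈ J
  · have h1 : i < d + 1 := by
      have := lt_wgt hi
      omega
    have h2 : Multiset.count i (Multiset.range (d + 1)) = 1 :=
      Multiset.count_eq_one_of_mem (Multiset.nodup_range _) (Multiset.mem_range.2 h1)
    rw [Multiset.count_nsmul, h2, mul_one, ← hJ]
    exact Multiset.count_le_card _ _
  · rw [Multiset.count_eq_zero_of_notMem hi]
    exact Nat.zero_le _

end Wf

theorem WF : WF_Stmt := by
  intro n d
  have h1 : ({J : Multiset ℕ | J ≤ n • Multiset.range (d + 1)}).Finite := Set.finite_Iic _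
  exact (h1.preimage (f := (Subtype.val : {J : Multiset ℕ // Multiset.card J = n} → Multiset ℕ))
    Subtype.val_injective.injOn).subset fun J hJ => Wf.le_box J.2 hJ

end Pool.Agent.SHS
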