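import Pool.Agent.SH.S.EZ
import Pool.Agent.SH.S.Awc
import Pool.Agent.SH.S.Norm
import Pool.Agent.SH.S.Tb
import Pool.Agent.SH.S.Kunp
import Pool.Agent.SH.S.Kun
import Pool.Agent.SH.S.Hbe
import Pool.Agent.SH.S.Hty
import Pool.Agent.SH.S.Pow
import Pool.Agent.SH.S.K1a
import Pool.Agent.SH.S.K1
import Pool.Agent.SH.S.Sk
import Pool.Agent.SH.S.Sus
import Pool.Agent.SH.S.Popd
import Pool.Agent.SH.S.Add
import Pool.Agent.SH.S.Pw2
import Pool.Agent.SH.S.Squ
import Pool.Agent.SH.S.Sqp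
import Pool.Agent.SH.S.Gena
import Pool.Agent.SH.S.Ops
import Pool.Agent.SH.S.Msi
import Pool.Agent.SH.S.Emu
import Pool.Agent.SH.S.Mu
import Pool.Agent.SH.S.Indx
import Pool.Agent.SH.S.Indep
import Pool.Agent.SH.S.Bxhb
import Pool.Agent.SH.S.Lam
import Pool.Agent.SH.S.Sphc
import Pool.Agent.SH.S.E2s
import Pool.Agent.SH.S.E2b
import Pool.Agent.SH.S.E2
import Pool.Agent.SH.S.Link
import Pool.Agent.SH.S.Barb
import Pool.Agent.SH.S.Sc1
import Pool.Agent.SH.S.Wf
import Pool.Agent.SH.S.Cnt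
import Pool.Agent.SH.S.Sca

/-!
# Block III-S: assembly

All the statements of the block, without hypotheses; only the theorem of Serre and Cartan still
takes the embedding of the bar object as a hypothesis.
-/

namespace Pool.Agent.SHS.All

theorem awc : AWC_Stmt := AWC
theorem ez : EZ_Stmt := EZ awc
theorem norm : NORM_Stmt := NORM
theorem tb : TB_Stmt := TB
theorem kunp : KUNP_Stmt := KUNP ez awc
theorem kun : KUN_Stmt := KUN kunp
theorem hbe : HBE_Stmt := HBE
theorem hty : HTY_Stmt := HTY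
theorem pow : POW_Stmt := POW kun
theorem k1a : K1A_Stmt := K1A norm
theorem k1 : K1_Stmt := K1 k1a pow
theorem sk : SK_Stmt := SK norm kun hbe
theorem sus : SUS_Stmt := SUS
theorem popd : POPD_Stmt := POPD
theorem add : ADD_Stmt := ADD
theorem pw2 : PW2_Stmt := PW2
theorem squ : SQU_Stmt := SQU k1 sk sus popd add pw2
theorem sqp : SQP_Stmt := SQP squ
theorem gena : GENA_Stmt := GENA
theorem ops : OPS_Stmt := OPS sqp gena popd
theorem msi : MSI_Stmt := MSI
theorem emu : EMU_Stmt := EMU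
theorem mu : MU_Stmt := MU ops emu
theorem indx : INDX_Stmt := INDX kun
theorem indep : INDEP_Stmt := INDEP indx msi k1
theorem bxhb : BXHB_Stmt := BXHB pow
theorem lam : LAM_Stmt := LAM
theorem sphc : SPHC_Stmt := SPHC kunp norm
theorem e2s : E2S_Stmt := E2S lam
theorem e2b : E2B_Stmt := E2B bxhb
theorem e2 : E2_Stmt := E2 sphc e2s e2b
theorem link : LINK_Stmt := LINK
theorem barb : BARB_Stmt := BARB ez tb link e2 awc
theorem sc1 : SC1_Stmt := SC1 k1a k1
theorem wf : WF_Stmt := WF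
theorem cnt : CNT_Stmt := CNT
theorem sc (h : EMBAR_Stmt) : SC_Stmt := SCA sc1 wf cnt h barb indep mu

end Pool.Agent.SHS.All
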