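import Pool.Agent.SH.S.Defs

namespace Pool.Agent.SHS

theorem cof_apply {n : ℕ} (i : Fin (n + 2)) (j : Fin (n + 1)) : cof i j = i.succAbove j := rfl

theorem cof_comp_cof {n : ℕ} (i : Fin (n + 3)) (j : Fin (n + 2)) :
    (cof i).comp (cof j) = (cof (i.succAbove j)).comp (cof (j.predAbove i)) := by
  ext x
  show ((i.succAbove (j.succAbove x)) : ℕ) = (((i.succAbove j).succAbove ((j.predAbove i).succAbove x)) : ℕ)
  rw [Fin.succAbove_succAbove_succAbove_predAbove]

theorem k_two (x : k) : x + x = 0 := CharTwo.add_self_eq_zero x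

theorem mod_two {M : Type*} [AddCommGroup M] [Module k M] (x : M) : x + x = 0 := by
  have h : ((1 : k) + 1) • x = x + x := by rw [add_smul, one_smul]
  rw [← h, k_two, zero_smul]

theorem mod_two_sub {M : Type*} [AddCommGroup M] [Module k M] (x y : M) : x - y = x + y := by
  rw [sub_eq_iff_eq_add, add_assoc, mod_two, add_zero]

theorem mod_two_neg {M : Type*} [AddCommGroup M] [Module k M] (x : M) : -x = x := by
  rw [neg_eq_iff_add_eq_zero, mod_two]

theorem mod_two_eq {M : Type*} [AddCommGroup M] [Module k M] {x y : M} (h : x + y = 0) : x = y := by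
  rw [← mod_two_sub] at h
  exact sub_eq_zero.mp h

/-- double sums over pairs of cofaces vanish -/
theorem sum_cof_cof {M : Type*} [AddCommGroup M] [Module k M] {n : ℕ}
    (F : Mor n (n + 2) → M) :
    ∑ i : Fin (n + 3), ∑ j : Fin (n + 2), F ((cof i).comp (cof j)) = 0 := by
  have h2 : ∑ i : Fin (n + 3), ∑ j : Fin (n + 2), F ((cof i).comp (cof j))
      = ∑ p : Fin (n + 3) × Fin (n + 2), F ((cof p.1).comp (cof p.2)) := by
    rw [Fintype.sum_prod_type]
  rw [h2]
  apply Finset.sum_involution
    (fun (p : Fin (n + 3) × Fin (n + 2)) _ => (p.1.succAbove p.2, p.2.predAbove p.1))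
  · rintro ⟨i, j⟩ _
    simp only
    rw [cof_comp_cof i j]
    exact mod_two _
  · rintro ⟨i, j⟩ _ _ h
    exact Fin.succAbove_ne i j (congrArg Prod.fst h)
  · simp
  · rintro ⟨i, j⟩ _
    show ((i.succAbove j).succAbove (j.predAbove i), (j.predAbove i).predAbove (i.succAbove j)) = (i, j)
    rw [Fin.succAbove_succAbove_predAbove, Fin.predAbove_predAbove_succAbove]

theorem CM.delta_apply (M : CM) (n : ℕ) (x : M.X n) :
    M.delta n x = ∑ i : Fin (n + 2), M.map (cof i) x := by
  simp only [CM.delta, LinearMap.sum_apply]

theorem CM.delta_delta (M : CM) (n : ℕ) (x : M.X n) : M.delta (n + 1) (M.delta n x) = 0 := by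
  have h1 : M.delta (n + 1) (M.delta n x)
      = ∑ i : Fin (n + 3), ∑ j : Fin (n + 2), M.map ((cof i).comp (cof j)) x := by
    rw [CM.delta_apply, CM.delta_apply]
    simp only [map_sum, CM.map_comp]
  rw [h1]
  exact sum_cof_cof (fun a => M.map a x)

/-- The cochain complex of a cosimplicial vector space. -/
abbrev CM.cc (M : CM) : CC where
  X := M.X
  d := M.delta
  dd := M.delta_delta

/-- The diagonal. -/
abbrev BCM.diag (M : BCM) : CM where
  X n := M.X n n
  map a := M.map a a
  map_id := M.map_id
  map_comp f g x := M.map_comp f g f g x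

/-- For fixed `p`, the cosimplicial vector space in the second (vertical) direction. -/
abbrev BCM.col (M : BCM) (p : ℕ) : CM where
  X q := M.X p q
  map a := M.map OrderHom.id a
  map_id := M.map_id
  map_comp f g x := M.map_comp OrderHom.id OrderHom.id f g x

/-- For fixed `q`, the cosimplicial vector space in the first (horizontal) direction. -/
abbrev BCM.row (M : BCM) (q : ℕ) : CM where
  X p := M.X p q
  map a := M.map a OrderHom.id
  map_id := M.map_id
  map_comp f g x := M.map_comp f g OrderHom.id OrderHom.id x

/-- The double complex of a bicosimplicial vector space. -/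
abbrev BCM.dc (M : BCM) : DC where
  X := M.X
  dh p q := (M.row q).delta p
  dv p q := (M.col p).delta q
  dhh p q x := (M.row q).delta_delta p x
  dvv p q x := (M.col p).delta_delta q x
  comm p q x := by
    show (M.col (p + 1)).delta q ((M.row q).delta p x) = (M.row (q + 1)).delta p ((M.col p).delta q x)
    rw [CM.delta_apply, CM.delta_apply, CM.delta_apply, CM.delta_apply]
    have h1 : ∀ i : Fin (q + 2), (M.col (p + 1)).map (cof i) (∑ j : Fin (p + 2), (M.row q).map (cof j) x)
        = ∑ j : Fin (p + 2), M.map (cof j) (cof i) x := by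
      intro i
      rw [map_sum]
      apply Finset.sum_congr rfl
      intro j _
      show M.map OrderHom.id (cof i) (M.map (cof j) OrderHom.id x) = _
      rw [← M.map_comp]; rfl
    have h2 : ∀ j : Fin (p + 2), (M.row (q + 1)).map (cof j) (∑ i : Fin (q + 2), (M.col p).map (cof i) x)
        = ∑ i : Fin (q + 2), M.map (cof j) (cof i) x := by
      intro j
      rw [map_sum]
      apply Finset.sum_congr rfl
      intro i _
      show M.map (cof j) OrderHom.id (M.map OrderHom.id (cof i) x) = _
      rw [← M.map_comp]; rfl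
    rw [Finset.sum_congr rfl fun i _ => h1 i, Finset.sum_congr rfl fun j _ => h2 j, Finset.sum_comm]

/-- The Alexander-Whitney map from the total complex to the diagonal. -/
def BCM.AW (M : BCM) (n : ℕ) (x : ∀ p q, M.X p q) : M.X n n :=
  ∑ p ∈ Finset.range (n + 1), M.map (fr p n) (bk (n - p) n) (x p (n - p))

/-- Cochains of a pointed simplicial set (vanishing at the base point). -/
abbrev PS.cm (P : PS) : CM where
  X n := P.X n → k
  map {m n} a :=
    { toFun := fun φ y => (P.map a y).elim 0 φ
      map_add' := fun φ ψ => by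
        funext y
        show (P.map a y).elim 0 (φ + ψ) = (P.map a y).elim 0 φ + (P.map a y).elim 0 ψ
        cases P.map a y <;> simp
      map_smul' := fun c φ => by
        funext y
        show (P.map a y).elim 0 (c • φ) = c • (P.map a y).elim 0 φ
        cases P.map a y <;> simp }
  map_id φ := by
    funext y
    show (P.map OrderHom.id y).elim 0 φ = φ y
    rw [P.map_id]; rfl
  map_comp f g φ := by
    funext y
    show (P.map (g.comp f) y).elim 0 φ = (P.map g y).elim 0 (fun z => (P.map f z).elim 0 φ)
    rw [P.map_comp]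
    cases P.map g y <;> simp

/-- Cochains of a simplicial set. -/
abbrev SS.cm (X : SS) : CM where
  X n := X.X n → k
  map {m n} a :=
    { toFun := fun φ y => φ (X.map a y)
      map_add' := fun φ ψ => rfl
      map_smul' := fun c φ => rfl }
  map_id φ := by
    funext y
    show φ (X.map OrderHom.id y) = φ y
    rw [X.map_id]
  map_comp f g φ := by
    funext y
    show φ (X.map (g.comp f) y) = φ (X.map f (X.map g y))
    rw [X.map_comp]

/-- Functions on `P_p × Q_q`. -/
abbrev PS.bcm (P Q : PS) : BCM where
  X p q := P.X p × Q.X q → k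
  map {p p' q q'} a b :=
    { toFun := fun φ y => (Option.map₂ Prod.mk (P.map a y.1) (Q.map b y.2)).elim 0 φ
      map_add' := fun φ ψ => by
        funext y
        show (Option.map₂ Prod.mk (P.map a y.1) (Q.map b y.2)).elim 0 (φ + ψ)
          = (Option.map₂ Prod.mk (P.map a y.1) (Q.map b y.2)).elim 0 φ
            + (Option.map₂ Prod.mk (P.map a y.1) (Q.map b y.2)).elim 0 ψ
        cases Option.map₂ Prod.mk (P.map a y.1) (Q.map b y.2) <;> simp
      map_smul' := fun c φ => by
        funext y
        show (Option.map₂ Prod.mk (P.map a y.1) (Q.map b y.2)).elim 0 (c • φ)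
          = c • (Option.map₂ Prod.mk (P.map a y.1) (Q.map b y.2)).elim 0 φ
        cases Option.map₂ Prod.mk (P.map a y.1) (Q.map b y.2) <;> simp }
  map_id φ := by
    funext y
    show (Option.map₂ Prod.mk (P.map OrderHom.id y.1) (Q.map OrderHom.id y.2)).elim 0 φ = φ y
    rw [P.map_id, Q.map_id]; rfl
  map_comp {p p' p'' q q' q''} f f' g g' φ := by
    funext y
    show (Option.map₂ Prod.mk (P.map (f'.comp f) y.1) (Q.map (g'.comp g) y.2)).elim 0 φ
      = (Option.map₂ Prod.mk (P.map f' y.1) (Q.map g' y.2)).elim 0
          (fun z => (Option.map₂ Prod.mk (P.map f z.1) (Q.map g z.2)).elim 0 φ)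
    rw [P.map_comp, Q.map_comp]
    cases h1 : P.map f' y.1 with
    | none => simp
    | some u =>
      cases h2 : Q.map g' y.2 with
      | none => simp
      | some z => simp

/-- The cross product of cochains. -/
def PS.cross (P Q : PS) (p q n : ℕ) (f : P.X p → k) (g : Q.X q → k) : (P.smash Q).X n → k :=
  fun x => (P.map (fr p n) x.1).elim 0 f * (Q.map (bk q n) x.2).elim 0 g

end Pool.Agent.SHS
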