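import Pool.Agent.SH.S.Defs2

/-!
Block III-S: the classes `uu`, `ee`, `iota n`, the operations `P s`, polynomial evaluation.
-/

namespace Pool.Agent.SHS

open Coch

theorem dlt_uC : dlt uC = 0 := by
  ext n x
  cases n with
  | zero => rfl
  | succ n =>
    rw [dlt_succ]
    by_cases h : n = 1
    · subst h
      simp only [uC, single_self, czero_apply]
      show ∑ i : Fin 3, (x.1 (cof i 1) - x.1 (cof i 0)) = 0
      rw [Fin.sum_univ_three]
      have e1 : (cof (0 : Fin 3) : Mor 1 2) 1 = 2 := rfl
      have e2 : (cof (0 : Fin 3) : Mor 1 2) 0 = 1 := rfl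
      have e3 : (cof (1 : Fin 3) : Mor 1 2) 1 = 2 := rfl
      have e4 : (cof (1 : Fin 3) : Mor 1 2) 0 = 0 := rfl
      have e5 : (cof (2 : Fin 3) : Mor 1 2) 1 = 1 := rfl
      have e6 : (cof (2 : Fin 3) : Mor 1 2) 0 = 0 := rfl
      rw [e1, e2, e3, e4, e5, e6]
      have t1 := k_two (x.1 2)
      have t2 := k_two (x.1 0)
      linear_combination t1 - t2
    · rw [Finset.sum_eq_zero]
      · rfl
      · intro i _
        exact single_ne h _ _

/-- The generator of the cohomology ring of `BB`. -/
noncomputable def uu : H BB := cls ⟨uC, dlt_uC⟩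

theorem uu_mem : uu ∈ Hn BB 1 := by
  refine mem_Hn.mpr ⟨⟨uC, dlt_uC⟩, ?_, rfl⟩
  show uC ∈ CochD BB 1
  unfold uC
  exact single_mem 1 _

/-- The map from the circle to `BB`. -/
def s1 : SS.Hom S1 BB where
  f n o := match o with
    | none => 0
    | some a => ⟨fun i => if a.1 i = 0 then 0 else 1, by
        show (if a.1 0 = 0 then (0 : k) else 1) = 0
        obtain ⟨j, hj⟩ := a.2 0
        have h1 : a.1 0 ≤ a.1 j := a.1.monotone (Fin.zero_le _)
        rw [hj] at h1
        rw [if_pos (le_antisymm h1 (Fin.zero_le _))]⟩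
  nat {m n} b o := by
    cases o with
    | none =>
      show (0 : Nrm m k) = (SV.const k).bar.map b 0
      rw [map_zero]
    | some a =>
      by_cases h : Function.Surjective (a.1.comp b)
      · have e : (PS.sphere 1).map b a = some ⟨a.1.comp b, h⟩ := dif_pos h
        show (match (PS.sphere 1).map b a with
          | none => (0 : Nrm m k)
          | some a => _) = _
        rw [e]
        apply Subtype.ext
        funext i
        show (if a.1 (b i) = 0 then (0 : k) else 1)
          = (if a.1 (b i) = 0 then 0 else 1) - (if a.1 (b 0) = 0 then 0 else 1)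
        obtain ⟨j, hj⟩ := h 0
        have h1 : a.1 (b 0) ≤ a.1 (b j) := a.1.monotone (b.monotone (Fin.zero_le _))
        rw [show a.1 (b j) = 0 from hj] at h1
        rw [if_pos (le_antisymm h1 (Fin.zero_le _)), sub_zero]
      · have e : (PS.sphere 1).map b a = none := dif_neg h
        show (match (PS.sphere 1).map b a with
          | none => (0 : Nrm m k)
          | some a => _) = _
        rw [e]
        apply Subtype.ext
        funext i
        show (0 : k) = (if a.1 (b i) = 0 then 0 else 1) - (if a.1 (b 0) = 0 then 0 else 1)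
        have key : (a.1 (b i) = 0) ↔ (a.1 (b 0) = 0) := by
          by_contra hne
          apply h
          have h2 : ∀ j : Fin 2, j = 0 ∨ j = 1 := by decide
          have h3 : a.1 (b 0) ≤ a.1 (b i) := a.1.monotone (b.monotone (Fin.zero_le _))
          have h4 : a.1 (b 0) = 0 ∧ a.1 (b i) = 1 := by
            rcases h2 (a.1 (b 0)) with h5 | h5
            · rcases h2 (a.1 (b i)) with h6 | h6
              · exact absurd ⟨fun _ => h5, fun _ => h6⟩ hne
              · exact ⟨h5, h6⟩
            · rcases h2 (a.1 (b i)) with h6 | h6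
              · rw [h5, h6] at h3
                exact absurd h3 (by decide)
              · refine absurd ⟨fun h7 => ?_, fun h7 => ?_⟩ hne
                · rw [h6] at h7; exact absurd h7 (by decide)
                · rw [h5] at h7; exact absurd h7 (by decide)
          intro j
          rcases h2 j with h5 | h5
          · exact ⟨0, by rw [h5]; exact h4.1⟩
          · exact ⟨i, by rw [h5]; exact h4.2⟩
        simp only [key, sub_self]

/-- The generator of the cohomology of the circle. -/
noncomputable def ee : H S1 := H.map s1 uu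

theorem dlt_iotaC (n : ℕ) : dlt (iotaC n) = 0 := by
  ext m x
  cases m with
  | zero => rfl
  | succ m =>
    rw [dlt_succ]
    by_cases h : m = n
    · subst h
      simp only [iotaC, single_self, czero_apply]
      exact x.2.2 OrderHom.id
    · rw [Finset.sum_eq_zero]
      · rfl
      · intro i _
        exact single_ne h _ _

/-- The fundamental class of `EM n`. -/
noncomputable def iota (n : ℕ) : H (EM n).toSS := cls ⟨iotaC n, dlt_iotaC n⟩

theorem iota_mem (n : ℕ) : iota n ∈ Hn (EM n).toSS n := by
  refine mem_Hn.mpr ⟨⟨iotaC n, dlt_iotaC n⟩, ?_, rfl⟩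
  show iotaC n ∈ CochD (EM n).toSS n
  unfold iotaC
  exact single_mem n _

/-! ### bilinearity of cup-i -/

theorem evl_add {X : SS} {n : ℕ} (f g : Coch X) (x : X.X n) (a : List (Fin (n + 1))) :
    evl (f + g) x a = evl f x a + evl g x a := by
  unfold evl; split_ifs <;> simp

theorem evl_smul {X : SS} {n : ℕ} (c : k) (f : Coch X) (x : X.X n) (a : List (Fin (n + 1))) :
    evl (c • f) x a = c * evl f x a := by
  unfold evl; split_ifs <;> simp

theorem evl_pull {X Y : SS} (φ : SS.Hom X Y) {n : ℕ} (f : Coch Y) (x : X.X n)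
    (a : List (Fin (n + 1))) : evl (pull φ f) x a = evl f (φ.f n x) a := by
  unfold evl; split_ifs
  · rw [pull_apply, φ.nat]
  · rfl

theorem cupS_add_left {X : SS} (m : ℕ) (f f' g : Coch X) :
    cupS m (f + f') g = cupS m f g + cupS m f' g := by
  ext n x
  rw [cadd_apply, cupS_apply, cupS_apply, cupS_apply, ← E_add]
  simp only [evl_add, add_mul]

theorem cupS_add_right {X : SS} (m : ℕ) (f g g' : Coch X) :
    cupS m f (g + g') = cupS m f g + cupS m f g' := by
  ext n x
  rw [cadd_apply, cupS_apply, cupS_apply, cupS_apply, ← E_add]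
  simp only [evl_add, mul_add]

theorem cupS_smul_left {X : SS} (m : ℕ) (c : k) (f g : Coch X) :
    cupS m (c • f) g = c • cupS m f g := by
  ext n x
  rw [csmul_apply, cupS_apply, cupS_apply, ← E_smul]
  simp only [evl_smul, mul_assoc]

theorem cupS_smul_right {X : SS} (m : ℕ) (c : k) (f g : Coch X) :
    cupS m f (c • g) = c • cupS m f g := by
  ext n x
  rw [csmul_apply, cupS_apply, cupS_apply, ← E_smul]
  simp only [evl_smul, mul_left_comm]

theorem cupS_zero_left {X : SS} (m : ℕ) (g : Coch X) : cupS m 0 g = 0 := by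
  have := cupS_smul_left m 0 (0 : Coch X) g
  rwa [zero_smul, zero_smul] at this

theorem cupS_zero_right {X : SS} (m : ℕ) (f : Coch X) : cupS m f 0 = 0 := by
  have := cupS_smul_right m 0 f (0 : Coch X)
  rwa [zero_smul, zero_smul] at this

theorem pull_cupS {X Y : SS} (φ : SS.Hom X Y) (m : ℕ) (f g : Coch Y) :
    pull φ (cupS m f g) = cupS m (pull φ f) (pull φ g) := by
  ext n x
  rw [pull_apply, cupS_apply, cupS_apply]
  simp only [evl_pull]

theorem dlt_cupS_self {X : SS} (s : ℕ) (f : Coch X) (hf : dlt f = 0) : dlt (cupS s f f) = 0 := by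
  cases s with
  | zero => rw [cupS_zero, map_zero]
  | succ s =>
    rw [dlt_cupS, hf, cupS_zero_left, cupS_zero_right, zero_add, zero_add, mod_two]

/-- cup-i square of a coboundary is a coboundary -/
theorem cupS_bd {X : SS} (s : ℕ) (g : Coch X) :
    ∃ h : Coch X, dlt h = cupS s (dlt g) (dlt g) := by
  cases s with
  | zero => exact ⟨0, by rw [map_zero, cupS_zero]⟩
  | succ s =>
    refine ⟨cupS (s + 1) g (dlt g) + cupS s g g, ?_⟩
    rw [map_add, dlt_cupS, dlt_dlt, cupS_zero_right]
    cases s with
    | zero =>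
      rw [cupS_zero, cupS_zero, cupS_zero, map_zero, add_zero, add_zero, add_zero, add_zero]
    | succ s =>
      rw [dlt_cupS]
      have t1 := mod_two (cupS (s + 1) g (dlt g))
      have t2 := mod_two (cupS (s + 1) (dlt g) g)
      have t3 := mod_two (cupS s g g)
      calc cupS (s + 1 + 1) (dlt g) (dlt g) + 0 + cupS (s + 1) g (dlt g) + cupS (s + 1) (dlt g) g
            + (cupS (s + 1) (dlt g) g + cupS (s + 1) g (dlt g) + cupS s g g + cupS s g g)
          = cupS (s + 1 + 1) (dlt g) (dlt g)
            + (cupS (s + 1) g (dlt g) + cupS (s + 1) g (dlt g))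
            + (cupS (s + 1) (dlt g) g + cupS (s + 1) (dlt g) g) + (cupS s g g + cupS s g g) := by abel
        _ = cupS (s + 1 + 1) (dlt g) (dlt g) := by rw [t1, t2, t3]; abel

/-- The operation [f] ↦ [f cup_(s-1) f], on cocycles. -/
noncomputable def PC (X : SS) (s : ℕ) : Cocyc X →ₗ[k] H X where
  toFun f := cls ⟨cupS s f.1 f.1, dlt_cupS_self s f.1 f.2⟩
  map_add' f g := by
    rw [← map_add, cls_eq]
    refine ⟨cupS (s + 1) f.1 g.1, ?_⟩
    rw [dlt_cupS, show dlt f.1 = 0 from f.2, show dlt g.1 = 0 from g.2, cupS_zero_left,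
      cupS_zero_right, zero_add, zero_add]
    show _ = cupS s (f.1 + g.1) (f.1 + g.1) - (cupS s f.1 f.1 + cupS s g.1 g.1)
    rw [cupS_add_left, cupS_add_right, cupS_add_right]
    abel
  map_smul' c f := by
    have hc : c = 0 ∨ c = 1 := by
      have : ∀ c : ZMod 2, c = 0 ∨ c = 1 := by decide
      exact this c
    rcases hc with rfl | rfl
    · rw [RingHom.id_apply, zero_smul, zero_smul, cls_eq_zero]
      exact ⟨0, by
        show dlt 0 = cupS s (0 : Coch X) 0
        rw [map_zero, cupS_zero_left]⟩
    · rw [RingHom.id_apply, one_smul, one_smul]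

/-- The operation `P s` : [f] ↦ [f cup_(s-1) f]; on degree m it is Sq^(m+1-s); `P 1 a = a ^ 2`. -/
noncomputable def Pop (s : ℕ) : NOp where
  f X := Submodule.liftQ ((Cobd X).restrictScalars k) (PC X s) (by
    rintro a ⟨g, hg⟩
    show cls _ = 0
    rw [cls_eq_zero]
    obtain ⟨h, hh⟩ := cupS_bd s g
    exact ⟨h, by rw [hh, hg]⟩)
  nat {X Y} φ a := by
    obtain ⟨f, rfl⟩ := cls_surjective a
    show cls _ = cls _
    congr 1
    apply Subtype.ext
    exact (pull_cupS φ s f.1 f.1).symm

theorem Pop_cls {X : SS} (s : ℕ) (f : Cocyc X) :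
    (Pop s).f X (cls f) = cls ⟨cupS s f.1 f.1, dlt_cupS_self s f.1 f.2⟩ := rfl

theorem Pop_one {X : SS} (a : H X) : (Pop 1).f X a = a ^ 2 := by
  obtain ⟨f, rfl⟩ := cls_surjective a
  rw [Pop_cls, pow_two, ← map_mul]
  congr 1
  apply Subtype.ext
  exact cupS_one f.1 f.1

noncomputable def NOp.id : NOp := ⟨fun _ => LinearMap.id, fun _ _ => rfl⟩
noncomputable def NOp.zero : NOp := ⟨fun _ => 0, fun φ _ => (map_zero (H.map φ)).symm⟩
noncomputable def NOp.comp (S T : NOp) : NOp := ⟨fun X => (S.f X).comp (T.f X), fun φ a => by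
  show (S.f _) ((T.f _) _) = H.map φ ((S.f _) ((T.f _) a))
  rw [T.nat, S.nat]⟩
noncomputable def NOp.add (S T : NOp) : NOp := ⟨fun X => S.f X + T.f X, fun φ a => by
  show (S.f _) _ + (T.f _) _ = H.map φ ((S.f _) a + (T.f _) a)
  rw [T.nat, S.nat, map_add]⟩

/-- Evaluation of polynomials in the classes u_1, ..., u_d of B(F_2^d). -/
noncomputable def evB (d : ℕ) : MvPolynomial (Fin d) k →ₐ[k] H (BB.pow d) :=
  MvPolynomial.aeval (fun i => H.map (BB.proj d i) uu)

end Pool.Agent.SHS
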