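import Pool.Agent.SH.S.StmtsD

/-!
# CNT: the two sets of monomials have the same number of elements
-/

set_option autoImplicit false

namespace Pool.Agent.SHS

namespace Cnt

/-- Multisets with `n` elements. -/
abbrev MS (n : ℕ) : Type := {J : Multiset ℕ // Multiset.card J = n}

theorem wgt_eq (J : Multiset ℕ) (i : ℕ) :
    wgt ((0 ::ₘ J).map (· + i)) = 2 ^ i * (wgt J + 1) := by
  unfold wgt
  rw [Multiset.map_map, Multiset.map_cons, Multiset.sum_cons]
  have h1 : (J.map ((fun i => 2 ^ i) ∘ fun x => x + i)) = J.map (fun j => 2 ^ i * 2 ^ j) := by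
    apply Multiset.map_congr rfl
    intro j _
    show 2 ^ (j + i) = 2 ^ i * 2 ^ j
    rw [pow_add, mul_comm]
  rw [h1, Multiset.sum_map_mul_left]
  show 2 ^ (0 + i) + 2 ^ i * (J.map fun i => 2 ^ i).sum = 2 ^ i * ((J.map fun i => 2 ^ i).sum + 1)
  rw [zero_add]
  ring

/-- The map from pairs to multisets. -/
def up (n : ℕ) (x : MS n × ℕ) : MS (n + 1) :=
  ⟨(0 ::ₘ x.1.1).map (· + x.2), by rw [Multiset.card_map, Multiset.card_cons, x.1.2]⟩

theorem up_injective (n : ℕ) : Function.Injective (up n) := by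
  rintro ⟨⟨J, hJ⟩, i⟩ ⟨⟨J', hJ'⟩, i'⟩ h
  have h1 : (0 ::ₘ J).map (· + i) = (0 ::ₘ J').map (· + i') := congrArg Subtype.val h
  have key : ∀ (J J' : Multiset ℕ) (i i' : ℕ),
      (0 ::ₘ J).map (· + i) = (0 ::ₘ J').map (· + i') → i' ≤ i := by
    intro J J' i i' h
    have h2 : i ∈ (0 ::ₘ J).map (· + i) := by
      rw [Multiset.mem_map]
      exact ⟨0, Multiset.mem_cons_self _ _, Nat.zero_add i⟩
    rw [h, Multiset.mem_map] at h2
    obtain ⟨j, -, hj⟩ := h2
    omega
  have h3 : i = i' := le_antisymm (key _ _ _ _ h1.symm) (key _ _ _ _ h1)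
  subst h3
  have h4 := Multiset.map_injective (fun a b (hab : a + i = b + i) => Nat.add_right_cancel hab) h1
  rw [Multiset.cons_inj_right] at h4
  subst h4
  rfl

theorem up_surjective (n : ℕ) : Function.Surjective (up n) := by
  classical
  rintro ⟨J, hJ⟩
  have hne : ∃ i, i ∈ J := by
    by_contra hc
    push Not at hc
    rw [Multiset.eq_zero_of_forall_notMem hc] at hJ
    simp at hJ
  obtain ⟨i, hi, hmin⟩ : ∃ i ∈ J, ∀ j ∈ J, i ≤ j :=
    ⟨Nat.find hne, Nat.find_spec hne, fun j hj => Nat.find_min' hne hj⟩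
  have h0 : 0 ∈ J.map (· - i) := by
    rw [Multiset.mem_map]
    exact ⟨i, hi, Nat.sub_self i⟩
  have h1 : (J.map (· - i)).map (· + i) = J := by
    rw [Multiset.map_map]
    conv_rhs => rw [← Multiset.map_id J]
    apply Multiset.map_congr rfl
    intro j hj
    exact Nat.sub_add_cancel (hmin j hj)
  refine ⟨(⟨(J.map (· - i)).erase 0, ?_⟩, i), ?_⟩
  · rw [Multiset.card_erase_of_mem h0, Multiset.card_map, hJ]
    rfl
  · apply Subtype.ext
    show (0 ::ₘ (J.map (· - i)).erase 0).map (· + i) = J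
    rw [Multiset.cons_erase h0, h1]

/-- The bijection. -/
noncomputable def upE (n : ℕ) : MS n × ℕ ≃ MS (n + 1) :=
  Equiv.ofBijective (up n) ⟨up_injective n, up_surjective n⟩

theorem wgt_upE (n : ℕ) (x : MS n × ℕ) : wgt (upE n x).1 = 2 ^ x.2 * (wgt x.1.1 + 1) :=
  wgt_eq x.1.1 x.2

section Digits

variable {A : Type}

open Classical in
/-- The numbers `i` with `(a, i)` in `S`. -/
noncomputable def fib (S : Finset (A × ℕ)) (a : A) : Finset ℕ :=
  (S.filter (fun x => x.1 = a)).image Prod.snd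

theorem mem_fib {S : Finset (A × ℕ)} {a : A} {i : ℕ} : i ∈ fib S a ↔ (a, i) ∈ S := by
  classical
  unfold fib
  rw [Finset.mem_image]
  constructor
  · rintro ⟨⟨b, j⟩, h, rfl⟩
    rw [Finset.mem_filter] at h
    obtain ⟨h1, h2⟩ := h
    have h3 : b = a := h2
    subst h3
    exact h1
  · intro h
    exact ⟨(a, i), Finset.mem_filter.2 ⟨h, rfl⟩, rfl⟩

/-- The function with the given binary digits. -/
noncomputable def num (S : Finset (A × ℕ)) : A →₀ ℕ := ∑ x ∈ S, Finsupp.single x.1 (2 ^ x.2)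

theorem num_apply (S : Finset (A × ℕ)) (a : A) : num S a = ∑ i ∈ fib S a, 2 ^ i := by
  classical
  unfold num fib
  rw [Finsupp.finsetSum_apply, Finset.sum_image]
  · rw [Finset.sum_filter]
    apply Finset.sum_congr rfl
    intro x _
    rw [Finsupp.single_apply]
  · rintro ⟨b, i⟩ hx ⟨c, j⟩ hy hij
    have h1 : b = a := (Finset.mem_filter.1 hx).2
    have h2 : c = a := (Finset.mem_filter.1 hy).2
    have h3 : i = j := hij
    rw [h1, h2, h3]

theorem sum_two_pow_injective {s t : Finset ℕ} (h : ∑ i ∈ s, 2 ^ i = ∑ i ∈ t, 2 ^ i) : s = t :=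
  Finset.equivBitIndices.symm.injective h

theorem exists_digits (m : ℕ) : ∃ s : Finset ℕ, ∑ i ∈ s, 2 ^ i = m :=
  ⟨Finset.equivBitIndices m, Finset.equivBitIndices.symm_apply_apply m⟩

theorem num_injective : Function.Injective (num : Finset (A × ℕ) → A →₀ ℕ) := by
  intro S S' h
  ext ⟨a, i⟩
  have h1 : fib S a = fib S' a := by
    apply sum_two_pow_injective
    rw [← num_apply, ← num_apply, h]
  rw [← mem_fib, ← mem_fib, h1]

theorem num_surjective : Function.Surjective (num : Finset (A × ℕ) → A →₀ ℕ) := by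
  classical
  intro f
  choose s hs using fun a => exists_digits (f a)
  refine ⟨f.support.biUnion (fun a => (s a).image (fun i => (a, i))), ?_⟩
  ext a
  rw [num_apply, ← hs a]
  apply Finset.sum_congr _ (fun _ _ => rfl)
  ext i
  rw [mem_fib, Finset.mem_biUnion]
  constructor
  · rintro ⟨b, -, hb⟩
    rw [Finset.mem_image] at hb
    obtain ⟨j, hj, hbj⟩ := hb
    cases hbj
    exact hj
  · intro hi
    refine ⟨a, ?_, Finset.mem_image.2 ⟨i, hi, rfl⟩⟩
    rw [Finsupp.mem_support_iff]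
    intro h0
    have h1 : 2 ^ i ≤ ∑ i ∈ s a, 2 ^ i :=
      Finset.single_le_sum (f := fun i => 2 ^ i) (fun _ _ => Nat.zero_le _) hi
    rw [hs a, h0] at h1
    have h2 : 0 < 2 ^ i := Nat.two_pow_pos i
    omega

theorem sum_num (c : A → ℕ) (S : Finset (A × ℕ)) :
    ((num S).sum fun a m => m * c a) = ∑ x ∈ S, 2 ^ x.2 * c x.1 := by
  have h : ∀ f : A →₀ ℕ, (f.sum fun a m => m * c a) =
      Finsupp.liftAddHom (fun a => AddMonoidHom.mulRight (c a)) f := by
    intro f
    rw [Finsupp.liftAddHom_apply]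
    rfl
  rw [h]
  unfold num
  rw [map_sum]
  apply Finset.sum_congr rfl
  intro x _
  rw [Finsupp.liftAddHom_apply_single]
  rfl

end Digits

end Cnt

/-- **CNT** -/
theorem CNT : CNT_Stmt := by
  intro n d
  let E1 : Finset (Cnt.MS n × ℕ) ≃ (Cnt.MS n →₀ ℕ) :=
    Equiv.ofBijective Cnt.num ⟨Cnt.num_injective, Cnt.num_surjective⟩
  let E2 : Finset (Cnt.MS n × ℕ) ≃ Finset (Cnt.MS (n + 1)) := (Cnt.upE n).finsetCongr
  refine Nat.card_congr (Equiv.subtypeEquiv (E1.symm.trans E2) ?_)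
  intro f
  obtain ⟨S, rfl⟩ := E1.surjective f
  have h1 : (E1.symm.trans E2) (E1 S) = S.map (Cnt.upE n).toEmbedding := by
    rw [Equiv.trans_apply, Equiv.symm_apply_apply]
    rfl
  have h2 : ∑ J ∈ S.map (Cnt.upE n).toEmbedding, wgt J.1 =
      ∑ x ∈ S, 2 ^ x.2 * (wgt x.1.1 + 1) := by
    rw [Finset.sum_map]
    exact Finset.sum_congr rfl fun x _ => Cnt.wgt_upE n x
  have h3 := Cnt.sum_num (fun J : Cnt.MS n => wgt J.1 + 1) S
  rw [h1, h2]
  show ((Cnt.num S).sum fun J m => m * (wgt J.1 + 1)) = d ↔ _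
  rw [h3]

end Pool.Agent.SHS
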