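import Pool.Agent.SH.S.Ring

/-!
The cohomology ring `H X`, first only as a (non-commutative) ring; functoriality.
-/

namespace Pool.Agent.SHS

open Coch

theorem Coch.dlt_one {X : SS} : dlt (1 : Coch X) = 0 := by
  ext n x
  cases n with
  | zero => rfl
  | succ n =>
    rw [dlt_succ]
    simp only [cone_apply, czero_apply]
    cases n with
    | zero =>
      simp only [if_true]
      rw [Fin.sum_univ_two]
      exact k_two 1
    | succ n => simp

/-- Cocycles form a subalgebra. -/
def Cocyc (X : SS) : Subalgebra k (Coch X) where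
  carrier := {f | dlt f = 0}
  mul_mem' := fun {f g} hf hg => by
    show dlt (f * g) = 0
    rw [leibniz, show dlt f = 0 from hf, show dlt g = 0 from hg, zero_mul, mul_zero, add_zero]
  add_mem' := fun {f g} hf hg => by
    show dlt (f + g) = 0
    rw [map_add, show dlt f = 0 from hf, show dlt g = 0 from hg, add_zero]
  algebraMap_mem' := fun c => by
    show dlt (algebraMap k (Coch X) c) = 0
    rw [Algebra.algebraMap_eq_smul_one, map_smul, dlt_one, smul_zero]

/-- Coboundaries form a two-sided ideal of the algebra of cocycles. -/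
def Cobd (X : SS) : Ideal (Cocyc X) where
  carrier := {f | ∃ g : Coch X, dlt g = f.1}
  zero_mem' := ⟨0, map_zero _⟩
  add_mem' := by
    rintro a b ⟨g, hg⟩ ⟨h, hh⟩
    exact ⟨g + h, by rw [map_add, hg, hh]; rfl⟩
  smul_mem' := by
    rintro c a ⟨g, hg⟩
    refine ⟨c.1 * g, ?_⟩
    rw [leibniz, show dlt c.1 = 0 from c.2, zero_mul, zero_add, hg]
    rfl

instance (X : SS) : (Cobd X).IsTwoSided where
  mul_mem_of_left := by
    rintro a b ⟨g, hg⟩
    refine ⟨g * b.1, ?_⟩
    rw [leibniz, show dlt b.1 = 0 from b.2, mul_zero, add_zero, hg]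
    rfl

/-- The total cohomology ring (product of all cohomology groups). -/
def H (X : SS) : Type := Cocyc X ⧸ Cobd X

noncomputable instance (X : SS) : Ring (H X) := inferInstanceAs (Ring (Cocyc X ⧸ Cobd X))
noncomputable instance (X : SS) : Algebra k (H X) := inferInstanceAs (Algebra k (Cocyc X ⧸ Cobd X))

/-- The class of a cocycle. -/
noncomputable def cls {X : SS} : Cocyc X →ₐ[k] H X := Ideal.Quotient.mkₐ k (Cobd X)

theorem cls_surjective {X : SS} : Function.Surjective (cls (X := X)) :=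
  Ideal.Quotient.mkₐ_surjective k (Cobd X)

theorem cls_eq_zero {X : SS} (f : Cocyc X) : cls f = 0 ↔ ∃ g : Coch X, dlt g = f.1 :=
  Ideal.Quotient.eq_zero_iff_mem

theorem cls_eq {X : SS} (f g : Cocyc X) : cls f = cls g ↔ ∃ h : Coch X, dlt h = f.1 - g.1 := by
  rw [← sub_eq_zero, ← map_sub, cls_eq_zero]; rfl

/-- Cochains of degree `n`. -/
def CochD (X : SS) (n : ℕ) : Submodule k (Coch X) where
  carrier := {f | ∀ m, m ≠ n → ∀ x, f m x = 0}
  zero_mem' := fun _ _ _ => rfl
  add_mem' := fun {f g} hf hg m hm x => by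
    show f m x + g m x = 0
    rw [hf m hm, hg m hm, add_zero]
  smul_mem' := fun c f hf m hm x => by
    show c * f m x = 0
    rw [hf m hm, mul_zero]

/-- The degree `n` part of the cohomology ring. -/
noncomputable def Hn (X : SS) (n : ℕ) : Submodule k (H X) :=
  ((CochD X n).comap (Cocyc X).val.toLinearMap).map (cls (X := X)).toLinearMap

theorem mem_Hn {X : SS} {n : ℕ} {a : H X} :
    a ∈ Hn X n ↔ ∃ f : Cocyc X, f.1 ∈ CochD X n ∧ cls f = a := Iff.rfl

/-- The cochain of degree `n` given by a function on `n`-simplices. -/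
def Coch.single {X : SS} (n : ℕ) (φ : X.X n → k) : Coch X :=
  ⟨fun m x => if h : m = n then φ (h ▸ x) else 0⟩

theorem Coch.single_self {X : SS} (n : ℕ) (φ : X.X n → k) (x : X.X n) : single n φ n x = φ x := by
  show (if h : n = n then φ (h ▸ x) else 0) = φ x
  rw [dif_pos rfl]

theorem Coch.single_ne {X : SS} {m n : ℕ} (h : m ≠ n) (φ : X.X n → k) (x : X.X m) :
    single n φ m x = 0 := dif_neg h

theorem Coch.single_mem {X : SS} (n : ℕ) (φ : X.X n → k) : single n φ ∈ CochD X n :=
  fun _ h x => single_ne h φ x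

theorem Coch.eq_single {X : SS} {n : ℕ} {f : Coch X} (hf : f ∈ CochD X n) : f = single n (f n) := by
  ext m x
  by_cases h : m = n
  · subst h; rw [single_self]
  · rw [single_ne h, hf m h]

/-- Pull back of cochains. -/
def Coch.pull {X Y : SS} (φ : SS.Hom X Y) : Coch Y →ₐ[k] Coch X where
  toFun f := ⟨fun n x => f n (φ.f n x)⟩
  map_one' := rfl
  map_mul' f g := by
    ext n x
    show (f * g) n (φ.f n x) = _
    rw [cmul_apply, cmul_apply]
    simp only [φ.nat]
  map_zero' := rfl
  map_add' f g := rfl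
  commutes' c := rfl

theorem Coch.pull_apply {X Y : SS} (φ : SS.Hom X Y) (f : Coch Y) (n : ℕ) (x : X.X n) :
    pull φ f n x = f n (φ.f n x) := rfl

theorem Coch.dlt_pull {X Y : SS} (φ : SS.Hom X Y) (f : Coch Y) : dlt (pull φ f) = pull φ (dlt f) := by
  ext n x
  cases n with
  | zero => rfl
  | succ n =>
    rw [dlt_succ, pull_apply, dlt_succ]
    simp only [pull_apply, φ.nat]

/-- Pull back of cocycles. -/
def Cocyc.pull {X Y : SS} (φ : SS.Hom X Y) : Cocyc Y →ₐ[k] Cocyc X :=
  ((Coch.pull φ).comp (Cocyc Y).val).codRestrict (Cocyc X) (fun f => by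
    show dlt (Coch.pull φ f.1) = 0
    rw [dlt_pull, show dlt f.1 = 0 from f.2, map_zero])

/-- The ring homomorphism induced in cohomology. -/
noncomputable def H.map {X Y : SS} (φ : SS.Hom X Y) : H Y →ₐ[k] H X :=
  Ideal.Quotient.liftₐ (Cobd Y) ((cls (X := X)).comp (Cocyc.pull φ)) (by
    rintro a ⟨g, hg⟩
    show cls (Cocyc.pull φ a) = 0
    rw [cls_eq_zero]
    exact ⟨Coch.pull φ g, by rw [dlt_pull, hg]; rfl⟩)

theorem H.map_cls {X Y : SS} (φ : SS.Hom X Y) (f : Cocyc Y) :
    H.map φ (cls f) = cls (Cocyc.pull φ f) := rfl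

theorem H.map_id {X : SS} (a : H X) : H.map (SS.Hom.id X) a = a := by
  obtain ⟨f, rfl⟩ := cls_surjective a
  rfl

theorem H.map_comp {X Y Z : SS} (g : SS.Hom Y Z) (f : SS.Hom X Y) (a : H Z) :
    H.map (g.comp f) a = H.map f (H.map g a) := by
  obtain ⟨z, rfl⟩ := cls_surjective a
  rfl

theorem H.map_mem {X Y : SS} (φ : SS.Hom X Y) {n : ℕ} {a : H Y} (h : a ∈ Hn Y n) :
    H.map φ a ∈ Hn X n := by
  obtain ⟨f, hf, rfl⟩ := mem_Hn.mp h
  refine mem_Hn.mpr ⟨Cocyc.pull φ f, ?_, rfl⟩
  intro m hm x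
  exact hf m hm (φ.f m x)

end Pool.Agent.SHS
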