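import Pool.Agent.SH.S.Coho

/-!
Cup-i products by a two-state automaton, and their coboundary formula.
`E m L Φ` runs through the list of vertices `L`; letters go to the first list; at `m` switch
points the letter goes to both lists and the roles are exchanged.
-/

namespace Pool.Agent.SHS

section automaton
variable {V : Type*}

def E : ℕ → List V → (List V → List V → k) → k
  | 0, [], Φ => Φ [] []
  | _ + 1, [], _ => 0
  | 0, v :: L, Φ => E 0 L (fun a b => Φ (v :: a) b)
  | m + 1, v :: L, Φ => E (m + 1) L (fun a b => Φ (v :: a) b) + E m L (fun a b => Φ (v :: b) (v :: a))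

theorem E_add (m : ℕ) (L : List V) (Φ Ψ : List V → List V → k) :
    E m L (fun a b => Φ a b + Ψ a b) = E m L Φ + E m L Ψ := by
  induction L generalizing m Φ Ψ with
  | nil => cases m <;> simp [E]
  | cons v L ih =>
    cases m with
    | zero => simp only [E]; rw [ih]
    | succ m => simp only [E]; rw [ih, ih]; ring

theorem E_smul (m : ℕ) (L : List V) (c : k) (Φ : List V → List V → k) :
    E m L (fun a b => c * Φ a b) = c * E m L Φ := by
  induction L generalizing m Φ with
  | nil => cases m <;> simp [E]
  | cons v L ih =>
    cases m with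
    | zero => simp only [E]; rw [ih]
    | succ m => simp only [E]; rw [ih, ih]; ring

theorem E_congr (m : ℕ) (L : List V) (Φ Ψ : List V → List V → k)
    (h : ∀ a b, a.Sublist L → b.Sublist L → Φ a b = Ψ a b) : E m L Φ = E m L Ψ := by
  induction L generalizing m Φ Ψ with
  | nil =>
    cases m with
    | zero => exact h [] [] (List.Sublist.refl _) (List.Sublist.refl _)
    | succ m => rfl
  | cons v L ih =>
    cases m with
    | zero =>
      simp only [E]
      exact ih 0 _ _ fun a b ha hb => h _ _ (ha.cons_cons v) (hb.cons v)
    | succ m =>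
      simp only [E]
      rw [ih (m + 1) _ _ fun a b ha hb => h _ _ (ha.cons_cons v) (hb.cons v),
        ih m _ _ fun a b ha hb => h _ _ (hb.cons_cons v) (ha.cons_cons v)]

theorem E_map {W : Type*} (g : V → W) (m : ℕ) (L : List V) (Φ : List W → List W → k) :
    E m (L.map g) Φ = E m L (fun a b => Φ (a.map g) (b.map g)) := by
  induction L generalizing m Φ with
  | nil => cases m <;> rfl
  | cons v L ih =>
    cases m with
    | zero => simp only [E, List.map_cons]; rw [ih]
    | succ m => simp only [E, List.map_cons]; rw [ih, ih]

theorem E_zero (L : List V) (Φ : List V → List V → k) : E 0 L Φ = Φ L [] := by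
  induction L generalizing Φ with
  | nil => rfl
  | cons v L ih => simp only [E]; rw [ih]

theorem E_one (L : List V) (Φ : List V → List V → k) :
    E 1 L Φ = ∑ j ∈ Finset.range L.length, Φ (L.take (j + 1)) (L.drop j) := by
  induction L generalizing Φ with
  | nil => rfl
  | cons v L ih =>
    simp only [E]
    rw [ih, E_zero, List.length_cons, Finset.sum_range_succ']
    rfl

/-- boundary of a function of two lists -/
def bd (Φ : List V → List V → k) (a b : List V) : k :=
  (∑ j ∈ Finset.range a.length, Φ (a.eraseIdx j) b) + ∑ j ∈ Finset.range b.length, Φ a (b.eraseIdx j)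

theorem bd_swap (Φ : List V → List V → k) (a b : List V) :
    bd (fun a b => Φ b a) a b = bd Φ b a := by
  unfold bd; rw [add_comm]

theorem bd_cons_left (Φ : List V → List V → k) (v : V) (a b : List V) :
    bd Φ (v :: a) b = Φ a b + bd (fun a b => Φ (v :: a) b) a b := by
  unfold bd
  rw [List.length_cons, Finset.sum_range_succ']
  simp only [List.eraseIdx_cons_succ, List.eraseIdx_cons_zero]
  ring

theorem bd_cons_both (Φ : List V → List V → k) (v : V) (a b : List V) :
    bd Φ (v :: a) (v :: b)
      = Φ a (v :: b) + Φ (v :: a) b + bd (fun a b => Φ (v :: a) (v :: b)) a b := by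
  unfold bd
  rw [List.length_cons, List.length_cons, Finset.sum_range_succ', Finset.sum_range_succ']
  simp only [List.eraseIdx_cons_succ, List.eraseIdx_cons_zero]
  ring

theorem E_bd_zero (L : List V) (Φ : List V → List V → k) :
    E 0 L (bd Φ) + ∑ j ∈ Finset.range L.length, E 0 (L.eraseIdx j) Φ = 0 := by
  rw [E_zero]
  simp only [E_zero, bd, List.length_nil, Finset.range_zero, Finset.sum_empty, add_zero]
  exact k_two _

theorem E_bd (m : ℕ) (L : List V) (Φ : List V → List V → k) :
    E (m + 1) L (bd Φ) + ∑ j ∈ Finset.range L.length, E (m + 1) (L.eraseIdx j) Φ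
      = E m L Φ + E m L (fun a b => Φ b a) := by
  induction L generalizing m Φ with
  | nil =>
    cases m with
    | zero =>
      simp only [E, List.length_nil, Finset.range_zero, Finset.sum_empty, add_zero]
      exact (k_two _).symm
    | succ m => simp only [E, List.length_nil, Finset.range_zero, Finset.sum_empty]
  | cons v L ih =>
    rw [List.length_cons, Finset.sum_range_succ']
    simp only [List.eraseIdx_cons_succ, List.eraseIdx_cons_zero]
    simp only [E, Finset.sum_add_distrib]
    have i1 := ih m (fun a b => Φ (v :: a) b)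
    have e1 : E (m + 1) L (fun a b => bd Φ (v :: a) b)
        = E (m + 1) L Φ + E (m + 1) L (bd fun a b => Φ (v :: a) b) := by
      simp only [bd_cons_left]
      exact E_add _ _ _ _
    have e2 : E m L (fun a b => bd Φ (v :: b) (v :: a))
        = E m L (fun a b => Φ b (v :: a)) + E m L (fun a b => Φ (v :: b) a)
          + E m L (bd fun a b => Φ (v :: b) (v :: a)) := by
      simp only [bd_cons_both]
      rw [E_add, E_add]
      congr 1
      apply E_congr
      intro a b _ _
      exact (bd_swap (fun a b => Φ (v :: a) (v :: b)) a b).symm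
    rw [e1, e2]
    cases m with
    | zero =>
      have i2 := E_bd_zero L (fun a b => Φ (v :: b) (v :: a))
      have t1 := k_two (E 1 L Φ)
      have t2 := k_two (E 0 L (fun a b => Φ (v :: b) a))
      simp only [zero_add] at i1 ⊢
      simp only [E] at i1 i2 t1 t2 ⊢
      linear_combination i1 + i2 + t1 + t2
    | succ m =>
      have i2 := ih m (fun a b => Φ (v :: b) (v :: a))
      have t1 := k_two (E (m + 1 + 1) L Φ)
      have t2 := k_two (E (m + 1) L (fun a b => Φ (v :: b) a))
      simp only [E] at i1 i2 t1 t2 ⊢
      linear_combination i1 + i2 + t1 + t2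

end automaton

section ev
variable {X : SS} {n : ℕ}

theorem ofFn_eq {p p' : ℕ} {u : Mor p n} {u' : Mor p' n} (h : List.ofFn u = List.ofFn u')
    (f : Coch X) (x : X.X n) : f p (X.map u x) = f p' (X.map u' x) := by
  have hl : p = p' := by
    have := congrArg List.length h
    rw [List.length_ofFn, List.length_ofFn] at this
    omega
  subst hl
  have : u = u' := by
    apply OrderHom.ext
    exact List.ofFn_injective h
  rw [this]

/-- Value of a cochain on the face of `x` given by a list of vertices (0 for the empty list and
for lists which are not monotone). -/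
noncomputable def evl (f : Coch X) (x : X.X n) (a : List (Fin (n + 1))) : k :=
  open Classical in
  if h : ∃ (p : ℕ) (u : Mor p n), a = List.ofFn u then
    f h.choose (X.map h.choose_spec.choose x) else 0

theorem evl_ofFn (f : Coch X) (x : X.X n) {p : ℕ} (u : Mor p n) :
    evl f x (List.ofFn u) = f p (X.map u x) := by
  have h : ∃ (p' : ℕ) (u' : Mor p' n), List.ofFn u = List.ofFn u' := ⟨p, u, rfl⟩
  unfold evl
  rw [dif_pos h]
  exact (ofFn_eq h.choose_spec.choose_spec f x).symm

theorem evl_nil (f : Coch X) (x : X.X n) : evl f x [] = 0 := by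
  unfold evl
  rw [dif_neg]
  rintro ⟨p, u, hu⟩
  have := congrArg List.length hu
  rw [List.length_ofFn] at this
  simp at this

theorem sub_cases (a : List (Fin (n + 1))) (h : a.Sublist (List.finRange (n + 1))) :
    a = [] ∨ ∃ (p : ℕ) (u : Mor p n), a = List.ofFn u := by
  rcases Nat.eq_zero_or_pos a.length with h0 | h0
  · left; exact List.eq_nil_of_length_eq_zero h0
  · right
    have hs : a.Pairwise (· < ·) := List.Pairwise.sublist h (List.pairwise_lt_finRange (n + 1))
    have hp : a.length = (a.length - 1) + 1 := by omega
    refine ⟨a.length - 1, ⟨fun i => a.get (Fin.cast hp.symm i), ?_⟩, ?_⟩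
    · intro i j hij
      rcases eq_or_lt_of_le hij with h1 | h1
      · rw [h1]
      · apply le_of_lt
        exact List.pairwise_iff_get.mp hs _ _ (by simpa using h1)
    · apply List.ext_getElem
      · rw [List.length_ofFn]; exact hp
      · intro i h1 h2
        rw [List.getElem_ofFn]
        rfl

theorem ofFn_eraseIdx {p : ℕ} (u : Mor (p + 1) n) (j : ℕ) (hj : j < p + 2) :
    (List.ofFn u).eraseIdx j = List.ofFn (u.comp (cofN j p)) := by
  apply List.ext_getElem
  · rw [List.length_eraseIdx, List.length_ofFn, List.length_ofFn, if_pos hj]; rfl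
  · intro i h1 h2
    rw [List.getElem_eraseIdx]
    simp only [List.getElem_ofFn]
    rw [List.length_ofFn] at h2
    split_ifs with h
    · show u _ = u (cofN j p ⟨i, h2⟩)
      congr 1
      ext
      rw [cofN_val]
      simp [h]
    · show u _ = u (cofN j p ⟨i, h2⟩)
      congr 1
      ext
      rw [cofN_val]
      simp [h]

theorem evl_dlt (f : Coch X) (x : X.X n) (a : List (Fin (n + 1)))
    (h : a.Sublist (List.finRange (n + 1))) :
    evl (Coch.dlt f) x a = ∑ j ∈ Finset.range a.length, evl f x (a.eraseIdx j) := by
  rcases sub_cases a h with rfl | ⟨p, u, rfl⟩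
  · rw [evl_nil]; rfl
  · rw [evl_ofFn, List.length_ofFn]
    cases p with
    | zero =>
      rw [Coch.dlt_zero, show Finset.range (0 + 1) = {0} from rfl, Finset.sum_singleton]
      have : (List.ofFn u).eraseIdx 0 = [] := by
        apply List.eq_nil_of_length_eq_zero
        rw [List.length_eraseIdx, List.length_ofFn]
        simp
      rw [this, evl_nil]
    | succ p =>
      rw [Coch.dlt_succ']
      apply Finset.sum_congr rfl
      intro j hj
      rw [Finset.mem_range] at hj
      rw [ofFn_eraseIdx u j hj, evl_ofFn, X.map_comp]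

theorem finRange_eraseIdx (c : ℕ) (hc : c < n + 2) :
    (List.finRange (n + 2)).eraseIdx c = (List.finRange (n + 1)).map (cofN c n) := by
  apply List.ext_getElem
  · rw [List.length_eraseIdx]; simp [hc]
  · intro i h1 h2
    rw [List.getElem_eraseIdx]
    simp only [List.length_map, List.length_finRange] at h2
    simp only [List.getElem_finRange, List.getElem_map]
    ext
    rw [cofN_val]
    by_cases h : i < c <;> simp [h]

theorem finRange_take (j : ℕ) (hj : j < n + 1) :
    (List.finRange (n + 1)).take (j + 1) = List.ofFn (fr j n) := by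
  apply List.ext_getElem
  · rw [List.length_take, List.length_ofFn, List.length_finRange]; omega
  · intro i h1 h2
    rw [List.length_ofFn] at h2
    simp only [List.getElem_take, List.getElem_finRange, List.getElem_ofFn]
    ext
    rw [fr_val]
    simp; omega

theorem finRange_drop (j : ℕ) (hj : j < n + 1) :
    (List.finRange (n + 1)).drop j = List.ofFn (bk (n - j) n) := by
  apply List.ext_getElem
  · rw [List.length_drop, List.length_ofFn, List.length_finRange]; omega
  · intro i h1 h2
    rw [List.length_ofFn] at h2
    simp only [List.getElem_drop, List.getElem_finRange, List.getElem_ofFn]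
    ext
    rw [bk_val]
    simp; omega

theorem evl_map {m : ℕ} (f : Coch X) (g : Mor m n) (x : X.X n) (a : List (Fin (m + 1)))
    (h : a.Sublist (List.finRange (m + 1))) :
    evl f (X.map g x) a = evl f x (a.map g) := by
  rcases sub_cases a h with rfl | ⟨p, u, rfl⟩
  · rw [evl_nil, List.map_nil, evl_nil]
  · have : (List.ofFn u).map g = List.ofFn (g.comp u) := by
      rw [List.map_ofFn]; rfl
    rw [this, evl_ofFn, evl_ofFn, X.map_comp]

end ev

/-- Cup products with `m` switch points: `cupS 1` is the cup product, `cupS (i+1)` is cup-i. -/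
noncomputable def cupS {X : SS} (m : ℕ) (f g : Coch X) : Coch X :=
  ⟨fun n x => E m (List.finRange (n + 1)) (fun a b => evl f x a * evl g x b)⟩

theorem cupS_apply {X : SS} (m : ℕ) (f g : Coch X) (n : ℕ) (x : X.X n) :
    cupS m f g n x = E m (List.finRange (n + 1)) (fun a b => evl f x a * evl g x b) := rfl

theorem cupS_zero {X : SS} (f g : Coch X) : cupS 0 f g = 0 := by
  ext n x
  rw [cupS_apply, E_zero, evl_nil, mul_zero]; rfl

theorem cupS_one {X : SS} (f g : Coch X) : cupS 1 f g = f * g := by
  ext n x
  rw [cupS_apply, E_one, Coch.cmul_apply, Finset.Nat.sum_antidiagonal_eq_sum_range_succ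
    (fun p q => f p (X.map (fr p n) x) * g q (X.map (bk q n) x)), List.length_finRange]
  apply Finset.sum_congr rfl
  intro j hj
  rw [Finset.mem_range] at hj
  rw [finRange_take j hj, finRange_drop j hj, evl_ofFn, evl_ofFn]

/-- The coboundary formula for cup-i products. -/
theorem dlt_cupS {X : SS} (m : ℕ) (f g : Coch X) :
    Coch.dlt (cupS (m + 1) f g) = cupS (m + 1) (Coch.dlt f) g + cupS (m + 1) f (Coch.dlt g)
      + cupS m f g + cupS m g f := by
  have key : ∀ (n : ℕ) (x : X.X n),
      (cupS (m + 1) (Coch.dlt f) g + cupS (m + 1) f (Coch.dlt g)) n x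
        + ∑ j ∈ Finset.range (n + 1), E (m + 1) ((List.finRange (n + 1)).eraseIdx j)
            (fun a b => evl f x a * evl g x b)
      = (cupS m f g + cupS m g f) n x := by
    intro n x
    have h := E_bd m (List.finRange (n + 1)) (fun a b => evl f x a * evl g x b)
    rw [List.length_finRange] at h
    have h2 : E (m + 1) (List.finRange (n + 1)) (bd fun a b => evl f x a * evl g x b)
        = (cupS (m + 1) (Coch.dlt f) g + cupS (m + 1) f (Coch.dlt g)) n x := by
      rw [Coch.cadd_apply, cupS_apply, cupS_apply, ← E_add]
      apply E_congr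
      intro a b ha hb
      unfold bd
      rw [evl_dlt f x a ha, evl_dlt g x b hb, Finset.sum_mul, Finset.mul_sum]
    rw [← h2, h, Coch.cadd_apply, cupS_apply, cupS_apply]
    congr 1
    apply E_congr
    intro a b _ _
    exact mul_comm _ _
  ext n x
  have hk := key n x
  cases n with
  | zero =>
    rw [Coch.dlt_zero]
    have e : ∑ j ∈ Finset.range (0 + 1), E (m + 1) ((List.finRange (0 + 1)).eraseIdx j)
            (fun a b => evl f x a * evl g x b) = 0 := by
      simp only [zero_add, Finset.range_one, Finset.sum_singleton]
      have : (List.finRange 1).eraseIdx 0 = [] := by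
        apply List.eq_nil_of_length_eq_zero
        simp
      rw [this]; rfl
    rw [e, add_zero] at hk
    rw [Coch.cadd_apply, Coch.cadd_apply, hk, Coch.cadd_apply]
    have t1 := k_two ((cupS m f g) 0 x)
    have t2 := k_two ((cupS m g f) 0 x)
    linear_combination (-1 : k) * t1 - t2
  | succ n =>
    rw [Coch.dlt_succ']
    have e : ∀ j ∈ Finset.range (n + 2), (cupS (m + 1) f g) n (X.map (cofN j n) x)
        = E (m + 1) ((List.finRange (n + 2)).eraseIdx j) (fun a b => evl f x a * evl g x b) := by
      intro j hj
      rw [Finset.mem_range] at hj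
      rw [finRange_eraseIdx j hj, E_map, cupS_apply]
      apply E_congr
      intro a b ha hb
      rw [evl_map f (cofN j n) x a ha, evl_map g (cofN j n) x b hb]
    rw [Finset.sum_congr rfl e]
    rw [Coch.cadd_apply, Coch.cadd_apply]
    rw [Coch.cadd_apply (cupS m f g)] at hk
    have t := k_two ((cupS (m + 1) (Coch.dlt f) g + cupS (m + 1) f (Coch.dlt g)) (n + 1) x)
    linear_combination hk - t

theorem cls_mul_comm {X : SS} (f g : Cocyc X) : cls f * cls g = cls g * cls f := by
  rw [← map_mul, ← map_mul, cls_eq]
  refine ⟨cupS 2 f.1 g.1, ?_⟩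
  rw [dlt_cupS 1, show Coch.dlt f.1 = 0 from f.2, show Coch.dlt g.1 = 0 from g.2]
  have z1 : cupS 2 0 g.1 = 0 := by
    ext n x
    have h := E_smul 2 (List.finRange (n + 1)) 0 (fun a b => evl (0 : Coch X) x a * evl g.1 x b)
    rw [cupS_apply]
    have h0 : ∀ a : List (Fin (n + 1)), evl (0 : Coch X) x a = 0 := by
      intro a; unfold evl; split_ifs <;> rfl
    simp only [h0, zero_mul] at h ⊢
    exact h
  have z2 : cupS 2 f.1 0 = 0 := by
    ext n x
    have h := E_smul 2 (List.finRange (n + 1)) 0 (fun a b => evl f.1 x a * evl (0 : Coch X) x b)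
    rw [cupS_apply]
    have h0 : ∀ a : List (Fin (n + 1)), evl (0 : Coch X) x a = 0 := by
      intro a; unfold evl; split_ifs <;> rfl
    simp only [h0, mul_zero, zero_mul] at h ⊢
    exact h
  rw [z1, z2, cupS_one, cupS_one, zero_add, zero_add]
  show f.1 * g.1 + g.1 * f.1 = f.1 * g.1 - g.1 * f.1
  rw [mod_two_sub]

noncomputable instance (X : SS) : CommRing (H X) :=
  { (inferInstance : Ring (H X)) with
    mul_comm := fun a b => by
      obtain ⟨f, rfl⟩ := cls_surjective a
      obtain ⟨g, rfl⟩ := cls_surjective b
      exact cls_mul_comm f g }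

end Pool.Agent.SHS
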