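import Mathlib

/-!
Block III-S (Serre-Cartan) of MP_2d0b73_an: common definitions.
Everything is over the field with two elements, so there are no signs.
Levels of all objects are honest types; simplicial operators are monotone maps
Fin (m + 1) →o Fin (n + 1).
-/

namespace Pool.Agent.SHS

/-- The field with two elements. -/
abbrev k : Type := ZMod 2

/-- Monotone maps [m] → [n]. -/
abbrev Mor (m n : ℕ) : Type := Fin (m + 1) →o Fin (n + 1)

/-- The `i`-th coface [n] → [n+1] (it misses `i`). -/
def cof {n : ℕ} (i : Fin (n + 2)) : Mor n (n + 1) := (Fin.succAboveOrderEmb i).toOrderHom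

/-- The `i`-th codegeneracy [n+1] → [n] (it takes the value `i` twice). -/
def cod {n : ℕ} (i : Fin (n + 1)) : Mor (n + 1) n := Fin.predAboveOrderHom i

/-- Front face [p] → [n] (first vertices); used for `p ≤ n`. -/
def fr (p n : ℕ) : Mor p n where
  toFun i := ⟨min i.1 n, by omega⟩
  monotone' := by
    intro a b h
    have h' : a.1 ≤ b.1 := h
    show min a.1 n ≤ min b.1 n
    omega

/-- Back face [q] → [n] (last vertices); used for `q ≤ n`. -/
def bk (q n : ℕ) : Mor q n where
  toFun i := ⟨min (i.1 + (n - q)) n, by omega⟩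
  monotone' := by
    intro a b h
    have h' : a.1 ≤ b.1 := h
    show min (a.1 + (n - q)) n ≤ min (b.1 + (n - q)) n
    omega

/-- Constant monotone map with value `v`. -/
def cst {m n : ℕ} (v : Fin (n + 1)) : Mor m n := ⟨fun _ => v, fun _ _ _ => le_refl v⟩

/-- Simplicial sets. -/
structure SS where
  X : ℕ → Type
  map : ∀ {m n : ℕ}, Mor m n → X n → X m
  map_id : ∀ {n : ℕ} (x : X n), map OrderHom.id x = x
  map_comp : ∀ {l m n : ℕ} (f : Mor l m) (g : Mor m n) (x : X n),
    map (g.comp f) x = map f (map g x)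

/-- All levels are finite. -/
def SS.LF (X : SS) : Prop := ∀ n, Finite (X.X n)

/-- Simplicial maps. -/
structure SS.Hom (X Y : SS) where
  f : ∀ n : ℕ, X.X n → Y.X n
  nat : ∀ {m n : ℕ} (a : Mor m n) (x : X.X n), f m (X.map a x) = Y.map a (f n x)

def SS.Hom.id (X : SS) : SS.Hom X X := ⟨fun _ x => x, fun _ _ => rfl⟩

def SS.Hom.comp {X Y Z : SS} (g : SS.Hom Y Z) (f : SS.Hom X Y) : SS.Hom X Z :=
  ⟨fun n x => g.f n (f.f n x), fun a x => by rw [f.nat, g.nat]⟩

/-- Product of simplicial sets. -/
abbrev SS.prod (X Y : SS) : SS where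
  X n := X.X n × Y.X n
  map a x := (X.map a x.1, Y.map a x.2)
  map_id x := by rw [X.map_id, Y.map_id]
  map_comp f g x := by rw [X.map_comp, Y.map_comp]

def SS.fst (X Y : SS) : SS.Hom (X.prod Y) X := ⟨fun _ x => x.1, fun _ _ => rfl⟩
def SS.snd (X Y : SS) : SS.Hom (X.prod Y) Y := ⟨fun _ x => x.2, fun _ _ => rfl⟩
def SS.Hom.pair {W X Y : SS} (f : SS.Hom W X) (g : SS.Hom W Y) : SS.Hom W (X.prod Y) :=
  ⟨fun n x => (f.f n x, g.f n x), fun a x => by
    show (f.f _ _, g.f _ _) = (X.map a (f.f _ x), Y.map a (g.f _ x))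
    rw [f.nat, g.nat]⟩

/-- The standard simplex Δ^d. -/
abbrev SS.simplex (d : ℕ) : SS where
  X n := Mor n d
  map a x := x.comp a
  map_id x := by ext; rfl
  map_comp f g x := by ext; rfl

/-- A homotopy between simplicial maps `f` and `g`, in the form of a family indexed by
`n`-simplices of Δ^1. -/
structure SS.Homotopy {X Y : SS} (f g : SS.Hom X Y) where
  h : ∀ n : ℕ, Mor n 1 → X.X n → Y.X n
  nat : ∀ {m n : ℕ} (a : Mor m n) (t : Mor n 1) (x : X.X n),
    h m (t.comp a) (X.map a x) = Y.map a (h n t x)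
  zero : ∀ (n : ℕ) (x : X.X n), h n (cst 0) x = f.f n x
  one : ∀ (n : ℕ) (x : X.X n), h n (cst 1) x = g.f n x

/-- Pointed simplicial sets: `X n` is the set of simplices different from the base point,
`none` is the base point. -/
structure PS where
  X : ℕ → Type
  map : ∀ {m n : ℕ}, Mor m n → X n → Option (X m)
  map_id : ∀ {n : ℕ} (x : X n), map OrderHom.id x = some x
  map_comp : ∀ {l m n : ℕ} (f : Mor l m) (g : Mor m n) (x : X n),
    map (g.comp f) x = (map g x).bind (map f)

def PS.LF (X : PS) : Prop := ∀ n, Finite (X.X n)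

/-- The underlying simplicial set of a pointed simplicial set. -/
abbrev PS.toSS (P : PS) : SS where
  X n := Option (P.X n)
  map a x := x.bind (P.map a)
  map_id x := by
    cases x with
    | none => rfl
    | some x => exact P.map_id x
  map_comp f g x := by
    cases x with
    | none => rfl
    | some x => exact P.map_comp f g x

/-- Adding a disjoint base point. -/
abbrev SS.plus (X : SS) : PS where
  X := X.X
  map a x := some (X.map a x)
  map_id x := by rw [X.map_id]
  map_comp f g x := by rw [X.map_comp]; rfl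

/-- Smash product. -/
abbrev PS.smash (P Q : PS) : PS where
  X n := P.X n × Q.X n
  map a x := Option.map₂ Prod.mk (P.map a x.1) (Q.map a x.2)
  map_id x := by rw [P.map_id, Q.map_id]; rfl
  map_comp f g x := by
    rw [P.map_comp, Q.map_comp]
    cases h1 : P.map g x.1 with
    | none => simp
    | some y =>
      cases h2 : Q.map g x.2 with
      | none => simp
      | some z => simp

/-- The sphere Δ^t / boundary: simplices different from the base point are the surjective
monotone maps onto [t]. -/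
abbrev PS.sphere (t : ℕ) : PS where
  X n := {a : Mor n t // Function.Surjective a}
  map {m n} a x := open Classical in
    if h : Function.Surjective (x.1.comp a) then some ⟨x.1.comp a, h⟩ else none
  map_id x := by
    have h : Function.Surjective (x.1.comp OrderHom.id) := x.2
    rw [dif_pos h]; rfl
  map_comp {l m n} f g x := by
    by_cases h : Function.Surjective (x.1.comp g)
    · rw [dif_pos h]; rfl
    · rw [dif_neg h]
      have h' : ¬ Function.Surjective (x.1.comp (g.comp f)) := by
        intro hs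
        apply h
        intro y
        obtain ⟨z, hz⟩ := hs y
        exact ⟨f z, hz⟩
      rw [dif_neg h']; rfl

/-- Simplicial vector spaces. -/
structure SV where
  X : ℕ → Type
  [grp : ∀ n, AddCommGroup (X n)]
  [mod : ∀ n, Module k (X n)]
  map : ∀ {m n : ℕ}, Mor m n → X n →ₗ[k] X m
  map_id : ∀ {n : ℕ} (x : X n), map OrderHom.id x = x
  map_comp : ∀ {l m n : ℕ} (f : Mor l m) (g : Mor m n) (x : X n),
    map (g.comp f) x = map f (map g x)

attribute [instance] SV.grp SV.mod

abbrev SV.toSS (V : SV) : SS where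
  X := V.X
  map a x := V.map a x
  map_id := V.map_id
  map_comp := V.map_comp

def SV.LF (V : SV) : Prop := ∀ n, Finite (V.X n)

/-- Linear simplicial maps. -/
structure SV.Hom (V W : SV) where
  f : ∀ n : ℕ, V.X n →ₗ[k] W.X n
  nat : ∀ {m n : ℕ} (a : Mor m n) (x : V.X n), f m (V.map a x) = W.map a (f n x)

def SV.Hom.toSS {V W : SV} (g : SV.Hom V W) : SS.Hom V.toSS W.toSS :=
  ⟨fun n x => g.f n x, fun a x => g.nat a x⟩

/-- Cosimplicial vector spaces. -/
structure CM where
  X : ℕ → Type
  [grp : ∀ n, AddCommGroup (X n)]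
  [mod : ∀ n, Module k (X n)]
  map : ∀ {m n : ℕ}, Mor m n → X m →ₗ[k] X n
  map_id : ∀ {n : ℕ} (x : X n), map OrderHom.id x = x
  map_comp : ∀ {l m n : ℕ} (f : Mor l m) (g : Mor m n) (x : X l),
    map (g.comp f) x = map g (map f x)

attribute [instance] CM.grp CM.mod

/-- Bicosimplicial vector spaces. -/
structure BCM where
  X : ℕ → ℕ → Type
  [grp : ∀ p q, AddCommGroup (X p q)]
  [mod : ∀ p q, Module k (X p q)]
  map : ∀ {p p' q q' : ℕ}, Mor p p' → Mor q q' → X p q →ₗ[k] X p' q'
  map_id : ∀ {p q : ℕ} (x : X p q), map OrderHom.id OrderHom.id x = x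
  map_comp : ∀ {p p' p'' q q' q'' : ℕ} (f : Mor p p') (f' : Mor p' p'') (g : Mor q q')
    (g' : Mor q' q'') (x : X p q), map (f'.comp f) (g'.comp g) x = map f' g' (map f g x)

attribute [instance] BCM.grp BCM.mod

/-- Cochain complexes of vector spaces, in degrees 0, 1, 2, ... -/
structure CC where
  X : ℕ → Type
  [grp : ∀ n, AddCommGroup (X n)]
  [mod : ∀ n, Module k (X n)]
  d : ∀ n, X n →ₗ[k] X (n + 1)
  dd : ∀ (n : ℕ) (x : X n), d (n + 1) (d n x) = 0

attribute [instance] CC.grp CC.mod

/-- Cocycles. -/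
def CC.Z (C : CC) (n : ℕ) : Submodule k (C.X n) := LinearMap.ker (C.d n)

/-- Coboundaries. -/
def CC.B (C : CC) : ∀ n : ℕ, Submodule k (C.X n)
  | 0 => ⊥
  | n + 1 => LinearMap.range (C.d n)

/-- Cohomology. -/
abbrev CC.H (C : CC) (n : ℕ) : Type := (C.Z n) ⧸ (C.B n).submoduleOf (C.Z n)

/-- A graded family `z n : I n → C.X n` of cocycles whose classes form a basis of the
cohomology in every degree. -/
structure CC.IsBasis (C : CC) {I : ℕ → Type} (z : ∀ n, I n → C.X n) : Prop where
  cocycle : ∀ n i, C.d n (z n i) = 0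
  span : ∀ (n : ℕ) (w : C.X n), C.d n w = 0 →
    ∃ c : I n →₀ k, w - (c.sum fun i a => a • z n i) ∈ C.B n
  indep : ∀ (n : ℕ) (c : I n →₀ k), (c.sum fun i a => a • z n i) ∈ C.B n → c = 0

/-- The (unnormalised) cochain complex of a cosimplicial vector space: sum of all cofaces. -/
def CM.delta (M : CM) (n : ℕ) : M.X n →ₗ[k] M.X (n + 1) := ∑ i : Fin (n + 2), M.map (cof i)

/-- Double complexes with commuting differentials. -/
structure DC where
  X : ℕ → ℕ → Type
  [grp : ∀ p q, AddCommGroup (X p q)]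
  [mod : ∀ p q, Module k (X p q)]
  dh : ∀ p q, X p q →ₗ[k] X (p + 1) q
  dv : ∀ p q, X p q →ₗ[k] X p (q + 1)
  dhh : ∀ p q x, dh (p + 1) q (dh p q x) = 0
  dvv : ∀ p q x, dv p (q + 1) (dv p q x) = 0
  comm : ∀ p q x, dv (p + 1) q (dh p q x) = dh p (q + 1) (dv p q x)

attribute [instance] DC.grp DC.mod

/-- Elements of total degree `n` of a double complex: families supported on p + q = n. -/
def DC.Tot (D : DC) (n : ℕ) : Submodule k (∀ p q, D.X p q) where
  carrier := {x | ∀ p q, p + q ≠ n → x p q = 0}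
  zero_mem' := fun _ _ _ => rfl
  add_mem' := fun {a b} ha hb p q h => by
    show a p q + b p q = 0
    rw [ha p q h, hb p q h, add_zero]
  smul_mem' := fun c a ha p q h => by
    show c • a p q = 0
    rw [ha p q h, smul_zero]

/-- The total differential. -/
def DC.D (D : DC) (x : ∀ p q, D.X p q) : ∀ p q, D.X p q
  | 0, 0 => 0
  | p + 1, 0 => D.dh p 0 (x p 0)
  | 0, q + 1 => D.dv 0 q (x 0 q)
  | p + 1, q + 1 => D.dh p (q + 1) (x p (q + 1)) + D.dv (p + 1) q (x (p + 1) q)

end Pool.Agent.SHS
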