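import Pool.Agent.SH.S.StmtsA

/-!
Block III-S: the theorem of Eilenberg and Zilber for bicosimplicial vector spaces, by effacement
(decalage): the cone of the Alexander-Whitney map is acyclic.
-/

namespace Pool.Agent.SHS

namespace EZ

/-! ### Shift of monotone maps -/

/-- The shift: fixes `0`, acts by `a` on the successors. -/
def sh {m n : ℕ} (a : Mor m n) : Mor (m + 1) (n + 1) where
  toFun := Fin.cases 0 (fun i => (a i).succ)
  monotone' := by
    intro i j
    refine Fin.cases ?_ (fun i' => ?_) i
    · intro _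
      exact Fin.zero_le _
    · refine Fin.cases ?_ (fun j' => ?_) j
      · intro h
        exact absurd (lt_of_lt_of_le (Fin.succ_pos i') h) (lt_irrefl _)
      · intro h
        exact Fin.succ_le_succ_iff.2 (a.monotone (Fin.succ_le_succ_iff.1 h))

theorem sh_zero {m n : ℕ} (a : Mor m n) : sh a 0 = 0 := rfl

theorem sh_succ {m n : ℕ} (a : Mor m n) (i : Fin (m + 1)) : sh a i.succ = (a i).succ := rfl

theorem sh_id {n : ℕ} : sh (OrderHom.id : Mor n n) = OrderHom.id := by
  apply OrderHom.ext
  funext i
  refine Fin.cases ?_ (fun i' => ?_) i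
  · rfl
  · rfl

theorem sh_comp {l m n : ℕ} (f : Mor l m) (g : Mor m n) : sh (g.comp f) = (sh g).comp (sh f) := by
  apply OrderHom.ext
  funext i
  refine Fin.cases ?_ (fun i' => ?_) i
  · rfl
  · rfl

theorem sh_cof0 {m n : ℕ} (a : Mor m n) : (sh a).comp (cof 0) = (cof 0).comp a := by
  apply OrderHom.ext
  funext i
  show sh a ((0 : Fin (m + 2)).succAbove i) = (0 : Fin (n + 2)).succAbove (a i)
  rw [Fin.zero_succAbove, Fin.zero_succAbove]
  rfl

theorem sh_cof {n : ℕ} (i : Fin (n + 2)) : sh (cof i) = cof i.succ := by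
  apply OrderHom.ext
  funext j
  refine Fin.cases ?_ (fun j' => ?_) j
  · show (0 : Fin (n + 3)) = i.succ.succAbove 0
    rw [Fin.succ_succAbove_zero]
  · show (i.succAbove j').succ = i.succ.succAbove j'.succ
    rw [Fin.succ_succAbove_succ]

theorem cod0_zero {n : ℕ} : (cod (0 : Fin (n + 1))) 0 = 0 := by
  show Fin.predAbove 0 (0 : Fin (n + 2)) = 0
  exact Fin.predAbove_right_zero

theorem cod0_succ {n : ℕ} (i : Fin (n + 1)) : (cod (0 : Fin (n + 1))) i.succ = i := by
  show Fin.predAbove 0 i.succ = i
  exact Fin.predAbove_zero_succ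

theorem cod0_cof0 {n : ℕ} : (cod (0 : Fin (n + 1))).comp (cof 0) = (OrderHom.id : Mor n n) := by
  apply OrderHom.ext
  funext i
  show (cod (0 : Fin (n + 1))) ((0 : Fin (n + 2)).succAbove i) = i
  rw [Fin.zero_succAbove, cod0_succ]

theorem cod0_cof1 {n : ℕ} : (cod (0 : Fin (n + 1))).comp (cof 1) = (OrderHom.id : Mor n n) := by
  apply OrderHom.ext
  funext i
  show (cod (0 : Fin (n + 1))) ((1 : Fin (n + 2)).succAbove i) = i
  refine Fin.cases ?_ (fun i' => ?_) i
  · have : (1 : Fin (n + 2)).succAbove 0 = 0 := by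
      apply Fin.ext
      simp [Fin.succAbove]
    rw [this, cod0_zero]
  · have : (1 : Fin (n + 2)).succAbove i'.succ = (i'.succ).succ := by
      apply Fin.ext
      simp [Fin.succAbove, Fin.lt_def]
    rw [this, cod0_succ]

/-- `cod 0 ∘ sh (cof 0) = id`. -/
theorem cod0_sh0 {n : ℕ} : (cod (0 : Fin (n + 2))).comp (sh (cof (0 : Fin (n + 2)))) =
    (OrderHom.id : Mor (n + 1) (n + 1)) := by
  apply OrderHom.ext
  funext j
  refine Fin.cases ?_ (fun j' => ?_) j
  · show (cod (0 : Fin (n + 2))) 0 = 0
    exact cod0_zero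
  · show (cod (0 : Fin (n + 2))) ((0 : Fin (n + 2)).succAbove j').succ = j'.succ
    rw [cod0_succ, Fin.zero_succAbove]

/-- `cod 0 ∘ sh (cof (i+1)) = cof (i+1) ∘ cod 0`. -/
theorem cod0_shs {n : ℕ} (i : Fin (n + 1)) :
    (cod (0 : Fin (n + 2))).comp (sh (cof i.succ)) = (cof i.succ).comp (cod (0 : Fin (n + 1))) := by
  apply OrderHom.ext
  funext j
  refine Fin.cases ?_ (fun j' => ?_) j
  · show (cod (0 : Fin (n + 2))) 0 = i.succ.succAbove ((cod (0 : Fin (n + 1))) 0)
    rw [cod0_zero, cod0_zero, Fin.succ_succAbove_zero]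
  · show (cod (0 : Fin (n + 2))) (i.succ.succAbove j').succ =
      i.succ.succAbove ((cod (0 : Fin (n + 1))) j'.succ)
    rw [cod0_succ, cod0_succ]

/-- `sh (cof 0) ∘ cof 1 = sh (cof 1) ∘ cof 1`. -/
theorem sh_cof1 : (sh (cof (0 : Fin 2))).comp (cof 1) = (sh (cof (1 : Fin 2))).comp (cof 1) := by
  apply OrderHom.ext
  funext j
  have hj : j = 0 := Fin.ext (by omega)
  subst hj
  rfl

/-! ### Decalage of cosimplicial vector spaces -/

/-- Decalage. -/
abbrev Dec (C : CM) : CM where
  X n := C.X (n + 1)
  map a := C.map (sh a)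
  map_id x := by rw [sh_id, C.map_id]
  map_comp f g x := by rw [sh_comp, C.map_comp]

theorem dec_h0 (C : CM) (x : C.X 1) :
    C.map (cod 0) ((Dec C).delta 0 x) = x + C.map (cof 1) (C.map (cod 0) x) := by
  rw [CM.delta_apply, map_sum, Fin.sum_univ_succ]
  congr 1
  · show C.map (cod 0) (C.map (sh (cof 0)) x) = x
    rw [← C.map_comp, cod0_sh0, C.map_id]
  · rw [Fin.sum_univ_one]
    show C.map (cod 0) (C.map (sh (cof (0 : Fin 1).succ)) x) = C.map (cof 1) (C.map (cod 0) x)
    rw [← C.map_comp, cod0_shs, C.map_comp]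
    rfl

theorem dec_h (C : CM) (n : ℕ) (x : C.X (n + 2)) :
    C.map (cod 0) ((Dec C).delta (n + 1) x) = x + (Dec C).delta n (C.map (cod 0) x) := by
  rw [CM.delta_apply, map_sum, Fin.sum_univ_succ]
  congr 1
  · show C.map (cod 0) (C.map (sh (cof 0)) x) = x
    rw [← C.map_comp, cod0_sh0, C.map_id]
  · rw [CM.delta_apply]
    refine Finset.sum_congr rfl fun i _ => ?_
    show C.map (cod 0) (C.map (sh (cof i.succ)) x) = C.map (sh (cof i)) (C.map (cod 0) x)
    rw [← C.map_comp, cod0_shs, C.map_comp, sh_cof]

theorem dec_eta (C : CM) (a : C.X 0) : (Dec C).delta 0 (C.map (cof 1) a) = 0 := by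
  rw [CM.delta_apply, Fin.sum_univ_two]
  show C.map (sh (cof 0)) (C.map (cof 1) a) + C.map (sh (cof 1)) (C.map (cof 1) a) = 0
  rw [← C.map_comp, ← C.map_comp, sh_cof1]
  exact mod_two _

/-! ### Bicosimplicial vector spaces -/

/-- Maps of bicosimplicial vector spaces. -/
structure BHom (M N : BCM) where
  f : ∀ p q : ℕ, M.X p q →ₗ[k] N.X p q
  nat : ∀ {p p' q q' : ℕ} (a : Mor p p') (b : Mor q q') (x : M.X p q),
    f p' q' (M.map a b x) = N.map a b (f p q x)

/-- Horizontal decalage. -/
abbrev DH (M : BCM) : BCM where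
  X p q := M.X (p + 1) q
  map a b := M.map (sh a) b
  map_id x := by rw [sh_id, M.map_id]
  map_comp f f' g g' x := by rw [sh_comp, M.map_comp]

/-- Vertical decalage. -/
abbrev DV (M : BCM) : BCM where
  X p q := M.X p (q + 1)
  map a b := M.map a (sh b)
  map_id x := by rw [sh_id, M.map_id]
  map_comp f f' g g' x := by rw [sh_comp, M.map_comp]

/-- The embedding in the horizontal decalage. -/
def iH (M : BCM) : BHom M (DH M) where
  f p q := M.map (cof 0) OrderHom.id
  nat a b x := by
    show M.map (cof 0) OrderHom.id (M.map a b x) = M.map (sh a) b (M.map (cof 0) OrderHom.id x)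
    rw [← M.map_comp, ← M.map_comp, sh_cof0]
    rfl

/-- The embedding in the vertical decalage. -/
def iV (M : BCM) : BHom M (DV M) where
  f p q := M.map OrderHom.id (cof 0)
  nat a b x := by
    show M.map OrderHom.id (cof 0) (M.map a b x) = M.map a (sh b) (M.map OrderHom.id (cof 0) x)
    rw [← M.map_comp, ← M.map_comp, sh_cof0]
    rfl

theorem iH_inj (M : BCM) (p q : ℕ) : Function.Injective ((iH M).f p q) := by
  intro x y h
  have h1 : M.map (cof 0) OrderHom.id x = M.map (cof 0) OrderHom.id y := h
  have h2 := congrArg (M.map (cod 0) OrderHom.id) h1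
  rw [← M.map_comp, ← M.map_comp, cod0_cof0] at h2
  have h3 : M.map OrderHom.id OrderHom.id x = M.map OrderHom.id OrderHom.id y := h2
  rwa [M.map_id, M.map_id] at h3

theorem iV_inj (M : BCM) (p q : ℕ) : Function.Injective ((iV M).f p q) := by
  intro x y h
  have h1 : M.map OrderHom.id (cof 0) x = M.map OrderHom.id (cof 0) y := h
  have h2 := congrArg (M.map OrderHom.id (cod 0)) h1
  rw [← M.map_comp, ← M.map_comp, cod0_cof0] at h2
  have h3 : M.map OrderHom.id OrderHom.id x = M.map OrderHom.id OrderHom.id y := h2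
  rwa [M.map_id, M.map_id] at h3

/-- The cokernel. -/
abbrev coker {M N : BCM} (g : BHom M N) : BCM where
  X p q := N.X p q ⧸ LinearMap.range (g.f p q)
  map {p p' q q'} a b := Submodule.mapQ _ _ (N.map a b) (by
    rintro _ ⟨x, rfl⟩
    exact ⟨M.map a b x, g.nat a b x⟩)
  map_id {p q} x := by
    obtain ⟨y, rfl⟩ := Submodule.Quotient.mk_surjective _ x
    show Submodule.Quotient.mk (N.map OrderHom.id OrderHom.id y) = Submodule.Quotient.mk y
    rw [N.map_id]
  map_comp {p p' p'' q q' q''} a a' b b' x := by
    obtain ⟨y, rfl⟩ := Submodule.Quotient.mk_surjective _ x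
    show Submodule.Quotient.mk (N.map (a'.comp a) (b'.comp b) y) =
      Submodule.Quotient.mk (N.map a' b' (N.map a b y))
    rw [N.map_comp]

/-- The projection onto the cokernel. -/
def prj {M N : BCM} (g : BHom M N) : BHom N (coker g) where
  f p q := Submodule.mkQ _
  nat a b x := rfl

/-- Decalage of maps. -/
def DHmap {M N : BCM} (g : BHom M N) : BHom (DH M) (DH N) where
  f p q := g.f (p + 1) q
  nat a b x := g.nat (sh a) b x

/-- Action on families. -/
def BHom.tot {M N : BCM} (g : BHom M N) (x : ∀ p q, M.X p q) : ∀ p q, N.X p q :=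
  fun p q => g.f p q (x p q)

theorem dh_apply (M : BCM) (p q : ℕ) (x : M.X p q) :
    M.dc.dh p q x = ∑ i : Fin (p + 2), M.map (cof i) OrderHom.id x :=
  CM.delta_apply (M.row q) p x

theorem dv_apply (M : BCM) (p q : ℕ) (x : M.X p q) :
    M.dc.dv p q x = ∑ i : Fin (q + 2), M.map OrderHom.id (cof i) x :=
  CM.delta_apply (M.col p) q x

theorem dh_nat {M N : BCM} (g : BHom M N) (p q : ℕ) (x : M.X p q) :
    N.dc.dh p q (g.f p q x) = g.f (p + 1) q (M.dc.dh p q x) := by
  rw [dh_apply, dh_apply, map_sum]
  exact Finset.sum_congr rfl fun i _ => (g.nat _ _ _).symm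

theorem dv_nat {M N : BCM} (g : BHom M N) (p q : ℕ) (x : M.X p q) :
    N.dc.dv p q (g.f p q x) = g.f p (q + 1) (M.dc.dv p q x) := by
  rw [dv_apply, dv_apply, map_sum]
  exact Finset.sum_congr rfl fun i _ => (g.nat _ _ _).symm

theorem D_nat {M N : BCM} (g : BHom M N) (x : ∀ p q, M.X p q) :
    N.dc.D (g.tot x) = g.tot (M.dc.D x) := by
  funext p q
  cases p with
  | zero =>
    cases q with
    | zero =>
      show (0 : N.X 0 0) = g.f 0 0 0
      rw [map_zero]
    | succ q => exact dv_nat g 0 q (x 0 q)
  | succ p =>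
    cases q with
    | zero => exact dh_nat g p 0 (x p 0)
    | succ q =>
      show N.dc.dh p (q + 1) (g.f p (q + 1) (x p (q + 1))) +
        N.dc.dv (p + 1) q (g.f (p + 1) q (x (p + 1) q)) =
        g.f (p + 1) (q + 1) (M.dc.dh p (q + 1) (x p (q + 1)) + M.dc.dv (p + 1) q (x (p + 1) q))
      rw [dh_nat, dv_nat, map_add]

theorem AW_nat {M N : BCM} (g : BHom M N) (n : ℕ) (x : ∀ p q, M.X p q) :
    N.AW n (g.tot x) = g.f n n (M.AW n x) := by
  unfold BCM.AW
  rw [map_sum]
  exact Finset.sum_congr rfl fun p _ => (g.nat _ _ _).symm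

theorem AW_add (M : BCM) (n : ℕ) (x y : ∀ p q, M.X p q) :
    M.AW n (fun p q => x p q + y p q) = M.AW n x + M.AW n y := by
  unfold BCM.AW
  rw [← Finset.sum_add_distrib]
  exact Finset.sum_congr rfl fun p _ => map_add _ _ _

theorem AW_eq_zero (M : BCM) (n : ℕ) (x : ∀ p q, M.X p q)
    (h : ∀ p q, p + q = n → x p q = 0) : M.AW n x = 0 := by
  unfold BCM.AW
  refine Finset.sum_eq_zero fun p hp => ?_
  rw [Finset.mem_range] at hp
  rw [h p (n - p) (by omega), map_zero]

theorem AW_zero (M : BCM) (x : ∀ p q, M.X p q) : M.AW 0 x = x 0 0 := by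
  unfold BCM.AW
  rw [Finset.sum_range_one]
  show M.map (fr 0 0) (bk 0 0) (x 0 0) = x 0 0
  have h1 : fr 0 0 = OrderHom.id := fr_self 0
  have h2 : bk 0 0 = OrderHom.id := bk_self 0
  rw [h1, h2, M.map_id]

theorem D_add (M : BCM) (x y : ∀ p q, M.X p q) :
    M.dc.D (fun p q => x p q + y p q) = fun p q => M.dc.D x p q + M.dc.D y p q := by
  funext p q
  cases p with
  | zero =>
    cases q with
    | zero =>
      show (0 : M.X 0 0) = 0 + 0
      rw [add_zero]
    | succ q => exact map_add _ _ _
  | succ p =>
    cases q with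
    | zero => exact map_add _ _ _
    | succ q =>
      show M.dc.dh p (q + 1) (x p (q + 1) + y p (q + 1)) +
        M.dc.dv (p + 1) q (x (p + 1) q + y (p + 1) q) =
        (M.dc.dh p (q + 1) (x p (q + 1)) + M.dc.dv (p + 1) q (x (p + 1) q)) +
        (M.dc.dh p (q + 1) (y p (q + 1)) + M.dc.dv (p + 1) q (y (p + 1) q))
      rw [map_add, map_add]
      abel

theorem D_D (M : BCM) (x : ∀ p q, M.X p q) : M.dc.D (M.dc.D x) = 0 := by
  funext p q
  cases p with
  | zero =>
    cases q with
    | zero => rfl
    | succ q =>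
      cases q with
      | zero =>
        show M.dc.dv 0 0 0 = 0
        exact map_zero _
      | succ q => exact M.dc.dvv 0 q (x 0 q)
  | succ p =>
    cases q with
    | zero =>
      cases p with
      | zero =>
        show M.dc.dh 0 0 0 = 0
        exact map_zero _
      | succ p => exact M.dc.dhh p 0 (x p 0)
    | succ q =>
      show M.dc.dh p (q + 1) (M.dc.D x p (q + 1)) + M.dc.dv (p + 1) q (M.dc.D x (p + 1) q) = 0
      have h1 : M.dc.dh p (q + 1) (M.dc.D x p (q + 1)) =
          M.dc.dh p (q + 1) (M.dc.dv p q (x p q)) := by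
        cases p with
        | zero => rfl
        | succ p =>
          show M.dc.dh (p + 1) (q + 1) (M.dc.dh p (q + 1) (x p (q + 1)) +
            M.dc.dv (p + 1) q (x (p + 1) q)) = _
          rw [map_add, M.dc.dhh, zero_add]
      have h2 : M.dc.dv (p + 1) q (M.dc.D x (p + 1) q) =
          M.dc.dv (p + 1) q (M.dc.dh p q (x p q)) := by
        cases q with
        | zero => rfl
        | succ q =>
          show M.dc.dv (p + 1) (q + 1) (M.dc.dh p (q + 1) (x p (q + 1)) +
            M.dc.dv (p + 1) q (x (p + 1) q)) = _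
          rw [map_add, M.dc.dvv, add_zero]
      rw [h1, h2, M.dc.comm]
      exact mod_two _

/-! ### The cone -/

/-- The differential of the diagonal on families. -/
def dd (M : BCM) (y : ∀ n, M.X n n) : ∀ n, M.X n n
  | 0 => 0
  | n + 1 => M.diag.delta n (y n)

/-- Exactness of the cone in degree `m`. -/
def CE (M : BCM) (m : ℕ) : Prop := ∀ (x : ∀ p q, M.X p q) (y : ∀ n, M.X n n),
  (∀ p q, p + q ≠ m → x p q = 0) → (∀ n, n + 1 ≠ m → y n = 0) → M.dc.D x = 0 →
  (∀ n, M.AW n x + dd M y n = 0) →
  ∃ (x' : ∀ p q, M.X p q) (y' : ∀ n, M.X n n), (∀ p q, p + q + 1 ≠ m → x' p q = 0) ∧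
    (∀ n, n + 2 ≠ m → y' n = 0) ∧ M.dc.D x' = x ∧ ∀ n, M.AW n x' + dd M y' n = y n

theorem CE_zero (M : BCM) : CE M 0 := by
  intro x y hx hy _ hA
  have h0 : x 0 0 = 0 := by
    have h1 := hA 0
    rw [AW_zero] at h1
    have h2 : x 0 0 + 0 = 0 := h1
    rwa [add_zero] at h2
  have hx0 : x = fun _ _ => 0 := by
    funext p q
    by_cases h : p + q = 0
    · have hp : p = 0 := by omega
      have hq : q = 0 := by omega
      subst hp
      subst hq
      exact h0
    · exact hx p q h
  have hy0 : y = fun _ => 0 := by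
    funext n
    exact hy n (by omega)
  refine ⟨fun _ _ => 0, fun _ => 0, fun _ _ _ => rfl, fun _ _ => rfl, ?_, ?_⟩
  · rw [hx0]
    funext p q
    cases p with
    | zero =>
      cases q with
      | zero => rfl
      | succ q => exact map_zero _
    | succ p =>
      cases q with
      | zero => exact map_zero _
      | succ q =>
        show M.dc.dh p (q + 1) 0 + M.dc.dv (p + 1) q 0 = 0
        rw [map_zero, map_zero, add_zero]
  · intro n
    rw [hy0, AW_eq_zero M n _ (fun _ _ _ => rfl), zero_add]
    cases n with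
    | zero => rfl
    | succ n => exact map_zero _

theorem dd_nat {M N : BCM} (g : BHom M N) (y : ∀ n, M.X n n) (n : ℕ) :
    dd N (fun n => g.f n n (y n)) n = g.f n n (dd M y n) := by
  cases n with
  | zero =>
    show (0 : N.X 0 0) = g.f 0 0 0
    rw [map_zero]
  | succ n =>
    show N.diag.delta n (g.f n n (y n)) = g.f (n + 1) (n + 1) (M.diag.delta n (y n))
    rw [CM.delta_apply, CM.delta_apply, map_sum]
    exact Finset.sum_congr rfl fun i _ => (g.nat _ _ _).symm

theorem dd_add (M : BCM) (y z : ∀ n, M.X n n) (n : ℕ) :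
    dd M (fun n => y n + z n) n = dd M y n + dd M z n := by
  cases n with
  | zero =>
    show (0 : M.X 0 0) = 0 + 0
    rw [add_zero]
  | succ n => exact map_add _ _ _

theorem dd_dd (M : BCM) (y : ∀ n, M.X n n) (n : ℕ) : dd M (dd M y) n = 0 := by
  cases n with
  | zero => rfl
  | succ n =>
    cases n with
    | zero => exact map_zero _
    | succ n => exact M.diag.delta_delta n (y n)

/-- The Alexander-Whitney map commutes with the differentials on homogeneous families. -/
theorem AW_D (h : AWC_Stmt) (M : BCM) (m : ℕ) (x : ∀ p q, M.X p q)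
    (hx : ∀ p q, p + q + 1 ≠ m → x p q = 0) (n : ℕ) :
    M.AW n (M.dc.D x) = dd M (fun n => M.AW n x) n := by
  cases n with
  | zero =>
    rw [AW_zero]
    rfl
  | succ n =>
    show M.AW (n + 1) (M.dc.D x) = M.diag.delta n (M.AW n x)
    by_cases hn : n + 1 = m
    · refine h M n x ?_
      intro p q hpq
      exact hx p q (by omega)
    · have h1 : ∀ p q, p + q = n → x p q = 0 := fun p q hpq => hx p q (by omega)
      rw [AW_eq_zero M n x h1, map_zero]
      refine AW_eq_zero M (n + 1) _ ?_
      intro p q hpq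
      cases p with
      | zero =>
        cases q with
        | zero => rfl
        | succ q =>
          show M.dc.dv 0 q (x 0 q) = 0
          rw [h1 0 q (by omega), map_zero]
      | succ p =>
        cases q with
        | zero =>
          show M.dc.dh p 0 (x p 0) = 0
          rw [h1 p 0 (by omega), map_zero]
        | succ q =>
          show M.dc.dh p (q + 1) (x p (q + 1)) + M.dc.dv (p + 1) q (x (p + 1) q) = 0
          rw [h1 p (q + 1) (by omega), h1 (p + 1) q (by omega), map_zero, map_zero, add_zero]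

/-- The chase in the short exact sequence of cones. -/
theorem chase (h : AWC_Stmt) {M N Q : BCM} (i : BHom M N) (π : BHom N Q)
    (hi : ∀ p q, Function.Injective (i.f p q)) (hπ : ∀ p q, Function.Surjective (π.f p q))
    (hex : ∀ p q x, π.f p q x = 0 → ∃ y, i.f p q y = x) (hz : ∀ p q x, π.f p q (i.f p q x) = 0)
    (m : ℕ) (hN : CE N (m + 1)) (hQ : CE Q m) : CE M (m + 1) := by
  classical
  intro x y hx hy hD hA
  -- the image in N
  obtain ⟨bx, by', hbx, hby, hbD, hbA⟩ := hN (i.tot x) (fun n => i.f n n (y n))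
    (fun p q hpq => by
      show i.f p q (x p q) = 0
      rw [hx p q hpq, map_zero])
    (fun n hn => by
      show i.f n n (y n) = 0
      rw [hy n hn, map_zero])
    (by
      rw [D_nat, hD]
      funext p q
      exact map_zero _)
    (fun n => by
      rw [AW_nat, dd_nat, ← map_add, hA, map_zero])
  -- its image in Q
  obtain ⟨ax, ay, hax, hay, haD, haA⟩ := hQ (π.tot bx) (fun n => π.f n n (by' n))
    (fun p q hpq => by
      show π.f p q (bx p q) = 0
      rw [hbx p q (by omega), map_zero])
    (fun n hn => by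
      show π.f n n (by' n) = 0
      rw [hby n (by omega), map_zero])
    (by
      rw [D_nat, hbD]
      funext p q
      exact hz p q _)
    (fun n => by
      rw [AW_nat, dd_nat, ← map_add, hbA]
      exact hz n n _)
  -- lift to N
  have hl1 : ∀ p q, ∃ u : N.X p q, π.f p q u = ax p q ∧ (p + q + 1 ≠ m → u = 0) := by
    intro p q
    by_cases hpq : p + q + 1 = m
    · obtain ⟨u, hu⟩ := hπ p q (ax p q)
      exact ⟨u, hu, fun hne => absurd hpq hne⟩
    · exact ⟨0, by rw [map_zero, hax p q hpq], fun _ => rfl⟩
  have hl2 : ∀ n, ∃ u : N.X n n, π.f n n u = ay n ∧ (n + 2 ≠ m → u = 0) := by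
    intro n
    by_cases hn : n + 2 = m
    · obtain ⟨u, hu⟩ := hπ n n (ay n)
      exact ⟨u, hu, fun hne => absurd hn hne⟩
    · exact ⟨0, by rw [map_zero, hay n hn], fun _ => rfl⟩
  choose ux hux hux' using hl1
  choose uy huy huy' using hl2
  have huxt : π.tot ux = ax := by
    funext p q
    exact hux p q
  have huyt : (fun n => π.f n n (uy n)) = ay := by
    funext n
    exact huy n
  -- the difference comes from M
  have hd1 : ∀ p q, π.f p q (bx p q + N.dc.D ux p q) = 0 := by
    intro p q
    have h1 : π.tot (N.dc.D ux) = Q.dc.D ax := by rw [← D_nat, huxt]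
    have h2 : π.f p q (N.dc.D ux p q) = Q.dc.D ax p q := congrFun (congrFun h1 p) q
    rw [map_add, h2, haD]
    exact mod_two _
  have hd2 : ∀ n, π.f n n (by' n + (N.AW n ux + dd N uy n)) = 0 := by
    intro n
    have h1 : π.f n n (N.AW n ux + dd N uy n) = Q.AW n ax + dd Q ay n := by
      rw [map_add, ← AW_nat, huxt, ← dd_nat, huyt]
    rw [map_add, h1, haA]
    exact mod_two _
  choose ex hexx using fun p q => hex p q _ (hd1 p q)
  choose ey heyy using fun n => hex n n _ (hd2 n)
  have hext : i.tot ex = fun p q => bx p q + N.dc.D ux p q := by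
    funext p q
    exact hexx p q
  have heyt : (fun n => i.f n n (ey n)) = fun n => by' n + (N.AW n ux + dd N uy n) := by
    funext n
    exact heyy n
  -- homogeneity of D ux and so on
  have hDux : ∀ p q, p + q ≠ m → N.dc.D ux p q = 0 := by
    intro p q hpq
    cases p with
    | zero =>
      cases q with
      | zero => rfl
      | succ q =>
        show N.dc.dv 0 q (ux 0 q) = 0
        rw [hux' 0 q (by omega), map_zero]
    | succ p =>
      cases q with
      | zero =>
        show N.dc.dh p 0 (ux p 0) = 0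
        rw [hux' p 0 (by omega), map_zero]
      | succ q =>
        show N.dc.dh p (q + 1) (ux p (q + 1)) + N.dc.dv (p + 1) q (ux (p + 1) q) = 0
        rw [hux' p (q + 1) (by omega), hux' (p + 1) q (by omega), map_zero, map_zero, add_zero]
  have hAux : ∀ n, n + 1 ≠ m → N.AW n ux = 0 := by
    intro n hn
    exact AW_eq_zero N n ux fun p q hpq => hux' p q (by omega)
  have hduy : ∀ n, n + 1 ≠ m → dd N uy n = 0 := by
    intro n hn
    cases n with
    | zero => rfl
    | succ n =>
      show N.diag.delta n (uy n) = 0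
      rw [huy' n (by omega), map_zero]
  refine ⟨ex, ey, ?_, ?_, ?_, ?_⟩
  · intro p q hpq
    apply hi p q
    rw [hexx, hbx p q hpq, hDux p q (by omega), add_zero, map_zero]
  · intro n hn
    apply hi n n
    rw [heyy, hby n hn, hAux n (by omega), hduy n (by omega), add_zero, add_zero, map_zero]
  · funext p q
    apply hi p q
    have h1 : i.tot (M.dc.D ex) = N.dc.D (i.tot ex) := (D_nat i ex).symm
    have h2 : i.f p q (M.dc.D ex p q) = N.dc.D (i.tot ex) p q := congrFun (congrFun h1 p) q
    rw [h2, hext, D_add, hbD, D_D]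
    show i.f p q (x p q) + 0 = i.f p q (x p q)
    rw [add_zero]
  · intro n
    apply hi n n
    rw [map_add, ← AW_nat, ← dd_nat, hext, heyt, AW_add, dd_add]
    have h1 : dd N (fun n => N.AW n ux + dd N uy n) n = dd N (fun n => N.AW n ux) n := by
      rw [dd_add, dd_dd, add_zero]
    rw [h1, AW_D h N m ux (fun p q hpq => hux' p q hpq) n]
    have h2 := hbA n
    have h3 : N.AW n bx + dd N (fun n => N.AW n ux) n + (dd N by' n + dd N (fun n => N.AW n ux) n)
        = (N.AW n bx + dd N by' n) + (dd N (fun n => N.AW n ux) n + dd N (fun n => N.AW n ux) n) := by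
      abel
    rw [h3, h2, mod_two, add_zero]

/-! ### The double decalage -/

theorem map_hv (M : BCM) {p p' q q' : ℕ} (a : Mor p p') (b : Mor q q') (x : M.X p q) :
    M.map a OrderHom.id (M.map OrderHom.id b x) = M.map a b x := by
  rw [← M.map_comp]
  rfl

theorem map_vh (M : BCM) {p p' q q' : ℕ} (a : Mor p p') (b : Mor q q') (x : M.X p q) :
    M.map OrderHom.id b (M.map a OrderHom.id x) = M.map a b x := by
  rw [← M.map_comp]
  rfl

theorem ddh (M : BCM) (p q : ℕ) (x : M.X (p + 1) (q + 1)) :
    (DH (DV M)).dc.dh p q x = (Dec (M.row (q + 1))).delta p x := by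
  rw [dh_apply, CM.delta_apply]
  refine Finset.sum_congr rfl fun i _ => ?_
  show M.map (sh (cof i)) (sh OrderHom.id) x = M.map (sh (cof i)) OrderHom.id x
  rw [sh_id]

theorem ddv (M : BCM) (p q : ℕ) (x : M.X (p + 1) (q + 1)) :
    (DH (DV M)).dc.dv p q x = (Dec (M.col (p + 1))).delta q x := by
  rw [dv_apply, CM.delta_apply]
  refine Finset.sum_congr rfl fun i _ => ?_
  show M.map (sh OrderHom.id) (sh (cof i)) x = M.map OrderHom.id (sh (cof i)) x
  rw [sh_id]

/-- vertical differentials commute with horizontal operators -/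
theorem dv_h (M : BCM) (p p' q : ℕ) (a : Mor p p') (x : M.X p (q + 1)) :
    (Dec (M.col p')).delta q (M.map a OrderHom.id x) =
      M.map a OrderHom.id ((Dec (M.col p)).delta q x) := by
  rw [CM.delta_apply, CM.delta_apply, map_sum]
  refine Finset.sum_congr rfl fun i _ => ?_
  show M.map OrderHom.id (sh (cof i)) (M.map a OrderHom.id x) =
    M.map a OrderHom.id (M.map OrderHom.id (sh (cof i)) x)
  rw [map_vh, map_hv]

/-- The contraction. -/
def HH (M : BCM) (x : ∀ p q, (DH (DV M)).X p q) : ∀ p q, (DH (DV M)).X p q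
  | 0, q => M.map (cod 0) OrderHom.id (x 1 q) +
      M.map (cof 1) OrderHom.id (M.map OrderHom.id (cod 0) (M.map (cod 0) OrderHom.id (x 0 (q + 1))))
  | p + 1, q => M.map (cod 0) OrderHom.id (x (p + 2) q)

theorem HH_zero (M : BCM) (x : ∀ p q, (DH (DV M)).X p q) (q : ℕ) : HH M x 0 q =
    M.map (cod 0) OrderHom.id (x 1 q) +
      M.map (cof 1) OrderHom.id (M.map OrderHom.id (cod 0)
        (M.map (cod 0) OrderHom.id (x 0 (q + 1)))) := rfl

theorem HH_succ (M : BCM) (x : ∀ p q, (DH (DV M)).X p q) (p q : ℕ) : HH M x (p + 1) q =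
    M.map (cod 0) OrderHom.id (x (p + 2) q) := rfl

/-- horizontal part of the contraction: `dh (HH x) = hh (dh x) + x` without the `η` terms -/
theorem dh_HH (M : BCM) (x : ∀ p q, (DH (DV M)).X p q) (p q : ℕ) :
    (DH (DV M)).dc.dh p q (HH M x p q) =
      (Dec (M.row (q + 1))).delta p (M.map (cod 0) OrderHom.id (x (p + 1) q)) := by
  rw [ddh]
  cases p with
  | zero =>
    rw [HH_zero, map_add]
    have h1 : (Dec (M.row (q + 1))).delta 0 (M.map (cof 1) OrderHom.id (M.map OrderHom.id (cod 0)
        (M.map (cod 0) OrderHom.id (x 0 (q + 1))))) = 0 := dec_eta (M.row (q + 1)) _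
    rw [h1, add_zero]
  | succ p => rfl

theorem D_HH (M : BCM) (x : ∀ p q, (DH (DV M)).X p q) (h0 : x 0 0 = 0)
    (hD : (DH (DV M)).dc.D x = 0) : (DH (DV M)).dc.D (HH M x) = x := by
  have hc1 : ∀ q, (Dec (M.col 1)).delta q (x 0 q) = 0 := by
    intro q
    have h1 := congrFun (congrFun hD 0) (q + 1)
    have h2 : (DH (DV M)).dc.dv 0 q (x 0 q) = 0 := h1
    rwa [ddv] at h2
  have hc2 : ∀ p, (Dec (M.row 1)).delta p (x p 0) = 0 := by
    intro p
    have h1 := congrFun (congrFun hD (p + 1)) 0
    have h2 : (DH (DV M)).dc.dh p 0 (x p 0) = 0 := h1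
    rwa [ddh] at h2
  have hc3 : ∀ p q, (Dec (M.row (q + 2))).delta p (x p (q + 1)) =
      (Dec (M.col (p + 2))).delta q (x (p + 1) q) := by
    intro p q
    have h1 := congrFun (congrFun hD (p + 1)) (q + 1)
    have h2 : (DH (DV M)).dc.dh p (q + 1) (x p (q + 1)) +
      (DH (DV M)).dc.dv (p + 1) q (x (p + 1) q) = 0 := h1
    rw [ddh, ddv] at h2
    exact mod_two_eq h2
  funext p q
  cases p with
  | zero =>
    cases q with
    | zero => exact h0.symm
    | succ q =>
      show (DH (DV M)).dc.dv 0 q (HH M x 0 q) = x 0 (q + 1)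
      rw [ddv, HH_zero, map_add]
      have e1 : (Dec (M.col 1)).delta q (M.map (cod 0) OrderHom.id (x 1 q)) =
          x 0 (q + 1) + M.map (cof 1) OrderHom.id (M.map (cod 0) OrderHom.id (x 0 (q + 1))) := by
        rw [dv_h M 2 1 q (cod 0) (x 1 q), ← hc3 0 q]
        exact dec_h0 (M.row (q + 2)) (x 0 (q + 1))
      have e2 : (Dec (M.col 1)).delta q (M.map (cof 1) OrderHom.id (M.map OrderHom.id (cod 0)
          (M.map (cod 0) OrderHom.id (x 0 (q + 1))))) =
          M.map (cof 1) OrderHom.id (M.map (cod 0) OrderHom.id (x 0 (q + 1))) := by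
        rw [dv_h M 0 1 q (cof 1)]
        congr 1
        have e3 : (Dec (M.col 0)).delta (q + 1) (M.map (cod 0) OrderHom.id (x 0 (q + 1))) = 0 := by
          rw [dv_h M 1 0 (q + 1) (cod 0), hc1, map_zero]
        have e4 := dec_h (M.col 0) q (M.map (cod 0) OrderHom.id (x 0 (q + 1)))
        rw [e3, map_zero] at e4
        exact (mod_two_eq e4.symm).symm
      have e5 : (Dec (M.col (0 + 1))).delta q (M.map (cod 0) OrderHom.id (x 1 q)) +
          (Dec (M.col (0 + 1))).delta q (M.map (cof 1) OrderHom.id (M.map OrderHom.id (cod 0)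
          (M.map (cod 0) OrderHom.id (x 0 (q + 1))))) =
          (x 0 (q + 1) + M.map (cof 1) OrderHom.id (M.map (cod 0) OrderHom.id (x 0 (q + 1)))) +
          M.map (cof 1) OrderHom.id (M.map (cod 0) OrderHom.id (x 0 (q + 1))) := by
        rw [← e1, ← e2]
      refine e5.trans ?_
      rw [add_assoc, mod_two, add_zero]
  | succ p =>
    cases q with
    | zero =>
      show (DH (DV M)).dc.dh p 0 (HH M x p 0) = x (p + 1) 0
      rw [dh_HH]
      have e4 := dec_h (M.row 1) p (x (p + 1) 0)
      have e5 : (Dec (M.row 1)).delta (p + 1) (x (p + 1) 0) = 0 := hc2 (p + 1)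
      rw [e5, map_zero] at e4
      exact (mod_two_eq e4.symm).symm
    | succ q =>
      show (DH (DV M)).dc.dh p (q + 1) (HH M x p (q + 1)) +
        (DH (DV M)).dc.dv (p + 1) q (HH M x (p + 1) q) = x (p + 1) (q + 1)
      rw [dh_HH, ddv, HH_succ]
      have e1 : (Dec (M.col (p + 1 + 1))).delta q (M.map (cod 0) OrderHom.id (x (p + 2) q)) =
          x (p + 1) (q + 1) + (Dec (M.row (q + 2))).delta p
            (M.map (cod 0) OrderHom.id (x (p + 1) (q + 1))) := by
        rw [dv_h M (p + 3) (p + 2) q (cod 0) (x (p + 2) q)]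
        have e2 := hc3 (p + 1) q
        have e3 := dec_h (M.row (q + 2)) p (x (p + 1) (q + 1))
        rw [← e3]
        exact congrArg (M.map (cod 0) OrderHom.id) e2.symm
      rw [e1, add_comm (x (p + 1) (q + 1)), ← add_assoc, mod_two, zero_add]

/-- The family with the only component `z` in degree `(0,0)`. -/
def E0 (N : BCM) (z : N.X 0 0) : ∀ p q, N.X p q
  | 0, 0 => z
  | 0, _ + 1 => 0
  | _ + 1, _ => 0

theorem E0_eq (N : BCM) (z : N.X 0 0) (p q : ℕ) (h : p + q ≠ 0) : E0 N z p q = 0 := by
  cases p with
  | zero =>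
    cases q with
    | zero => exact absurd rfl h
    | succ q => rfl
  | succ p => rfl

/-- Exactness of the cone for the double decalage. -/
theorem CE_DD (h : AWC_Stmt) (M : BCM) (m : ℕ) : CE (DH (DV M)) m := by
  cases m with
  | zero => exact CE_zero _
  | succ m =>
    intro x y hx hy hD hA
    have h0 : x 0 0 = 0 := hx 0 0 (by omega)
    have hDH := D_HH M x h0 hD
    have hHx : ∀ p q, p + q + 1 ≠ m + 1 → HH M x p q = 0 := by
      intro p q hpq
      cases p with
      | zero =>
        rw [HH_zero, hx 1 q (by omega), hx 0 (q + 1) (by omega)]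
        simp only [map_zero, add_zero]
      | succ p => rw [HH_succ, hx (p + 2) q (by omega), map_zero]
    set z : ∀ n, (DH (DV M)).X n n := fun n => (DH (DV M)).AW n (HH M x) + y n with hz
    have hzm : ∀ n, n ≠ m → z n = 0 := by
      intro n hn
      show (DH (DV M)).AW n (HH M x) + y n = 0
      rw [AW_eq_zero _ n _ (fun p q hpq => hHx p q (by omega)), hy n (by omega), add_zero]
    have hdz : ∀ n, dd (DH (DV M)) z n = 0 := by
      intro n
      rw [hz, dd_add, ← AW_D h _ (m + 1) (HH M x) hHx n, hDH]
      exact hA n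
    cases m with
    | zero =>
      -- degree zero: z comes from the augmentation
      have e1 := dec_h0 M.diag (z 0)
      have e2 : (Dec M.diag).delta 0 (z 0) = 0 := hdz 1
      rw [e2, map_zero] at e1
      have e3 : z 0 = M.map (cof 1) (cof 1) (M.map (cod 0) (cod 0) (z 0)) := mod_two_eq e1.symm
      refine ⟨fun p q => HH M x p q + E0 (DH (DV M)) (z 0) p q, fun _ => 0, ?_, fun _ _ => rfl,
        ?_, ?_⟩
      · intro p q hpq
        show HH M x p q + E0 (DH (DV M)) (z 0) p q = 0
        rw [hHx p q hpq, E0_eq _ _ p q (by omega), add_zero]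
      · rw [D_add, hDH]
        have hh : (DH (DV M)).dc.dh 0 0 (z 0) = 0 := by
          rw [ddh, e3, ← map_hv]
          exact dec_eta (M.row 1) _
        have hv : (DH (DV M)).dc.dv 0 0 (z 0) = 0 := by
          rw [ddv, e3, ← map_vh]
          exact dec_eta (M.col 1) _
        have e4 : (DH (DV M)).dc.D (E0 (DH (DV M)) (z 0)) = 0 := by
          funext p q
          cases p with
          | zero =>
            cases q with
            | zero => rfl
            | succ q =>
              cases q with
              | zero => exact hv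
              | succ q => exact map_zero _
          | succ p =>
            cases q with
            | zero =>
              cases p with
              | zero => exact hh
              | succ p => exact map_zero _
            | succ q =>
              show (DH (DV M)).dc.dh p (q + 1) (E0 (DH (DV M)) (z 0) p (q + 1)) +
                (DH (DV M)).dc.dv (p + 1) q (E0 (DH (DV M)) (z 0) (p + 1) q) = 0
              rw [E0_eq _ _ p (q + 1) (by omega), E0_eq _ _ (p + 1) q (by omega), map_zero,
                map_zero, add_zero]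
        rw [e4]
        funext p q
        show x p q + 0 = x p q
        rw [add_zero]
      · intro n
        have e6 : dd (DH (DV M)) (fun _ => 0) n = 0 := by
          cases n with
          | zero => rfl
          | succ n => exact map_zero _
        rw [e6, add_zero, AW_add]
        cases n with
        | zero =>
          rw [AW_zero (DH (DV M)) (E0 (DH (DV M)) (z 0))]
          show (DH (DV M)).AW 0 (HH M x) + ((DH (DV M)).AW 0 (HH M x) + y 0) = y 0
          rw [← add_assoc, mod_two, zero_add]
        | succ n =>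
          rw [AW_eq_zero (DH (DV M)) (n + 1) (HH M x) (fun p q hpq => hHx p q (by omega)),
            AW_eq_zero (DH (DV M)) (n + 1) (E0 (DH (DV M)) (z 0))
              (fun p q hpq => E0_eq _ _ p q (by omega)),
            hy (n + 1) (by omega), add_zero]
    | succ m =>
      refine ⟨HH M x, fun n => M.map (cod 0) (cod 0) (z (n + 1)), hHx, ?_, hDH, ?_⟩
      · intro n hn
        show M.map (cod 0) (cod 0) (z (n + 1)) = 0
        rw [hzm (n + 1) (by omega), map_zero]
      · intro n
        have e1 : dd (DH (DV M)) (fun n => M.map (cod 0) (cod 0) (z (n + 1))) n = z n := by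
          cases n with
          | zero => exact (hzm 0 (by omega)).symm
          | succ n =>
            have e2 := dec_h M.diag n (z (n + 1))
            have e3 : (Dec M.diag).delta (n + 1) (z (n + 1)) = 0 := hdz (n + 2)
            rw [e3, map_zero] at e2
            exact (mod_two_eq e2.symm).symm
        rw [e1]
        show (DH (DV M)).AW n (HH M x) + ((DH (DV M)).AW n (HH M x) + y n) = y n
        rw [← add_assoc, mod_two, zero_add]

theorem CE_DH (h : AWC_Stmt) (m : ℕ) : ∀ M : BCM, CE (DH M) m := by
  induction m with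
  | zero => exact fun M => CE_zero _
  | succ m ih =>
    intro M
    refine chase h (DHmap (iV M)) (DHmap (prj (iV M))) (fun p q => iV_inj M (p + 1) q)
      (fun p q => Submodule.mkQ_surjective _) ?_ ?_ m (CE_DD h M (m + 1)) (ih (coker (iV M)))
    · intro p q x hx
      have h1 : x ∈ LinearMap.range ((iV M).f (p + 1) q) :=
        (Submodule.Quotient.mk_eq_zero _).1 hx
      exact h1
    · intro p q x
      exact (Submodule.Quotient.mk_eq_zero _).2 ⟨x, rfl⟩

theorem CE_all (h : AWC_Stmt) (m : ℕ) : ∀ M : BCM, CE M m := by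
  induction m with
  | zero => exact fun M => CE_zero _
  | succ m ih =>
    intro M
    refine chase h (iH M) (prj (iH M)) (fun p q => iH_inj M p q)
      (fun p q => Submodule.mkQ_surjective _) ?_ ?_ m (CE_DH h (m + 1) M) (ih (coker (iH M)))
    · intro p q x hx
      have h1 : x ∈ LinearMap.range ((iH M).f p q) := (Submodule.Quotient.mk_eq_zero _).1 hx
      exact h1
    · intro p q x
      exact (Submodule.Quotient.mk_eq_zero _).2 ⟨x, rfl⟩

end EZ

open EZ in
theorem EZ (h : AWC_Stmt) : EZ_Stmt := by
  classical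
  intro M n
  constructor
  · intro z hz
    obtain ⟨x', y', hx', hy', hD, hA⟩ := CE_all h (n + 1) M (fun _ _ => 0)
      (Pi.single (M := fun n => M.X n n) n z)
      (fun _ _ _ => rfl) (fun n' hn' => Pi.single_eq_of_ne (M := fun n => M.X n n) (show n' ≠ n by omega) z)
      (by
        funext p q
        cases p with
        | zero =>
          cases q with
          | zero => rfl
          | succ q => exact map_zero _
        | succ p =>
          cases q with
          | zero => exact map_zero _
          | succ q =>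
            show M.dc.dh p (q + 1) 0 + M.dc.dv (p + 1) q 0 = 0
            rw [map_zero, map_zero, add_zero])
      (fun n' => by
        rw [AW_eq_zero M n' _ (fun _ _ _ => rfl), zero_add]
        cases n' with
        | zero => rfl
        | succ n' =>
          show M.diag.delta n' ((Pi.single n z : ∀ n, M.X n n) n') = 0
          by_cases hn : n' = n
          · subst hn
            rw [Pi.single_eq_same]
            exact hz
          · rw [Pi.single_eq_of_ne hn, map_zero])
    refine ⟨x', ⟨fun p q hpq => hx' p q (by omega), ?_⟩, ?_⟩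
    · exact hD
    · have h1 := hA n
      rw [Pi.single_eq_same] at h1
      rw [← h1, add_sub_cancel_left]
      cases n with
      | zero => exact (CC.B M.diag.cc 0).zero_mem
      | succ n => exact ⟨y' n, rfl⟩
  · rintro x ⟨hx, hD⟩ hB
    cases n with
    | zero =>
      have h1 : M.AW 0 x = 0 := hB
      rw [AW_zero] at h1
      have h2 : x = 0 := by
        funext p q
        by_cases hpq : p + q = 0
        · have hp : p = 0 := by omega
          have hq : q = 0 := by omega
          subst hp
          subst hq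
          exact h1
        · exact hx p q hpq
      rw [h2]
      exact Submodule.zero_mem _
    | succ n =>
      obtain ⟨v, hv⟩ := hB
      obtain ⟨x', y', hx', hy', hD', hA⟩ := CE_all h (n + 1) M x
        (Pi.single (M := fun n => M.X n n) n v)
        (fun p q hpq => hx p q hpq)
        (fun n' hn' => Pi.single_eq_of_ne (M := fun n => M.X n n) (show n' ≠ n by omega) v) hD
        (fun n' => by
          cases n' with
          | zero =>
            rw [AW_eq_zero M 0 x (fun p q hpq => hx p q (by omega)), zero_add]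
            rfl
          | succ n' =>
            show M.AW (n' + 1) x + M.diag.delta n' ((Pi.single n v : ∀ n, M.X n n) n') = 0
            by_cases hn : n' = n
            · subst hn
              rw [Pi.single_eq_same]
              have h3 : M.diag.delta n' v = M.AW (n' + 1) x := hv
              rw [h3]
              exact mod_two _
            · rw [Pi.single_eq_of_ne hn, map_zero, add_zero]
              exact AW_eq_zero M (n' + 1) x fun p q hpq => hx p q (by omega))
      exact Submodule.subset_span ⟨x', fun p q hpq => hx' p q (by omega), hD'⟩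

end Pool.Agent.SHS
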