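import Pool.Agent.SH.S.Basic

/-!
The ring of total cochains of a simplicial set, the coboundary, the Leibniz rule, and the
cohomology ring `H X` (total cohomology: product over all degrees).
-/

namespace Pool.Agent.SHS

/-- coface with a natural number as index -/
def cofN (i n : ℕ) : Mor n (n + 1) where
  toFun j := ⟨if j.1 < i then j.1 else j.1 + 1, by split <;> omega⟩
  monotone' := by
    intro a b h
    have h' : a.1 ≤ b.1 := h
    show (if a.1 < i then a.1 else a.1 + 1) ≤ (if b.1 < i then b.1 else b.1 + 1)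
    split_ifs <;> omega

theorem fr_val (p n : ℕ) (i : Fin (p + 1)) : ((fr p n) i : ℕ) = min i.1 n := rfl
theorem bk_val (q n : ℕ) (i : Fin (q + 1)) : ((bk q n) i : ℕ) = min (i.1 + (n - q)) n := rfl
theorem cofN_val (i n : ℕ) (j : Fin (n + 1)) :
    ((cofN i n) j : ℕ) = if j.1 < i then j.1 else j.1 + 1 := rfl

theorem cof_eq_cofN {n : ℕ} (i : Fin (n + 2)) : cof i = cofN i.1 n := by
  ext j
  rw [cofN_val, cof_apply]
  simp only [Fin.succAbove, Fin.lt_def, Fin.val_castSucc]
  split_ifs <;> simp

theorem sum_cof {M : Type*} [AddCommMonoid M] {n : ℕ} (G : Mor n (n + 1) → M) :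
    ∑ i : Fin (n + 2), G (cof i) = ∑ i ∈ Finset.range (n + 2), G (cofN i n) := by
  rw [Finset.sum_range]
  exact Finset.sum_congr rfl fun i _ => by rw [cof_eq_cofN]

theorem mor_ext {m n : ℕ} {f g : Mor m n} (h : ∀ i : Fin (m + 1), (f i : ℕ) = g i) : f = g := by
  ext i
  exact h i

theorem comp_val {l m n : ℕ} (g : Mor m n) (f : Mor l m) (i : Fin (l + 1)) :
    ((g.comp f) i : ℕ) = g (f i) := rfl

theorem fr_self (n : ℕ) : fr n n = OrderHom.id := by
  apply mor_ext; intro i; rw [fr_val]; have := i.2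
  show min i.1 n = i.1
  omega

theorem bk_self (n : ℕ) : bk n n = OrderHom.id := by
  apply mor_ext; intro i; rw [bk_val]; have := i.2
  show min (i.1 + (n - n)) n = i.1
  omega

theorem fr_fr {p a n : ℕ} (h : p ≤ a) : (fr a n).comp (fr p a) = fr p n := by
  apply mor_ext; intro i; have := i.2
  rw [comp_val, fr_val, fr_val, fr_val]; omega

theorem bk_bk {r b n : ℕ} (h : r ≤ b) (h' : b ≤ n) : (bk b n).comp (bk r b) = bk r n := by
  apply mor_ext; intro i; have := i.2
  rw [comp_val, bk_val, bk_val, bk_val]; omega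

theorem fr_bk (p q r : ℕ) :
    (fr (p + q) (p + q + r)).comp (bk q (p + q)) = (bk (q + r) (p + q + r)).comp (fr q (q + r)) := by
  apply mor_ext; intro i; have := i.2
  rw [comp_val, comp_val, fr_val, bk_val, bk_val, fr_val]; omega

theorem cofN_fr_le {p q i : ℕ} (h : i ≤ p) :
    (cofN i (p + q)).comp (fr p (p + q)) = (fr (p + 1) (p + q + 1)).comp (cofN i p) := by
  apply mor_ext; intro j; have := j.2
  rw [comp_val, comp_val, cofN_val, fr_val, fr_val, cofN_val]; split_ifs <;> omega

theorem cofN_bk_le {p q i : ℕ} (h : i ≤ p) :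
    (cofN i (p + q)).comp (bk q (p + q)) = bk q (p + q + 1) := by
  apply mor_ext; intro j; have := j.2
  rw [comp_val, cofN_val, bk_val, bk_val]; split_ifs <;> omega

theorem cofN_fr_gt {p q i : ℕ} (h : p < i) :
    (cofN i (p + q)).comp (fr p (p + q)) = fr p (p + q + 1) := by
  apply mor_ext; intro j; have := j.2
  rw [comp_val, cofN_val, fr_val, fr_val]; split_ifs <;> omega

theorem cofN_bk_gt {p q j : ℕ} :
    (cofN (p + 1 + j) (p + q)).comp (bk q (p + q)) = (bk (q + 1) (p + q + 1)).comp (cofN (j + 1) q) := by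
  apply mor_ext; intro i; have := i.2
  rw [comp_val, comp_val, cofN_val, bk_val, bk_val, cofN_val]; split_ifs <;> omega

theorem fr_cofN_last {p q : ℕ} : (fr (p + 1) (p + q + 1)).comp (cofN (p + 1) p) = fr p (p + q + 1) := by
  apply mor_ext; intro j; have := j.2
  rw [comp_val, fr_val, cofN_val, fr_val]; split_ifs <;> omega

theorem bk_cofN_zero {p q : ℕ} : (bk (q + 1) (p + q + 1)).comp (cofN 0 q) = bk q (p + q + 1) := by
  apply mor_ext; intro j; have := j.2
  rw [comp_val, bk_val, cofN_val, bk_val]; split_ifs <;> omega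

/-- Total cochains. -/
structure Coch (X : SS) where
  v : ∀ n : ℕ, X.X n → k

namespace Coch
variable {X : SS}

instance : CoeFun (Coch X) (fun _ => ∀ n : ℕ, X.X n → k) := ⟨Coch.v⟩

theorem v_inj : Function.Injective (Coch.v (X := X)) := by
  rintro ⟨f⟩ ⟨g⟩ h
  exact congrArg Coch.mk h

@[ext] theorem ext {f g : Coch X} (h : ∀ n x, f n x = g n x) : f = g :=
  v_inj (funext fun n => funext fun x => h n x)

instance : Zero (Coch X) := ⟨⟨fun _ _ => 0⟩⟩
instance : Add (Coch X) := ⟨fun f g => ⟨fun n x => f n x + g n x⟩⟩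
instance : Neg (Coch X) := ⟨fun f => ⟨fun n x => - f n x⟩⟩
instance : Sub (Coch X) := ⟨fun f g => ⟨fun n x => f n x - g n x⟩⟩
instance : SMul k (Coch X) := ⟨fun c f => ⟨fun n x => c * f n x⟩⟩
instance : SMul ℕ (Coch X) := ⟨fun c f => ⟨fun n x => c • f n x⟩⟩
instance : SMul ℤ (Coch X) := ⟨fun c f => ⟨fun n x => c • f n x⟩⟩

instance : AddCommGroup (Coch X) :=
  Function.Injective.addCommGroup Coch.v v_inj rfl (fun _ _ => rfl) (fun _ => rfl)
    (fun _ _ => rfl) (fun _ _ => rfl) (fun _ _ => rfl)

instance : Module k (Coch X) :=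
  Function.Injective.module k
    ({ toFun := Coch.v, map_zero' := rfl, map_add' := fun _ _ => rfl } : Coch X →+ (∀ n : ℕ, X.X n → k))
    v_inj (fun _ _ => rfl)

@[simp] theorem cadd_apply (f g : Coch X) (n : ℕ) (x : X.X n) : (f + g) n x = f n x + g n x := rfl
@[simp] theorem czero_apply (n : ℕ) (x : X.X n) : (0 : Coch X) n x = 0 := rfl
@[simp] theorem csmul_apply (c : k) (f : Coch X) (n : ℕ) (x : X.X n) : (c • f) n x = c * f n x := rfl
@[simp] theorem cneg_apply (f : Coch X) (n : ℕ) (x : X.X n) : (-f) n x = - f n x := rfl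
@[simp] theorem csub_apply (f g : Coch X) (n : ℕ) (x : X.X n) : (f - g) n x = f n x - g n x := rfl

instance : One (Coch X) := ⟨⟨fun n _ => if n = 0 then 1 else 0⟩⟩

instance : Mul (Coch X) := ⟨fun f g => ⟨fun n x =>
  ∑ p ∈ Finset.HasAntidiagonal.antidiagonal n, f p.1 (X.map (fr p.1 n) x) * g p.2 (X.map (bk p.2 n) x)⟩⟩

theorem cone_apply (n : ℕ) (x : X.X n) : (1 : Coch X) n x = if n = 0 then 1 else 0 := rfl

theorem cmul_apply (f g : Coch X) (n : ℕ) (x : X.X n) : (f * g) n x =
    ∑ p ∈ Finset.HasAntidiagonal.antidiagonal n, f p.1 (X.map (fr p.1 n) x) * g p.2 (X.map (bk p.2 n) x) := rfl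

protected theorem mul_assoc (f g h : Coch X) : f * g * h = f * (g * h) := by
  ext n x
  rw [cmul_apply, cmul_apply]
  simp only [cmul_apply, Finset.sum_mul, Finset.mul_sum]
  rw [Finset.sum_sigma', Finset.sum_sigma']
  refine Finset.sum_nbij' (fun s => ⟨(s.2.1, s.2.2 + s.1.2), (s.2.2, s.1.2)⟩)
    (fun s => ⟨(s.1.1 + s.2.1, s.2.2), (s.1.1, s.2.1)⟩) ?_ ?_ ?_ ?_ ?_
  · rintro ⟨⟨a, r⟩, ⟨p, q⟩⟩ hs
    simp only [Finset.mem_sigma, Finset.HasAntidiagonal.mem_antidiagonal] at hs ⊢
    refine ⟨?_, trivial⟩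
    omega
  · rintro ⟨⟨a, r⟩, ⟨p, q⟩⟩ hs
    simp only [Finset.mem_sigma, Finset.HasAntidiagonal.mem_antidiagonal] at hs ⊢
    refine ⟨?_, trivial⟩
    omega
  · rintro ⟨⟨a, r⟩, ⟨p, q⟩⟩ hs
    simp only [Finset.mem_sigma, Finset.HasAntidiagonal.mem_antidiagonal] at hs
    obtain ⟨h1, h2⟩ := hs
    subst h2; rfl
  · rintro ⟨⟨a, r⟩, ⟨p, q⟩⟩ hs
    simp only [Finset.mem_sigma, Finset.HasAntidiagonal.mem_antidiagonal] at hs
    obtain ⟨h1, h2⟩ := hs
    subst h2; rfl
  · rintro ⟨⟨a, r⟩, ⟨p, q⟩⟩ hs
    simp only [Finset.mem_sigma, Finset.HasAntidiagonal.mem_antidiagonal] at hs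
    obtain ⟨h1, h2⟩ := hs
    subst h2; subst h1
    simp only
    rw [← X.map_comp, ← X.map_comp, ← X.map_comp, ← X.map_comp, fr_fr (by omega), fr_bk,
      bk_bk (by omega) (by omega), mul_assoc]

protected theorem one_mul (f : Coch X) : 1 * f = f := by
  ext n x
  rw [cmul_apply, Finset.sum_eq_single (0, n)]
  · simp only [cone_apply, if_true, bk_self, X.map_id, one_mul]
  · rintro ⟨p, q⟩ hp hne
    simp only [Finset.HasAntidiagonal.mem_antidiagonal] at hp
    have : p ≠ 0 := by rintro rfl; exact hne (by rw [← hp, zero_add])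
    simp only [cone_apply, if_neg this, zero_mul]
  · intro h; exact absurd (by simp) h

protected theorem mul_one (f : Coch X) : f * 1 = f := by
  ext n x
  rw [cmul_apply, Finset.sum_eq_single (n, 0)]
  · simp only [cone_apply, if_true, fr_self, X.map_id, mul_one]
  · rintro ⟨p, q⟩ hp hne
    simp only [Finset.HasAntidiagonal.mem_antidiagonal] at hp
    have : q ≠ 0 := by rintro rfl; exact hne (by rw [← hp, add_zero])
    simp only [cone_apply, if_neg this, mul_zero]
  · intro h; exact absurd (by simp) h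

protected theorem left_distrib (f g h : Coch X) : f * (g + h) = f * g + f * h := by
  ext n x
  simp only [cmul_apply, cadd_apply, mul_add, Finset.sum_add_distrib]

protected theorem right_distrib (f g h : Coch X) : (f + g) * h = f * h + g * h := by
  ext n x
  simp only [cmul_apply, cadd_apply, add_mul, Finset.sum_add_distrib]

instance : Ring (Coch X) :=
  { (inferInstance : AddCommGroup (Coch X)) with
    mul := (· * ·)
    one := 1
    mul_assoc := Coch.mul_assoc
    one_mul := Coch.one_mul
    mul_one := Coch.mul_one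
    left_distrib := Coch.left_distrib
    right_distrib := Coch.right_distrib
    zero_mul := fun f => by ext n x; simp [cmul_apply]
    mul_zero := fun f => by ext n x; simp [cmul_apply] }

instance : Algebra k (Coch X) := Algebra.ofModule
  (fun c f g => by
    ext n x
    simp only [cmul_apply, csmul_apply, Finset.mul_sum]
    exact Finset.sum_congr rfl fun p _ => by ring)
  (fun c f g => by
    ext n x
    simp only [cmul_apply, csmul_apply, Finset.mul_sum]
    exact Finset.sum_congr rfl fun p _ => by ring)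

/-- The coboundary, as a function. -/
def dltFun (f : Coch X) : ∀ n, X.X n → k
  | 0 => fun _ => 0
  | n + 1 => fun x => ∑ i : Fin (n + 2), f n (X.map (cof i) x)

/-- The coboundary. -/
def dlt : Coch X →ₗ[k] Coch X where
  toFun f := ⟨dltFun f⟩
  map_add' f g := by
    ext n x
    cases n with
    | zero => simp [dltFun]
    | succ n => simp [dltFun, Finset.sum_add_distrib]
  map_smul' c f := by
    ext n x
    cases n with
    | zero => simp [dltFun]
    | succ n => simp [dltFun, Finset.mul_sum]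

theorem dlt_zero (f : Coch X) (x : X.X 0) : dlt f 0 x = 0 := rfl

theorem dlt_succ (f : Coch X) (n : ℕ) (x : X.X (n + 1)) :
    dlt f (n + 1) x = ∑ i : Fin (n + 2), f n (X.map (cof i) x) := rfl

theorem dlt_succ' (f : Coch X) (n : ℕ) (x : X.X (n + 1)) :
    dlt f (n + 1) x = ∑ i ∈ Finset.range (n + 2), f n (X.map (cofN i n) x) := by
  rw [dlt_succ, sum_cof (fun a => f n (X.map a x))]

theorem dlt_dlt (f : Coch X) : dlt (dlt f) = 0 := by
  ext n x
  cases n with
  | zero => rfl
  | succ n =>
    cases n with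
    | zero => simp [dlt_succ, dlt_zero]
    | succ n =>
      rw [dlt_succ]
      simp only [dlt_succ, ← X.map_comp]
      exact sum_cof_cof (fun a => f n (X.map a x))

theorem leibniz (f g : Coch X) : dlt (f * g) = dlt f * g + f * dlt g := by
  ext n x
  cases n with
  | zero => simp [dlt_zero, cmul_apply]
  | succ n =>
    rw [cadd_apply, cmul_apply, cmul_apply, dlt_succ', Finset.Nat.sum_antidiagonal_succ,
      Finset.Nat.sum_antidiagonal_succ']
    simp only [dlt_zero, zero_mul, mul_zero, zero_add]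
    rw [← Finset.sum_add_distrib]
    simp only [cmul_apply]
    rw [Finset.sum_comm]
    apply Finset.sum_congr rfl
    rintro ⟨p, q⟩ hpq
    simp only [Finset.HasAntidiagonal.mem_antidiagonal] at hpq
    subst hpq
    simp only
    rw [dlt_succ', dlt_succ', show p + q + 2 = (p + 1) + (q + 1) by ring, Finset.sum_range_add]
    rw [show p + 2 = (p + 1) + 1 by ring, Finset.sum_range_succ (n := p + 1)]
    rw [Finset.sum_range_succ' (n := q + 1)]
    simp only [← X.map_comp]
    rw [fr_cofN_last, bk_cofN_zero, add_mul, mul_add]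
    have e1 : ∑ i ∈ Finset.range (p + 1), f p (X.map ((cofN i (p + q)).comp (fr p (p + q))) x)
          * g q (X.map ((cofN i (p + q)).comp (bk q (p + q))) x)
        = (∑ i ∈ Finset.range (p + 1), f p (X.map ((fr (p + 1) (p + q + 1)).comp (cofN i p)) x))
          * g q (X.map (bk q (p + q + 1)) x) := by
      rw [Finset.sum_mul]
      apply Finset.sum_congr rfl
      intro i hi
      rw [Finset.mem_range] at hi
      rw [cofN_fr_le (by omega), cofN_bk_le (by omega)]
    have e2 : ∑ j ∈ Finset.range (q + 1), f p (X.map ((cofN (p + 1 + j) (p + q)).comp (fr p (p + q))) x)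
          * g q (X.map ((cofN (p + 1 + j) (p + q)).comp (bk q (p + q))) x)
        = f p (X.map (fr p (p + q + 1)) x) *
          ∑ j ∈ Finset.range (q + 1), g q (X.map ((bk (q + 1) (p + q + 1)).comp (cofN (j + 1) q)) x) := by
      rw [Finset.mul_sum]
      apply Finset.sum_congr rfl
      intro j hj
      rw [cofN_fr_gt (by omega), cofN_bk_gt]
    rw [e1, e2]
    have := k_two (f p (X.map (fr p (p + q + 1)) x) * g q (X.map (bk q (p + q + 1)) x))
    linear_combination (-1 : k) * this

end Coch

end Pool.Agent.SHS
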