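import Pool.Agent.SH.S.StmtsV
import Pool.Agent.SH.S.Norm

/-!
Block III-S: simplicial vector spaces: Moore subspaces, the projection onto them, and a
criterion for levelwise bijectivity.
-/

namespace Pool.Agent.SHS.Spl

open Pool.Agent.SHS.Norm

theorem cf_cf {n i j : ℕ} (h : i ≤ j) :
    (cf (n + 1) (j + 1)).comp (cf n i) = (cf (n + 1) i).comp (cf n j) := by
  apply mext
  intro x
  show (if (if x.1 < i then x.1 else x.1 + 1) < j + 1 then (if x.1 < i then x.1 else x.1 + 1)
      else (if x.1 < i then x.1 else x.1 + 1) + 1)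
    = (if (if x.1 < j then x.1 else x.1 + 1) < i then (if x.1 < j then x.1 else x.1 + 1)
      else (if x.1 < j then x.1 else x.1 + 1) + 1)
  split_ifs <;> omega

section
variable (V : SV)

theorem d_s_lt {n i j : ℕ} (h : i < j) (hj : j ≤ n + 1) (x : V.X (n + 1)) :
    V.map (cf (n + 1) i) (V.map (cd (n + 1) j) x) = V.map (cd n (j - 1)) (V.map (cf n i) x) := by
  rw [← V.map_comp, cd_cf_lt h hj, V.map_comp]

theorem d_s_eq {n j : ℕ} (hj : j ≤ n) (x : V.X n) :
    V.map (cf n j) (V.map (cd n j) x) = x := by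
  rw [← V.map_comp, cd_cf_eq hj, V.map_id]

theorem d_s_eq' {n j : ℕ} (hj : j ≤ n) (x : V.X n) :
    V.map (cf n (j + 1)) (V.map (cd n j) x) = x := by
  rw [← V.map_comp, cd_cf_eq' hj, V.map_id]

theorem d_s_gt {n i j : ℕ} (h : j < i) (hj : i ≤ n + 1) (x : V.X (n + 1)) :
    V.map (cf (n + 1) (i + 1)) (V.map (cd (n + 1) j) x) = V.map (cd n j) (V.map (cf n i) x) := by
  rw [← V.map_comp, cd_cf_gt h hj, V.map_comp]

theorem s_s {n l j : ℕ} (h : l ≤ j) (hj : j ≤ n) (x : V.X n) :
    V.map (cd (n + 1) (j + 1)) (V.map (cd n l) x)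
      = V.map (cd (n + 1) l) (V.map (cd n j) x) := by
  rw [← V.map_comp, cd_cd h hj, V.map_comp]

theorem d_d {n i j : ℕ} (h : i ≤ j) (x : V.X (n + 2)) :
    V.map (cf n i) (V.map (cf (n + 1) (j + 1)) x)
      = V.map (cf n j) (V.map (cf (n + 1) i) x) := by
  rw [← V.map_comp, cf_cf h, V.map_comp]

/-- Elements whose faces with index > c vanish. -/
def G : ∀ n : ℕ, ℕ → Submodule k (V.X n)
  | 0, _ => ⊤
  | n + 1, c =>
    { carrier := {v | ∀ i : ℕ, c < i → i ≤ n + 1 → V.map (cf n i) v = 0}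
      zero_mem' := fun _ _ _ => map_zero _
      add_mem' := fun {v w} hv hw i h h' => by rw [map_add, hv i h h', hw i h h', add_zero]
      smul_mem' := fun c v hv i h h' => by rw [map_smul, hv i h h', smul_zero] }

theorem mem_G {n c : ℕ} {v : V.X (n + 1)} :
    v ∈ G V (n + 1) c ↔ ∀ i : ℕ, c < i → i ≤ n + 1 → V.map (cf n i) v = 0 := Iff.rfl

theorem G_mono {n c c' : ℕ} (h : c ≤ c') : G V n c ≤ G V n c' := by
  cases n with
  | zero => exact le_refl _
  | succ n => exact fun v hv i hi hi' => hv i (lt_of_le_of_lt h hi) hi'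

theorem G_top {n c : ℕ} (h : n ≤ c) (v : V.X n) : v ∈ G V n c := by
  cases n with
  | zero => trivial
  | succ n => exact fun i hi hi' => absurd hi' (by omega)

theorem d_mem {n c : ℕ} {v : V.X (n + 1)} (hv : v ∈ G V (n + 1) (c + 1)) :
    V.map (cf n (c + 1)) v ∈ G V n c := by
  cases n with
  | zero => trivial
  | succ n =>
    intro i hi hi'
    have h := d_d V (n := n) (i := c + 1) (j := i) (by omega) v
    rw [← h, hv (i + 1) (by omega) (by omega), map_zero]

theorem s_mem {n c : ℕ} (hc : c ≤ n) {w : V.X n} (hw : w ∈ G V n c) :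
    V.map (cd n c) w ∈ G V (n + 1) (c + 1) := by
  intro i hi hi'
  cases n with
  | zero => omega
  | succ n =>
    obtain ⟨i', rfl⟩ : ∃ i', i = i' + 1 := ⟨i - 1, by omega⟩
    rw [d_s_gt V (by omega) (by omega), hw i' (by omega) (by omega), map_zero]

theorem mem_of {n c : ℕ} {v : V.X (n + 1)} (hv : v ∈ G V (n + 1) (c + 1))
    (h : V.map (cf n (c + 1)) v = 0) : v ∈ G V (n + 1) c := by
  intro i hi hi'
  by_cases hc : i = c + 1
  · rw [hc]; exact h
  · exact hv i (by omega) hi'

end

/-- `f` is bijective on G n c. -/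
def P {V U : SV} (f : SV.Hom V U) (n c : ℕ) : Prop :=
  (∀ v ∈ G V n c, f.f n v = 0 → v = 0) ∧ (∀ u ∈ G U n c, ∃ v ∈ G V n c, f.f n v = u)

theorem P_step {V U : SV} (f : SV.Hom V U) {n c : ℕ} (hc : c ≤ n) (h1 : P f (n + 1) c)
    (h2 : P f n c) : P f (n + 1) (c + 1) := by
  constructor
  · intro v hv h0
    have h3 : V.map (cf n (c + 1)) v = 0 := by
      apply h2.1 _ (d_mem V hv)
      rw [f.nat, h0, map_zero]
    exact h1.1 v (mem_of V hv h3) h0
  · intro u hu
    obtain ⟨w, hw, hwe⟩ := h2.2 _ (d_mem U hu)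
    have h3 : u - f.f (n + 1) (V.map (cd n c) w) ∈ G U (n + 1) c := by
      apply mem_of U
      · apply Submodule.sub_mem _ hu
        rw [f.nat]
        apply s_mem U hc
        rw [hwe]
        exact d_mem U hu
      · rw [map_sub, f.nat, d_s_eq' U hc, hwe, sub_self]
    obtain ⟨v, hv, hve⟩ := h1.2 _ h3
    refine ⟨v + V.map (cd n c) w, Submodule.add_mem _ (G_mono V (Nat.le_succ c) hv)
      (s_mem V hc hw), ?_⟩
    rw [map_add, hve, sub_add_cancel]

theorem P_all {V U : SV} (f : SV.Hom V U) (h : ∀ n, P f n 0) : ∀ n c, c ≤ n → P f n c := by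
  intro n
  induction n with
  | zero => intro c hc; obtain rfl : c = 0 := by omega
            exact h 0
  | succ n ih =>
    intro c
    induction c with
    | zero => intro _; exact h _
    | succ c ihc => intro hc; exact P_step f (by omega) (ihc (by omega)) (ih c (by omega))

/-- Criterion: bijectivity on Moore chains implies levelwise bijectivity. -/
theorem crit {V U : SV} (f : SV.Hom V U) (h : ∀ n, P f n 0) (n : ℕ) :
    Function.Bijective (f.f n) := by
  obtain ⟨h1, h2⟩ := P_all f h n n (le_refl n)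
  constructor
  · intro a b hab
    have h3 : a - b = 0 := h1 (a - b) (G_top V (le_refl n) _) (by rw [map_sub, hab, sub_self])
    exact sub_eq_zero.mp h3
  · intro u
    obtain ⟨v, _, hv⟩ := h2 u (G_top U (le_refl n) u)
    exact ⟨v, hv⟩

/-! ### the projection -/

section
variable (V : SV)

/-- `r` steps of the projection. -/
def stp (n : ℕ) : ℕ → (V.X (n + 1) →ₗ[k] V.X (n + 1))
  | 0 => LinearMap.id
  | r + 1 => (LinearMap.id + (V.map (cd n (n - r))).comp (V.map (cf n (n - r + 1)))).comp (stp n r)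

theorem stp_succ (n r : ℕ) (v : V.X (n + 1)) :
    stp V n (r + 1) v
      = stp V n r v + V.map (cd n (n - r)) (V.map (cf n (n - r + 1)) (stp V n r v)) := rfl

/-- The projection onto the Moore chains. -/
def pj : ∀ n : ℕ, V.X n →ₗ[k] V.X n
  | 0 => LinearMap.id
  | n + 1 => stp V n (n + 1)

theorem stp_mem (n : ℕ) (v : V.X (n + 1)) : ∀ r ≤ n + 1, stp V n r v ∈ G V (n + 1) (n + 1 - r) := by
  intro r
  induction r with
  | zero => intro _; exact G_top V (by omega) _
  | succ r ih =>
    intro hr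
    have h := ih (by omega)
    have e1 : n + 1 - r = (n - r) + 1 := by omega
    have e2 : n + 1 - (r + 1) = n - r := by omega
    rw [e1] at h
    rw [e2, stp_succ]
    apply mem_of V
    · exact Submodule.add_mem _ h (s_mem V (by omega) (d_mem V h))
    · rw [map_add, d_s_eq' V (by omega), mod_two]

theorem pj_mem (n : ℕ) (v : V.X n) : pj V n v ∈ G V n 0 := by
  cases n with
  | zero => trivial
  | succ n =>
    have h := stp_mem V n v (n + 1) (le_refl _)
    rw [Nat.sub_self] at h
    exact h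

theorem stp_eq (n : ℕ) (v : V.X (n + 1)) (hv : v ∈ G V (n + 1) 0) : ∀ r ≤ n + 1, stp V n r v = v := by
  intro r
  induction r with
  | zero => intro _; rfl
  | succ r ih =>
    intro hr
    rw [stp_succ, ih (by omega), hv (n - r + 1) (by omega) (by omega), map_zero, add_zero]

theorem pj_eq {n : ℕ} {v : V.X n} (hv : v ∈ G V n 0) : pj V n v = v := by
  cases n with
  | zero => rfl
  | succ n => exact stp_eq V n v hv (n + 1) (le_refl _)

theorem stp_s (n j : ℕ) (hj : j ≤ n) (w : V.X n) :
    ∀ r ≤ n - j, ∃ w' : V.X n, stp V n r (V.map (cd n j) w) = V.map (cd n j) w' := by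
  intro r
  induction r with
  | zero => intro _; exact ⟨w, rfl⟩
  | succ r ih =>
    intro hr
    obtain ⟨w', hw'⟩ := ih (by omega)
    obtain ⟨m, rfl⟩ : ∃ m, n = m + 1 := ⟨n - 1, by omega⟩
    obtain ⟨c, hc⟩ : ∃ c, m + 1 - r = c + 1 := ⟨m - r, by omega⟩
    refine ⟨w' + V.map (cd m c) (V.map (cf m (c + 1)) w'), ?_⟩
    rw [stp_succ, hw', hc, d_s_gt V (by omega) (by omega), s_s V (by omega) (by omega), map_add]

theorem stp_zero' (n j : ℕ) (hj : j ≤ n) (w : V.X n) (r : ℕ) :
    stp V n (n - j + 1 + r) (V.map (cd n j) w) = 0 := by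
  induction r with
  | zero =>
    obtain ⟨w', hw'⟩ := stp_s V n j hj w (n - j) (le_refl _)
    rw [add_zero, stp_succ, hw', show n - (n - j) = j by omega, d_s_eq' V hj, mod_two]
  | succ r ih =>
    rw [← add_assoc, stp_succ, ih, map_zero, map_zero, add_zero]

theorem pj_s {n j : ℕ} (hj : j ≤ n) (w : V.X n) : pj V (n + 1) (V.map (cd n j) w) = 0 := by
  have h := stp_zero' V n j hj w j
  rw [show n - j + 1 + j = n + 1 by omega] at h
  exact h

/-- normalised functionals do not see the projection -/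
theorem fun_stp {M : Type*} [AddCommGroup M] [Module k M] (n : ℕ) (l : V.X (n + 1) →ₗ[k] M)
    (hl : ∀ j ≤ n, ∀ w : V.X n, l (V.map (cd n j) w) = 0) (v : V.X (n + 1)) :
    ∀ r, l (stp V n r v) = l v := by
  intro r
  induction r with
  | zero => rfl
  | succ r ih => rw [stp_succ, map_add, hl (n - r) (by omega), add_zero, ih]

end

/-- normalised linear functionals -/
def NF (V : SV) {M : Type*} [AddCommGroup M] [Module k M] : ∀ n : ℕ, (V.X n →ₗ[k] M) → Prop
  | 0, _ => True
  | n + 1, l => ∀ j ≤ n, ∀ w : V.X n, l (V.map (cd n j) w) = 0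

theorem NF.pj {V : SV} {M : Type*} [AddCommGroup M] [Module k M] {n : ℕ} {l : V.X n →ₗ[k] M}
    (hl : NF V n l) (v : V.X n) : l (pj V n v) = l v := by
  cases n with
  | zero => rfl
  | succ n => exact fun_stp V n l hl v (n + 1)

theorem NF_comp_pj (V : SV) {M : Type*} [AddCommGroup M] [Module k M] (n : ℕ)
    (l : V.X n →ₗ[k] M) : NF V n (l.comp (pj V n)) := by
  cases n with
  | zero => trivial
  | succ n =>
    intro j hj w
    show l (Spl.pj V (n + 1) (V.map (cd n j) w)) = 0
    rw [pj_s V hj, map_zero]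

theorem stp_nat {V U : SV} (f : SV.Hom V U) (n : ℕ) (v : V.X (n + 1)) (r : ℕ) :
    f.f (n + 1) (stp V n r v) = stp U n r (f.f (n + 1) v) := by
  induction r with
  | zero => rfl
  | succ r ih => rw [stp_succ, stp_succ, map_add, ih, f.nat, f.nat, ih]

theorem pj_nat {V U : SV} (f : SV.Hom V U) (n : ℕ) (v : V.X n) :
    f.f n (pj V n v) = pj U n (f.f n v) := by
  cases n with
  | zero => rfl
  | succ n => exact stp_nat f n v (n + 1)

end Pool.Agent.SHS.Spl
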