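import Pool.Agent.SH.S.SplA

/-!
Block III-S: simplicial vector spaces: linear maps to `EM n` and to the contractible objects
`CE n` (normalised cochains on simplices).
-/

namespace Pool.Agent.SHS.Spl

open Pool.Agent.SHS.Norm

/-- a non injective monotone map factors through a codegeneracy -/
theorem fac_cd {n m : ℕ} (s : Mor (n + 1) m) (hs : ¬ Function.Injective s) :
    ∃ j ≤ n, ∃ s' : Mor n m, s = s'.comp (cd n j) := by
  have h1 : ∃ x y : Fin (n + 2), x < y ∧ s x = s y := by
    rw [Function.Injective] at hs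
    push Not at hs
    obtain ⟨a, b, hab, hne⟩ := hs
    rcases lt_or_gt_of_ne hne with h | h
    · exact ⟨a, b, h, hab⟩
    · exact ⟨b, a, h, hab.symm⟩
  obtain ⟨x, y, hxy, he⟩ := h1
  have hx : x.1 ≤ n := by
    have := y.2
    have h2 : x.1 < y.1 := hxy
    omega
  have h3 : ∀ z : Fin (n + 2), z.1 = x.1 + 1 → s z = s x := by
    intro z hz
    apply le_antisymm
    · rw [he]
      apply s.monotone
      have h2 : x.1 < y.1 := hxy
      show z.1 ≤ y.1
      omega
    · apply s.monotone
      show x.1 ≤ z.1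
      omega
  refine ⟨x.1, hx, s.comp (cf n x.1), ?_⟩
  apply OrderHom.ext
  funext z
  show s z = s ((cf n x.1) ((cd n x.1) z))
  have hz := z.2
  by_cases h : z.1 = x.1
  · have e1 : z = x := Fin.ext h
    rw [e1]
    symm
    apply h3
    show (if (if x.1 ≤ x.1 then min x.1 n else x.1 - 1) < x.1 then
      (if x.1 ≤ x.1 then min x.1 n else x.1 - 1)
      else (if x.1 ≤ x.1 then min x.1 n else x.1 - 1) + 1) = x.1 + 1
    split_ifs <;> omega
  · congr 1
    apply Fin.ext
    show z.1 = (if (if z.1 ≤ x.1 then min z.1 n else z.1 - 1) < x.1 then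
      (if z.1 ≤ x.1 then min z.1 n else z.1 - 1)
      else (if z.1 ≤ x.1 then min z.1 n else z.1 - 1) + 1)
    split_ifs <;> omega

theorem inj_zero {m : ℕ} (s : Mor 0 m) : Function.Injective s := by
  intro x y _
  apply Fin.ext
  have := x.2
  have := y.2
  omega

theorem NF.deg {V : SV} {n : ℕ} {l : V.X n →ₗ[k] k} (hl : NF V n l) {m : ℕ} (s : Mor n m)
    (hs : ¬ Function.Injective s) (x : V.X m) : l (V.map s x) = 0 := by
  cases n with
  | zero => exact absurd (inj_zero s) hs
  | succ n =>
    obtain ⟨j, hj, s', rfl⟩ := fac_cd s hs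
    rw [V.map_comp]
    exact hl j hj _

/-- The linear map to `EM n` given by a normalised linear cocycle. -/
def EMl (V : SV) (n : ℕ) (l : V.X n →ₗ[k] k) (hl : NF V n l)
    (hc : ∀ v : V.X (n + 1), ∑ i : Fin (n + 2), l (V.map (cof i) v) = 0) : SV.Hom V (EM n) where
  f q :=
    { toFun := fun x => ⟨fun s => l (V.map s x), fun s hs => hl.deg s hs x, fun t => by
        have h := hc (V.map t x)
        refine Eq.trans (Finset.sum_congr rfl fun i _ => ?_) h
        show l (V.map (t.comp (cof i)) x) = l (V.map (cof i) (V.map t x))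
        rw [V.map_comp]⟩
      map_add' := fun x y => by
        apply Subtype.ext
        funext s
        show l (V.map s (x + y)) = l (V.map s x) + l (V.map s y)
        rw [map_add, map_add]
      map_smul' := fun c x => by
        apply Subtype.ext
        funext s
        show l (V.map s (c • x)) = c • l (V.map s x)
        rw [map_smul, map_smul] }
  nat a x := by
    apply Subtype.ext
    funext s
    show l (V.map s (V.map a x)) = l (V.map (a.comp s) x)
    rw [V.map_comp]

theorem EMl_apply (V : SV) (n : ℕ) (l : V.X n →ₗ[k] k) (hl : NF V n l)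
    (hc : ∀ v : V.X (n + 1), ∑ i : Fin (n + 2), l (V.map (cof i) v) = 0) (v : V.X n) :
    ((EMl V n l hl hc).f n v).1 OrderHom.id = l v := by
  show l (V.map OrderHom.id v) = l v
  rw [V.map_id]

/-- The functional of a linear map to `EM n`. -/
def val {V : SV} {n : ℕ} (x : SV.Hom V (EM n)) : V.X n →ₗ[k] k where
  toFun v := (x.f n v).1 OrderHom.id
  map_add' v w := by
    rw [map_add]; rfl
  map_smul' c v := by
    rw [map_smul]; rfl

theorem val_apply {V : SV} {n : ℕ} (x : SV.Hom V (EM n)) (v : V.X n) :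
    val x v = (x.f n v).1 OrderHom.id := rfl

theorem val_map {V : SV} {n q : ℕ} (x : SV.Hom V (EM n)) (v : V.X q) (s : Mor n q) :
    (x.f q v).1 s = val x (V.map s v) := by
  rw [val_apply, x.nat]
  rfl

theorem val_NF {V : SV} {n : ℕ} (x : SV.Hom V (EM n)) : NF V n (val x) := by
  cases n with
  | zero => trivial
  | succ n =>
    intro j hj w
    rw [← val_map]
    apply (x.f n w).2.1
    intro hi
    have h1 : (cd n j) ⟨j, by omega⟩ = (cd n j) ⟨j + 1, by omega⟩ := by
      apply Fin.ext
      show (if j ≤ j then min j n else j - 1) = (if j + 1 ≤ j then min (j + 1) n else j + 1 - 1)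
      split_ifs <;> omega
    have h2 := congrArg Fin.val (hi h1)
    have h3 : j = j + 1 := h2
    omega

theorem val_coc {V : SV} {n : ℕ} (x : SV.Hom V (EM n)) (v : V.X (n + 1)) :
    ∑ i : Fin (n + 2), val x (V.map (cof i) v) = 0 := by
  have h := (x.f (n + 1) v).2.2 OrderHom.id
  refine Eq.trans (Finset.sum_congr rfl fun i _ => ?_) h
  rw [← val_map]
  rfl

/-- Normalised `n`-cochains on Δ^q. -/
def CEsub (n q : ℕ) : Submodule k (Mor n q → k) where
  carrier := {z | ∀ s : Mor n q, ¬ Function.Injective s → z s = 0}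
  zero_mem' := fun _ _ => rfl
  add_mem' := by
    intro a b h1 h3 s hs
    show a s + b s = 0
    rw [h1 s hs, h3 s hs, add_zero]
  smul_mem' := by
    intro c a h1 s hs
    show c * a s = 0
    rw [h1 s hs, mul_zero]

/-- The simplicial vector space of normalised `n`-cochains on simplices. -/
abbrev CE (n : ℕ) : SV where
  X q := CEsub n q
  map {m q} a :=
    { toFun := fun z => ⟨fun s => z.1 (a.comp s), fun s hs =>
        z.2 _ fun h => hs fun x y hxy => h (congrArg a hxy)⟩
      map_add' := fun _ _ => rfl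
      map_smul' := fun _ _ => rfl }
  map_id z := rfl
  map_comp f g z := rfl

/-- The linear map to `CE n` given by a normalised functional. -/
def CEl (V : SV) (n : ℕ) (l : V.X n →ₗ[k] k) (hl : NF V n l) : SV.Hom V (CE n) where
  f q :=
    { toFun := fun x => ⟨fun s => l (V.map s x), fun s hs => hl.deg s hs x⟩
      map_add' := fun x y => by
        apply Subtype.ext
        funext s
        show l (V.map s (x + y)) = l (V.map s x) + l (V.map s y)
        rw [map_add, map_add]
      map_smul' := fun c x => by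
        apply Subtype.ext
        funext s
        show l (V.map s (c • x)) = c • l (V.map s x)
        rw [map_smul, map_smul] }
  nat a x := by
    apply Subtype.ext
    funext s
    show l (V.map s (V.map a x)) = l (V.map (a.comp s) x)
    rw [V.map_comp]

/-- The inclusion of cocycles. -/
def EtoC (n : ℕ) : SV.Hom (EM n) (CE n) where
  f q :=
    { toFun := fun z => ⟨z.1, z.2.1⟩
      map_add' := fun _ _ => rfl
      map_smul' := fun _ _ => rfl }
  nat a x := rfl

theorem G_map {V U : SV} (f : SV.Hom V U) {n c : ℕ} {v : V.X n} (hv : v ∈ G V n c) :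
    f.f n v ∈ G U n c := by
  cases n with
  | zero => trivial
  | succ n =>
    intro i h1 h2
    rw [← f.nat, hv i h1 h2, map_zero]

/-- strictly monotone maps hitting all positive values -/
theorem supp {n q : ℕ} (s : Mor n q) (hi : Function.Injective s)
    (hs : ∀ i : ℕ, 1 ≤ i → i ≤ q → ∃ x, (s x).1 = i) :
    (s 0).1 ≤ 1 ∧ (∀ x : Fin (n + 1), (s x).1 = x.1 + (s 0).1) ∧ n + (s 0).1 = q := by
  have hmono : ∀ x y : Fin (n + 1), x.1 < y.1 → (s x).1 < (s y).1 := by
    intro x y h
    have h1 : (s x).1 ≤ (s y).1 := s.monotone (le_of_lt (show x < y from h))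
    rcases lt_or_eq_of_le h1 with h2 | h2
    · exact h2
    · have h3 := hi (Fin.ext h2)
      rw [h3] at h
      omega
  have hle : ∀ x y : Fin (n + 1), x.1 ≤ y.1 → (s x).1 ≤ (s y).1 := fun x y h => s.monotone h
  have h0 : (s 0).1 ≤ 1 := by
    by_contra hc
    obtain ⟨x, hx⟩ := hs 1 (le_refl _) (by have := (s 0).2; omega)
    have := hle 0 x (Nat.zero_le _)
    omega
  have hstep : ∀ m : ℕ, ∀ h : m < n + 1, (s ⟨m, h⟩).1 = m + (s 0).1 := by
    intro m
    induction m with
    | zero =>
      intro h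
      have : (⟨0, h⟩ : Fin (n + 1)) = 0 := rfl
      rw [this]
      omega
    | succ m ih =>
      intro h
      have h1 := ih (by omega)
      have h2 := hmono ⟨m, by omega⟩ ⟨m + 1, h⟩ (Nat.lt_succ_self m)
      by_contra hne
      obtain ⟨x, hx⟩ := hs ((s ⟨m, by omega⟩).1 + 1) (by omega) (by
        have := (s ⟨m + 1, h⟩).2
        omega)
      rcases Nat.lt_or_ge m x.1 with h3 | h3
      · have := hle ⟨m + 1, h⟩ x h3
        omega
      · have := hle x ⟨m, by omega⟩ h3
        omega
  refine ⟨h0, fun x => hstep x.1 x.2, ?_⟩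
  have h1 := hstep n (by omega)
  have h2 := (s ⟨n, by omega⟩).2
  by_contra hne
  obtain ⟨x, hx⟩ := hs q (by omega) (le_refl _)
  have := hle x ⟨n, by omega⟩ (by have := x.2; show x.1 ≤ n; omega)
  omega

theorem miss {n q i : ℕ} (hi : i ≤ q + 1) (s : Mor n (q + 1)) (hs : ∀ x, (s x).1 ≠ i) :
    s = (cf q i).comp ((cd q i).comp s) := by
  apply mext
  intro x
  have hx := (s x).2
  have hn := hs x
  show (s x).1 = (if (if (s x).1 ≤ i then min (s x).1 q else (s x).1 - 1) < i then
    (if (s x).1 ≤ i then min (s x).1 q else (s x).1 - 1)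
    else (if (s x).1 ≤ i then min (s x).1 q else (s x).1 - 1) + 1)
  split_ifs <;> omega

theorem CE_supp {n q : ℕ} (z : (CE n).X q) (hz : z ∈ G (CE n) q 0) (s : Mor n q)
    (h : z.1 s ≠ 0) :
    (s 0).1 ≤ 1 ∧ (∀ x : Fin (n + 1), (s x).1 = x.1 + (s 0).1) ∧ n + (s 0).1 = q := by
  apply supp
  · by_contra hi
    exact h (z.2 s hi)
  · intro i h1 h2
    by_contra hc
    push Not at hc
    cases q with
    | zero => omega
    | succ q =>
      apply h
      rw [miss h2 s hc]
      have h3 := congrArg (fun w : (CE n).X q => w.1 ((cd q i).comp s)) (hz i (by omega) h2)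
      exact h3

theorem CE_ext {n q : ℕ} {z w : (CE n).X q} (hz : z ∈ G (CE n) q 0) (hw : w ∈ G (CE n) q 0)
    (h0 : ∀ h : n = q, z.1 (h ▸ OrderHom.id) = w.1 (h ▸ OrderHom.id))
    (h1 : ∀ h : n + 1 = q, z.1 (h ▸ cf n 0) = w.1 (h ▸ cf n 0)) : z = w := by
  rw [← sub_eq_zero]
  have hs := Submodule.sub_mem _ hz hw
  apply Subtype.ext
  funext s
  by_contra hne
  obtain ⟨h2, h3, h4⟩ := CE_supp (z - w) hs s hne
  apply hne
  show z.1 s - w.1 s = 0
  rw [sub_eq_zero]
  rcases Nat.eq_zero_or_pos (s 0).1 with h5 | h5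
  · rw [h5] at h3 h4
    obtain rfl : n = q := h4
    have h6 : s = OrderHom.id := by
      apply mext
      intro x
      exact h3 x
    rw [h6]
    exact h0 rfl
  · have h7 : (s 0).1 = 1 := by omega
    rw [h7] at h3 h4
    subst h4
    have h6 : s = cf n 0 := by
      apply mext
      intro x
      rw [h3 x]
      show x.1 + 1 = if x.1 < 0 then x.1 else x.1 + 1
      rw [if_neg (by omega)]
    rw [h6]
    exact h1 rfl

/-- Moore chains of `EM n`. -/
theorem EM_ext {n q : ℕ} {z w : (EM n).X q} (hz : z ∈ G (EM n) q 0) (hw : w ∈ G (EM n) q 0)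
    (h0 : ∀ h : n = q, z.1 (h ▸ OrderHom.id) = w.1 (h ▸ OrderHom.id)) : z = w := by
  have key : (EtoC n).f q z = (EtoC n).f q w := by
    apply CE_ext (G_map _ hz) (G_map _ hw) h0
    intro h
    subst h
    show z.1 (cf n 0) = w.1 (cf n 0)
    have aux : ∀ z : (EM n).X (n + 1), z ∈ G (EM n) (n + 1) 0 → z.1 (cf n 0) = 0 := by
      intro z hz
      have h2 := z.2.2 OrderHom.id
      rw [Fin.sum_univ_succ, Finset.sum_eq_zero, add_zero] at h2
      · have e : (OrderHom.id.comp (cof 0) : Mor n (n + 1)) = cf n 0 := cof_eq 0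
        rw [← e]
        exact h2
      · intro i _
        have h3 := congrArg (fun w : (EM n).X n => w.1 OrderHom.id)
          (hz (i.1 + 1) (by omega) (by omega))
        have e : (OrderHom.id.comp (cof i.succ) : Mor n (n + 1)) = (cf n (i.1 + 1)).comp OrderHom.id :=
          cof_eq i.succ
        rw [e]
        exact h3
    rw [aux z hz, aux w hw]
  apply Subtype.ext
  exact congrArg (fun w : (CE n).X q => w.1) key

/-- `CE n` is contractible. -/
def CEh (n : ℕ) (q : ℕ) (t : Mor q 1) : (CE n).X q →ₗ[k] (CE n).X q where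
  toFun z := ⟨fun s => if t (s 0) = 0 then z.1 s else 0, fun s hs => by
    show (if t (s 0) = 0 then z.1 s else 0) = 0
    rw [z.2 s hs, ite_self]⟩
  map_add' z w := by
    apply Subtype.ext
    funext s
    show (if t (s 0) = 0 then z.1 s + w.1 s else 0)
      = (if t (s 0) = 0 then z.1 s else 0) + (if t (s 0) = 0 then w.1 s else 0)
    split_ifs <;> simp
  map_smul' c z := by
    apply Subtype.ext
    funext s
    show (if t (s 0) = 0 then c * z.1 s else 0) = c * (if t (s 0) = 0 then z.1 s else 0)
    split_ifs <;> simp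

theorem CEh_nat (n : ℕ) {m q : ℕ} (a : Mor m q) (t : Mor q 1) (z : (CE n).X q) :
    CEh n m (t.comp a) ((CE n).map a z) = (CE n).map a (CEh n q t z) := rfl

theorem CEh_zero (n q : ℕ) (z : (CE n).X q) : CEh n q (cst 0) z = z := by
  apply Subtype.ext
  funext s
  show (if (0 : Fin 2) = 0 then z.1 s else 0) = z.1 s
  rw [if_pos rfl]

theorem CEh_one (n q : ℕ) (z : (CE n).X q) : CEh n q (cst 1) z = 0 := by
  apply Subtype.ext
  funext s
  show (if (1 : Fin 2) = 0 then z.1 s else 0) = 0
  rw [if_neg (by decide)]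

end Pool.Agent.SHS.Spl
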