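import Pool.Agent.SH.S.SplB

/-!
Block III-S: simplicial vector spaces with finite levels: splitting.
-/

namespace Pool.Agent.SHS.Spl

open Pool.Agent.SHS.Norm

section
variable (V : SV)

theorem mem_ZM {n : ℕ} {v : V.X (n + 1)} :
    v ∈ V.ZM (n + 1) ↔ v ∈ G V (n + 1) 0 ∧ V.map (cf n 0) v = 0 := by
  constructor
  · intro h
    have h1 : ∀ i ≤ n + 1, V.map (cf n i) v = 0 := by
      intro i hi
      apply h n (cf n i)
      intro hs
      obtain ⟨x, hx⟩ := hs ⟨i, by omega⟩
      have h2 : (if x.1 < i then x.1 else x.1 + 1) = i := congrArg Fin.val hx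
      split_ifs at h2 <;> omega
    exact ⟨fun i _ hi => h1 i hi, h1 0 (by omega)⟩
  · rintro ⟨h1, h2⟩ m a ha
    rw [Function.Surjective] at ha
    push Not at ha
    obtain ⟨i, hi⟩ := ha
    have h3 := miss (i := i.1) (by have := i.2; omega) a (fun x hx => hi x (Fin.ext hx))
    rw [h3, V.map_comp]
    rcases Nat.eq_zero_or_pos i.1 with h4 | h4
    · rw [h4, h2, map_zero]
    · rw [h1 i.1 h4 (by have := i.2; omega), map_zero]

theorem ZM_le (n : ℕ) : V.ZM n ≤ G V n 0 := by
  cases n with
  | zero => intro v _; trivial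
  | succ n => exact fun v hv => ((mem_ZM V).1 hv).1

theorem mem_BM {n : ℕ} {v : V.X n} :
    v ∈ V.BM n ↔ ∃ w ∈ G V (n + 1) 0, V.map (cf n 0) w = v := by
  constructor
  · rintro ⟨w, h1, h2⟩
    refine ⟨w, fun i hi hi' => ?_, ?_⟩
    · have h3 := h2 ⟨i - 1, by omega⟩
      rw [cof_eq] at h3
      have e : (Fin.succ (⟨i - 1, by omega⟩ : Fin (n + 1))).1 = i := by
        show i - 1 + 1 = i
        omega
      rw [e] at h3
      exact h3
    · rw [← h1, cof_eq]; rfl
  · rintro ⟨w, h1, h2⟩
    refine ⟨w, ?_, fun i => ?_⟩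
    · rw [cof_eq]; exact h2
    · rw [cof_eq]
      exact h1 _ (Nat.succ_pos _) (by have := i.2; show i.1 + 1 ≤ n + 1; omega)

theorem d0_mem {n : ℕ} {w : V.X (n + 1)} (hw : w ∈ G V (n + 1) 0) :
    V.map (cf n 0) w ∈ V.ZM n := by
  cases n with
  | zero =>
    intro m a ha
    exfalso
    apply ha
    intro y
    refine ⟨0, ?_⟩
    apply Fin.ext
    have := y.2
    have := (a 0).2
    omega
  | succ n =>
    have h1 : ∀ i ≤ n + 1, V.map (cf n i) (V.map (cf (n + 1) 0) w) = 0 := by
      intro i hi
      rw [← d_d V (n := n) (i := 0) (j := i) (Nat.zero_le _), hw (i + 1) (by omega) (by omega),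
        map_zero]
    exact (mem_ZM V).2 ⟨fun i _ hi => h1 i hi, h1 0 (by omega)⟩

theorem BM_le (n : ℕ) : V.BM n ≤ V.ZM n := by
  intro v hv
  obtain ⟨w, h1, rfl⟩ := (mem_BM V).1 hv
  exact d0_mem V h1

end

theorem val_d0 {V : SV} {n : ℕ} (x : SV.Hom V (EM n)) {w : V.X (n + 1)}
    (hw : w ∈ G V (n + 1) 0) : val x (V.map (cf n 0) w) = 0 := by
  have h := val_coc x w
  rw [Fin.sum_univ_succ, Finset.sum_eq_zero, add_zero] at h
  · rw [cof_eq] at h
    exact h
  · intro i _
    have h2 : V.map (cf n i.succ.1) w = 0 :=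
      hw i.succ.1 (Nat.succ_pos _) (by have := i.2; show i.1 + 1 ≤ n + 1; omega)
    rw [cof_eq, h2, map_zero]

theorem val_BM {V : SV} {n : ℕ} (x : SV.Hom V (EM n)) {v : V.X n} (hv : v ∈ V.BM n) :
    val x v = 0 := by
  obtain ⟨w, h1, rfl⟩ := (mem_BM V).1 hv
  exact val_d0 x h1

/-- normalised functionals vanishing on boundaries are cocycles -/
theorem coc_of {V : SV} {n : ℕ} (l : V.X n →ₗ[k] k) (hl : NF V n l)
    (hb : ∀ v ∈ V.BM n, l v = 0) (v : V.X (n + 1)) :
    ∑ i : Fin (n + 2), l (V.map (cof i) v) = 0 := by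
  let e : V.X (n + 1) →ₗ[k] k := ∑ i : Fin (n + 2), l.comp (V.map (cof i))
  have he : ∀ v, e v = ∑ i ∈ Finset.range (n + 2), l (V.map (cf n i) v) := by
    intro v
    show (∑ i : Fin (n + 2), l.comp (V.map (cof i))) v = _
    rw [LinearMap.sum_apply, ← Fin.sum_univ_eq_sum_range (fun i => l (V.map (cf n i) v)) (n + 2)]
    refine Finset.sum_congr rfl fun i _ => ?_
    rw [cof_eq]
    rfl
  have hN : NF V (n + 1) e := by
    intro j hj w
    rw [he, show n + 2 = j + 2 + (n - j) by omega, sum_mid]
    · refine Finset.sum_eq_zero fun i hi => ?_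
      have hi' := Finset.mem_range.1 hi
      obtain ⟨m, rfl⟩ : ∃ m, n = m + 1 := ⟨n - 1, by omega⟩
      rw [show j + 2 + i = (j + 1 + i) + 1 by omega, d_s_gt V (by omega) (by omega)]
      exact hl j (by omega) _
    · rw [d_s_eq V hj, d_s_eq' V hj]
    · intro i hi
      obtain ⟨m, rfl⟩ : ∃ m, n = m + 1 := ⟨n - 1, by omega⟩
      rw [d_s_lt V hi (by omega)]
      exact hl (j - 1) (by omega) _
  have h1 : e v = ∑ i : Fin (n + 2), l (V.map (cof i) v) := by
    show (∑ i : Fin (n + 2), l.comp (V.map (cof i))) v = _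
    rw [LinearMap.sum_apply]
    rfl
  rw [← h1, ← hN.pj v, he, Finset.sum_range_succ']
  have h2 := pj_mem V (n + 1) v
  rw [Finset.sum_eq_zero, zero_add]
  · exact hb _ ((mem_BM V).2 ⟨_, h2, rfl⟩)
  · intro i hi
    have hi' := Finset.mem_range.1 hi
    rw [h2 (i + 1) (by omega) (by omega), map_zero]

/-- data for the boundaries: coordinates on the boundaries extended to normalised functionals -/
theorem exists_bd (V : SV) (hV : V.LF) (n : ℕ) : ∃ (L : Type) (c : L → (V.X n →ₗ[k] k)),
    Finite L ∧ (∀ l, NF V n (c l)) ∧ (∀ v ∈ V.BM n, (∀ l, c l v = 0) → v = 0) ∧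
    (∀ b : L → k, ∃ v ∈ V.BM n, ∀ l, c l v = b l) := by
  have hf : Finite (V.X n) := hV n
  have hf2 : Module.Finite k (V.X n) := Module.Finite.of_finite
  let e := Module.finBasis k (V.BM n)
  have hext : ∀ l, ∃ g : V.X n →ₗ[k] k, g.comp (V.BM n).subtype = e.coord l :=
    fun l => LinearMap.exists_extend (e.coord l)
  choose g hg using hext
  refine ⟨_, fun l => (g l).comp (pj V n), inferInstance, fun l => NF_comp_pj V n _, ?_, ?_⟩
  · intro v hv h
    have h1 : ∀ l, e.coord l ⟨v, hv⟩ = 0 := by
      intro l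
      rw [← hg l]
      have h2 := h l
      rw [LinearMap.comp_apply, pj_eq V (ZM_le V n (BM_le V n hv))] at h2
      exact h2
    have h3 : (⟨v, hv⟩ : V.BM n) = 0 := by
      apply e.ext_elem
      intro l
      rw [map_zero]
      exact h1 l
    exact congrArg Subtype.val h3
  · intro b
    let v : V.BM n := e.equivFun.symm b
    refine ⟨v.1, v.2, fun l => ?_⟩
    rw [LinearMap.comp_apply, pj_eq V (ZM_le V n (BM_le V n v.2))]
    have h1 := congrArg (fun f => f v) (hg l)
    have h2 : e.coord l v = b l := by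
      rw [Module.Basis.coord_apply, ← Module.Basis.equivFun_apply, LinearEquiv.apply_symm_apply]
    rw [← h2]
    exact h1

/-- product of two simplicial vector spaces -/
abbrev prd (W C : SV) : SV where
  X n := W.X n × C.X n
  map a := (W.map a).prodMap (C.map a)
  map_id x := Prod.ext (W.map_id _) (C.map_id _)
  map_comp f g x := Prod.ext (W.map_comp f g _) (C.map_comp f g _)

def prdl {V W C : SV} (f : SV.Hom V W) (g : SV.Hom V C) : SV.Hom V (prd W C) where
  f n := (f.f n).prod (g.f n)
  nat a x := Prod.ext (f.nat a x) (g.nat a x)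

/-- The comparison map is bijective on Moore chains. -/
theorem main_P {V : SV} {I L : ℕ → Type} (x : ∀ j, I j → SV.Hom V (EM j)) (hx : LinBasis V x)
    (c : ∀ n, L n → (V.X n →ₗ[k] k)) (hN : ∀ n l, NF V n (c n l))
    (hinj : ∀ n, ∀ v ∈ V.BM n, (∀ l, c n l v = 0) → v = 0)
    (hsur : ∀ n, ∀ b : L n → k, ∃ v ∈ V.BM n, ∀ l, c n l v = b l) (n : ℕ) :
    P (prdl (Lam x) (SV.Hom.lift (W := fun p : (Σ n, L n) => CE p.1)
      fun p => CEl V p.1 (c p.1 p.2) (hN p.1 p.2))) n 0 := by
  constructor
  · intro v hv h0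
    have h1 : ∀ (m : ℕ) (l : L m) (s : Mor m n), c m l (V.map s v) = 0 := by
      intro m l s
      have h2 := congrArg Prod.snd h0
      have h3 := congrFun h2 ⟨m, l⟩
      exact congrArg (fun z : (CE m).X n => z.1 s) h3
    have hZ : v ∈ V.ZM n := by
      cases n with
      | zero =>
        intro m a ha
        exfalso
        apply ha
        intro y
        refine ⟨0, ?_⟩
        apply Fin.ext
        have := y.2
        have := (a 0).2
        omega
      | succ n =>
        refine (mem_ZM V).2 ⟨hv, ?_⟩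
        exact hinj n _ ((mem_BM V).2 ⟨v, hv, rfl⟩) fun l => h1 n l (cf n 0)
    have hB : v ∈ V.BM n := by
      apply hx.inj n v hZ
      intro i
      have h2 := congrArg Prod.fst h0
      have h3 := congrFun h2 ⟨n, i⟩
      exact congrArg (fun z : (EM n).X n => z.1 OrderHom.id) h3
    apply hinj n v hB
    intro l
    have h2 := h1 n l OrderHom.id
    rw [V.map_id] at h2
    exact h2
  · rintro u hu
    have hu1 : ∀ p, u.1 p ∈ G (EM p.1) n 0 := by
      intro p
      cases n with
      | zero => trivial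
      | succ n =>
        intro i h1 h2
        have h3 := congrArg Prod.fst (hu i h1 h2)
        exact congrFun h3 p
    have hu2 : ∀ p, u.2 p ∈ G (CE p.1) n 0 := by
      intro p
      cases n with
      | zero => trivial
      | succ n =>
        intro i h1 h2
        have h3 := congrArg Prod.snd (hu i h1 h2)
        exact congrFun h3 p
    -- first step
    have hv1 : ∃ v ∈ G V n 0, ∀ m (h : m + 1 = n) (l : L m),
        c m l (V.map (h ▸ cf m 0) v) = (u.2 ⟨m, l⟩).1 (h ▸ cf m 0) := by
      cases n with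
      | zero => exact ⟨0, Submodule.zero_mem _, fun m h => absurd h (by omega)⟩
      | succ n =>
        obtain ⟨b, hb, hb'⟩ := hsur n (fun l => (u.2 ⟨n, l⟩).1 (cf n 0))
        obtain ⟨v, hv, rfl⟩ := (mem_BM V).1 hb
        refine ⟨v, hv, fun m h l => ?_⟩
        obtain rfl : m = n := by omega
        exact hb' l
    obtain ⟨v1, hv1, hv1'⟩ := hv1
    obtain ⟨v2, hv2, hv2'⟩ := hx.surj n (fun i => (u.1 ⟨n, i⟩).1 OrderHom.id - val (x n i) v1)
    obtain ⟨v3, hv3, hv3'⟩ := hsur n
      (fun l => (u.2 ⟨n, l⟩).1 OrderHom.id - c n l (v1 + v2))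
    have hm : v1 + v2 + v3 ∈ G V n 0 := Submodule.add_mem _
      (Submodule.add_mem _ hv1 (ZM_le V n hv2)) (ZM_le V n (BM_le V n hv3))
    refine ⟨v1 + v2 + v3, hm, ?_⟩
    apply Prod.ext
    · funext p
      obtain ⟨j, i⟩ := p
      apply EM_ext
      · exact G_map (x j i) hm
      · exact hu1 ⟨j, i⟩
      · intro h
        have h' : j = n := h
        subst h'
        show val (x j i) (v1 + v2 + v3) = (u.1 ⟨j, i⟩).1 OrderHom.id
        rw [map_add, map_add, val_BM (x j i) hv3, add_zero, val_apply (x j i) v2, hv2' i,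
          add_sub_cancel]
    · funext p
      obtain ⟨m, l⟩ := p
      apply CE_ext
      · exact G_map (CEl V m (c m l) (hN m l)) hm
      · exact hu2 ⟨m, l⟩
      · intro h
        have h' : m = n := h
        subst h'
        show c m l (V.map OrderHom.id (v1 + v2 + v3)) = (u.2 ⟨m, l⟩).1 OrderHom.id
        rw [V.map_id, map_add, hv3' l, add_sub_cancel]
      · intro h
        have h' : m + 1 = n := h
        subst h'
        show c m l (V.map (cf m 0) (v1 + v2 + v3)) = (u.2 ⟨m, l⟩).1 (cf m 0)
        rw [map_add (V.map (cf m 0)), map_add (V.map (cf m 0)), ((mem_ZM V).1 hv2).2,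
          ((mem_ZM V).1 (BM_le V _ hv3)).2, add_zero, add_zero]
        exact hv1' m rfl l

/-- inverse of a levelwise bijective linear simplicial map -/
noncomputable def inv {V U : SV} (f : SV.Hom V U) (h : ∀ n, Function.Bijective (f.f n)) :
    SV.Hom U V where
  f n := (LinearEquiv.ofBijective (f.f n) (h n)).symm.toLinearMap
  nat {m n} a x := by
    apply (h m).1
    have e1 : ∀ n (y : U.X n), f.f n ((LinearEquiv.ofBijective (f.f n) (h n)).symm y) = y :=
      fun n y => LinearEquiv.apply_symm_apply (LinearEquiv.ofBijective (f.f n) (h n)) y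
    show f.f m ((LinearEquiv.ofBijective (f.f m) (h m)).symm (U.map a x))
      = f.f m (V.map a ((LinearEquiv.ofBijective (f.f n) (h n)).symm x))
    rw [e1, f.nat, e1]

theorem inv_right {V U : SV} (f : SV.Hom V U) (h : ∀ n, Function.Bijective (f.f n)) (n : ℕ)
    (u : U.X n) : f.f n ((inv f h).f n u) = u :=
  LinearEquiv.apply_symm_apply (LinearEquiv.ofBijective (f.f n) (h n)) u

theorem inv_left {V U : SV} (f : SV.Hom V U) (h : ∀ n, Function.Bijective (f.f n)) (n : ℕ)
    (v : V.X n) : (inv f h).f n (f.f n v) = v :=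
  LinearEquiv.symm_apply_apply (LinearEquiv.ofBijective (f.f n) (h n)) v

end Pool.Agent.SHS.Spl

namespace Pool.Agent.SHS

open Spl

theorem SPLIT : SPLIT_Stmt := by
  intro V hV I x hx
  choose L c hLf hN hinj hsur using exists_bd V hV
  let C : SV := SV.pi (fun p : (Σ n, L n) => CE p.1)
  let g : SV.Hom V C := SV.Hom.lift (W := fun p : (Σ n, L n) => CE p.1)
      fun p => CEl V p.1 (c p.1 p.2) (hN p.1 p.2)
  let f : SV.Hom V (prd (EMpi I) C) := prdl (Lam x) g
  have hf : ∀ n, Function.Bijective (f.f n) := crit f (main_P x hx c hN hinj hsur)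
  let inl : SV.Hom (EMpi I) (prd (EMpi I) C) :=
    { f := fun n => LinearMap.inl k _ _
      nat := fun a y => Prod.ext rfl (by
        show (0 : C.X _) = C.map a 0
        rw [map_zero]) }
  refine ⟨(inv f hf).comp inl, ?_, ⟨?_⟩⟩
  · intro n w
    have h := congrArg Prod.fst (inv_right f hf n (w, 0))
    exact h
  · exact
    { h := fun n t => ((inv f hf).f n).comp (((Lam x).f n).prod
        ((LinearMap.pi fun p => (CEh p.1 n t).comp (LinearMap.proj p)).comp (g.f n)))
      nat := by
        intro m n a t v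
        show (inv f hf).f m ((Lam x).f m (V.map a v), fun p => CEh p.1 m (t.comp a) (g.f m (V.map a v) p))
          = V.map a ((inv f hf).f n ((Lam x).f n v, fun p => CEh p.1 n t (g.f n v p)))
        rw [← (inv f hf).nat, (Lam x).nat, g.nat]
        rfl
      zero := by
        intro n v
        show (inv f hf).f n ((Lam x).f n v, fun p => CEh p.1 n (cst 0) (g.f n v p)) = v
        have h1 : (fun p => CEh p.1 n (cst 0) (g.f n v p)) = g.f n v := by
          funext p
          exact CEh_zero _ _ _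
        rw [h1]
        exact inv_left f hf n v
      one := by
        intro n v
        show (inv f hf).f n ((Lam x).f n v, fun p => CEh p.1 n (cst 1) (g.f n v p))
          = (inv f hf).f n ((Lam x).f n v, 0)
        have h1 : (fun p => CEh p.1 n (cst 1) (g.f n v p)) = 0 := by
          funext p
          exact CEh_one _ _ _
        rw [h1] }

end Pool.Agent.SHS
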