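import Pool.Agent.SH.S.SplC
import Pool.Agent.SH.S.Kun

/-!
Block III-S: simplicial vector spaces with finite levels: existence of linear bases, classes of
linear cocycles.
-/

namespace Pool.Agent.SHS.Spl

open Pool.Agent.SHS.Norm

theorem exists_comp {E F : Type*} [AddCommGroup E] [Module k E] [AddCommGroup F] [Module k F]
    (f : E →ₗ[k] F) (g : E →ₗ[k] k) (h : ∀ v, f v = 0 → g v = 0) :
    ∃ u : F →ₗ[k] k, ∀ v, u (f v) = g v := by
  have h1 : g ∈ LinearMap.range f.dualMap := by
    rw [LinearMap.range_dualMap_eq_dualAnnihilator_ker, Submodule.mem_dualAnnihilator]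
    exact fun v hv => h v hv
  obtain ⟨u, hu⟩ := h1
  exact ⟨u, fun v => congrArg (fun l : Module.Dual k E => l v) hu⟩

section
variable (V : SV)

/-- The coboundary of a linear functional. -/
def dl (n : ℕ) (l : V.X n →ₗ[k] k) : V.X (n + 1) →ₗ[k] k :=
  ∑ i : Fin (n + 2), l.comp (V.map (cof i))

theorem dl_apply (n : ℕ) (l : V.X n →ₗ[k] k) (v : V.X (n + 1)) :
    dl V n l v = ∑ i : Fin (n + 2), l (V.map (cof i) v) := by
  unfold dl
  rw [LinearMap.sum_apply]
  rfl

theorem dl_range (n : ℕ) (l : V.X n →ₗ[k] k) (v : V.X (n + 1)) :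
    dl V n l v = ∑ i ∈ Finset.range (n + 2), l (V.map (cf n i) v) := by
  rw [dl_apply, ← Fin.sum_univ_eq_sum_range (fun i => l (V.map (cf n i) v)) (n + 2)]
  refine Finset.sum_congr rfl fun i _ => ?_
  rw [cof_eq]

theorem NF_dl {n : ℕ} {l : V.X n →ₗ[k] k} (hl : NF V n l) : NF V (n + 1) (dl V n l) := by
  intro j hj w
  rw [dl_range, show n + 2 = j + 2 + (n - j) by omega, sum_mid]
  · refine Finset.sum_eq_zero fun i hi => ?_
    have hi' := Finset.mem_range.1 hi
    obtain ⟨m, rfl⟩ : ∃ m, n = m + 1 := ⟨n - 1, by omega⟩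
    rw [show j + 2 + i = (j + 1 + i) + 1 by omega, d_s_gt V (by omega) (by omega)]
    exact hl j (by omega) _
  · rw [d_s_eq V hj, d_s_eq' V hj]
  · intro i hi
    obtain ⟨m, rfl⟩ : ∃ m, n = m + 1 := ⟨n - 1, by omega⟩
    rw [d_s_lt V hi (by omega)]
    exact hl (j - 1) (by omega) _

theorem dl_G {n : ℕ} (l : V.X n →ₗ[k] k) {w : V.X (n + 1)} (hw : w ∈ G V (n + 1) 0) :
    dl V n l w = l (V.map (cf n 0) w) := by
  rw [dl_range, Finset.sum_range_succ', Finset.sum_eq_zero, zero_add]
  intro i hi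
  have hi' := Finset.mem_range.1 hi
  rw [hw (i + 1) (by omega) (by omega), map_zero]

theorem delta_lin (n : ℕ) (l : V.X n →ₗ[k] k) : V.toSS.cm.delta n l = dl V n l := by
  funext v
  rw [CM.delta_apply, Finset.sum_apply, dl_apply]
  rfl

/-- linear cochains -/
abbrev lcm : CM where
  X n := V.X n →ₗ[k] k
  map a :=
    { toFun := fun l => l.comp (V.map a)
      map_add' := fun _ _ => rfl
      map_smul' := fun _ _ => rfl }
  map_id l := by
    apply LinearMap.ext
    intro v
    show l (V.map OrderHom.id v) = l v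
    rw [V.map_id]
  map_comp f g l := by
    apply LinearMap.ext
    intro v
    show l (V.map (g.comp f) v) = l (V.map f (V.map g v))
    rw [V.map_comp]

theorem lcm_delta (n : ℕ) (l : V.X n →ₗ[k] k) : (lcm V).delta n l = dl V n l := by
  rw [CM.delta_apply]
  rfl

theorem dl_add (n : ℕ) (l l' : V.X n →ₗ[k] k) : dl V n (l + l') = dl V n l + dl V n l' := by
  rw [← lcm_delta, map_add, lcm_delta, lcm_delta]

/-- every linear cocycle is cohomologous to a normalised one -/
theorem exists_NF {n : ℕ} (l : V.X n →ₗ[k] k) (h : dl V n l = 0) :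
    ∃ l' : V.X n →ₗ[k] k, NF V n l' ∧ dl V n l' = 0 ∧
      ((l' - l : V.X n →ₗ[k] k) : V.X n → k) ∈ V.toSS.cm.cc.B n := by
  cases n with
  | zero => exact ⟨l, trivial, h, by rw [sub_self]; exact Submodule.zero_mem _⟩
  | succ n =>
    obtain ⟨u, hu⟩ := NORM (lcm V) n l (fun i => by
      rw [lcm_delta, h, map_zero])
    refine ⟨l + dl V n u, ?_, ?_, ?_⟩
    · intro j hj w
      have h1 := hu ⟨j, by omega⟩
      rw [cod_eq, lcm_delta] at h1
      exact congrArg (fun f : V.X n →ₗ[k] k => f w) h1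
    · have h2 := (lcm V).delta_delta n u
      rw [lcm_delta, lcm_delta] at h2
      rw [dl_add, h, h2, add_zero]
    · rw [add_sub_cancel_left, ← delta_lin]
      exact ⟨u, rfl⟩

/-- a normalised functional which vanishes on Moore cycles is a coboundary -/
theorem exists_cob {n : ℕ} (l : V.X n →ₗ[k] k) (hl : NF V n l) (h : ∀ v ∈ V.ZM n, l v = 0) :
    (l : V.X n → k) ∈ V.toSS.cm.cc.B n := by
  cases n with
  | zero =>
    have h1 : (l : V.X 0 → k) = 0 := by
      funext v
      apply h v
      intro m a ha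
      exfalso
      apply ha
      intro y
      refine ⟨0, ?_⟩
      apply Fin.ext
      have := y.2
      have := (a 0).2
      omega
    rw [h1]
    exact Submodule.zero_mem _
  | succ n =>
    obtain ⟨u, hu⟩ := exists_comp ((V.map (cf n 0)).comp (G V (n + 1) 0).subtype)
      (l.comp (G V (n + 1) 0).subtype) (fun v hv => h v.1 ((mem_ZM V).2 ⟨v.2, hv⟩))
    have h2 : dl V n (u.comp (pj V n)) = l := by
      apply LinearMap.ext
      intro v
      rw [← (NF_dl V (NF_comp_pj V n u)).pj v, dl_G V _ (pj_mem V (n + 1) v), ← hl.pj v,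
        LinearMap.comp_apply, pj_eq V (ZM_le V n (d0_mem V (pj_mem V (n + 1) v)))]
      exact hu ⟨pj V (n + 1) v, pj_mem V (n + 1) v⟩
    rw [← h2, ← delta_lin]
    exact ⟨_, rfl⟩

end

theorem single_pull {X Y : SS} (f : SS.Hom X Y) (n : ℕ) (φ : Y.X n → k) :
    Coch.pull f (Coch.single n φ) = Coch.single n (fun x => φ (f.f n x)) := by
  ext m x
  rw [Coch.pull_apply]
  by_cases h : m = n
  · subst h
    rw [Coch.single_self, Coch.single_self]
  · rw [Coch.single_ne h, Coch.single_ne h]

theorem val_delta {V : SV} {n : ℕ} (x : SV.Hom V (EM n)) : V.toSS.cm.delta n (val x) = 0 := by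
  rw [delta_lin]
  funext v
  show dl V n (val x) v = 0
  rw [dl_apply]
  exact val_coc x v

theorem map_iota {V : SV} {n : ℕ} (x : SV.Hom V (EM n)) :
    H.map x.toSS (iota n) = clsN n (val x) (val_delta x) := by
  unfold iota clsN
  rw [H.map_cls]
  congr 1
  apply Subtype.ext
  show Coch.pull x.toSS (iotaC n) = Coch.single n (val x)
  unfold iotaC
  rw [single_pull]
  rfl

end Pool.Agent.SHS.Spl

namespace Pool.Agent.SHS

open Spl

theorem LBE : LBE_Stmt := by
  intro V hV
  have hex : ∀ n, ∃ (I : Type) (x : I → SV.Hom V (EM n)), Finite I ∧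
      (∀ v ∈ V.ZM n, (∀ i, val (x i) v = 0) → v ∈ V.BM n) ∧
      (∀ c : I → k, ∃ v ∈ V.ZM n, ∀ i, val (x i) v = c i) := by
    intro n
    have hf : Finite (V.X n) := hV n
    have hf2 : Module.Finite k (V.X n) := Module.Finite.of_finite
    let Q := (V.ZM n) ⧸ (V.BM n).submoduleOf (V.ZM n)
    let e := Module.finBasis k Q
    let q : V.ZM n →ₗ[k] Q := ((V.BM n).submoduleOf (V.ZM n)).mkQ
    have hext : ∀ l, ∃ g : V.X n →ₗ[k] k, g.comp (V.ZM n).subtype = (e.coord l).comp q :=
      fun l => LinearMap.exists_extend ((e.coord l).comp q)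
    choose g hg using hext
    have hval : ∀ l, ∀ v : V.ZM n, (g l).comp (pj V n) v.1 = e.coord l (q v) := by
      intro l v
      rw [LinearMap.comp_apply, pj_eq V (ZM_le V n v.2)]
      exact congrArg (fun f => f v) (hg l)
    have hq : ∀ v : V.ZM n, q v = 0 ↔ v.1 ∈ V.BM n := by
      intro v
      rw [Submodule.mkQ_apply, Submodule.Quotient.mk_eq_zero]
      rfl
    have hcoc : ∀ l, ∀ v ∈ V.BM n, (g l).comp (pj V n) v = 0 := by
      intro l v hv
      rw [hval l ⟨v, BM_le V n hv⟩, (hq _).2 hv, map_zero]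
    refine ⟨_, fun l => EMl V n ((g l).comp (pj V n)) (NF_comp_pj V n _)
      (coc_of _ (NF_comp_pj V n _) (hcoc l)), inferInstance, ?_, ?_⟩
    · intro v hv h
      rw [← hq ⟨v, hv⟩]
      apply e.ext_elem
      intro l
      rw [map_zero]
      have h1 := h l
      rw [val_apply, EMl_apply, hval l ⟨v, hv⟩] at h1
      exact h1
    · intro c
      obtain ⟨v, hv⟩ := Submodule.mkQ_surjective ((V.BM n).submoduleOf (V.ZM n)) (e.equivFun.symm c)
      refine ⟨v.1, v.2, fun l => ?_⟩
      rw [val_apply, EMl_apply, hval l v]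
      have h1 : q v = e.equivFun.symm c := hv
      rw [h1, Module.Basis.coord_apply, ← Module.Basis.equivFun_apply,
        LinearEquiv.apply_symm_apply]
  choose I x hfin hinj hsurj using hex
  exact ⟨I, x, ⟨hfin, hinj, hsurj⟩⟩

theorem LCS : LCS_Stmt := by
  intro V hV I x hx j l h
  have hfin := hx.fin j
  have hfi : Fintype (I j) := Fintype.ofFinite _
  rw [delta_lin] at h
  have h0 : dl V j l = 0 := by
    apply LinearMap.ext
    intro v
    exact congrFun h v
  obtain ⟨l', hl', hd', hB'⟩ := exists_NF V l h0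
  have hb : ∀ v ∈ V.BM j, l' v = 0 := by
    intro v hv
    obtain ⟨w, hw, rfl⟩ := (mem_BM V).1 hv
    rw [← dl_G V l' hw, hd']
    rfl
  have h1 : (l'.comp (V.ZM j).subtype) ∈ Submodule.span k
      (Set.range fun i : I j => (val (x j i)).comp (V.ZM j).subtype) := by
    apply mem_span_of_iInf_ker_le_ker
    intro v hv
    rw [Submodule.mem_iInf] at hv
    exact hb v.1 (hx.inj j v.1 v.2 fun i => hv i)
  rw [Submodule.mem_span_range_iff_exists_fun] at h1
  obtain ⟨c, hc⟩ := h1
  rw [Submodule.mem_span_range_iff_exists_fun]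
  refine ⟨c, ?_⟩
  -- the difference is a coboundary
  have h2 : ((l' - ∑ i, c i • val (x j i) : V.X j →ₗ[k] k) : V.X j → k)
      ∈ V.toSS.cm.cc.B j := by
    apply exists_cob
    · cases j with
      | zero => trivial
      | succ j =>
        intro i hi w
        rw [LinearMap.sub_apply, hl' i hi w, LinearMap.sum_apply, Finset.sum_eq_zero, sub_zero]
        intro p _
        rw [LinearMap.smul_apply, val_NF (x (j + 1) p) i hi w, smul_zero]
    · intro v hv
      have h3 := congrArg (fun f : V.ZM j →ₗ[k] k => f ⟨v, hv⟩) hc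
      rw [LinearMap.sub_apply, sub_eq_zero, LinearMap.sum_apply]
      simp only [LinearMap.sum_apply] at h3
      exact h3.symm
  have hker : ∀ i, (val (x j i) : V.X j → k) ∈ LinearMap.ker (V.toSS.cm.delta j) :=
    fun i => val_delta (x j i)
  have hl : (l : V.X j → k) ∈ LinearMap.ker (V.toSS.cm.delta j) := by
    rw [LinearMap.mem_ker, delta_lin, h0]
    rfl
  have h4 : Kun.clsL V.toSS j (⟨l, hl⟩ - ∑ i, c i • ⟨val (x j i), hker i⟩) = 0 := by
    rw [Kun.clsL_eq_zero]
    have e : ((⟨l, hl⟩ - ∑ i, c i • ⟨val (x j i), hker i⟩ :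
          LinearMap.ker (V.toSS.cm.delta j)) : V.X j → k)
        = ((l' - ∑ i, c i • val (x j i) : V.X j →ₗ[k] k) : V.X j → k)
          - ((l' - l : V.X j →ₗ[k] k) : V.X j → k) := by
      funext v
      rw [Submodule.coe_sub, Submodule.coe_sum]
      simp only [Pi.sub_apply, Finset.sum_apply, LinearMap.sub_apply, LinearMap.sum_apply,
        Submodule.coe_smul, Pi.smul_apply, LinearMap.smul_apply]
      abel
    rw [e]
    exact Submodule.sub_mem _ h2 hB'
  rw [map_sub, sub_eq_zero, map_sum] at h4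
  have h5 : clsN j l (by rw [delta_lin]; exact h) = Kun.clsL V.toSS j ⟨l, hl⟩ := rfl
  rw [h5, h4]
  refine Finset.sum_congr rfl fun i _ => ?_
  rw [map_smul, map_iota]
  rfl

end Pool.Agent.SHS
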