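import Pool.Agent.SH.S.StmtsB
import Pool.Agent.SH.S.Tools

/-!
Block III-S: the operations on all polynomials from the operations on u_1 ... u_m.
-/

namespace Pool.Agent.SHS.Sqp

open MvPolynomial

/-- Every monomial of degree `n` comes from u_1 ... u_n by a renaming. -/
theorem exists_rename {d n : ℕ} (e : Fin d →₀ ℕ) (he : e.degree = n) :
    ∃ c : Fin n → Fin d,
      rename c (∏ j : Fin n, X j : MvPolynomial (Fin n) k) = monomial e 1 := by
  have hcard : Fintype.card (Σ j : Fin d, Fin (e j)) = n := by
    rw [Fintype.card_sigma, ← he, Finsupp.degree_eq_sum]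
    exact Finset.sum_congr rfl fun j _ => Fintype.card_fin _
  let φ : Fin n ≃ (Σ j : Fin d, Fin (e j)) := (Fintype.equivFinOfCardEq hcard).symm
  refine ⟨fun i => (φ i).1, ?_⟩
  rw [map_prod]
  have h1 : ∏ i : Fin n, rename (fun i => (φ i).1) (X i : MvPolynomial (Fin n) k)
      = ∏ x : (Σ j : Fin d, Fin (e j)), (X x.1 : MvPolynomial (Fin d) k) := by
    rw [← Equiv.prod_comp φ]
    exact Finset.prod_congr rfl fun i _ => rename_X _ _
  rw [h1, Fintype.prod_sigma, monomial_eq, C_1, one_mul,
    Finsupp.prod_fintype _ _ (fun j => pow_zero _)]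
  refine Finset.prod_congr rfl fun j _ => ?_
  show ∏ _y : Fin (e j), (X j : MvPolynomial (Fin d) k) = X j ^ e j
  rw [Finset.prod_const, Finset.card_univ, Fintype.card_fin]

/-- The total square is compatible with renamings. -/
theorem St_rename {d n : ℕ} (c : Fin n → Fin d) (p : MvPolynomial (Fin n) k) :
    St d (rename c p) = Polynomial.map (rename c : MvPolynomial (Fin n) k →ₐ[k] _).toRingHom
      (St n p) := by
  have h : (St d).comp (rename c)
      = (Polynomial.mapAlgHom (rename c : MvPolynomial (Fin n) k →ₐ[k] MvPolynomial (Fin d) k)).comp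
        (St n) := by
    apply MvPolynomial.algHom_ext
    intro i
    rw [AlgHom.comp_apply, AlgHom.comp_apply, rename_X]
    unfold St
    rw [aeval_X, aeval_X, map_add, map_mul]
    simp only [Polynomial.coe_mapAlgHom, Polynomial.map_C, Polynomial.map_X, RingHom.coe_coe,
      rename_X, map_pow]
  exact DFunLike.congr_fun h p

end Pool.Agent.SHS.Sqp

namespace Pool.Agent.SHS

open MvPolynomial

theorem SQP (h : SQU_Stmt) : SQP_Stmt := by
  intro d n i p hp hi
  rw [p.as_sum, map_sum, map_sum, map_sum, Polynomial.finsetSum_coeff, map_sum]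
  refine Finset.sum_congr rfl fun e he => ?_
  have he' : e.degree = n := by
    have := hp (MvPolynomial.mem_support_iff.mp he)
    rw [Finsupp.degree_eq_weight_one]
    exact this
  have h1 : (monomial e (coeff e p) : MvPolynomial (Fin d) k) = coeff e p • monomial e 1 := by
    rw [smul_monomial, smul_eq_mul, mul_one]
  rw [h1, map_smul, map_smul, map_smul, Polynomial.coeff_smul, map_smul]
  congr 1
  obtain ⟨c, hc⟩ := Sqp.exists_rename e he'
  rw [← hc, ← evB_reidx, NOp.nat, h n i hi, evB_reidx, Sqp.St_rename, Polynomial.coeff_map]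
  rfl

end Pool.Agent.SHS
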