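import Pool.Agent.SH.S.Tools

/-!
Block III-S, statements C: the upper bound for the cohomology of the bar construction.
-/

namespace Pool.Agent.SHS

theorem SV.BXmap_id (G : SV) (p : ℕ) : G.BXmap (OrderHom.id : Mor p p) = SS.Hom.id _ := by
  apply SS.Hom.ext'
  intro n x
  apply Subtype.ext
  funext i
  show x.1 i - x.1 0 = x.1 i
  rw [show x.1 0 = 0 from x.2, sub_zero]

theorem SV.BXmap_comp (G : SV) {l m n : ℕ} (f : Mor l m) (g : Mor m n) :
    G.BXmap (g.comp f) = (G.BXmap f).comp (G.BXmap g) := by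
  apply SS.Hom.ext'
  intro q x
  apply Subtype.ext
  funext i
  show x.1 (g (f i)) - x.1 (g (f 0)) = (x.1 (g (f i)) - x.1 (g 0)) - (x.1 (g (f 0)) - x.1 (g 0))
  abel

/-- The cosimplicial vector space p ↦ H^q(G^p). -/
noncomputable abbrev HqCM (G : SV) (q : ℕ) : CM where
  X p := Hn (G.BX p) q
  map a := (H.map (G.BXmap a)).toLinearMap.restrict (fun _ hx => H.map_mem _ hx)
  map_id x := by
    apply Subtype.ext
    show H.map (G.BXmap OrderHom.id) x.1 = x.1
    rw [SV.BXmap_id, H.map_id]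
  map_comp f g x := by
    apply Subtype.ext
    show H.map (G.BXmap (g.comp f)) x.1 = H.map (G.BXmap g) (H.map (G.BXmap f) x.1)
    rw [SV.BXmap_comp, H.map_comp]

/-- A family of primitive homogeneous classes whose square free products form a homogeneous
basis of the cohomology. -/
structure ExtFam (V : SV) {A : Type} (deg : A → ℕ) (μ : A → H V.toSS) : Prop where
  pos : ∀ a, 1 ≤ deg a
  fin : ∀ n, {a | deg a ≤ n}.Finite
  mem : ∀ a, μ a ∈ Hn V.toSS (deg a)
  prim : ∀ a, Prim (μ a)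
  hb : HB V.toSS (fun S : Finset A => ∑ a ∈ S, deg a) (fun S => ∏ a ∈ S, μ a)

/-- Homogeneous basis of G^p. -/
def BXHB_Stmt : Prop := ∀ (G : SV), G.LF → ∀ {A : Type} (deg : A → ℕ) (μ : A → H G.toSS),
  ExtFam G deg μ → ∀ p : ℕ,
  HB (G.BX p) (fun T : Fin p → Finset A => ∑ j, ∑ a ∈ T j, deg a)
    (fun T => ∏ j, ∏ a ∈ T j, H.map (G.BXbar j) (μ a))

/-- Jumps of a monotone map. -/
def jumps {p m : ℕ} (a : Mor p m) : Finset (Fin p) :=
  Finset.univ.filter (fun j => a j.castSucc ≠ a j.succ)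

/-- Product of the bar coordinates of `μ` over the jumps. -/
noncomputable def lam (G : SV) {p m : ℕ} (μ : H G.toSS) (a : Mor p m) : H (G.BX p) :=
  ∏ j ∈ jumps a, H.map (G.BXbar j) μ

/-- Structure formula for one letter. -/
def LAM_Stmt : Prop := ∀ (G : SV) (μ : H G.toSS), Prim μ → ∀ (p p' m : ℕ) (b : Mor p p')
  (a : Mor p m), Function.Surjective a → ∀ (s : Finset (Mor p' m)),
  (∀ a' : Mor p' m, a' ∈ s ↔ Function.Surjective a' ∧ a'.comp b = a) →
  H.map (G.BXmap b) (lam G μ a) = ∑ a' ∈ s, lam G μ a'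

/-- The pointed simplicial set S^0. -/
abbrev PS.unit : PS where
  X _ := Unit
  map _ _ := some ()
  map_id _ := rfl
  map_comp _ _ _ := rfl

/-- Smash product of a list of spheres. -/
def SPH : List ℕ → PS
  | [] => PS.unit
  | m :: l => (PS.sphere m).smash (SPH l)

/-- Cohomology of smash products of spheres. -/
def SPHC_Stmt : Prop := ∀ (l : List ℕ) (p : ℕ),
  SpanLE ((SPH l).cm.cc.Z p) ((SPH l).cm.cc.B p) (if p = l.sum then 1 else 0)

/-- The product of `lam` over the letters of a list. -/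
noncomputable def Lf (G : SV) {A : Type} (μ : A → H G.toSS) (f : A → ℕ) {p : ℕ} :
    (c : List A) → (SPH (c.map f)).X p → H (G.BX p)
  | [], _ => 1
  | a :: c, y =>
    let y' : (PS.sphere (f a)).X p × (SPH (c.map f)).X p := y
    lam G (μ a) y'.1.1 * Lf G μ f c y'.2

/-- Structure formula for several letters. -/
def E2S_Stmt : Prop := ∀ (G : SV) {A : Type} (μ : A → H G.toSS), (∀ a, Prim (μ a)) →
  ∀ (f : A → ℕ) (c : List A) (p p' : ℕ) (b : Mor p p') (y : (SPH (c.map f)).X p)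
    (s : Finset ((SPH (c.map f)).X p')),
  (∀ y', y' ∈ s ↔ (SPH (c.map f)).map b y' = some y) →
  H.map (G.BXmap b) (Lf G μ f c y) = ∑ y' ∈ s, Lf G μ f c y'

/-- The products `Lf` form a basis of H^q(G^p). -/
def E2B_Stmt : Prop := ∀ (G : SV), G.LF → ∀ {A : Type} (deg : A → ℕ) (μ : A → H G.toSS),
  ExtFam G deg μ → ∀ p q : ℕ,
  let b : (Σ f : {f : A →₀ ℕ // (f.sum fun a m => m * deg a) = q},
      (SPH (f.1.support.toList.map f.1)).X p) → H (G.BX p) :=
    fun t => Lf G μ t.1.1 t.1.1.support.toList t.2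
  LinearIndependent k b ∧ (∀ t, b t ∈ Hn (G.BX p) q) ∧ Hn (G.BX p) q ≤ Submodule.span k (Set.range b)

/-- Number of monomials. -/
noncomputable def NumE2 {A : Type} (deg : A → ℕ) (p q : ℕ) : ℕ :=
  Nat.card {f : A →₀ ℕ // (f.sum fun a m => m * deg a) = q ∧ (f.sum fun _ m => m) = p}

/-- The second page. -/
def E2_Stmt : Prop := ∀ (G : SV), G.LF → ∀ {A : Type} (deg : A → ℕ) (μ : A → H G.toSS),
  ExtFam G deg μ → ∀ p q : ℕ,
  SpanLE ((HqCM G q).cc.Z p) ((HqCM G q).cc.B p) (NumE2 deg p q)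

/-- Link between the double complex and the second page. -/
def LINK_Stmt : Prop := ∀ (G : SV) (p q N : ℕ),
  SpanLE ((HqCM G q).cc.Z p) ((HqCM G q).cc.B p) N →
  SpanLE (G.bcm.dc.Z2 p q) (G.bcm.dc.B2h p q ⊔ G.bcm.dc.B2v p q) N

/-- The upper bound for the bar construction. -/
def BARB_Stmt : Prop := ∀ (G : SV), G.LF → ∀ {A : Type} (deg : A → ℕ) (μ : A → H G.toSS),
  ExtFam G deg μ → ∀ d : ℕ, ∃ s : Finset (H G.bar.toSS),
    s.card ≤ Nat.card {f : A →₀ ℕ // (f.sum fun a m => m * (deg a + 1)) = d} ∧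
    Hn G.bar.toSS d ≤ Submodule.span k (s : Set (H G.bar.toSS))

end Pool.Agent.SHS
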