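import Pool.Agent.SH.S.StmtsV

/-!
Block III-S, statements W (parts of GENP, GENV, POLY).
-/

namespace Pool.Agent.SHS

/-- Square free basis: the products of the finite subsets of the family `g` form a homogeneous
basis of the cohomology of `X`. -/
abbrev SFB (X : SS) {L : Type} (d : L → ℕ) (g : L → H X) : Prop :=
  HB X (fun S : Finset L => ∑ p ∈ S, d p) (fun S => ∏ p ∈ S, g p)

/-- Product of simplicial sets. -/
abbrev SS.pi {A : Type} (W : A → SS) : SS where
  X n := ∀ a, (W a).X n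
  map f x := fun a => (W a).map f (x a)
  map_id x := by funext a; exact (W a).map_id _
  map_comp f g x := by funext a; exact (W a).map_comp f g _

/-- The projections. -/
def SS.pr {A : Type} (W : A → SS) (a : A) : SS.Hom (SS.pi W) (W a) := ⟨fun _ x => x a, fun _ _ => rfl⟩

/-- Finite products (Kuenneth). -/
def FPR_Stmt : Prop := ∀ (A : Type), Finite A → ∀ (W : A → SS), (∀ a, (W a).LF) →
  ∀ (L : A → Type) (d : ∀ a, L a → ℕ) (g : ∀ a, L a → H (W a)), (∀ a, SFB (W a) (d a) (g a)) →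
  SFB (SS.pi W) (fun p : (Σ a, L a) => d p.1 p.2) (fun p => H.map (SS.pr W p.1) (g p.1 p.2))

/-- Binary digits: finite sets of pairs (g, r) correspond to monomials, r a digit of the
exponent of g. -/
def BIN_Stmt : Prop := ∀ (G : Type), ∃ e : Finset (G × ℕ) ≃ (G →₀ ℕ),
  (∀ (M : Type) [CommMonoid M] (g : G → M) (S : Finset (G × ℕ)),
    ∏ p ∈ S, g p.1 ^ (2 ^ p.2) = (e S).prod (fun s m => g s ^ m)) ∧
  (∀ (w : G → ℕ) (S : Finset (G × ℕ)),
    ∑ p ∈ S, 2 ^ p.2 * w p.1 = (e S).sum (fun s m => m * w s))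

/-- Shifting a multiset of exponents. -/
def shJ {j : ℕ} (p : {J : Multiset ℕ // Multiset.card J = j ∧ 0 ∈ J} × ℕ) :
    {J : Multiset ℕ // Multiset.card J = j} :=
  ⟨p.1.1.map (· + p.2), by rw [Multiset.card_map]; exact p.1.2.1⟩

/-- Every nonempty multiset of natural numbers is uniquely the shift of one which contains 0. -/
def SHIFT_Stmt : Prop := (∀ j : ℕ, 1 ≤ j → Function.Bijective (shJ (j := j))) ∧
  ∀ (J : Multiset ℕ) (r : ℕ), wgt (J.map (· + r)) = 2 ^ r * wgt J

end Pool.Agent.SHS
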